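import Pool.Agent.MP_c69980_ag.I2.SpecA

/-!
Row Adj: the adjunction inequality.
-/

set_option autoImplicit false

noncomputable section

namespace Pool.Agent.MP_c69980_ag.I2

open MvPolynomial IsLocalRing Pool.Agent.MP_f3836a_nt.PK
open H4 (Wd)

namespace Adj

/-- Summation over places, point by point. -/
theorem sumlem {X Y : Type} (On : X → Prop) (Ov : X → Y → Prop) (hOn : ∀ x P, Ov x P → On x)
    (ex : ∀ P, ∃ x, Ov x P) (uniq : ∀ x y P, Ov x P → Ov y P → x = y)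
    (fin : ∀ x, {P | Ov x P}.Finite) (o : X → ℤ) (l : X → Y → ℤ) (g : Y → ℤ)
    (ho : ∀ x, On x → o x = ∑ᶠ (P : Y) (_ : Ov x P), l x P) (hf : {x | On x ∧ o x ≠ 0}.Finite)
    (hg : {P | g P ≠ 0}.Finite) (hl : ∀ x P, Ov x P → 0 ≤ l x P + g P) :
    -∑ᶠ P, g P ≤ ∑ᶠ (x : X) (_ : On x), o x := by
  classical
  choose xp hxp using ex
  let T : Finset Y := hg.toFinset
  let Z : Finset X := hf.toFinset ∪ T.image xp
  have h1 : ∑ᶠ P, g P = ∑ P ∈ T, g P :=
    finsum_eq_sum_of_support_subset _ fun P hP => by simpa [T] using hP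
  have h2 : ∑ᶠ (x : X) (_ : On x), o x = ∑ x ∈ Z, ∑ᶠ (_ : On x), o x := by
    refine finsum_eq_sum_of_support_subset _ fun x hx => ?_
    rw [Function.mem_support, finsum_eq_if] at hx
    have h3 : On x ∧ o x ≠ 0 := by
      by_cases h : On x
      · exact ⟨h, by simpa [h] using hx⟩
      · simp [h] at hx
    simp only [Z, Finset.coe_union, Set.Finite.coe_toFinset, Set.mem_union, Set.mem_setOf_eq]
    exact Or.inl h3
  have h3 : ∑ x ∈ Z, ∑ P ∈ T with xp P = x, g P = ∑ P ∈ T, g P :=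
    Finset.sum_fiberwise_of_maps_to (fun P hP =>
      Finset.mem_union_right _ (Finset.mem_image_of_mem _ hP)) g
  rw [h1, h2, ← h3, ← Finset.sum_neg_distrib]
  refine Finset.sum_le_sum fun x _ => ?_
  rw [finsum_eq_if]
  by_cases h : On x
  · rw [if_pos h, ho x h]
    have h4 : ∑ᶠ (P : Y) (_ : Ov x P), l x P = ∑ P ∈ (fin x).toFinset, l x P :=
      finsum_mem_eq_finite_toFinset_sum (l x) (fin x)
    have h5 : ∑ P ∈ T with xp P = x, g P = ∑ P ∈ (fin x).toFinset, g P := by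
      refine Finset.sum_subset (fun P hP => ?_) fun P hP hP' => ?_
      · rw [Finset.mem_filter] at hP
        simpa [← hP.2] using hxp P
      · by_contra h0
        refine hP' (Finset.mem_filter.2 ⟨by simpa [T] using h0, ?_⟩)
        exact uniq _ _ P (hxp P) (by simpa using hP)
    rw [h4, h5, ← Finset.sum_neg_distrib]
    refine Finset.sum_le_sum fun P hP => ?_
    have := hl x P (by simpa using hP)
    omega
  · have h4 : T.filter (fun P => xp P = x) = ∅ :=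
      Finset.filter_eq_empty_iff.2 fun P _ hP => h (hOn x P (hP ▸ hxp P))
    rw [if_neg h, h4]
    simp

/-- A map of a ring of the curve into itself lowers orders by at most one. -/
theorem key {F : Type} [Field F] [Algebra ℂ F] (pa : PlA ℂ F) (P : Place ℂ F) (R : Subring F)
    (hR : R ≤ P.V.toSubring) (θ : F → F) (hθ : ∀ f ∈ R, θ f ∈ R) (σ : ℤ)
    (hσ : ∀ f, P.ord f ≠ 0 → θ f ≠ 0 ∧ P.ord (θ f) = P.ord f - σ)
    (fr : ∀ f : F, ∃ a b : R, (b : F) ≠ 0 ∧ f * b = a) : σ ≤ 1 := by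
  by_contra hc
  have h0 : ∀ g ∈ R, g ≠ 0 → 0 ≤ P.ord g := fun g hg h => (pa.mem P g h).1 (hR hg)
  have h1 : ∀ n : ℕ, ∀ g ∈ R, g ≠ 0 → P.ord g < n → σ ∣ P.ord g := by
    intro n
    induction n with
    | zero => intro g hg h hn; have := h0 g hg h; omega
    | succ n ih =>
      intro g hg h hn
      by_cases hz : P.ord g = 0
      · rw [hz]; exact dvd_zero σ
      · obtain ⟨h2, h3⟩ := hσ g hz
        have h4 := ih (θ g) (hθ g hg) h2 (by push_cast at hn; omega)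
        rw [h3] at h4
        exact (dvd_sub_self_right).1 h4
  have h2 : ∀ g ∈ R, g ≠ 0 → σ ∣ P.ord g := fun g hg h =>
    h1 ((P.ord g).toNat + 1) g hg h (by push_cast; omega)
  obtain ⟨u, hu0, hu⟩ := pa.uni P
  obtain ⟨a, b, hb, hab⟩ := fr u
  have ha : (a : F) ≠ 0 := hab ▸ mul_ne_zero hu0 hb
  have h3 := pa.mul P u b hu0 hb
  rw [hab, hu] at h3
  have h4 : σ ∣ 1 := by
    have := dvd_sub (h2 a a.2 ha) (h2 b b.2 hb)
    rwa [h3, add_sub_cancel_right] at this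
  have := Int.le_of_dvd one_pos h4
  omega

variable {K : Type} [Field K] [Algebra ℂ K] {N : ℕ} {ξ : Fin (N + 1) → K}

theorem wd_mul (D : Fin 2 → Derivation ℂ K K) (s t f : K) :
    Wd D (s * t) f = t * Wd D s f + s * Wd D t f := by
  simp only [Wd, Derivation.leibniz, smul_eq_mul]; ring

theorem v_div (va : VA ℂ ξ) (C : Cv ℂ ξ) {f g : K} (hf : f ≠ 0) (hg : g ≠ 0) :
    C.v (f / g) = C.v f - C.v g := by
  have := va.mul C (f / g) g (div_ne_zero hf hg) hg
  rw [div_mul_cancel₀ _ hg] at this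
  omega

theorem v_other (G : G0 ξ) {x : Pt ℂ ξ} {C C' : Cv ℂ ξ} (h : x.On C) (h' : x.On C') (hne : C' ≠ C)
    (π : x.ctr.O) (hπ : Prime π) (hd : ∀ a : x.ctr.O, π ∣ a ↔ C.res a = 0) : C'.v π = 0 := by
  have h0 : (π : K) ≠ 0 := fun h => hπ.ne_zero (Subtype.ext h)
  have hm : (π : K) ∈ C'.O := h'.le π.2
  have h1 := (G.va.mem C' π h0).1 hm
  by_contra hc
  have h2 : C'.res π = 0 := (G.va.pos C' π h0 hm).1 (by omega)
  obtain ⟨π', hp', hd', -⟩ := G.cv.on x C' h'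
  have h3 : Associated π' π := hp'.associated_of_dvd hπ ((hd' π).2 h2)
  exact hne (G.cv.uniq x C' C h' h fun a => by rw [← hd, ← hd', h3.dvd_iff_dvd_left])

end Adj

theorem adjS : AdjOf := by
  classical
  intro hW hR K _ _ N ξ G D a hK ca ia C cp
  obtain ⟨x0, hx0⟩ := G.cv.pt C
  obtain ⟨π0, hp0, hd0, -⟩ := G.cv.on x0 C hx0
  obtain ⟨φ, hφ0, hφ1⟩ : ∃ φ : K, φ ≠ 0 ∧ C.v φ = 1 :=
    ⟨π0, fun h => hp0.ne_zero (Subtype.ext h), (G.va.pow x0 C hx0 π0 hp0 hd0).1⟩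
  have hφm : φ ∈ C.O := (G.va.mem C φ hφ0).2 (by omega)
  have hφr : C.res φ = 0 := (G.va.pos C φ hφ0 hφm).1 (by omega)
  obtain ⟨w, hw⟩ := ca.ex C
  obtain ⟨δ, hδ, hδ0, -⟩ := hR K N ξ G D C φ w cp.ff hφ0 hφ1 hw
  choose u hu0 hu using cp.pa.uni
  obtain ⟨hW1, hW2, hW3⟩ := hW C.κ cp.ff cp.pa cp.pb δ hδ0 u hu
  obtain ⟨S, -, hS⟩ := hK
  choose wx _ hwx using hS
  have hπ : ∀ x : Pt ℂ ξ, ∃ π : x.ctr.O, x.On C → Prime π ∧
      ∀ b : x.ctr.O, π ∣ b ↔ C.res b = 0 := fun x => by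
    by_cases h : x.On C
    · obtain ⟨π, h1, h2, -⟩ := G.cv.on x C h
      exact ⟨π, fun _ => ⟨h1, h2⟩⟩
    · exact ⟨0, fun h' => absurd h' h⟩
  choose π hπ using hπ
  have hπ0 : ∀ x : Pt ℂ ξ, x.On C → (π x : K) ≠ 0 := fun x hx h =>
    (hπ x hx).1.ne_zero (Subtype.ext h)
  have hπ1 : ∀ x : Pt ℂ ξ, x.On C → C.v (π x) = 1 := fun x hx =>
    (G.va.pow x C hx _ (hπ x hx).1 (hπ x hx).2).1
  let n : Cv ℂ ξ → ℤ := fun C' => C'.v (w / φ) + kdv D C' + if C' = C then 1 else 0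
  let e : Pt ℂ ξ → K := fun x => π x * (w / φ) / wx x
  have hwφ : w / φ ≠ 0 := div_ne_zero hw.1 hφ0
  have f1 : (Function.support fun C' : Cv ℂ ξ => C'.v (w / φ)).Finite := G.fin.v _
  have f3 : (Function.support fun C' : Cv ℂ ξ => if C' = C then (1 : ℤ) else 0).Finite :=
    (Set.finite_singleton C).subset fun C' h => by
      by_contra h'
      exact h (if_neg h')
  have f12 : (Function.support fun C' : Cv ℂ ξ => C'.v (w / φ) + kdv D C').Finite :=
    (f1.union ca.fk).subset (Function.support_add _ _)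
  have hn : FS n := (f12.union f3).subset (Function.support_add _ _)
  have hnC : n C = 0 := by
    simp only [n, if_true, Adj.v_div G.va C hw.1 hφ0, ca.kv C w hw, hφ1]
    omega
  have he : ∀ x : Pt ℂ ξ, x.On C → Eqn x n (e x) := by
    intro x hx
    have h1 := mul_ne_zero (hπ0 x hx) hwφ
    refine ⟨div_ne_zero h1 (hwx x).1, fun C' hC' => ?_⟩
    simp only [e, n]
    rw [Adj.v_div G.va C' h1 (hwx x).1, G.va.mul C' _ _ (hπ0 x hx) hwφ,
      ca.kv C' _ (ca.up x C' _ hC' (hwx x))]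
    by_cases h : C' = C
    · subst h
      rw [hπ1 x hx, if_pos rfl]; omega
    · rw [Adj.v_other G hx hC' h _ (hπ x hx).1 (hπ x hx).2, if_neg h]; omega
  have hdot : dot a n C = dot a (kdv D) C + a C C := by
    have h0 := ia.prin (w / φ) hwφ C
    have s : ∀ m : Cv ℂ ξ → ℤ, (Function.support m).Finite →
        (Function.support fun C' => m C' * a C' C).Finite := fun m hm =>
      hm.subset (Function.support_mul_subset_left _ _)
    have h3 : ∑ᶠ C' : Cv ℂ ξ, (if C' = C then (1 : ℤ) else 0) * a C' C = a C C := by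
      rw [finsum_eq_single _ C fun C' h => by rw [if_neg h, zero_mul], if_pos rfl, one_mul]
    have s12 := s _ f12
    unfold dot at h0 ⊢
    simp only [n, add_mul] at s12 ⊢
    rw [finsum_add_distrib s12 (s _ f3),
      finsum_add_distrib (s _ f1) (s _ ca.fk), h0, h3, zero_add]
  obtain ⟨hfin, hsum⟩ := ia.loc n C e hn hnC he
  have hem : ∀ x : Pt ℂ ξ, x.On C → e x ∈ C.O ∧ C.res (e x) ≠ 0 := by
    intro x hx
    have h1 : C.v (e x) = 0 := ((he x hx).2 C hx).trans hnC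
    have h2 : e x ∈ C.O := (G.va.mem C _ (he x hx).1).2 h1.ge
    refine ⟨h2, fun h => ?_⟩
    have := (G.va.pos C _ (he x hx).1 h2).2 h
    omega
  have hθ : ∀ x : Pt ℂ ξ, x.On C → ∀ f ∈ C.loc x, C.res (e x) * δ f ∈ C.loc x := by
    intro x hx f hf
    obtain ⟨hl, -⟩ := G.va.loc x C hx
    obtain ⟨b, rfl⟩ := (hl f).1 hf
    have hb : (b : K) ∈ C.O := hx.le b.2
    have gx := ca.up x C _ hx (hwx x)
    refine (hl _).2 ⟨⟨Wd D (π x) b / wx x, (hwx x).2.2 _ (π x).2 _ b.2⟩, ?_⟩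
    have ht : (π x : K) / φ ∈ C.O := by
      refine (G.va.mem C _ (div_ne_zero (hπ0 x hx) hφ0)).2 ?_
      rw [Adj.v_div G.va C (hπ0 x hx) hφ0, hπ1 x hx, hφ1]; omega
    have m1 : Wd D φ b / w ∈ C.O := hw.2.2 _ hφm _ hb
    have m2 : Wd D (π x / φ) b / wx x ∈ C.O := gx.2.2 _ ht _ hb
    have h1 : Wd D (π x) b / wx x =
        e x * (Wd D φ b / w) + φ * (Wd D (π x / φ) b / wx x) := by
      have h2 := Adj.wd_mul D φ (π x / φ) b
      rw [mul_div_cancel₀ _ hφ0] at h2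
      have := hw.1
      have := (hwx x).1
      rw [h2]
      simp only [e]
      field_simp
    change C.res (Wd D (π x) b / wx x) = _
    rw [h1, C.res_add (mul_mem (hem x hx).1 m1) (mul_mem hφm m2), C.res_mul (hem x hx).1 m1,
      C.res_mul hφm m2, hφr, zero_mul, add_zero, hδ b hb]
  have hkey : ∀ x P, Ov C x P → 0 ≤ P.ord (C.res (e x)) + P.ord (δ (u P)) := by
    intro x P hP
    have := Adj.key cp.pa P (C.loc x) hP.2 (fun f => C.res (e x) * δ f) (hθ x hP.1)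
      (1 - P.ord (C.res (e x)) - P.ord (δ (u P))) (fun f hf => by
        obtain ⟨h1, h2⟩ := (hW1 P).2 f hf
        refine ⟨mul_ne_zero (hem x hP.1).2 h1, ?_⟩
        rw [cp.pa.mul P _ _ (hem x hP.1).2 h1, h2]; omega) (G.va.loc x C hP.1).2.2.2
    omega
  have := Adj.sumlem (fun x : Pt ℂ ξ => x.On C) (Ov C) (fun _ _ h => h.1) cp.ex cp.uniq cp.fin
    (fun x => C.ordAt x (C.res (e x))) (fun x P => P.ord (C.res (e x))) (fun P => P.ord (δ (u P)))
    (fun x hx => cp.ord x hx _ (hem x hx).2) hfin hW2 hkey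
  rw [← hdot, hsum]
  omega

end Pool.Agent.MP_c69980_ag.I2
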