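import Pool.Agent.MP_c69980_ag.I2.SpecB
import Pool.Agent.MP_c69980_ag.E1.Wind

/-!
The degree of the horizontal boundary on the bubble.
-/

set_option autoImplicit false

noncomputable section

namespace Pool.Agent.MP_c69980_ag.I2

open MvPolynomial Metric Filter Topology Set
open H60 H4 E1

namespace Bt

section
variable {u : Ultrafilter ℕ} {P Q : ℕ → ℝ → Prop}

theorem ev_and (h : Ev u P) (h' : Ev u Q) : Ev u fun k ρ => P k ρ ∧ Q k ρ := by
  obtain ⟨a, a0, ha⟩ := h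
  obtain ⟨b, b0, hb⟩ := h'
  refine ⟨min a b, lt_min a0 b0, fun ρ hρ => ?_⟩
  filter_upwards [ha ρ hρ, hb ρ hρ] with k k1 k2 t ht
  exact ⟨k1 t ⟨ht.1, ht.2.trans (min_le_left _ _)⟩, k2 t ⟨ht.1, ht.2.trans (min_le_right _ _)⟩⟩

theorem ev_mono (h : Ev u P) (H : ∀ k ρ, 0 < ρ → P k ρ → Q k ρ) : Ev u Q := by
  obtain ⟨a, a0, ha⟩ := h
  exact ⟨a, a0, fun ρ hρ => (ha ρ hρ).mono fun k hk t ht => H k t (hρ.trans_le ht.1) (hk t ht)⟩

theorem ev_out {R : ℕ → Prop} (h : Ev u P) (H : ∀ k ρ, 0 < ρ → P k ρ → R k) :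
    ∀ᶠ k in u, R k := by
  obtain ⟨a, a0, ha⟩ := h
  exact (ha a a0).mono fun k hk => H k a a0 (hk a ⟨le_rfl, le_rfl⟩)

end

variable {K : Type} [Field K] [Algebra ℂ K] {N : ℕ} {d : FD K N} {r : ℝ} {g : ℂ → V (N + 1)}
  {t : ℂ} {f : K}

theorem pt_on (x : PP d.z) : On d.z x.z := fun G n hG h => x.van n G hG h

theorem pt_ne (x : PP d.z) : x.z ≠ 0 := fun e => by
  obtain ⟨i, hi, -⟩ := x.norm
  rw [e] at hi
  exact zero_ne_one hi

theorem sec_pt (br : Br d.toSf) (hg : Nm d.X (ball d.b r) g id) (ht : t ∈ ball d.b r) :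
    ∃ x : PP d.z, Pp (g t) x.z := br.pt _ (d.gr _ (hg.2.2 t ht)).1

theorem vl_pt (br : Br d.toSf) {x : PP d.z} {y : V (N + 1)} (h : Pp y x.z) (hf : f ∈ x.ctr.O) :
    vl d.z f y = vl d.z f x.z := h.vl (pt_on x) ((br.reg x _ f (.refl _)).1 hf)

theorem ord_or (φ : ℂ → ℂ) (b : ℂ) :
    (∀ᶠ t in 𝓝 b, φ t = 0) ∨ ∃ e : ℕ, analyticOrderAt φ b = e := by
  by_cases e : analyticOrderAt φ b = ⊤
  · exact Or.inl (analyticOrderAt_eq_top.1 e)
  · obtain ⟨n, hn⟩ := ENat.ne_top_iff_exists.1 e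
    exact Or.inr ⟨n, hn.symm⟩

theorem psi_nf (d : FD K N) {T : Set ℂ} (hT : T.Finite) : ¬∀ᶠ t in 𝓝 d.b, d.ψ t ∈ T := by
  intro h
  have a := d.an d.b (mem_ball_self d.r0)
  have h1 : ∀ᶠ t in 𝓝 d.b, ∀ c ∈ T \ {0}, d.ψ t ≠ c :=
    (eventually_all_finite (hT.subset sdiff_subset)).2 fun c hc =>
      a.1.continuousAt.eventually_ne (by rw [a.2.2.2 rfl]; exact fun e => hc.2 e.symm)
  have h2 : ∀ᶠ t in 𝓝[≠] d.b, False := by
    filter_upwards [nhdsWithin_le_nhds h, nhdsWithin_le_nhds h1,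
      nhdsWithin_le_nhds (ball_mem_nhds d.b d.r0), self_mem_nhdsWithin] with t t1 t2 t3 t4
    exact t2 _ ⟨t1, fun e => t4 ((d.an t t3).2.2.1 e)⟩ rfl
  exact h2.exists.elim fun _ e => e

/-- A function of order zero along all curves through `x` does not vanish at `x`. -/
theorem unit (br : Br d.toSf) {x : PP d.z} (h0 : f ≠ 0) (h : ∀ C : CC d.z, x.On C → C.v f = 0) :
    f ∈ x.ctr.O ∧ vl d.z f x.z ≠ 0 := by
  have a := br.g0.reg x f h0 fun C hC => (h C hC).ge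
  have b := br.g0.reg x f⁻¹ (inv_ne_zero h0) fun C hC => by
    have e1 := br.g0.va.mul C f f⁻¹ h0 (inv_ne_zero h0)
    have e2 := br.g0.va.mul C 1 1 one_ne_zero one_ne_zero
    rw [mul_inv_cancel₀ h0, h C hC] at e1
    rw [mul_one] at e2
    omega
  refine ⟨a, fun e => ?_⟩
  have c := (vl_mul (pt_on x) ((br.reg x _ f (.refl _)).1 a) ((br.reg x _ _ (.refl _)).1 b)).2
  have c1 := (vl_const (z := d.z) (pt_on x) 1).2
  rw [map_one] at c1
  rw [mul_inv_cancel₀ h0, c1, e, zero_mul] at c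
  exact one_ne_zero c

open Classical in
/-- A section along which the equation of a reduced divisor vanishes lies on a component. -/
theorem onC (br : Br d.toSf) (r0 : 0 < r) (hg : Nm d.X (ball d.b r) g id) {y : PP d.z}
    (hy : Pp (g d.b) y.z) (F : Finset (CC d.z)) (hE : Eqn y (fun C => if C ∈ F then 1 else 0) f)
    (h0 : ∀ᶠ t in 𝓝 d.b, vl d.z f (g t) = 0) :
    ∃ C ∈ F, ∀ t ∈ ball d.b r, ∀ x : PP d.z, Pp (g t) x.z → x.On C := by
  have b0 := mem_ball_self (x := d.b) r0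
  obtain ⟨δ, δ0, hδ⟩ := br.near y _ f (F.finite_toSet.subset fun C hC => by
    by_contra e
    exact hC (if_neg e)) hE
  have c := d2_lim (Crv.an hg.1 isOpen_ball b0).continuousAt.tendsto tendsto_const_nhds
    (hg.1.2 _ b0) (pt_ne y)
  rw [(d2_eq_zero (hg.1.2 _ b0) (pt_ne y)).2 hy] at c
  by_contra hn
  have h1 : ∀ᶠ w in 𝓝[≠] d.b, ∀ C ∈ F, ∃ (n : ℕ) (G : PR (N + 1)), G.IsHomogeneous n ∧ G ∈ C.P ∧
      eval (g w) G ≠ 0 := (eventually_all_finset F).2 fun C hC => by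
    by_contra hc
    refine hn ⟨C, hC, fun t ht x hx n G hG hP => ?_⟩
    rcases (crv_lh hg.1 isOpen_ball).iden_eval (convex_ball _ _).isPreconnected hG with q | q
    · exact (hx.eval hG).1 (q t ht)
    · exact absurd ((q _ b0).mono fun w hw => ⟨n, G, hG, hP, hw⟩) hc
  have h2 : ∀ᶠ w in 𝓝[≠] d.b, False := by
    filter_upwards [h1, nhdsWithin_le_nhds h0, nhdsWithin_le_nhds (ball_mem_nhds d.b r0),
      nhdsWithin_le_nhds (c.eventually (gt_mem_nhds δ0))] with w w1 w2 w3 w4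
    obtain ⟨x, hx⟩ := sec_pt br hg w3
    have e := hδ x (by rwa [← hx.d2 (.refl _)])
    have := unit br e.1 fun C hC => (e.2 C hC).trans (if_neg fun q => by
      obtain ⟨n, G, hG, hP, hw⟩ := w1 C q
      exact hw ((hx.eval hG).2 (hC n G hG hP)))
    exact this.2 ((vl_pt br hx this.1).symm.trans w2)
  exact h2.exists.elim fun _ e => e

theorem tau_pt (br : Br d.toSf) (rr : r ≤ d.r₀) (hg : Nm d.X (ball d.b r) g id)
    (ht : t ∈ ball d.b r) {x : PP d.z} (hx : Pp (g t) x.z) :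
    d.τ ∈ x.ctr.O ∧ vl d.z d.τ x.z = d.ψ t := by
  have a := d.reg _ (hg.2.2 t ht) (ball_subset_ball rr ht)
  have b := (br.reg x _ _ hx).2 a.1
  exact ⟨b, (vl_pt br hx b).symm.trans a.2⟩

variable {C : CC d.z}

theorem nz (br : Br d.toSf) (r0 : 0 < r) (rr : r ≤ d.r₀) (hg : Nm d.X (ball d.b r) g id)
    (hC : ∀ t ∈ ball d.b r, ∀ x : PP d.z, Pp (g t) x.z → x.On C) (hf : f ∈ C.O)
    (h0 : C.res f ≠ 0) : ¬∀ᶠ t in 𝓝 d.b, vl d.z f (g t) = 0 := fun h => by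
  refine psi_nf d ((br.vfin C f hf h0).image fun x => vl d.z d.τ x.z) ?_
  filter_upwards [h, ball_mem_nhds d.b r0] with t t1 t2
  obtain ⟨x, hx⟩ := sec_pt br hg t2
  exact ⟨x, ⟨hC t t2 x hx, fun q => q.2 ((vl_pt br hx q.1).symm.trans t1)⟩,
    (tau_pt br rr hg t2 hx).2⟩

theorem nconst (br : Br d.toSf) (r0 : 0 < r) (rr : r ≤ d.r₀) (hg : Nm d.X (ball d.b r) g id)
    (hC : ∀ t ∈ ball d.b r, ∀ x : PP d.z, Pp (g t) x.z → x.On C) (c : ℂ) :
    C.res d.τ ≠ algebraMap ℂ C.κ c := fun h => by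
  refine psi_nf d (finite_singleton c) ?_
  filter_upwards [ball_mem_nhds d.b r0] with t ht
  obtain ⟨x, hx⟩ := sec_pt br hg ht
  obtain ⟨a, b⟩ := tau_pt br rr hg ht hx
  have o := hC t ht x hx
  have e := br.von x C _ o (add_mem a (x.ctr.const_mem (-c))) (by
    rw [C.res_add (o.le a) (C.const_mem _), C.res_const, h, map_neg, add_neg_cancel])
  rw [(vl_add (pt_on x) ((br.reg x _ _ (.refl _)).1 a) (vl_const (pt_on x) _).1).2,
    (vl_const (pt_on x) _).2, b] at e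
  exact add_neg_eq_zero.1 e

/-- The normal derivative of an equation of the curve does not vanish along the section. -/
theorem nder (hR : ResStmt) (br : Br d.toSf) (ca : CA d.z d.D) (cp : CP C) (r0 : 0 < r)
    (rr : r ≤ d.r₀) (hg : Nm d.X (ball d.b r) g id)
    (hC : ∀ t ∈ ball d.b r, ∀ x : PP d.z, Pp (g t) x.z → x.On C) {y : PP d.z}
    (hy : Pp (g d.b) y.z) {w : K} (hw : GenO d.D y.ctr.O w) (h0 : f ≠ 0) (hf : f ∈ y.ctr.O)
    (h1 : C.v f = 1) :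
    ∃ e : ℕ, analyticOrderAt (fun t => vl d.z (Wd d.D d.τ f / w) (g t)) d.b = e := by
  have b0 := mem_ball_self (x := d.b) r0
  have o := hC _ b0 y hy
  have a := (tau_pt br rr hg b0 hy).1
  obtain ⟨δ, h2, -, h3⟩ := hR K N d.z br.g0 d.D C f w cp.ff h0 h1 (ca.up y C w o hw)
  have m := hw.2.2 _ a _ hf
  refine (ord_or _ _).resolve_left (nz br r0 rr hg hC (o.le m) fun e => ?_)
  obtain ⟨c, hc⟩ := h3 (C.res d.τ) (by
    have e1 := C.res_add (o.le m) (o.le (hw.2.2 _ hf _ a))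
    have e2 := C.res_const 0
    rw [map_zero, map_zero] at e2
    rw [show Wd d.D d.τ f / w + Wd d.D f d.τ / w = 0 by unfold Wd; ring, e2, e, zero_add] at e1
    rw [h2 _ (o.le a), ← e1])
  exact nconst br r0 rr hg hC c hc

/-- The difference of the fibre coordinates of disjoint sections has a winding number. -/
theorem dif_wn {X : Set (Pt (N + 1))} {a j : Fin (N + 1)} {U : Set (ℂ × ℂ)}
    {Y : ℂ × ℂ → V (N + 1)} {c : ℂ} {ρ : ℝ} {s : ℂ → V (N + 1)} (ch : Chart X a j U Y)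
    (ρ0 : 0 < ρ) (ρr : ρ < r) (hg : Crv (ball c r) g) (hs : Crv (ball c r) s)
    (h1 : ∀ t ∈ sphere c ρ, InC a j U Y g t) (h2 : ∀ t ∈ sphere c ρ, InC a j U Y s t)
    (h : ∀ t ∈ sphere c ρ, ¬Pp (s t) (g t)) : ∃ ω, Wn c ρ (dif a j g s) ω := by
  have sub : sphere c ρ ⊆ ball c r := sphere_subset_ball ρr
  refine (wind c ρ ρ0).1 _ ((((crv_lh hs isOpen_ball).pc.mono sub).ratio a fun t ht =>
    (ch.eq (h2 t ht).1 (h2 t ht).2).1).sub (((crv_lh hg isOpen_ball).pc.mono sub).ratio a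
      fun t ht => (ch.eq (h1 t ht).1 (h1 t ht).2).1)) fun t ht e => h t ht ?_
  have e1 := (h2 t ht).2
  rw [sub_eq_zero.1 e] at e1
  exact e1.trans (h1 t ht).2.symm

variable {I B : Finset (CC d.z)} {Z : Set (PP d.z)} {a : CC d.z → CC d.z → ℤ} {u : Ultrafilter ℕ}
  {a' j : Fin (N + 1)} {U : Set (ℂ × ℂ)} {Y : ℂ × ℂ → V (N + 1)} {s : ℕ → ℂ → V (N + 1)}
  {v : ℕ → CC d.z → ℕ} {o c : CC d.z}

open Classical in
/-- The winding number of an equation of the horizontal boundary. -/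
theorem wE (hM : MovStmt) (hI : IdStmt) (hN : NgStmt) (hV : VlStmt) (st : St d I B Z a)
    (si : Sit d r a' j U Y g) (cg : Cg d u r s g) (ms : Ms d B r s) (lv : LvA d u s I Z v)
    (oc : Oc d I B Z u g s o c) (nu : Nu d I a u j s v) {y : PP d.z} (yZ : y ∈ Z)
    (yj : y.z j ≠ 0) (gy : GenO d.D y.ctr.O (Wd d.D d.τ (d.z a' / d.z j))) :
    ∃ E, Eqn y (fun C => if C ∈ B \ I then 1 else 0) E ∧ Ev u fun k ρ =>
      Wn d.b ρ (fun t => vl d.z E (s k t)) (-∑ C ∈ I, bet I B a C * v k C) := by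
  choose pt hpt using st.br.g0.cv.pt
  obtain ⟨h, e, h0, -, h1, h2⟩ := hM K N d.z st.br.g0 st.ca.fh
    (fun C => if C ∈ B \ I then 1 else 0) (Z ∪ pt '' B)
    ((B \ I).finite_toSet.subset fun C hC => by
      by_contra e
      exact hC (if_neg e)) (st.zg.fin.union (B.finite_toSet.image _))
  have ed : ∀ C : CC d.z, dv d.D h 0 e C = C.v h + e * hdv C := fun C => by
    rw [dv, zero_mul, add_zero]
  have dI : ∀ C ∈ I, dv d.D h 0 e C = 0 := fun C hC => by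
    obtain ⟨x, x1, x2⟩ := st.zg.pt C hC
    rw [ed, h2 x (Or.inl x1) C x2, if_neg fun q => (Finset.mem_sdiff.1 q).2 hC]
  have dB : ∀ C ∈ B \ I, dv d.D h 0 e C = 1 := fun C hC => by
    rw [ed, h2 _ (Or.inr ⟨C, (Finset.mem_sdiff.1 hC).1, rfl⟩) C (hpt C), if_pos hC]
  have q := st.ca.eqn y j _ h 0 e yj gy h0
  refine ⟨cf d h 0 e a' j, ⟨q.1, fun C hC => (q.2 C hC).trans ?_⟩, ?_⟩
  · rw [ed, h2 y (Or.inl yZ) C hC]
  have id := hI K N d I B Z a u r a' j U Y g s v o c h 0 e st si cg ms lv oc h0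
    (fun C => by
      rw [ed]
      refine le_trans ?_ (h1 C)
      split_ifs <;> simp)
    (fun x hx C hC => by
      rw [hor]
      split_ifs with q
      · rfl
      · rw [ed, h2 x (Or.inl hx) C hC, if_neg fun q' => q (Or.inr (Finset.mem_sdiff.1 q').1)])
  refine ev_mono (ev_and (ev_and id nu) (hN K N d u r a' j U Y g s st.br st.xb si cg).2.1) ?_
  rintro k ρ ρ0 ⟨⟨⟨⟨w, hw⟩, H⟩, hν⟩, ρr, i1, -⟩
  obtain ⟨⟨v', hv'⟩, hk⟩ := hV _ d.X d.b ρ r (s k) d.cn st.xb.nonreg ρ0 ρr (cg.1 k)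
  obtain ⟨κ, hκ⟩ := (hk a' j U Y v' si.ch hv').1 i1
  have E := H v' κ _ w hv' hκ hν hw
  have e1 : ∀ C ∈ I, (v k C : ℤ) * (0 * dot a (kdv d.D) C + e * dot a hdv C -
      ∑ C' ∈ I, dv d.D h 0 e C' * a C' C - ∑ C' ∈ B \ I, dv d.D h 0 e C' * a C' C) =
      e * (v k C * dot a hdv C) - bet I B a C * v k C := fun C _ => by
    rw [Finset.sum_eq_zero fun C' hC' => by rw [dI C' hC', zero_mul],
      Finset.sum_congr rfl fun C' hC' => by rw [dB C' hC', one_mul], bet]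
    ring
  rw [dI c oc.c1.1, Finset.sum_congr rfl e1, Finset.sum_sub_distrib, ← Finset.mul_sum] at E
  rwa [show -∑ C ∈ I, bet I B a C * v k C = w by linarith]

/-- The winding number of the difference between the sections and their limit. -/
theorem wD (hN : NgStmt) (hV : VlStmt) (hS : StcStmt) (hU : CurStmt) (hL : ClStmt)
    (st : St d I B Z a) (si : Sit d r a' j U Y g) (cg : Cg d u r s g) (lv : LvA d u s I Z v)
    (oI : o ∈ I) (o1 : o.v d.τ = 1) {y : PP d.z} (yZ : y ∈ Z) (yo : y.On o)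
    (hy : Pp (g d.b) y.z) :
    Ev u fun k ρ => ∀ ω, Wn d.b ρ (dif a' j g (s k)) ω → -(v k o : ℤ) ≤ ω := by
  obtain ⟨x, σ, r', xo, xZ, xr, r0, nσ, hσ, cu⟩ :=
    hU K N d I Z st.br st.xb st.cp st.fb st.zg.fin o oI o1
  have gx : ¬Pp (g d.b) x.z := fun q => xZ (st.br.uniq y x (hy.symm.trans q) ▸ yZ)
  have b0 := mem_ball_self (x := d.b) r0
  obtain ⟨c1, c2, -⟩ := hN K N d u r a' j U Y g s st.br st.xb si cg
  have c3 := (hN K N d u r a' j U Y g _ st.br st.xb si c1).2.2.1 s σ cg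
    (Crv.an nσ.1 isOpen_ball b0).continuousAt (nσ.1.2 _ b0) fun q => gx (q.symm.trans hσ)
  have cl : Cl d.X d.b (σ d.b) (g d.b) :=
    ((hL K N d I st.br st.cp st.fb o oI x y xo yo xr
      (Rx.pp (si.ch.rx si.inc.1 si.inc.2) hy.symm)).symm.pp hσ).symm.pp hy
  refine ev_mono (ev_and (ev_and c2 c3) (cu u r g s _ si.r0 si.nm cg gx (lv o oI x xo xZ))) ?_
  rintro k ρ ρ0 ⟨⟨⟨ρr, -, i2⟩, tb, bd⟩, ρr', z1, z2⟩ ω hω
  obtain ⟨⟨v', hv'⟩, hk⟩ := hV _ d.X d.b ρ r g d.cn st.xb.nonreg ρ0 ρr si.nm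
  have m1 : ball d.b (min r r') ⊆ ball d.b r := ball_subset_ball (min_le_left _ _)
  obtain ⟨H, e, -⟩ := (hS _ d.X a' j U Y d.b ρ (min r r') g (s k) σ v' 0 (v k o) 0 d.cn
    st.xb.nonreg ρ0 (lt_min ρr ρr') (fun p hp => si.pun p ⟨hp.1, hp.2.trans ρr.le⟩) si.ch
    (si.nm.mono m1) ((cg.1 k).mono m1) (nσ.mono (ball_subset_ball (min_le_right _ _))) tb bd cl
    hv' z2 z1 ((hk a' j U Y v' si.ch hv').2 i2)).1 ω hω
  omega

end Bt

open Bt in
theorem btS : BtOf := by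
  classical
  intro hM hI hN hV hS hU hL hR K _ _ N d I B Z a u r a' j U Y g s v o c st si cg ms lv oc nu
  obtain ⟨oI, o1, y, yZ, yo, hy⟩ := oc.o1
  have py := si.inc.2.symm.trans hy
  have gy := (st.xb.gen a' j U Y si.ch _ si.inc.1 (mem_ball_self d.r0) y py).1
  obtain ⟨E, hE, hw⟩ := wE hM hI hN hV st si cg ms lv oc nu yZ
    (si.ch.eq si.inc.1 py.symm).1 gy
  have Ey : E ∈ y.ctr.O := st.br.g0.reg y E hE.1 fun C hC => by
    rw [hE.2 C hC]
    exact ite_nonneg zero_le_one le_rfl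
  obtain ⟨-, c2, -, c4⟩ := hN K N d u r a' j U Y g s st.br st.xb si cg
  have Er := (st.br.reg y _ E hy).1 Ey
  rcases ord_or (fun t => vl d.z E (g t)) d.b with h0 | ⟨e, he⟩
  · obtain ⟨C, hC, on⟩ := onC st.br si.r0 si.nm hy (B \ I) (by simpa only using hE) h0
    have CB := (Finset.mem_sdiff.1 hC).1
    refine ⟨fun ⟨t, ht, off⟩ => ?_, ?_⟩
    · obtain ⟨x, hx⟩ := sec_pt st.br si.nm ht
      exact absurd hx (off C CB x (on t ht x hx))
    obtain ⟨e, he⟩ := nder hR st.br st.ca (st.cp C) si.r0 si.rr si.nm on hy gy hE.1 Ey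
      ((hE.2 C (on _ (mem_ball_self si.r0) y hy)).trans (if_pos hC))
    refine ev_out (ev_and (ev_and hw c2) (ev_and ((c4 E e Er).2 h0 he)
      (wD hN hV hS hU hL st si cg lv oI o1 yZ yo hy))) ?_
    rintro k ρ ρ0 ⟨⟨w1, ρr, i1, i2⟩, w2, w3⟩
    obtain ⟨ω, hω⟩ := dif_wn si.ch ρ0 ρr si.nm.1 (cg.1 k).1
      (fun t ht => i2 t (sphere_subset_closedBall ht)) i1 fun t ht q => by
        have tb : t ∈ ball d.b r := sphere_subset_ball ρr ht
        obtain ⟨x, hx⟩ := sec_pt st.br si.nm tb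
        exact ms k t tb C CB x (on t tb x hx) (q.trans hx)
    have e1 := (wind d.b ρ ρ0).2.1 _ _ _ w1 (w2 ω hω)
    have e2 := w3 ω hω
    omega
  · have key : ∀ᶠ k in u, ∑ C ∈ I, bet I B a C * v k C ≤ 0 :=
      ev_out (ev_and hw ((c4 E e Er).1 he)) fun k ρ ρ0 q => by
        have := (wind d.b ρ ρ0).2.1 _ _ _ q.1 q.2
        omega
    have pos : ∀ k, ∀ C ∈ I, 0 ≤ bet I B a C * v k C := fun k C hC =>
      mul_nonneg (Finset.sum_nonneg fun C' hC' => st.ia.off C' C fun q =>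
        (Finset.mem_sdiff.1 hC').2 (q ▸ hC)) (Int.natCast_nonneg _)
    exact ⟨fun _ => key.mono fun k hk => (Finset.sum_eq_zero_iff_of_nonneg (pos k)).1
      (hk.antisymm (Finset.sum_nonneg (pos k))),
      key.mono fun k hk => hk.trans (Int.natCast_nonneg _)⟩

end Pool.Agent.MP_c69980_ag.I2
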