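import Pool.Agent.MP_c69980_ag.I2.SpecA

/-! The moving lemma on a smooth projective surface. -/

set_option autoImplicit false

noncomputable section

namespace Pool.Agent.MP_c69980_ag.I2

open MvPolynomial IsLocalRing Pool.Agent.MP_f3836a_nt.PK

namespace Mov

variable {K : Type} [Field K] [Algebra ℂ K] {N : ℕ} {ξ : Fin (N + 1) → K}

theorem v_one (g : G0 ξ) (C : Cv ℂ ξ) : C.v 1 = 0 := by
  have := g.va.mul C 1 1 one_ne_zero one_ne_zero
  rw [mul_one] at this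
  omega

theorem v_pow (g : G0 ξ) (C : Cv ℂ ξ) {f : K} (hf : f ≠ 0) (d : ℕ) : C.v (f ^ d) = d * C.v f := by
  induction d with
  | zero => simp [v_one g]
  | succ d ih =>
    rw [pow_succ, g.va.mul C _ _ (pow_ne_zero _ hf) hf, ih]
    push_cast
    ring

theorem v_div (g : G0 ξ) (C : Cv ℂ ξ) {f h : K} (hf : f ≠ 0) (hh : h ≠ 0) :
    C.v (f / h) = C.v f - C.v h := by
  have := g.va.mul C (f / h) h (div_ne_zero hf hh) hh
  rw [div_mul_cancel₀ _ hh] at this
  omega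

theorem v_add_le (g : G0 ξ) (C : Cv ℂ ξ) {f h : K} (hf : f ≠ 0) (hh : h ≠ 0) (hs : f + h ≠ 0)
    (hle : C.v f ≤ C.v h) : C.v f ≤ C.v (f + h) := by
  have h1 : h / f ∈ C.O := (g.va.mem C _ (div_ne_zero hh hf)).2 (by rw [v_div g C hh hf]; omega)
  have h2 : (f + h) / f ∈ C.O := by
    rw [add_div, div_self hf]
    exact add_mem (one_mem _) h1
  have h3 := (g.va.mem C _ (div_ne_zero hs hf)).1 h2
  rw [v_div g C hs hf] at h3
  omega

theorem v_sum (g : G0 ξ) (C : Cv ℂ ξ) {ι : Type} (s : Finset ι) (f : ι → K) (m : ℤ)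
    (h : ∀ i ∈ s, m ≤ C.v (f i)) : ∑ i ∈ s, f i = 0 ∨ m ≤ C.v (∑ i ∈ s, f i) := by
  classical
  induction s using Finset.induction_on with
  | empty => exact Or.inl rfl
  | insert a s ha ih =>
    rw [Finset.sum_insert ha]
    have h1 := h a (Finset.mem_insert_self _ _)
    by_cases h0 : ∑ i ∈ s, f i = 0
    · rw [h0, add_zero]
      exact Or.inr h1
    have h2 := (ih fun i hi => h i (Finset.mem_insert_of_mem hi)).resolve_left h0
    by_cases ha0 : f a = 0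
    · rw [ha0, zero_add]
      exact Or.inr h2
    by_cases hs : f a + ∑ i ∈ s, f i = 0
    · exact Or.inl hs
    refine Or.inr ?_
    rcases le_total (C.v (f a)) (C.v (∑ i ∈ s, f i)) with hle | hle
    · exact h1.trans (v_add_le g C ha0 h0 hs hle)
    · rw [add_comm] at hs ⊢
      exact h2.trans (v_add_le g C h0 ha0 hs hle)

/-- The divisor of a form. -/
theorem v_form (g : G0 ξ) (C : Cv ℂ ξ) {d : ℕ} {A : Pol ℂ N} (hA : A.IsHomogeneous d)
    (h0 : aeval ξ A ≠ 0) : 0 ≤ C.v (aeval ξ A) + d * hdv C ∧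
      (0 < C.v (aeval ξ A) + d * hdv C ↔ A ∈ C.P) := by
  have h1 := g.va.form C A (Form.of hA) h0
  have h2 := Ctr.xi_ne C.good
  rw [C.toCtr.lo_eq hA, v_div g C h0 (pow_ne_zero _ h2), v_pow g C h2] at h1
  have e : C.v (aeval ξ A) + d * hdv C = C.v (aeval ξ A) - d * C.v (ξ C.idx) := by
    unfold hdv
    ring
  rw [e]
  exact h1

theorem ne_of_eval (x : Pt ℂ ξ) {d : ℕ} {A : Pol ℂ N} (hA : A.IsHomogeneous d)
    (h : eval x.z A ≠ 0) : aeval ξ A ≠ 0 := fun h0 => h (x.van d A hA h0)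

theorem v_form_at (g : G0 ξ) {x : Pt ℂ ξ} {C : Cv ℂ ξ} (hx : x.On C) {d : ℕ} {A : Pol ℂ N}
    (hA : A.IsHomogeneous d) (h : eval x.z A ≠ 0) : C.v (aeval ξ A) + d * hdv C = 0 := by
  obtain ⟨h1, h2⟩ := v_form g C hA (ne_of_eval x hA h)
  by_contra hn
  exact h (hx d A hA (h2.1 (by omega)))

/-- `h` is a section of `e H - n`. -/
def Sec (n : Cv ℂ ξ → ℤ) (h : K) (e : ℤ) : Prop := h ≠ 0 ∧ ∀ C, n C ≤ C.v h + e * hdv C

/-- `h` generates `e H - n` along the curves through `x`. -/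
def Gen (n : Cv ℂ ξ → ℤ) (x : Pt ℂ ξ) (h : K) (e : ℤ) : Prop :=
  ∀ C, x.On C → C.v h + e * hdv C = n C

theorem Sec.mul (g : G0 ξ) {n : Cv ℂ ξ → ℤ} {h : K} {e : ℤ} (hs : Sec n h e) {d : ℕ}
    {A : Pol ℂ N} (hA : A.IsHomogeneous d) (h0 : aeval ξ A ≠ 0) :
    Sec n (aeval ξ A * h) (e + d) := by
  refine ⟨mul_ne_zero h0 hs.1, fun C => ?_⟩
  have h1 := (v_form g C hA h0).1
  have h2 := hs.2 C
  rw [g.va.mul C _ _ h0 hs.1, add_mul]
  omega

theorem Gen.mul (g : G0 ξ) {n : Cv ℂ ξ → ℤ} {x : Pt ℂ ξ} {h : K} {e : ℤ} (hh : h ≠ 0)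
    (hs : Gen n x h e) {d : ℕ} {A : Pol ℂ N} (hA : A.IsHomogeneous d) (h0 : eval x.z A ≠ 0) :
    Gen n x (aeval ξ A * h) (e + d) := by
  intro C hC
  have h1 := v_form_at g hC hA h0
  have h2 := hs C hC
  rw [g.va.mul C _ _ (ne_of_eval x hA h0) hh, add_mul]
  omega

/-- A form that vanishes to high order on given curves and not at `x`. -/
theorem exists_form (g : G0 ξ) (x : Pt ℂ ξ) (m : Cv ℂ ξ → ℤ) (T : Finset (Cv ℂ ξ))
    (hT : ∀ C ∈ T, ¬ x.On C) : ∃ (d : ℕ) (B : Pol ℂ N), B.IsHomogeneous d ∧ eval x.z B ≠ 0 ∧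
      ∀ C ∈ T, m C ≤ C.v (aeval ξ B) + d * hdv C := by
  classical
  induction T using Finset.induction_on with
  | empty => exact ⟨0, 1, isHomogeneous_one _ _, by simp, by simp⟩
  | insert C T hC ih =>
    obtain ⟨d, B, hB, hB0, hBT⟩ := ih fun C' h => hT C' (Finset.mem_insert_of_mem h)
    obtain ⟨A, hA, hAP, hA0⟩ := g.sep x C (hT C (Finset.mem_insert_self _ _))
    have hA' : A.IsHomogeneous A.totalDegree := hA
    have hAn := ne_of_eval x hA' hA0
    have hBn := ne_of_eval x hB hB0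
    refine ⟨A.totalDegree * (m C).toNat + d, A ^ (m C).toNat * B, (hA'.pow _).mul hB,
      by simp [hA0, hB0], fun C' hC' => ?_⟩
    have e : C'.v (aeval ξ (A ^ (m C).toNat * B)) +
        ((A.totalDegree * (m C).toNat + d : ℕ) : ℤ) * hdv C' =
        ((m C).toNat : ℤ) * (C'.v (aeval ξ A) + A.totalDegree * hdv C') +
          (C'.v (aeval ξ B) + d * hdv C') := by
      rw [map_mul, map_pow, g.va.mul C' _ _ (pow_ne_zero _ hAn) hBn, v_pow g C' hAn]
      push_cast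
      ring
    rw [e]
    have h1 := v_form g C' hA' hAn
    have h2 := (v_form g C' hB hBn).1
    have h3 : (0 : ℤ) ≤ (m C).toNat := Int.natCast_nonneg _
    rcases Finset.mem_insert.1 hC' with rfl | hC'
    · have h4 := h1.2.2 hAP
      have h5 := Int.self_le_toNat (m C')
      nlinarith
    · have h4 := hBT C' hC'
      nlinarith [mul_nonneg h3 h1.1]

/-- The case of one point. -/
theorem exists_loc (g : G0 ξ) {n : Cv ℂ ξ → ℤ} (hn : FS n) (x : Pt ℂ ξ) :
    ∃ (h : K) (e : ℕ), Sec n h e ∧ Gen n x h e := by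
  obtain ⟨u, hu, hux⟩ := g.eqn x n hn
  have hT : {C : Cv ℂ ξ | C.v u < n C}.Finite := by
    refine ((g.fin.v u).union hn).subset fun C hC => ?_
    by_contra hc
    simp only [Set.mem_union, Set.mem_ofPred_eq, Function.mem_support, not_or, not_not] at hc hC
    omega
  obtain ⟨d, B, hB, hB0, hBT⟩ := exists_form g x (fun C => n C - C.v u) hT.toFinset fun C hC hx => by
    have h1 := hT.mem_toFinset.1 hC
    have h2 := hux C hx
    simp only [Set.mem_ofPred_eq] at h1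
    omega
  have hBn := ne_of_eval x hB hB0
  refine ⟨aeval ξ B * u, d, ⟨mul_ne_zero hBn hu, fun C => ?_⟩, fun C hC => ?_⟩
  · rw [g.va.mul C _ _ hBn hu]
    by_cases hC : C.v u < n C
    · have := hBT C (hT.mem_toFinset.2 hC)
      omega
    · have := (v_form g C hB hBn).1
      omega
  · have h1 := v_form_at g hC hB hB0
    have h2 := hux C hC
    rw [g.va.mul C _ _ hBn hu]
    omega

/-- Linear forms separate points. -/
theorem sep_pt {x y : Pt ℂ ξ} (hxy : y ≠ x) :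
    ∃ B : Pol ℂ N, B.IsHomogeneous 1 ∧ eval x.z B ≠ 0 ∧ eval y.z B = 0 := by
  by_contra hn
  have h : ∀ B : Pol ℂ N, B.IsHomogeneous 1 → eval y.z B = 0 → eval x.z B = 0 :=
    fun B h1 h2 => by_contra fun h3 => hn ⟨B, h1, h3, h2⟩
  obtain ⟨i, hi, hj⟩ := y.norm
  obtain ⟨i', hi', hj'⟩ := x.norm
  have a : ∀ j, x.z j = y.z j * x.z i := fun j => by
    simpa [sub_eq_zero] using h (X j - C (y.z j) * X i)
      ((isHomogeneous_X ℂ j).sub (isHomogeneous_C_mul_X _ i)) (by simp [hi])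
  have b : x.z i = 1 := by
    rcases lt_trichotomy i' i with hl | hl | hl
    · rw [a i', hj _ hl, zero_mul] at hi'
      exact absurd hi' zero_ne_one
    · exact hl ▸ hi'
    · rw [a i', hj' _ hl, mul_zero] at hi'
      exact absurd hi' zero_ne_one
  exact hxy (Pt.ext (funext fun j => by rw [a j, b, mul_one]))

/-- Forms of every large degree that single out one point of a finite set. -/
theorem sep_set (x : Pt ℂ ξ) (Z : Finset (Pt ℂ ξ)) (d : ℕ) (hd : Z.card ≤ d) :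
    ∃ B : Pol ℂ N, B.IsHomogeneous d ∧ eval x.z B ≠ 0 ∧ ∀ y ∈ Z, y ≠ x → eval y.z B = 0 := by
  classical
  induction Z using Finset.induction_on generalizing d with
  | empty =>
    exact ⟨X x.ctr.idx ^ d, isHomogeneous_X_pow _ _, by simp [x.z_idx.1], by simp⟩
  | insert y Z hy ih =>
    rw [Finset.card_insert_of_notMem hy] at hd
    by_cases hyx : y = x
    · obtain ⟨B, h1, h2, h3⟩ := ih d (by omega)
      refine ⟨B, h1, h2, fun w hw hwx => ?_⟩
      rcases Finset.mem_insert.1 hw with rfl | hw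
      · exact absurd hyx hwx
      · exact h3 w hw hwx
    · obtain ⟨d, rfl⟩ : ∃ d', d = 1 + d' := ⟨d - 1, by omega⟩
      obtain ⟨B, h1, h2, h3⟩ := ih d (by omega)
      obtain ⟨A, h4, h5, h6⟩ := sep_pt hyx
      refine ⟨A * B, h4.mul h1, by simp [h2, h5], fun w hw hwx => ?_⟩
      rcases Finset.mem_insert.1 hw with rfl | hw
      · rw [map_mul, h6, zero_mul]
      · rw [map_mul, h3 w hw hwx, mul_zero]

/-- A section times a form that vanishes at `x` is a small multiple of a generator. -/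
theorem small (g : G0 ξ) {n : Cv ℂ ξ → ℤ} {x : Pt ℂ ξ} {u h : K} {e : ℤ} {d : ℕ} (hu : u ≠ 0)
    (hg : Gen n x u (e + d)) (hs : Sec n h e) {E : Pol ℂ N} (hE : E.IsHomogeneous d)
    (h0 : eval x.z E = 0) : ∃ a ∈ maximalIdeal x.ctr.O, aeval ξ E * h = (a : K) * u := by
  have hX : (X x.ctr.idx ^ d : Pol ℂ N).IsHomogeneous d := isHomogeneous_X_pow _ _
  have hX0 : eval x.z (X x.ctr.idx ^ d : Pol ℂ N) ≠ 0 := by simp [x.z_idx.1]
  have h1 := hs.mul g hX (ne_of_eval x hX hX0)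
  have h2 : aeval ξ (X x.ctr.idx ^ d : Pol ℂ N) * h / u ∈ x.ctr.O := by
    refine g.reg x _ (div_ne_zero h1.1 hu) fun C hC => ?_
    have h3 := h1.2 C
    have h4 := hg C hC
    rw [v_div g C h1.1 hu]
    omega
  refine ⟨x.ctr.lx E * ⟨_, h2⟩,
    Ideal.mul_mem_right _ _ ((x.lx_mem_max (Form.of hE)).2 h0), ?_⟩
  rw [Subring.coe_mul, Ctr.coe_lx x.good (Form.of hE), ← Ctr.lo_spec x.good hE]
  field_simp

theorem v_unit (g : G0 ξ) {x : Pt ℂ ξ} {C : Cv ℂ ξ} (hx : x.On C) (a : x.ctr.O) (ha : IsUnit a) :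
    (a : K) ≠ 0 ∧ C.v a = 0 := by
  obtain ⟨b, hb⟩ := ha.exists_right_inv
  have h1 : (a : K) * b = 1 := congrArg Subtype.val hb
  have h2 : (a : K) ≠ 0 := left_ne_zero_of_mul_eq_one h1
  have h3 : (b : K) ≠ 0 := right_ne_zero_of_mul_eq_one h1
  have h4 := g.va.mul C _ _ h2 h3
  rw [h1, v_one g] at h4
  have h5 := (g.va.mem C _ h2).1 (hx.le a.2)
  have h6 := (g.va.mem C _ h3).1 (hx.le b.2)
  exact ⟨h2, by omega⟩

theorem main (g : G0 ξ) {n : Cv ℂ ξ → ℤ} (hn : FS n) (Z : Finset (Pt ℂ ξ)) (hZ : Z.Nonempty) :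
    ∃ (h : K) (e : ℤ), 0 < e ∧ Sec n h e ∧ ∀ x ∈ Z, Gen n x h e := by
  classical
  choose h e hs hg using exists_loc g hn
  set M : ℕ := Z.card + Z.sup e with hM
  have hd : ∀ x, ∃ d : ℕ, x ∈ Z → Z.card ≤ d ∧ (e x : ℤ) + d = M := fun x =>
    ⟨M - e x, fun hx => by
      have := Finset.le_sup (f := e) hx
      constructor <;> omega⟩
  choose d hd using hd
  have hE : ∀ x, ∃ E : Pol ℂ N, x ∈ Z → E.IsHomogeneous (d x) ∧ eval x.z E ≠ 0 ∧
      ∀ y ∈ Z, y ≠ x → eval y.z E = 0 := fun x => by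
    by_cases hx : x ∈ Z
    · obtain ⟨E, hE⟩ := sep_set x Z (d x) (hd x hx).1
      exact ⟨E, fun _ => hE⟩
    · exact ⟨0, fun h => absurd h hx⟩
  choose E hE using hE
  have hsec : ∀ x ∈ Z, Sec n (aeval ξ (E x) * h x) M := fun x hx => by
    rw [← (hd x hx).2]
    exact (hs x).mul g (hE x hx).1 (ne_of_eval x (hE x hx).1 (hE x hx).2.1)
  have hgen : ∀ x ∈ Z, Gen n x (aeval ξ (E x) * h x) M := fun x hx => by
    rw [← (hd x hx).2]
    exact Gen.mul g (hs x).1 (hg x) (hE x hx).1 (hE x hx).2.1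
  have hun : ∀ x ∈ Z, ∃ a : x.ctr.O, IsUnit a ∧
      ∑ y ∈ Z, aeval ξ (E y) * h y = (a : K) * (aeval ξ (E x) * h x) := by
    intro x hx
    have h1 : ∀ y, ∃ a : x.ctr.O, y ∈ Z.erase x → a ∈ maximalIdeal x.ctr.O ∧
        aeval ξ (E y) * h y = (a : K) * (aeval ξ (E x) * h x) := fun y => by
      by_cases hy : y ∈ Z.erase x
      · obtain ⟨h2, h3⟩ := Finset.mem_erase.1 hy
        obtain ⟨a, ha⟩ := small g (hsec x hx).1 ((hd y h3).2 ▸ hgen x hx) (hs y) (hE y h3).1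
          ((hE y h3).2.2 x hx h2.symm)
        exact ⟨a, fun _ => ha⟩
      · exact ⟨0, fun h => absurd h hy⟩
    choose a ha using h1
    have h2 : ∑ y ∈ Z.erase x, a y ∈ maximalIdeal x.ctr.O := sum_mem fun y hy => (ha y hy).1
    refine ⟨1 + ∑ y ∈ Z.erase x, a y, ?_, ?_⟩
    · by_contra hn
      have h3 := sub_mem ((mem_maximalIdeal _).2 hn) h2
      rw [add_sub_cancel_right] at h3
      exact (mem_maximalIdeal _).1 h3 isUnit_one
    · rw [← Finset.add_sum_erase Z _ hx, Finset.sum_congr rfl fun y hy => (ha y hy).2,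
        ← Finset.sum_mul]
      push_cast
      ring
  have hne : ∑ y ∈ Z, aeval ξ (E y) * h y ≠ 0 := by
    obtain ⟨x, hx⟩ := hZ
    obtain ⟨a, h1, h2⟩ := hun x hx
    rw [h2]
    refine mul_ne_zero (fun h0 => h1.ne_zero (Subtype.ext h0)) (hsec x hx).1
  refine ⟨∑ y ∈ Z, aeval ξ (E y) * h y, M, ?_, ⟨hne, fun C => ?_⟩, fun x hx C hC => ?_⟩
  · have := hZ.card_pos
    omega
  · have := (v_sum g C Z (fun y => aeval ξ (E y) * h y) (n C - M * hdv C) fun y hy => by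
      have := (hsec y hy).2 C
      omega).resolve_left hne
    omega
  · obtain ⟨a, h1, h2⟩ := hun x hx
    obtain ⟨h3, h4⟩ := v_unit g hC a h1
    rw [h2, g.va.mul C _ _ h3 (hsec x hx).1, h4, zero_add]
    exact hgen x hx C hC

end Mov

theorem movS : MovStmt := by
  intro K _ _ N ξ g _ n Z hn hZ
  classical
  by_cases hp : Nonempty (Pt ℂ ξ)
  · obtain ⟨x⟩ := hp
    obtain ⟨h, e, h1, h2, h3⟩ := Mov.main g hn (insert x hZ.toFinset) (Finset.insert_nonempty _ _)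
    exact ⟨h, e, h2.1, h1, h2.2, fun y hy =>
      h3 y (Finset.mem_insert_of_mem (hZ.mem_toFinset.2 hy))⟩
  · exact ⟨1, 1, one_ne_zero, one_pos, fun C => absurd ⟨(g.cv.pt C).choose⟩ hp,
      fun x _ => absurd ⟨x⟩ hp⟩

end Pool.Agent.MP_c69980_ag.I2
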