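import Pool.Agent.MP_c69980_ag.I2.Cnt
import Pool.Agent.MP_c69980_ag.I2.Bt
import Pool.Agent.MP_c69980_ag.I2.Mov

/-!
The linear relations of the bubble.
-/

set_option autoImplicit false

noncomputable section

namespace Pool.Agent.MP_c69980_ag.I2

open MvPolynomial Metric Filter Topology Set
open H60 H4 E1

namespace Av2

open Bt

variable {K : Type} [Field K] [Algebra ℂ K] {N : ℕ} {d : FD K N} {r : ℝ} {g : ℂ → V (N + 1)}
  {I B : Finset (CC d.z)} {Z : Set (PP d.z)} {a : CC d.z → CC d.z → ℤ} {u : Ultrafilter ℕ}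
  {a' j : Fin (N + 1)} {U : Set (ℂ × ℂ)} {Y : ℂ × ℂ → V (N + 1)} {s : ℕ → ℂ → V (N + 1)}
  {v : ℕ → CC d.z → ℕ} {o c : CC d.z}

theorem key (hM : MovStmt) (hI : IdStmt) (hN : NgStmt) (hV : VlStmt) (st : St d I B Z a)
    (si : Sit d r a' j U Y g) (cg : Cg d u r s g) (ms : Ms d B r s) (lv : LvA d u s I Z v)
    (oc : Oc d I B Z u g s o c) (M : ℤ) (n : CC d.z → ℕ) (hn : ∀ C ∉ I, n C = 0) :
    ∃ e : ℤ, 0 < e ∧ Ev u fun k ρ => ∃ v' κ ν, VL d.X d.b ρ (s k) v' ∧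
      Wn d.b ρ (kap a' j (s k) v') κ ∧ Wn d.b ρ (fun t => s k t j) ν ∧
      M * κ + e * ν + n o = n c + ∑ C ∈ I, v k C *
        (M * dot a (kdv d.D) C + e * dot a hdv C - ∑ C' ∈ I, n C' * a C' C) := by
  classical
  obtain ⟨oI, o1, y, yZ, yo, hy⟩ := oc.o1
  have b0 := mem_ball_self (x := d.b) si.r0
  have py := si.inc.2.symm.trans hy
  have gy := (st.xb.gen a' j U Y si.ch _ si.inc.1 (mem_ball_self d.r0) y py).1
  choose pt hpt using st.br.g0.cv.pt
  obtain ⟨h, e, h0, e0, h1, h2⟩ := hM K N d.z st.br.g0 st.ca.fh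
    (fun C => n C - M * kdv d.D C) (Z ∪ pt '' B)
    ((I.finite_toSet.union st.ca.fk).subset fun C hC => by
      by_contra q
      simp only [mem_union, Finset.mem_coe, Function.mem_support, not_or, not_not] at q
      exact hC (by simp [hn C q.1, q.2])) (st.zg.fin.union (B.finite_toSet.image _))
  have ed : ∀ x ∈ Z ∪ pt '' B, ∀ C : CC d.z, x.On C → dv d.D h M e C = n C := fun x hx C hC => by
    have := h2 x hx C hC
    rw [dv]
    linarith
  have dI : ∀ C ∈ I, dv d.D h M e C = n C := fun C hC => by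
    obtain ⟨x, x1, x2⟩ := st.zg.pt C hC
    exact ed x (Or.inl x1) C x2
  have dB : ∀ C ∈ B \ I, dv d.D h M e C = 0 := fun C hC => by
    rw [ed _ (Or.inr ⟨C, (Finset.mem_sdiff.1 hC).1, rfl⟩) C (hpt C),
      hn C (Finset.mem_sdiff.1 hC).2, Nat.cast_zero]
  have nn : ∀ C : CC d.z, 0 ≤ dv d.D h M e C := fun C => by
    have := h1 C
    have := Int.natCast_nonneg (n C)
    rw [dv]
    linarith
  have q := st.ca.eqn y j _ h M e (si.ch.eq si.inc.1 py.symm).1 gy h0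
  have rx := Rx.pp (si.ch.rx si.inc.1 si.inc.2) hy.symm
  have q' : Eqn y (dv d.D h M e) (d.τ ^ n o) := ⟨pow_ne_zero _ st.fb.t0, fun C hC => by
    rw [Mov.v_pow st.br.g0 C st.fb.t0, ed y (Or.inl yZ) C hC]
    by_cases hI : C ∈ I
    · rw [(st.fb.rx1 y rx o oI yo).2 C hI hC, o1, mul_one]
    · rw [(st.fb.val y C (Rx.mem d.cn rx) hC).2 hI, hn C hI, mul_zero, Nat.cast_zero]⟩
  have m1 := Cnt.eq_mem st.br q nn
  have od : Cnt.oa d g d.b (cf d h M e a' j) = n o :=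
    (le_antisymm (Cnt.oa_le st.br si.nm b0 hy q q' m1)
      (Cnt.oa_le st.br si.nm b0 hy q' q (Cnt.eq_mem st.br q' nn))).trans
      (Cnt.oa_tau si.r0 si.rr si.nm _).2
  have id := hI K N d I B Z a u r a' j U Y g s v o c h M e st si cg ms lv oc h0 nn
    (fun x hx C hC => by
      rw [hor]
      split_ifs with q
      · rfl
      · rw [ed x (Or.inl hx) C hC, hn C fun q' => q (Or.inl q'), Nat.cast_zero])
  obtain ⟨-, c2, -, c4⟩ := hN K N d u r a' j U Y g s st.br st.xb si cg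
  refine ⟨e, e0, ev_mono (ev_and (ev_and id ((c4 _ _ ((st.br.reg y _ _ hy).1 m1)).1 od)) c2) ?_⟩
  rintro k ρ ρ0 ⟨⟨⟨-, H⟩, hw⟩, ρr, i1, -⟩
  obtain ⟨⟨v', hv'⟩, hk⟩ := hV _ d.X d.b ρ r (s k) d.cn st.xb.nonreg ρ0 ρr (cg.1 k)
  obtain ⟨κ, hκ⟩ := (hk a' j U Y v' si.ch hv').1 i1
  obtain ⟨ν, hν⟩ := (wind d.b ρ ρ0).1 (fun t => s k t j)
    ((continuous_apply j).comp_continuousOn
      ((cg.1 k).1.1.continuousOn.mono (sphere_subset_ball ρr)))
    fun t ht => (si.ch.eq (i1 t ht).1 (i1 t ht).2).1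
  refine ⟨v', κ, ν, hv', hκ, hν, (H v' κ ν _ hv' hκ hν hw).trans ?_⟩
  rw [dI c oc.c1.1]
  refine congrArg _ (Finset.sum_congr rfl fun C _ => ?_)
  rw [Finset.sum_eq_zero (s := B \ I) fun C' hC' => by rw [dB C' hC', zero_mul], sub_zero,
    Finset.sum_congr (s₁ := I) rfl fun C' hC' => by rw [dI C' hC']]

end Av2

open Bt in
theorem avS' : AvOf := by
  classical
  intro hM hI hN hV K _ _ N d I B Z a u r a' j U Y g s v o c st si cg ms lv oc
  have nu : Nu d I a u j s v := by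
    obtain ⟨e, e0, H⟩ := Av2.key hM hI hN hV st si cg ms lv oc 0 (fun _ => 0) fun _ _ => rfl
    refine ev_mono H ?_
    rintro k ρ - ⟨v', κ, ν, -, -, h3, h4⟩
    have : e * ν = e * ∑ C ∈ I, v k C * dot a hdv C := by
      rw [Finset.mul_sum]
      simp only [Nat.cast_zero, zero_mul, Finset.sum_const_zero, zero_add, add_zero,
        sub_zero] at h4
      rw [h4]
      exact Finset.sum_congr rfl fun C _ => by ring
    rwa [← mul_left_cancel₀ e0.ne' this]
  refine ⟨nu, (eventually_all_finset I).2 fun i hi => ?_, fun ka => ?_⟩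
  · obtain ⟨e, e0, H⟩ := Av2.key hM hI hN hV st si cg ms lv oc 0 (fun C => if C = i then 1 else 0)
      fun C hC => if_neg fun q : C = i => hC (q ▸ hi)
    refine ev_out (ev_and H nu) ?_
    rintro k ρ ρ0 ⟨⟨v', κ, ν, -, -, h3, h4⟩, h5⟩
    have e1 : ∀ C ∈ I, (v k C : ℤ) * (0 * dot a (kdv d.D) C + e * dot a hdv C -
        ∑ C' ∈ I, ((if C' = i then 1 else 0 : ℕ) : ℤ) * a C' C) =
        e * (v k C * dot a hdv C) - a i C * v k C := fun C _ => by
      rw [Finset.sum_eq_single_of_mem i hi fun C' _ q => by simp [q]]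
      simp only [if_true, Nat.cast_one]
      ring
    rw [Finset.sum_congr rfl e1, Finset.sum_sub_distrib, ← Finset.mul_sum,
      (wind d.b ρ ρ0).2.1 _ _ _ h3 h5] at h4
    simp only [Nat.cast_ite, Nat.cast_one, Nat.cast_zero, eq_comm (b := i)] at h4
    linarith
  · obtain ⟨e, e0, H⟩ := Av2.key hM hI hN hV st si cg ms lv oc 1 (fun _ => 0) fun _ _ => rfl
    refine ev_out (ev_and (ev_and H nu) ka) ?_
    rintro k ρ ρ0 ⟨⟨⟨v', κ, ν, h1, h2, h3, h4⟩, h5⟩, h6⟩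
    have e1 : ∀ C ∈ I, (v k C : ℤ) * (1 * dot a (kdv d.D) C + e * dot a hdv C -
        ∑ C' ∈ I, ((0 : ℕ) : ℤ) * a C' C) =
        dot a (kdv d.D) C * v k C + e * (v k C * dot a hdv C) := fun C _ => by
      simp only [Nat.cast_zero, zero_mul, Finset.sum_const_zero]
      ring
    rw [Finset.sum_congr rfl e1, Finset.sum_add_distrib, ← Finset.mul_sum,
      (wind d.b ρ ρ0).2.1 _ _ _ h3 h5, (wind d.b ρ ρ0).2.1 _ _ _ h2 (h6 v' h1)] at h4
    simp only [Nat.cast_zero] at h4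
    linarith

end Pool.Agent.MP_c69980_ag.I2
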