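import Pool.Agent.MP_c69980_ag.I2.SpecB
import Pool.Agent.MP_c69980_ag.E1.GT
import Pool.Agent.MP_c69980_ag.E1.WC

/-!
The dictionary between the two descriptions of a smooth projective surface.
-/

set_option autoImplicit false

noncomputable section

namespace Pool.Agent.MP_c69980_ag.I2

open MvPolynomial Metric Filter Topology Set
open H60 H4 E1

namespace BrX

theorem dim2 {R : Type} [CommRing R] [IsDomain R] [IsLocalRing R] [IsNoetherianRing R]
    {t : Fin 2 → R} (ht : (Ideal.span (range t)).IsMaximal) {p : Ideal R} (hp : p.IsPrime)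
    (h0 : t 0 ∉ p) (h1 : t 1 ∈ p) (h2 : t 1 ≠ 0) : ringKrullDim R = 2 := by
  have e := IsLocalRing.eq_maximalIdeal ht
  have a1 : (⊥ : Ideal R) < p := bot_lt_iff_ne_bot.2 fun q => h2 (by simpa [q] using h1)
  have a2 : p < IsLocalRing.maximalIdeal R :=
    (IsLocalRing.le_maximalIdeal hp.ne_top).lt_of_ne fun q =>
      h0 (q ▸ e ▸ Ideal.subset_span ⟨0, rfl⟩)
  have a3 := Ideal.height_add_one_le_of_lt_of_isPrime a1
  have a4 := Ideal.height_add_one_le_of_lt_of_isPrime a2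
  have a5 : (2 : ℕ∞) ≤ (IsLocalRing.maximalIdeal R).height :=
    le_trans (by
      rw [← one_add_one_eq_two]
      exact add_le_add_left (le_add_self.trans a3) 1) a4
  have a6 : (IsLocalRing.maximalIdeal R).spanFinrank ≤ 2 := by
    rw [← e]
    refine (Submodule.spanFinrank_span_le_ncard_of_finite (finite_range t)).trans ?_
    rw [← image_univ]
    exact (ncard_image_le finite_univ).trans (by simp [ncard_univ])
  refine le_antisymm ((ringKrullDim_le_spanFinrank_maximalIdeal R).trans (by exact_mod_cast a6)) ?_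
  rw [← IsLocalRing.maximalIdeal_height_eq_ringKrullDim]
  exact WithBot.coe_le_coe.2 a5

section
variable {n : ℕ} {K : Type} [Field K] [Algebra ℂ K] {z : Fin n → K} {W : Set (PS n)}
  {a b j : Fin n} {U : Set (ℂ × ℂ)} {Y : ℂ × ℂ → V n} {q : ℂ × ℂ}

open GTX in
theorem reg2 (hs : Smo W) (hz : GenPt W z) (hc : WCh W a b j U Y) (hq : q ∈ U)
    (hy : On z (Y q)) : IsRegularLocalRing (rg hy) ∧ ringKrullDim (rg hy) = 2 := by
  obtain ⟨hj, -, -, ym, -⟩ := hc.2.2 q hq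
  have := loc hy
  have := noeth hy hj
  have hm := maxi E1.tan hs hz hc hq hy hj
  obtain ⟨p, hp, e⟩ := prime hz hc hq hy
  have u1 : ∀ᶠ s in 𝓝 q.1, (s, q.2) ∈ U :=
    (Continuous.prodMk_left q.2).continuousAt.eventually (hc.1.mem_nhds hq)
  have u2 : ∀ᶠ s in 𝓝 q.2, (q.1, s) ∈ U :=
    (Continuous.prodMk_right q.1).continuousAt.eventually (hc.1.mem_nhds hq)
  have h0 : aeval (co hy hj) (par a b q 0) ∉ p := fun r => not_ev q.1 (by
    filter_upwards [(e _).1 r, u1] with s s1 s2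
    rwa [co_val, vl_par hz hc s2] at s1)
  have h1 : aeval (co hy hj) (par a b q 1) ∈ p := (e _).2 (u1.mono fun s s2 => by
    rw [co_val, vl_par hz hc s2]
    simp)
  have h2 : aeval (co hy hj) (par a b q 1) ≠ 0 := fun r => not_ev q.2 (u2.mono fun s s2 => by
    have := vl_par (q := q) hz hc s2 1
    rw [← co_val hy hj, r] at this
    exact this.symm.trans (map_zero (chi (Cone.on hz (hc.2.2 _ s2).2.2.2.1))))
  exact ⟨regular hm hp h0 h1 h2, dim2 hm hp h0 h1 h2⟩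

open GTX in
theorem gens (hs : Smo W) (hz : GenPt W z) (hc : WCh W a b j U Y) (hq : q ∈ U)
    (hy : On z (Y q)) {f : K} (hf : Reg z (Y q) f) (h0 : vl z f (Y q) = 0) :
    ∃ α β : K, Reg z (Y q) α ∧ Reg z (Y q) β ∧
      f = α * (z a / z j - algebraMap ℂ K q.1) + β * (z b / z j - algebraMap ℂ K q.2) := by
  have hj := (hc.2.2 q hq).1
  have := loc hy
  have e := IsLocalRing.eq_maximalIdeal (maxi E1.tan hs hz hc hq hy hj)
  have h1 : (⟨f, hf⟩ : rg hy) ∈ IsLocalRing.maximalIdeal (rg hy) := fun hu =>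
    (hu.map (chi hy)).ne_zero h0
  rw [← e] at h1
  obtain ⟨c, hc'⟩ := (Submodule.mem_span_range_iff_exists_fun _).1 h1
  refine ⟨c 0, c 1, (c 0).2, (c 1).2, ?_⟩
  have h2 := congrArg Subtype.val hc'
  rw [Fin.sum_univ_two, smul_eq_mul, smul_eq_mul, AddMemClass.coe_add, MulMemClass.coe_mul,
    MulMemClass.coe_mul, co_val, co_val] at h2
  refine h2.symm.trans ?_
  simp [par]

theorem wd_ne (hs : Smo W) (hz : GenPt W z) {D : Fin 2 → Derivation ℂ K K}
    (li : LinearIndependent K D) (hc : WCh W a b j U Y) (hq : q ∈ U) :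
    Wd D (z a / z j) (z b / z j) ≠ 0 := by
  have hy := Cone.on hz (hc.2.2 q hq).2.2.2.1
  obtain ⟨α, β, h1, -⟩ := PD.key E1.tan hs hz hc hq hy
  have H : ∀ s t : K, s * D 0 (z a / z j) + t * D 1 (z a / z j) = 0 →
      s * D 0 (z b / z j) + t * D 1 (z b / z j) = 0 → s = 0 ∧ t = 0 := by
    intro s t e1 e2
    have h0 : s • D 0 + t • D 1 = 0 := by
      have h2 : ∀ P : PR n, (s • D 0 + t • D 1) (aeval (fun i => z i / z j) P) = 0 :=
        fun P => by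
          rw [PD.der_aeval]
          refine Finset.sum_eq_zero fun i _ => ?_
          rw [h1]
          simp [e1, e2]
      ext f
      obtain ⟨F, G, e, hF, hG, -, rfl⟩ := quot hz f
      rw [PD.quot_zt (PD.zj_ne hy (hc.2.2 q hq).1) hF hG, Derivation.leibniz_div, h2, h2]
      simp
    have := Fintype.linearIndependent_iff.1 li ![s, t] (by simpa [Fin.sum_univ_two] using h0)
    exact ⟨this 0, this 1⟩
  intro e
  unfold Wd at e
  have a1 := H (D 1 (z a / z j)) (-D 0 (z a / z j)) (by ring) (by linear_combination -e)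
  have a2 := H (D 1 (z b / z j)) (-D 0 (z b / z j)) (by linear_combination e) (by ring)
  exact one_ne_zero (H 1 0 (by simpa using a1.2) (by simpa using a2.2)).1

theorem jacob (hs : Smo W) (hz : GenPt W z) {D : Fin 2 → Derivation ℂ K K}
    (li : LinearIndependent K D) (hc : WCh W a b j U Y) (hq : q ∈ U) {f g : K}
    (hf : Reg z (Y q) f) (hg : Reg z (Y q) g) :
    Reg z (Y q) (Wd D f g / Wd D (z a / z j) (z b / z j)) ∧
      vl z (Wd D f g / Wd D (z a / z j) (z b / z j)) (Y q) =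
        jb (fun p => vl z f (Y p)) (fun p => vl z g (Y p)) q := by
  have hy := Cone.on hz (hc.2.2 q hq).2.2.2.1
  have hw := wd_ne hs hz li hc hq
  obtain ⟨A, B, h1, h2⟩ := PD.main E1.tan hs hz hc hq hy hf
  obtain ⟨A', B', h3, h4⟩ := PD.main E1.tan hs hz hc hq hy hg
  have e : Wd D f g / Wd D (z a / z j) (z b / z j) = (A * B' - B * A' : rg hy) := by
    refine (div_eq_iff hw).2 ?_
    simp only [MulMemClass.coe_mul, AddSubgroupClass.coe_sub, Wd, h1 (D 0), h1 (D 1), h3 (D 0),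
      h3 (D 1)]
    ring
  rw [e]
  refine ⟨Subtype.prop (p := (· ∈ rg hy)) _, ?_⟩
  change chi hy _ = _
  rw [map_sub, map_mul, map_mul, jb, h2, h2, h4, h4]
  simp

theorem close {w : V n} (w0 : w ≠ 0) {A : PR n} {e : ℕ} (hA : A.IsHomogeneous e)
    (h : eval w A ≠ 0) : ∃ δ : ℝ, 0 < δ ∧ ∀ y : V n, y ≠ 0 → eval y A = 0 → δ ≤ d2 y w := by
  obtain ⟨ε, ε0, hε⟩ := Metric.eventually_nhds_iff.1
    ((MvPolynomial.continuous_eval A).continuousAt.eventually_ne h)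
  have p := H84.sq_pos' w0
  refine ⟨ε ^ 2 / H4.sq w, by positivity, fun y y0 hy => le_of_not_gt fun hlt => ?_⟩
  rw [d2_symm, lt_div_iff₀ p, H84.d2_mul w0 y0] at hlt
  refine hε (y := (ip w y / H4.sq y) • y) ?_ (by rw [eval_smul_hom hA, hy, mul_zero])
  rw [dist_comm, dist_eq_norm]
  exact (H84.norm_le_sq _).trans_lt ((Real.sqrt_lt' ε0).2 hlt)

end

variable {K : Type} [Field K] [Algebra ℂ K] {N : ℕ} {ξ : Fin (N + 1) → K}

theorem on (x : PP ξ) : On ξ x.z := fun G d hG h => x.van d G hG h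

theorem ne (x : PP ξ) : x.z ≠ 0 := fun e => by
  obtain ⟨i, hi, -⟩ := x.norm
  rw [e] at hi
  exact zero_ne_one hi

theorem reg0 (x : PP ξ) (f : K) : f ∈ x.ctr.O ↔ Reg ξ x.z f :=
  ⟨fun ⟨n, A, B, hA, hB, hP, h⟩ => ⟨A, B, n, hA, hB, hP,
      (eq_div_iff (x.ctr.aeval_ne hB hP)).2 h⟩,
    fun ⟨_, _, _, hA, hB, hP, h⟩ => h ▸ x.ctr.div_mem hA hB hP⟩

theorem reg (x : PP ξ) (y : V (N + 1)) (f : K) (h : Pp y x.z) : f ∈ x.ctr.O ↔ Reg ξ y f :=
  (reg0 x f).trans ⟨h.reg, h.symm.reg⟩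

theorem val (x : PP ξ) {f : K} {n : ℕ} {A B : PR (N + 1)} (hA : A.IsHomogeneous n)
    (hB : B.IsHomogeneous n) (hP : eval x.z B ≠ 0) (h : f * aeval ξ B = aeval ξ A) :
    vl ξ f x.z = 0 ↔ eval x.z A = 0 := by
  rw [(eq_div_iff (x.ctr.aeval_ne hB hP)).2 h, vl_eq (on x) hA hB hP, div_eq_zero_iff,
    or_iff_left hP]

theorem max (x : PP ξ) (f : x.ctr.O) :
    f ∈ IsLocalRing.maximalIdeal x.ctr.O ↔ vl ξ f x.z = 0 := by
  obtain ⟨n, A, B, hA, hB, hP, h⟩ := f.2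
  rw [x.ctr.mem_max_iff f hA hB hP h, val x hA hB hP h]
  rfl

theorem uniq (x x' : PP ξ) (h : Pp x.z x'.z) : x = x' := by
  obtain ⟨c, c0, hc⟩ := h
  obtain ⟨i, hi, hi'⟩ := x.norm
  obtain ⟨k, hk, hk'⟩ := x'.norm
  have e : ∀ l, x.z l = c * x'.z l := fun l => congrFun hc l
  have c1 : c = 1 := by
    rcases lt_trichotomy i k with h | h | h
    · have := e i
      rw [hi, hk' i h, mul_zero] at this
      exact absurd this one_ne_zero
    · have := e i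
      rw [hi, h, hk, mul_one] at this
      exact this.symm
    · have := e k
      rw [hi' k h, hk, mul_one] at this
      exact absurd this.symm c0
  exact MP_f3836a_nt.PK.Pt.ext (by rw [hc, c1, one_smul])

theorem pt {y : V (N + 1)} (y0 : y ≠ 0) (hy : On ξ y) : ∃ x : PP ξ, Pp y x.z := by
  obtain ⟨i, hi, hmin⟩ := WellFounded.has_min (wellFounded_lt (α := Fin (N + 1)))
    {i | y i ≠ 0} (Function.ne_iff.1 y0)
  have hi' : y i ≠ 0 := hi
  refine ⟨⟨(y i)⁻¹ • y, ⟨i, by simp [hi'], fun l hl => ?_⟩, fun n G hG h =>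
    (Pp.smul (inv_ne_zero hi') y).on hy G n hG h⟩, (Pp.smul (inv_ne_zero hi') y).symm⟩
  have : y l = 0 := by_contra fun h => hmin l h hl
  simp [this]

theorem von (x : PP ξ) (C : CC ξ) (f : K) (hx : x.On C) (hf : f ∈ x.ctr.O) (h0 : C.res f = 0) :
    vl ξ f x.z = 0 := by
  have hf' := hx.le hf
  obtain ⟨n, A, B, hA, hB, hP, h⟩ := hf
  rw [C.res_of_mem ⟨f, hf'⟩, IsLocalRing.residue_eq_zero_iff,
    C.toCtr.mem_max_iff _ hA hB (fun e => hP (hx n B hB e)) h] at h0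
  exact (val x hA hB hP h).2 (hx n A hA h0)

theorem vfin (G : G0 ξ) (C : CC ξ) (f : K) (hf : f ∈ C.O) (h0 : C.res f ≠ 0) :
    {x : PP ξ | x.On C ∧ ¬(f ∈ x.ctr.O ∧ vl ξ f x.z ≠ 0)}.Finite := by
  have hf' := hf
  obtain ⟨n, A, B, hA, hB, hP, h⟩ := hf'
  rw [C.res_of_mem ⟨f, hf⟩, Ne, IsLocalRing.residue_eq_zero_iff,
    C.toCtr.mem_max_iff _ hA hB hP h] at h0
  refine (G.fin.pt C (A * B) (.of (hA.mul hB)) fun e =>
    (C.prime.mem_or_mem e).elim h0 hP).subset fun x hx => ⟨hx.1, by_contra fun e => hx.2 ?_⟩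
  rw [map_mul, mul_eq_zero, not_or] at e
  exact ⟨⟨n, A, B, hA, hB, e.2, h⟩, fun r => e.1 ((val x hA hB e.2 h).1 r)⟩

theorem away (G : G0 ξ) (x : PP ξ) (C : CC ξ) (h : ¬x.On C) : ∃ δ : ℝ, 0 < δ ∧
    ∀ x' : PP ξ, x'.On C → δ ≤ d2 x'.z x.z := by
  obtain ⟨A, hA, hP, h0⟩ := G.sep x C h
  obtain ⟨δ, δ0, hδ⟩ := close (ne x) hA h0
  exact ⟨δ, δ0, fun x' hx' => hδ _ (ne x') (hx' _ A hA hP)⟩

theorem near (G : G0 ξ) (x : PP ξ) (n : CC ξ → ℤ) (e : K) (hn : FS n) (he : Eqn x n e) :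
    ∃ δ : ℝ, 0 < δ ∧ ∀ x' : PP ξ, d2 x'.z x.z < δ → Eqn x' n e := by
  have hT : {C : CC ξ | (C ∈ Function.support n ∪ {C | C.v e ≠ 0}) ∧ ¬x.On C}.Finite :=
    (Set.Finite.union hn (G.fin.v e)).subset fun _ h => h.1
  have ev := (eventually_all_finite (l := 𝓝[>] (0 : ℝ))
    (p := fun C δ => ∀ x' : PP ξ, x'.On C → δ ≤ d2 x'.z x.z) hT).2 fun C hC => by
      obtain ⟨δ, δ0, hδ⟩ := away G x C hC.2
      filter_upwards [Ioc_mem_nhdsGT δ0] with s hs x' hx' using hs.2.trans (hδ x' hx')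
  obtain ⟨δ, h1, h2⟩ := (ev.and self_mem_nhdsWithin).exists
  refine ⟨δ, h2, fun x' hx' => ⟨he.1, fun C hC => ?_⟩⟩
  by_cases c1 : x.On C
  · exact he.2 C c1
  by_cases c2 : C ∈ Function.support n ∪ {C | C.v e ≠ 0}
  · exact absurd (h1 C ⟨c2, c1⟩ x' hC) (not_le.2 hx')
  · rw [mem_union, not_or] at c2
    rw [not_not.1 c2.2, not_not.1 c2.1]

variable (S : Sf K N)

theorem cone (x : PP S.z) : x.z ∈ Cone S.W := by
  obtain ⟨𝒮, h1, h2⟩ := S.cl
  refine ⟨ne x, ?_⟩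
  rw [h2]
  intro F hF
  obtain ⟨d, hd⟩ := h1 F hF
  refine (eval_mk hd _).2 (on x F d hd ((S.gen.1 F d hd).2 fun P hP => ?_))
  rw [h2] at hP
  exact hP F hF

theorem surf : MP_f3836a_nt.PK.IsSurf ℂ S.z := by
  have key : ∀ x : PP S.z, IsRegularLocalRing x.ctr.O ∧ ringKrullDim x.ctr.O = 2 := fun x => by
    obtain ⟨a, b, j, U, Y, hc, q, hq, hp⟩ := E1.wc _ _ S.sm _ (cone S x)
    have hy := Cone.on S.gen (hc.2.2 q hq).2.2.2.1
    obtain ⟨r1, r2⟩ := reg2 S.sm S.gen hc hq hy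
    let φ : rg hy ≃+* x.ctr.O :=
      { toFun := fun f => ⟨f, (reg x _ f hp.symm).2 f.2⟩
        invFun := fun f => ⟨f, (reg x _ f hp.symm).1 f.2⟩
        left_inv := fun _ => rfl
        right_inv := fun _ => rfl
        map_mul' := fun _ _ => rfl
        map_add' := fun _ _ => rfl }
    exact ⟨.of_ringEquiv φ, (ringKrullDim_eq_of_ringEquiv φ).symm.trans r2⟩
  refine ⟨fun f => ?_, fun x => (key x).1, fun x => (key x).2⟩
  obtain ⟨F, G, e, hF, hG, h0, h1⟩ := quot S.gen f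
  exact ⟨e, F, G, hF, hG, h0, (eq_div_iff h0).1 h1⟩

theorem jac {a b j : Fin (N + 1)} {U : Set (ℂ × ℂ)} {Y : ℂ × ℂ → V (N + 1)}
    (hc : WCh S.W a b j U Y) {q : ℂ × ℂ} (hq : q ∈ U) (x : PP S.z) (hp : Pp (Y q) x.z) :
    GenO S.D x.ctr.O (Wd S.D (S.z a / S.z j) (S.z b / S.z j)) ∧
    Gm S x (S.z a / S.z j - algebraMap ℂ K q.1) (S.z b / S.z j - algebraMap ℂ K q.2) ∧
    ∀ f ∈ x.ctr.O, ∀ g ∈ x.ctr.O,
      vl S.z (Wd S.D f g / Wd S.D (S.z a / S.z j) (S.z b / S.z j)) (Y q) =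
        jb (fun p => vl S.z f (Y p)) (fun p => vl S.z g (Y p)) q := by
  obtain ⟨hj, ya, yb, ym, -⟩ := hc.2.2 q hq
  have hy := Cone.on S.gen ym
  have r := fun f => reg x (Y q) f hp
  have c := PD.coord hy hj
  have p : ∀ (i : Fin (N + 1)) (s : ℂ), Y q i = s → S.z i / S.z j - algebraMap ℂ K s ∈ x.ctr.O ∧
      vl S.z (S.z i / S.z j - algebraMap ℂ K s) x.z = 0 := fun i s hs => by
    have m : S.z i / S.z j - algebraMap ℂ K s ∈ rg hy :=
      sub_mem (c i).1 ((rg hy).algebraMap_mem s)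
    refine ⟨(r _).2 m, (hp.symm.vl hy m).trans ?_⟩
    have e := map_sub (chi hy) ⟨_, (c i).1⟩ (algebraMap ℂ _ s)
    rw [AlgHom.commutes] at e
    exact e.trans (sub_eq_zero.2 ((c i).2.trans hs))
  refine ⟨⟨wd_ne S.sm S.gen S.li hc hq, ⟨_, (r _).2 (c a).1, _, (r _).2 (c b).1, rfl⟩,
    fun f hf g hg => (r _).2 (jacob S.sm S.gen S.li hc hq ((r f).1 hf) ((r g).1 hg)).1⟩,
    ⟨(p a _ ya).1, (p b _ yb).1, (p a _ ya).2, (p b _ yb).2, fun f hf h0 => ?_⟩,
    fun f hf g hg => (jacob S.sm S.gen S.li hc hq ((r f).1 hf) ((r g).1 hg)).2⟩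
  obtain ⟨α, β, h1, h2, h3⟩ := gens S.sm S.gen hc hq hy ((r f).1 hf)
    ((hp.vl (on x) ((reg0 x f).1 hf)).trans h0)
  exact ⟨α, (r α).2 h1, β, (r β).2 h2, h3⟩

theorem kg : KG S.z S.D := by
  refine ⟨range fun t : Fin (N + 1) × Fin (N + 1) × Fin (N + 1) =>
    Wd S.D (S.z t.1 / S.z t.2.2) (S.z t.2.1 / S.z t.2.2), finite_range _, fun x => ?_⟩
  obtain ⟨a, b, j, U, Y, hc, q, hq, hp⟩ := E1.wc _ _ S.sm _ (cone S x)
  exact ⟨_, ⟨(a, b, j), rfl⟩, (jac S hc hq x hp.symm).1⟩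

end BrX

open BrX in
theorem brS : BrOf := by
  intro h K _ _ N S
  have G := h K N S.z (surf S)
  exact
    { g0 := G
      kg := kg S
      wc := E1.wc _ _ S.sm
      cone := cone S
      pt := fun y hy => pt hy.1 (Cone.on S.gen hy)
      uniq := uniq
      reg := reg
      max := BrX.max
      jac := fun _ _ _ _ _ hc _ hq x hp => BrX.jac S hc hq x hp
      von := von
      vfin := vfin G
      away := away G
      near := BrX.near G }

end Pool.Agent.MP_c69980_ag.I2
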