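import Pool.Agent.MP_c69980_ag.I2.SpecA

/-!
The canonical divisor and the hyperplane divisor.
-/

set_option autoImplicit false

noncomputable section

namespace Pool.Agent.MP_c69980_ag.I2

open MvPolynomial IsLocalRing Pool.Agent.MP_f3836a_nt.PK
open H4 (Wd)

namespace CAaux

variable {K : Type} [Field K] [Algebra ℂ K] {N : ℕ} {ξ : Fin (N + 1) → K}

theorem v_one (va : VA ℂ ξ) (C : Cv ℂ ξ) : C.v 1 = 0 := by
  have := va.mul C 1 1 one_ne_zero one_ne_zero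
  rw [mul_one] at this
  omega

theorem v_inv (va : VA ℂ ξ) (C : Cv ℂ ξ) {f : K} (hf : f ≠ 0) : C.v f⁻¹ = -C.v f := by
  have := va.mul C f f⁻¹ hf (inv_ne_zero hf)
  rw [mul_inv_cancel₀ hf, v_one va] at this
  omega

theorem v_div (va : VA ℂ ξ) (C : Cv ℂ ξ) {f g : K} (hf : f ≠ 0) (hg : g ≠ 0) :
    C.v (f / g) = C.v f - C.v g := by
  rw [div_eq_mul_inv, va.mul C f _ hf (inv_ne_zero hg), v_inv va C hg]
  ring

theorem v_pow (va : VA ℂ ξ) (C : Cv ℂ ξ) {f : K} (hf : f ≠ 0) (n : ℕ) :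
    C.v (f ^ n) = n * C.v f := by
  induction n with
  | zero => simp [v_one va]
  | succ n ih =>
    rw [pow_succ, va.mul C _ _ (pow_ne_zero _ hf) hf, ih]
    push_cast
    ring

theorem v_zpow (va : VA ℂ ξ) (C : Cv ℂ ξ) {f : K} (hf : f ≠ 0) (n : ℤ) :
    C.v (f ^ n) = n * C.v f := by
  obtain ⟨m, rfl | rfl⟩ := n.eq_nat_or_neg
  · rw [zpow_natCast, v_pow va C hf]
  · rw [zpow_neg, zpow_natCast, v_inv va C (pow_ne_zero _ hf), v_pow va C hf]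
    ring

theorem v_eq (va : VA ℂ ξ) (C : Cv ℂ ξ) {f g : K} (hf : f ≠ 0) (hg : g ≠ 0)
    (h1 : f / g ∈ C.O) (h2 : g / f ∈ C.O) : C.v f = C.v g := by
  have a1 := (va.mem C _ (div_ne_zero hf hg)).mp h1
  have a2 := (va.mem C _ (div_ne_zero hg hf)).mp h2
  rw [v_div va C hf hg] at a1
  rw [v_div va C hg hf] at a2
  omega

theorem gen_eq (va : VA ℂ ξ) (D : Fin 2 → Derivation ℂ K K) (C : Cv ℂ ξ) {w w' : K}
    (h : GenO D C.O w) (h' : GenO D C.O w') : C.v w = C.v w' := by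
  obtain ⟨h0, ⟨f, hf, g, hg, e⟩, h1⟩ := h
  obtain ⟨h0', ⟨f', hf', g', hg', e'⟩, h1'⟩ := h'
  refine v_eq va C h0 h0' ?_ ?_
  · have := h1' f hf g hg
    rwa [← e] at this
  · have := h1 f' hf' g' hg'
    rwa [← e'] at this

theorem der_frac (d : Derivation ℂ K K) {f a b : K} (hb : b ≠ 0) (h : f * b = a) :
    d f = b⁻¹ * d a - f * b⁻¹ * d b := by
  have h1 : d a = f * d b + b * d f := by
    rw [← h, Derivation.leibniz, smul_eq_mul, smul_eq_mul]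
  rw [h1]
  field_simp
  ring

theorem wd_frac (D : Fin 2 → Derivation ℂ K K) {f a b g c d : K} (hb : b ≠ 0) (hd : d ≠ 0)
    (h : f * b = a) (h' : g * d = c) (w : K) :
    Wd D f g / w = b⁻¹ * d⁻¹ * (Wd D a c / w) - b⁻¹ * d⁻¹ * g * (Wd D a d / w) -
      b⁻¹ * d⁻¹ * f * (Wd D b c / w) + b⁻¹ * d⁻¹ * f * g * (Wd D b d / w) := by
  simp only [Wd]
  rw [der_frac (D 0) hb h, der_frac (D 1) hb h, der_frac (D 0) hd h', der_frac (D 1) hd h']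
  ring

theorem up (G : G0 ξ) (D : Fin 2 → Derivation ℂ K K) (x : Pt ℂ ξ) (C : Cv ℂ ξ) (w : K)
    (hx : x.On C) (h : GenO D x.ctr.O w) : GenO D C.O w := by
  obtain ⟨h0, ⟨f, hf, g, hg, e⟩, h1⟩ := h
  refine ⟨h0, ⟨f, hx.le hf, g, hx.le hg, e⟩, ?_⟩
  obtain ⟨π, -, hπ, hO⟩ := G.cv.on x C hx
  have key : ∀ f ∈ C.O, ∃ a ∈ x.ctr.O, ∃ b ∈ x.ctr.O, b ≠ 0 ∧ b⁻¹ ∈ C.O ∧ f * b = a := by
    intro f hf
    obtain ⟨a, b, hb, e⟩ := (hO f).mp hf
    have hb0 : (b : K) ≠ 0 := fun h0 => hb (by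
      rw [show b = 0 from Subtype.ext h0]
      exact dvd_zero _)
    refine ⟨a, a.2, b, b.2, hb0, ?_, e⟩
    have hbO : (b : K) ∈ C.O := hx.le b.2
    have h2 := (G.va.mem C _ hb0).mp hbO
    have h3 : ¬ 0 < C.v b := fun hh => hb ((hπ b).mpr ((G.va.pos C _ hb0 hbO).mp hh))
    rw [G.va.mem C _ (inv_ne_zero hb0), v_inv G.va C hb0]
    omega
  intro f hf g hg
  obtain ⟨a, ha, b, hb, hb0, hbi, e1⟩ := key f hf
  obtain ⟨c, hc, d, hd, hd0, hdi, e2⟩ := key g hg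
  rw [wd_frac D hb0 hd0 e1 e2]
  have m := C.O.mul_mem hbi hdi
  exact C.O.add_mem (C.O.sub_mem (C.O.sub_mem (C.O.mul_mem m (hx.le (h1 a ha c hc)))
    (C.O.mul_mem (C.O.mul_mem m hg) (hx.le (h1 a ha d hd))))
    (C.O.mul_mem (C.O.mul_mem m hf) (hx.le (h1 b hb c hc))))
    (C.O.mul_mem (C.O.mul_mem (C.O.mul_mem m hf) hg) (hx.le (h1 b hb d hd)))

theorem hv (G : G0 ξ) (C : Cv ℂ ξ) (j : Fin (N + 1)) (hj : X j ∉ C.P) :
    ξ j ≠ 0 ∧ C.v (ξ j) = -hdv C := by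
  have hi := (Ctr.idx_spec C.good).1
  have h0 : ξ j ≠ 0 := by simpa using C.toCtr.aeval_ne (isHomogeneous_X ℂ j) hj
  refine ⟨h0, ?_⟩
  rw [hdv, neg_neg]
  refine v_eq G.va C h0 (Ctr.xi_ne C.good) ?_ ?_
  · simpa using C.toCtr.div_mem (isHomogeneous_X ℂ j) (isHomogeneous_X ℂ C.idx) hi
  · simpa using C.toCtr.div_mem (isHomogeneous_X ℂ C.idx) (isHomogeneous_X ℂ j) hj

end CAaux

open CAaux in
theorem caS : CAStmt := by
  intro K _ _ N ξ G D hK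
  obtain ⟨S, hS, hSx⟩ := hK
  have hex : ∀ C : Cv ℂ ξ, ∃ w ∈ S, GenO D C.O w := fun C => by
    obtain ⟨x, hx⟩ := G.cv.pt C
    obtain ⟨w, hw, h⟩ := hSx x
    exact ⟨w, hw, up G D x C w hx h⟩
  have hkv : ∀ (C : Cv ℂ ξ) (w : K), GenO D C.O w → C.v w = -kdv D C := fun C w h => by
    rw [kdv, neg_neg]
    exact gen_eq G.va D C h (Classical.epsilon_spec ⟨w, h⟩)
  refine ⟨?_, ?_, fun C => (hex C).imp fun _ h => h.2, hkv, up G D,
    fun C j hj => (hv G C j hj).2, ?_⟩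
  · refine (hS.biUnion fun w _ => G.fin.v w).subset fun C hC => ?_
    obtain ⟨w, hw, h⟩ := hex C
    refine Set.mem_biUnion hw ?_
    rw [Set.mem_setOf_eq, hkv C w h]
    exact neg_ne_zero.mpr hC
  · refine (Set.finite_iUnion fun j => G.fin.v (ξ j)).subset fun C hC => ?_
    exact Set.mem_iUnion.mpr ⟨C.idx, neg_ne_zero.mp hC⟩
  · intro x j w h M e hj hw hh
    have hxj : X j ∉ x.ctr.P := by rwa [Pt.mem_P, eval_X]
    have h0 : ξ j ≠ 0 := by simpa using x.ctr.aeval_ne (isHomogeneous_X ℂ j) hxj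
    have hd : ξ j ^ e * w ^ M ≠ 0 := mul_ne_zero (zpow_ne_zero _ h0) (zpow_ne_zero _ hw.1)
    refine ⟨div_ne_zero hh hd, fun C hC => ?_⟩
    have hCj : X j ∉ C.P := fun hh => hxj (hC 1 _ (isHomogeneous_X ℂ j) hh)
    rw [v_div G.va C hh hd, G.va.mul C _ _ (zpow_ne_zero _ h0) (zpow_ne_zero _ hw.1),
      v_zpow G.va C h0, v_zpow G.va C hw.1, (hv G C j hCj).2, hkv C w (up G D x C w hC hw), dv]
    ring

end Pool.Agent.MP_c69980_ag.I2
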