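import Pool.Agent.MP_c69980_ag.I2.SpecA
import Pool.Agent.MP_c69980_ag.H43.FF
import Pool.Agent.MP_f3836a_nt.PK.GUp1
import Pool.Agent.MP_f3836a_nt.PK.GFF
import Pool.Agent.MP_f3836a_nt.PK.ARiem
import Pool.Agent.MP_f3836a_nt.PK.FCrv
import Pool.Agent.MP_f3836a_nt.PK.FBr1
import Pool.Agent.MP_f3836a_nt.PK.FBrA
import Pool.Agent.MP_f3836a_nt.PK.FBrB
import Pool.Agent.MP_f3836a_nt.PK.FLow
import Pool.Agent.MP_f3836a_nt.PK.FHer
import Pool.Agent.MP_f3836a_nt.PK.FApx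

/-! Points and places of a curve on a smooth projective surface. -/

set_option autoImplicit false

noncomputable section

namespace Pool.Agent.MP_c69980_ag.I2

open MvPolynomial IsLocalRing Pool.Agent.MP_f3836a_nt.PK

namespace CPa

open IntermediateField Module ARiem FCond in
/-- The inequality of Riemann, in every characteristic. -/
theorem riem (k L : Type) [Field k] [IsAlgClosed k] [Field L] [Algebra k L] (F : IsFF k L)
    (A : PlA k L) (B : PlB k L) : ∃ g : ℤ, ∀ E : Place k L →₀ ℤ, g ≤ ∑ᶠ P, E P →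
      ∃ f : L, f ≠ 0 ∧ ∀ P, -E P ≤ P.ord f := by
  obtain ⟨T, hT, -⟩ := id F
  obtain ⟨c, y, h1, h2, h3⟩ := rLow k L A B T ⊤ hT trivial fun f =>
    ⟨f, trivial, 1, trivial, one_ne_zero, mul_one f⟩
  have h0 : T ≠ 0 := fun h => hT (h ▸ isAlgebraic_zero)
  refine ⟨c * finrank (adjoin k {T}) L + 1, fun E hE => ?_⟩
  obtain ⟨h, k0, k1⟩ := zeros A hT E E.support
  let E' : Place k L →₀ ℤ := E - Finsupp.ofSupportFinite (fun P : Place k L => P.ord h) (B.fin h)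
  have e1 : ∀ P, E' P = E P - P.ord h := fun P => rfl
  have e2 : ∑ᶠ P, E' P = ∑ᶠ P, E P := by
    simp only [e1]
    rw [finsum_sub_distrib E.hasFiniteSupport (B.fin h), B.sum, sub_zero]
  obtain ⟨j, hj⟩ := (E'.support.finite_toSet.image fun P => (E' P).toNat).bddAbove
  have fs : (Function.support fun P : Place k L =>
      ((j + c : ℕ) : ℤ) * max (P.ord T⁻¹) 0).Finite :=
    (B.fin T⁻¹).subset fun P hP h => hP (by simp [h])
  have := (upper F A B hT (j + c)).1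
  suffices key : ∃ f : L, f ≠ 0 ∧ ∀ P, -E' P ≤ P.ord f by
    obtain ⟨f, f0, hf⟩ := key
    refine ⟨f * h⁻¹, mul_ne_zero f0 (inv_ne_zero k0), fun P => ?_⟩
    have := hf P
    rw [e1] at this
    rw [A.mul P _ _ f0 (inv_ne_zero k0), Cheb0.ord_inv A P k0]
    omega
  refine down A E' (j * finrank (adjoin k {T}) L) (Finsupp.ofSupportFinite _ fs)
    (WW k T (j + c)) (fun P => ?_) (fun f hf h P => (mem_WW A h0 h).1 hf P) ?_
    ((lower A hT (S := ⊤) trivial h1 h2 h3 j).trans (Submodule.finrank_mono inf_le_left))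
  · change _ ≤ ((j + c : ℕ) : ℤ) * max (P.ord T⁻¹) 0
    by_cases hP : T ∈ P.V
    · refine le_trans ?_ (mul_nonneg (Int.natCast_nonneg _) (le_max_right _ _))
      obtain ⟨b1, b2⟩ := k1 P hP
      rw [e1, sub_nonpos]
      by_cases hs : P ∈ E.support
      · exact b2 hs
      · rwa [Finsupp.notMem_support_iff.1 hs]
    · rw [A.mem P _ h0, not_le] at hP
      have b1 : ((j + c : ℕ) : ℤ) * 1 ≤ ((j + c : ℕ) : ℤ) * max (P.ord T⁻¹) 0 :=
        mul_le_mul_of_nonneg_left (by rw [Cheb0.ord_inv A P h0]; omega) (Int.natCast_nonneg _)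
      by_cases hs : P ∈ E'.support
      · have b2 : (E' P).toNat ≤ j := hj ⟨P, hs, rfl⟩
        omega
      · rw [Finsupp.notMem_support_iff.1 hs]
        omega
  · rw [Finsupp.ofSupportFinite_coe, ← mul_finsum,
      B.deg T⁻¹ fun h => hT (IsAlgebraic.inv_iff.1 h), Cheb0.adjoin_inv, e2]
    push_cast
    linarith

variable {K : Type} [Field K] [Algebra ℂ K] {N : ℕ} {ξ : Fin (N + 1) → K}

theorem surf0 (h : IsSurf ℂ ξ) : IsSurf0 ℂ ξ := by
  refine ⟨h.gen, fun x hx => ?_⟩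
  obtain ⟨y, rfl⟩ := (GUp1.pt_iff x).1 hx
  have key : ∀ S : Subring K, S = y.ctr.O → IsRegularLocalRing S ∧ ringKrullDim S = 2 := by
    rintro _ rfl
    exact ⟨h.reg y, h.dim y⟩
  exact key _ y.hp_O

theorem res_zero (C : Cv ℂ ξ) {x : Pt ℂ ξ} (hx : x.On C) (a : x.ctr.O) {n : ℕ} {A B : Pol ℂ N}
    (hA : A.IsHomogeneous n) (hB : B.IsHomogeneous n) (hP : B ∉ x.ctr.P)
    (e : (a : K) * aeval ξ B = aeval ξ A) : C.res a = 0 ↔ A ∈ C.P := by
  rw [C.res_of_mem ⟨a, hx.le a.2⟩, residue_eq_zero_iff]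
  exact C.toCtr.mem_max_iff ⟨a, hx.le a.2⟩ hA hB (fun h => hP (hx n B hB h)) e

theorem isCv (G : G0 ξ) (C : Cv ℂ ξ) : C.hp.IsCv := by
  have hS := surf0 G.surf
  refine ⟨fun h => EYA.ne_cl hS C h rfl, fun y hy => ?_⟩
  by_contra hc
  have ht : y.O ≠ ⊤ := fun e => EYA.ne_top C (top_le_iff.1 (e ▸ EYA.le hy.le))
  obtain ⟨C', rfl⟩ := (EYA.cv hS y).2 ⟨hc, ht⟩
  obtain ⟨x, hx'⟩ := G.cv.pt C'
  have hle : C.P ≤ C'.P := hy.le
  have hx : x.On C := fun n A hA h => hx' n A hA (hle h)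
  obtain ⟨π, hπ, h1, -⟩ := G.cv.on x C hx
  obtain ⟨π', hπ', h2, -⟩ := G.cv.on x C' hx'
  have h3 : ∀ a : x.ctr.O, C.res a = 0 → C'.res a = 0 := fun a ha => by
    obtain ⟨n, A, B, hA, hB, hP, e⟩ := a.2
    exact (res_zero C' hx' a hA hB hP e).2 (hle ((res_zero C hx a hA hB hP e).1 ha))
  have h4 : Associated π' π :=
    hπ'.irreducible.associated_of_dvd hπ.irreducible ((h2 π).2 (h3 π ((h1 π).1 dvd_rfl)))
  have h5 := G.cv.uniq x C C' hx hx' fun a => by rw [← h1, ← h2, h4.dvd_iff_dvd_left]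
  rw [h5] at hy
  exact lt_irrefl _ hy

variable (C : Cv ℂ ξ)

/-- The generic point of the curve. -/
def et : Fin (N + 1) → C.κ := C.hp.eta

theorem et_zero {n : ℕ} {A : Pol ℂ N} (hA : A.IsHomogeneous n) : aeval (et C) A = 0 ↔ A ∈ C.P :=
  C.hp.eta_zero hA

/-- The curve as a variety. -/
abbrev vr : Var ℂ N :=
  @Var.mk ℂ _ N C.κ (inferInstance : Field C.κ) (inferInstance : Algebra ℂ C.κ) (et C)
    C.hp.gen_eta

/-- A point of the surface on `C` as a point of the curve. -/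
def up (x : Pt ℂ ξ) (hx : x.On C) : Pt ℂ (et C) :=
  ⟨x.z, x.norm, fun n G hG e => hx n G hG ((et_zero C hG).1 e)⟩

/-- A point of the curve as a point of the surface. -/
def dn (y : Pt ℂ (et C)) : Pt ℂ ξ :=
  ⟨y.z, y.norm, fun n G hG e => y.van n G hG ((et_zero C hG).2 (C.van n G hG e))⟩

theorem dn_on (y : Pt ℂ (et C)) : (dn C y).On C :=
  fun n G hG h => y.van n G hG ((et_zero C hG).2 h)

theorem res_frac {x : Pt ℂ ξ} (hx : x.On C) (a : x.ctr.O) {n : ℕ} {A B : Pol ℂ N}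
    (hA : A.IsHomogeneous n) (hB : B.IsHomogeneous n) (e : (a : K) * aeval ξ B = aeval ξ A) :
    C.res a * aeval (et C) B = aeval (et C) A := by
  rw [C.res_of_mem ⟨a, hx.le a.2⟩]
  exact C.hp.res_frac ⟨a, hx.le a.2⟩ hA hB e

theorem loc_eq {x : Pt ℂ ξ} (hx : x.On C) : C.loc x = (up C x hx).ctr.O := by
  ext f
  rw [CVA.mem_loc hx]
  constructor
  · rintro ⟨a, rfl⟩
    obtain ⟨n, A, B, hA, hB, h1, h2⟩ := a.2
    exact ⟨n, A, B, hA, hB, h1, res_frac C hx a hA hB h2⟩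
  · rintro ⟨n, A, B, hA, hB, h1, h2⟩
    have h3 : B ∉ x.ctr.P := h1
    refine ⟨⟨_, x.ctr.div_mem hA hB h3⟩, ?_⟩
    have h4 := res_frac C hx ⟨_, x.ctr.div_mem hA hB h3⟩ hA hB
      (div_mul_cancel₀ _ (x.ctr.aeval_ne hB h3))
    exact mul_right_cancel₀ ((up C x hx).ctr.aeval_ne hB h1) (h4.trans h2.symm)

variable {C}

theorem ov_iff (cen : CenA ℂ (et C)) {x : Pt ℂ ξ} (hx : x.On C) (P : Place ℂ C.κ) :
    Ov C x P ↔ Cen (et C) x.z P := by
  rw [Ov, and_iff_right hx, loc_eq C hx]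
  exact (cen.dom (up C x hx) P).symm

theorem dvr_iff {x : Pt ℂ ξ} (hx : x.On C) :
    IsDiscreteValuationRing (C.loc x) ↔ IsDiscreteValuationRing (up C x hx).ctr.O := by
  have key : ∀ S T : Subring C.κ, S = T →
      (IsDiscreteValuationRing S ↔ IsDiscreteValuationRing T) := by
    rintro _ _ rfl
    exact Iff.rfl
  exact key _ _ (loc_eq C hx)

theorem max_iff (cen : CenA ℂ (et C)) (x : Pt ℂ ξ) (P : Place ℂ C.κ) (h : Ov C x P)
    (a : x.ctr.O) : a ∈ maximalIdeal x.ctr.O ↔ P.Zero (C.res a) := by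
  obtain ⟨n, A, B, hA, hB, h1, h2⟩ := a.2
  have h3 := res_frac C h.1 a hA hB h2
  have h4 : C.res a ∈ (up C x h.1).ctr.O := ⟨n, A, B, hA, hB, h1, h3⟩
  rw [x.ctr.mem_max_iff a hA hB h1 h2]
  exact ((up C x h.1).ctr.mem_max_iff ⟨_, h4⟩ hA hB h1 h3).symm.trans
    (cen.max (up C x h.1) P ((ov_iff cen h.1 P).1 h) ⟨_, h4⟩)

/-- Summation along the fibres of a map. -/
theorem fib {α β : Type} (R : α → β → Prop) (Q : α → Prop) (hex : ∀ b, ∃ a, R a b)
    (hu : ∀ a a' b, R a b → R a' b → a = a') (hQ : ∀ a b, R a b → Q a) (g : β → ℤ)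
    (hg : {b | g b ≠ 0}.Finite) :
    ∑ᶠ (a : α) (_ : Q a), ∑ᶠ (b : β) (_ : R a b), g b = ∑ᶠ b, g b := by
  classical
  choose c hc using hex
  have h1 : ∀ a, ∑ᶠ (b : β) (_ : R a b), g b = ∑ b ∈ hg.toFinset with c b = a, g b := fun a => by
    rw [Finset.sum_filter, finsum_eq_sum_of_support_subset (s := hg.toFinset)]
    · refine Finset.sum_congr rfl fun b _ => ?_
      rw [finsum_eq_if]
      exact if_congr ⟨fun h => hu _ _ b (hc b) h, fun h => h ▸ hc b⟩ rfl rfl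
    · intro b hb
      rw [Function.mem_support, finsum_eq_if] at hb
      exact hg.mem_toFinset.2 fun h0 => hb (by rw [h0, ite_self])
  have h2 : ∀ a, ∑ᶠ (_ : Q a), ∑ᶠ (b : β) (_ : R a b), g b =
      ∑ b ∈ hg.toFinset with c b = a, g b := fun a => by
    rw [finsum_eq_if, h1]
    split_ifs with h
    · rfl
    · refine (Finset.sum_eq_zero fun b hb => absurd ?_ h).symm
      exact hQ a b ((Finset.mem_filter.1 hb).2 ▸ hc b)
  rw [finsum_congr h2, finsum_eq_sum_of_support_subset (s := hg.toFinset.image c),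
    Finset.sum_fiberwise_of_maps_to fun b hb => Finset.mem_image_of_mem c hb,
    finsum_eq_sum_of_support_subset g (s := hg.toFinset) fun b hb => hg.mem_toFinset.2 hb]
  intro a ha
  obtain ⟨b, hb, -⟩ := Finset.exists_ne_zero_of_sum_ne_zero ha
  exact Finset.mem_coe.2 (Finset.mem_image.2
    ⟨b, (Finset.mem_filter.1 hb).1, (Finset.mem_filter.1 hb).2⟩)

end CPa

open CPa in
theorem cpS : CPStmt := by
  intro K _ _ N ξ G C
  have ff : IsFF ℂ C.κ := rFF ℂ K N ξ C.hp (isCv G C)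
  obtain ⟨-, pa, pb⟩ := H43.ffd_of ff
  have ca : CrvA (vr C) := rCrvA rCenA ℂ N (vr C) ff pa pb
  have b1 := rBr1 (rCond rLow) ℂ N (vr C) ff pa pb ca
  have ba := rBrA rHer rApx ℂ N (vr C) ff pa pb ca b1
  have bb := rBrB rApx ℂ N (vr C) ff pa pb ca b1 ba
  have cen : CenA ℂ (et C) := ca.cen
  have ex : ∀ P, ∃ x, Ov C x P := fun P => by
    obtain ⟨y, hy⟩ := cen.ex P
    exact ⟨dn C y, (ov_iff cen (dn_on C y) P).2 hy⟩
  have uniq : ∀ x y P, Ov C x P → Ov C y P → x = y := fun x y P hx hy =>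
    Pt.ext (cen.uniq _ _ P ((ov_iff cen hx.1 P).1 hx) ((ov_iff cen hy.1 P).1 hy))
  have pt : ∀ x : Pt ℂ ξ, x.On C → ∃ P, Ov C x P := fun x hx =>
    (ca.pt (up C x hx)).imp fun P hP => (ov_iff cen hx P).2 hP
  have fin : ∀ x, {P | Ov C x P}.Finite := fun x =>
    (ca.fin x.z).subset fun P hP => (ov_iff cen hP.1 P).1 hP
  have ord : ∀ x : Pt ℂ ξ, x.On C → ∀ f : C.κ, f ≠ 0 →
      C.ordAt x f = ∑ᶠ (P : Place ℂ C.κ) (_ : Ov C x P), P.ord f := fun x hx f hf => by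
    rw [Cv.ordAt, loc_eq C hx]
    refine (ba.ord (up C x hx) f hf).trans (finsum_congr fun P => ?_)
    exact finsum_congr_Prop (propext (ov_iff cen hx P).symm) fun _ => rfl
  refine ⟨ff, pa, pb, ex, uniq, pt, fin, ord, max_iff cen, fun f hf => ?_, ?_, fun x hx => ?_,
    fun x P h hd => ?_, riem ℂ _ ff pa pb, ?_⟩
  · rw [← pb.sum f, ← fib (fun x P => Ov C x P) (fun x => x.On C) ex uniq (fun _ _ h => h.1)
      (fun P => P.ord f) (pb.fin f)]
    exact finsum_congr fun x => finsum_congr fun hx => ord x hx f hf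
  · refine (bb.sing.image (dn C)).subset fun x hx => ⟨up C x hx.1, fun h => ?_, Pt.ext rfl⟩
    exact hx.2 ((dvr_iff hx.1).2 h)
  · have hz : x.z x.ctr.idx ≠ 0 := x.z_idx.1 ▸ one_ne_zero
    have hi : et C x.ctr.idx ≠ 0 := fun e => hz (by
      have := hx 1 _ (isHomogeneous_X ℂ x.ctr.idx)
        ((et_zero C (isHomogeneous_X ℂ x.ctr.idx)).1 (by rw [aeval_X]; exact e))
      rwa [eval_X] at this)
    obtain ⟨h, h0, hh⟩ : ∃ h : C.κ, h ≠ 0 ∧ ∀ f : C.κ,
        (∀ P : Place ℂ C.κ, Cen (et C) x.z P → f ∈ P.V) → h * f ∈ (up C x hx).ctr.O :=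
      (b1 _ hi).imp fun h hh => ⟨hh.1, (hh.2 (up C x hx) hz).2⟩
    obtain ⟨b, hb⟩ := ((fin x).image fun P => P.ord h).bddAbove
    refine ⟨max b 0 + 1, fun f hf H => ?_⟩
    have hq : f / h ≠ 0 := div_ne_zero hf h0
    have h1 := hh (f / h) fun P hP => by
      have hP' := (ov_iff cen hx P).2 hP
      have h2 := H P hP'
      have h3 : P.ord h ≤ b := hb ⟨P, hP', rfl⟩
      have h4 := pa.mul P (f / h) h hq h0
      rw [div_mul_cancel₀ _ h0] at h4
      rw [pa.mem P _ hq]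
      omega
    rw [mul_div_cancel₀ _ h0, ← loc_eq C hx, CVA.mem_loc hx] at h1
    obtain ⟨a, rfl⟩ := h1
    obtain ⟨P, hP⟩ := pt x hx
    have h2 := H P hP
    exact ⟨a, (max_iff cen x P hP a).2 (Or.inr (by omega)), rfl⟩
  · rw [loc_eq C h.1]
    exact bb.one (up C x h.1) P ((dvr_iff h.1).1 hd) ((ov_iff cen h.1 P).1 h)
  · have : Infinite (Pt ℂ (et C)) := ca.inf
    exact Set.infinite_of_injective_forall_mem (f := dn C)
      (fun y y' e => Pt.ext (congrArg Pt.z e : (dn C y).z = (dn C y').z)) (dn_on C)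

end Pool.Agent.MP_c69980_ag.I2
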