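import Pool.Agent.MP_c69980_ag.I2.SpecB

/-!
The bubble lies in one connected component of the fibre.
-/

set_option autoImplicit false

noncomputable section

namespace Pool.Agent.MP_c69980_ag.I2

open Metric Filter Topology Set
open H60 H4 E1

namespace Cf

section
variable {n : ℕ} {A A' : Set (V n)} {η : ℝ} {y y' : V n}

/-- Neighbourhoods of a cone. -/
def Nb (A : Set (V n)) (η : ℝ) : Set (V n) := {y | y ≠ 0 ∧ ∃ w ∈ A, d2 y w < η}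

theorem Nb.pp (h : y ∈ Nb A η) (H : Pp y' y) : y' ∈ Nb A η :=
  ⟨H.ne h.1, h.2.imp fun w hw => ⟨hw.1, (H.d2 (.refl w)).symm ▸ hw.2⟩⟩

theorem cont_d2 {w : V n} (y0 : y ≠ 0) (w0 : w ≠ 0) : ContinuousAt (fun v => d2 v w) y :=
  d2_lim (f := id) (g := fun _ => w) tendsto_id tendsto_const_nhds y0 w0

theorem nb_open (h : ∀ w ∈ A, w ≠ 0) : IsOpen (Nb A η) :=
  isOpen_iff_mem_nhds.2 fun _ ⟨y0, w, hw, hd⟩ => by
    filter_upwards [eventually_ne_nhds y0, (cont_d2 y0 (h w hw)).eventually_lt_const hd]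
      with v a b using ⟨a, w, hw, b⟩

theorem mem_nb (h : y ∈ A) (y0 : y ≠ 0) (hη : 0 < η) : y ∈ Nb A η :=
  ⟨y0, y, h, (d2_eq_zero y0 y0).2 (.refl y) ▸ hη⟩

theorem unit (y0 : y ≠ 0) : ∃ v ∈ sphere (0 : V n) 1, Pp v y :=
  ⟨((‖y‖⁻¹ : ℝ) : ℂ) • y, by
    rw [mem_sphere_zero_iff_norm, norm_smul, Complex.norm_real, norm_inv, norm_norm,
      inv_mul_cancel₀ (norm_ne_zero_iff.2 y0)],
    Pp.smul (Complex.ofReal_ne_zero.2 (inv_ne_zero (norm_ne_zero_iff.2 y0))) y⟩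

theorem ne_of_unit (h : y ∈ sphere (0 : V n) 1) : y ≠ 0 := ne_zero_of_mem_sphere one_ne_zero ⟨y, h⟩

/-- Closed cones. -/
structure Cc (A : Set (V n)) : Prop where
  ne : ∀ y ∈ A, y ≠ 0
  pp : ∀ y ∈ A, ∀ y', Pp y' y → y' ∈ A
  cl : ∀ y ∈ closure A, y ≠ 0 → y ∈ A

/-- Disjoint closed cones have disjoint neighbourhoods. -/
theorem sep (h : Cc A) (h' : Cc A') (hd : ∀ y ∈ A, y ∉ A') :
    ∃ η : ℝ, 0 < η ∧ Disjoint (Nb A η) (Nb A' η) := by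
  have c : ∀ B : Set (V n), IsCompact (sphere (0 : V n) 1 ∩ closure B) := fun B =>
    (isCompact_sphere _ _).inter_right isClosed_closure
  obtain ⟨ε, e0, hε⟩ := ((c A).prod (c A')).exists_forall_le'
    (f := fun q : V n × V n => d2 q.1 q.2) (a := 0)
    (fun q hq => (d2_cont (ne_of_unit hq.1.1) (ne_of_unit hq.2.1)).continuousWithinAt)
    fun q hq => d2_pos (ne_of_unit hq.1.1) (ne_of_unit hq.2.1) fun H =>
      hd _ (h.cl _ hq.1.2 (ne_of_unit hq.1.1))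
        (h'.pp _ (h'.cl _ hq.2.2 (ne_of_unit hq.2.1)) _ H)
  refine ⟨ε / 4, by positivity, disjoint_left.2 fun v ⟨v0, w, hw, a⟩ ⟨_, w', hw', b⟩ => ?_⟩
  obtain ⟨p, p1, p2⟩ := unit (h.ne w hw)
  obtain ⟨p', p1', p2'⟩ := unit (h'.ne w' hw')
  have e := hε (p, p') ⟨⟨p1, subset_closure (h.pp w hw p p2)⟩,
    p1', subset_closure (h'.pp w' hw' p' p2')⟩
  have t := H84.d2_tri (h.ne w hw) v0 (h'.ne w' hw')
  rw [d2_symm w v] at t
  rw [p2.d2 p2'] at e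
  linarith

/-- Nearby fibres lie in any open cone that contains the fibre. -/
theorem near {X : Set (Pt n)} (hX : Cn X) (b : ℂ) {O : Set (V n)} (hO : IsOpen O)
    (hp : ∀ y ∈ O, ∀ y', Pp y' y → y' ∈ O) (hb : ∀ y, (b, y) ∈ X → y ∈ O) :
    ∃ ε : ℝ, 0 < ε ∧ ∀ t ∈ ball b ε, ∀ y, (t, y) ∈ X → y ∈ O := by
  obtain ⟨ε, e0, hε⟩ := ((((isCompact_closedBall b 1).prod
    ((isCompact_sphere (0 : V n) 1).diff hO))).inter_right
      (isClosed_closure (s := X))).exists_forall_le' (f := fun q : Pt n => dist q.1 b) (a := 0)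
    (by fun_prop) fun q hq => dist_pos.2 fun e =>
      hq.1.2.2 (hb _ (e ▸ hX.closed q hq.2 (ne_of_unit hq.1.2.1)))
  refine ⟨min ε 1, lt_min e0 one_pos, fun t ht y hy => by_contra fun hn => ?_⟩
  obtain ⟨v, v1, v2⟩ := unit (hX.nz _ hy)
  rw [mem_ball, lt_min_iff] at ht
  exact not_le.2 ht.1 (hε (t, v) ⟨⟨ht.2.le, v1, fun H => hn (hp v H y v2.symm)⟩,
    subset_closure (hX.pp hy v2)⟩)

end

variable {K : Type} [Field K] [Algebra ℂ K] {N : ℕ}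

/-- The cone over a set of curves. -/
def Kc {ξ : Fin (N + 1) → K} (J : Finset (CC ξ)) : Set (V (N + 1)) :=
  {y | ∃ C ∈ J, ∃ x : PP ξ, x.On C ∧ Pp y x.z}

theorem cc {d : FD K N} {I J : Finset (CC d.z)} (br : Br d.toSf) (fb : FB d I) (hJ : J ⊆ I) :
    Cc (Kc J) where
  ne := fun _ ⟨_, _, x, _, h⟩ => h.ne (br.cone x).1
  pp := fun _ ⟨C, hC, x, a, h⟩ _ H => ⟨C, hC, x, a, H.trans h⟩
  cl := fun y hy y0 => by
    have h1 : (d.b, y) ∈ d.X := d.cn.closed _ (map_mem_closure (f := fun v => (d.b, v))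
      (by fun_prop) hy fun v ⟨C, hC, x, a, h⟩ => d.cn.pp ((fb.mem C).1 (hJ hC) x a) h) y0
    obtain ⟨x, hx⟩ := br.pt y (d.gr _ h1).1
    by_contra hn
    have h2 : ∀ᶠ v in 𝓝 y, ∀ C ∈ J, ∀ x' : PP d.z, x'.On C → ¬Pp v x'.z :=
      (eventually_all_finset J).2 fun C hC => by
        obtain ⟨δ, δ0, hδ⟩ := br.away x C fun a => hn ⟨C, hC, x, a, hx⟩
        filter_upwards [(cont_d2 y0 y0).eventually_lt_const
          (((d2_eq_zero y0 y0).2 (.refl y)).trans_lt δ0)] with v hv x' a H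
        rw [H.d2 hx] at hv
        exact not_le.2 hv (hδ x' a)
    obtain ⟨v, ⟨C, hC, x', a, H⟩, hv⟩ := ((mem_closure_iff_frequently.1 hy).and_eventually h2).exists
    exact hv C hC x' a H

end Cf

open Cf

theorem cfS : CfStmt := by
  classical
  intro K _ _ N d I I₀ u r g s br fb r0 hg hs hI ⟨o, ho, y, y1, y2⟩ hd C hC hC0 x hx
  have c0 := cc br fb hI
  have c1 := cc br fb (Finset.sdiff_subset (s := I) (t := I₀))
  obtain ⟨η, η0, hη⟩ := sep c0 c1 fun v ⟨A, hA, p, p1, p2⟩ ⟨A', hA', p', p1', p2'⟩ =>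
    hd A hA A' (Finset.mem_sdiff.1 hA').1 (Finset.mem_sdiff.1 hA').2 p p1
      (br.uniq p' p (p2'.symm.trans p2) ▸ p1')
  have o0 := nb_open (η := η) c0.ne
  have o1 := nb_open (η := η) c1.ne
  obtain ⟨ε, ε0, hε⟩ := near d.cn d.b (o0.union o1)
    (fun v hv v' H => hv.imp (Nb.pp · H) (Nb.pp · H)) fun v hv => by
      obtain ⟨p, hp⟩ := br.pt v (d.gr _ hv).1
      obtain ⟨A, hA, a⟩ := fb.thru p (d.cn.pp hv hp.symm)
      by_cases h0 : A ∈ I₀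
      · exact Or.inl (mem_nb ⟨A, h0, p, a, hp⟩ (d.cn.nz _ hv) η0)
      · exact Or.inr (mem_nb ⟨A, Finset.mem_sdiff.2 ⟨hA, h0⟩, p, a, hp⟩ (d.cn.nz _ hv) η0)
  have gb : ∀ᶠ t in 𝓝 d.b, g t ∈ Nb (Kc I₀) η :=
    (E1.Crv.an hg.1 isOpen_ball (mem_ball_self r0)).continuousAt.eventually (o0.mem_nhds
      (mem_nb ⟨o, ho, y, y1, y2⟩ (hg.1.2 _ (mem_ball_self r0)) η0))
  have b1 : ∀ᶠ t in 𝓝 d.b, t ∈ ball d.b r := ball_mem_nhds d.b r0
  have b2 : ∀ᶠ t in 𝓝 d.b, t ∈ ball d.b ε := ball_mem_nhds d.b ε0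
  obtain ⟨ρ, ρ0, hρ⟩ := Metric.eventually_nhds_iff_ball.1 (gb.and (b1.and b2))
  obtain ⟨t0, t1, t2⟩ := (((eventually_mem_nhdsWithin (s := {d.b}ᶜ)).and
    (nhdsWithin_le_nhds (ball_mem_nhds d.b ρ0))).exists : ∃ t, t ∈ ({d.b}ᶜ : Set ℂ) ∧ t ∈ ball d.b ρ)
  obtain ⟨w, w1, w2⟩ := hs.2.pt (t := t0) ⟨(hρ t0 t2).2.1, t1⟩ tendsto_const_nhds
  refine ⟨min ρ η, lt_min ρ0 η0, ?_⟩
  filter_upwards [w2, w1.eventually (o0.mem_nhds (hρ t0 t2).1)] with k k1 k2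
  have sub : ball d.b ρ ⊆ ball d.b r := fun t ht => (hρ t ht).2.1
  have key := ((convex_ball d.b ρ).isPreconnected.image (s k)
    ((hs.1 k).1.1.continuousOn.mono sub)).subset_left_of_subset_union o0 o1 hη
    (by rintro _ ⟨t, ht, rfl⟩; exact hε t (hρ t ht).2.2 _ ((hs.1 k).2.2 t (sub ht)))
    ⟨s k t0, mem_image_of_mem _ t2, Nb.pp k2 k1⟩
  refine eq_empty_of_forall_notMem fun t ⟨a, b⟩ => ?_
  have ht : t ∈ ball d.b ρ := mem_ball_iff_norm.2 (a.trans_le (min_le_left _ _))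
  have h0 := key ⟨t, ht, rfl⟩
  exact disjoint_left.1 hη h0 ⟨h0.1, x.z, ⟨C, Finset.mem_sdiff.2 ⟨hC, hC0⟩, x, hx, .refl _⟩,
    b.trans_le (min_le_right _ _)⟩

end Pool.Agent.MP_c69980_ag.I2
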