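import Pool.Agent.MP_c69980_ag.I2.SpecB

/-!
The regular points of a component of the fibre lie in one class; there are finitely many classes.
-/

set_option autoImplicit false

noncomputable section

namespace Pool.Agent.MP_c69980_ag.I2

open Metric Filter Topology Set
open H60 H4 E1

namespace ClX

variable {n : ℕ} {X : Set (Pt n)} {t : ℂ} {y : V n}

/-- Neighbourhoods in the cone and in projective space. -/
lemma near_d2 (y0 : y ≠ 0) {P : V n → Prop} (h : ∀ᶠ w in 𝓝 y, P w) :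
    ∃ δ : ℝ, 0 < δ ∧ ∀ w, w ≠ 0 → d2 w y < δ → ∃ w', Pp w' w ∧ P w' := by
  obtain ⟨ε, ε0, hε⟩ := Metric.eventually_nhds_iff.1 (h.and (eventually_ne_nhds y0))
  have py := H84.sq_pos' y0
  refine ⟨ε ^ 2 / H4.sq y, by positivity, fun w w0 hw => ?_⟩
  rw [d2_symm, lt_div_iff₀ py, H84.d2_mul y0 w0] at hw
  have h1 : dist ((ip y w / H4.sq w) • w) y < ε := by
    rw [dist_comm, dist_eq_norm, pi_norm_lt_iff ε0]
    intro i
    refine lt_of_pow_lt_pow_left₀ 2 ε0.le (lt_of_le_of_lt ?_ hw)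
    exact Finset.single_le_sum (f := fun i => ‖(y - (ip y w / H4.sq w) • w) i‖ ^ 2)
      (fun _ _ => by positivity) (Finset.mem_univ i)
  obtain ⟨h2, h3⟩ := hε h1
  exact ⟨_, .smul (fun q => h3 (by rw [q, zero_smul])) w, h2⟩

lemma loc (hX : Cn X) (h : (t, y) ∈ Rx X) : ∀ᶠ w in 𝓝 y, (t, w) ∈ X → Cl X t y w := by
  obtain ⟨a, j, U, Y, c, z, z1, z2⟩ := h
  obtain ⟨r, r0, hr⟩ := Metric.mem_nhds_iff.1
    ((Continuous.prodMk_right t).continuousAt.preimage_mem_nhds (c.nhds z1))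
  have k : ∀ ζ ∈ ball z r, Cl X t y (Y (t, ζ)) := fun ζ hζ => by
    refine (Cl.pp (y' := Y (t, z)) ⟨(fun ζ => Y (t, ζ)) '' ball z r,
      (convex_ball z r).isPreconnected.image _
        (c.cont.comp (Continuous.prodMk_right t).continuousOn hr), ?_, ⟨ζ, hζ, rfl⟩,
      z, mem_ball_self r0, rfl⟩ z2).symm
    rintro _ ⟨w, hw, rfl⟩
    exact c.rx (hr hw) (.refl _)
  have m := (Continuous.prodMk_right (Y := V n) t).tendsto y
  filter_upwards [m.eventually (c.ev hX z1 z2), ((continuous_snd.tendsto _).comp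
    ((c.tend z1 z2).comp m)).eventually (ball_mem_nhds z r0)] with w w1 w2 hw
  exact (k _ w2).pp ⟨_, (w1 hw).1, (w1 hw).2.2⟩

lemma key (hX : Cn X) (h : (t, y) ∈ Rx X) :
    ∃ δ : ℝ, 0 < δ ∧ ∀ w, (t, w) ∈ X → d2 w y < δ → Cl X t y w := by
  obtain ⟨δ, δ0, hδ⟩ := near_d2 (hX.nz _ (Rx.mem hX h)) (loc hX h)
  refine ⟨δ, δ0, fun w hw hd => ?_⟩
  obtain ⟨w', h1, h2⟩ := hδ w (hX.nz _ hw) hd
  exact (h2 (hX.pp hw h1)).pp h1.symm

end ClX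

open ClX in
theorem clS : ClOf := by
  intro hM K _ _ N d I hB hC hI C hCI x x' hx hx' rx rx'
  have hfin := hI.rx2 C hCI (hI.rx1 x rx C hCI hx).1
  have hm := (hI.mem C).1 hCI
  have H := hM K N d.toSf hB C
    ({y | Cl d.X d.b x.z y.z} ∪ {y : PP d.z | y.On C ∧ (d.b, y.z) ∉ Rx d.X}) _ (hC C) hfin
    (fun y hy ha => ?_) (fun y ha hy hz => ?_) ⟨x, .inl (.of_pp rx (.refl _)), hx, fun q => q.2 rx⟩
    x' hx'
  · exact H.resolve_right fun q => q.2 rx'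
  · by_cases ry : (d.b, y.z) ∈ Rx d.X
    · obtain ⟨δ, δ0, hδ⟩ := key d.cn ry
      obtain ⟨w, w1, w2, w3⟩ := ha δ δ0
      have h1 := (hδ _ (hm w w2) w3).symm
      exact .inl ((w1.resolve_right fun q => q.2 h1.left).trans h1)
    · exact .inr ⟨hy, ry⟩
  · have h1 : Cl d.X d.b x.z y.z := ha.resolve_right hz
    obtain ⟨δ, δ0, hδ⟩ := key d.cn h1.symm.left
    exact ⟨δ, δ0, fun w w2 w3 => .inl (h1.trans (hδ _ (hm w w2) w3))⟩

theorem clsS : ClsOf := by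
  intro hBr hSt hCl K _ _ N d
  have hB := hBr K N d.toSf
  have hpt : ∀ y, (d.b, y) ∈ Rx d.X → ∃ x : PP d.z, Pp y x.z ∧ (d.b, x.z) ∈ Rx d.X := fun y hy => by
    obtain ⟨x, hx⟩ := hB.pt y (d.gr _ (Rx.mem d.cn hy)).1
    exact ⟨x, hx, Rx.pp hy hx.symm⟩
  by_cases h : ∃ y, (d.b, y) ∈ Rx d.X
  swap
  · exact ⟨∅, finite_empty, fun A hA => hA.elim, fun y hy => absurd ⟨y, hy⟩ h⟩
  obtain ⟨y₀, hy₀⟩ := h
  obtain ⟨x₀, -, r₀⟩ := hpt y₀ hy₀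
  obtain ⟨I, Z, a, hS, -⟩ := hSt K N d ∅ x₀ r₀
  refine ⟨(fun C : CC d.z => {w | ∃ x : PP d.z, x.On C ∧ Cl d.X d.b x.z w}) '' (I : Set (CC d.z)),
    I.finite_toSet.image _, ?_, fun y hy => ?_⟩
  · rintro _ ⟨C, hC, rfl⟩
    refine ⟨isPreconnected_of_forall_pair ?_, fun w ⟨_, _, hw⟩ => hw.symm.left⟩
    rintro w ⟨x, hx, h1⟩ w' ⟨x', hx', h2⟩
    obtain ⟨A, a1, a2, a3, a4⟩ := (h1.symm.trans
      (hCl K N d I hB hS.cp hS.fb C hC x x' hx hx' h1.left h2.left)).trans h2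
    exact ⟨A, fun v hv => ⟨x, hx, h1.trans ⟨A, a1, a2, a3, hv⟩⟩, a3, a4, a1⟩
  · obtain ⟨x, h1, h2⟩ := hpt y hy
    obtain ⟨C, hC, hx⟩ := hS.fb.thru x (Rx.mem d.cn h2)
    exact ⟨_, ⟨C, hC, rfl⟩, x, hx, .of_pp h2 h1⟩

end Pool.Agent.MP_c69980_ag.I2
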