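import Pool.Agent.MP_c69980_ag.I2.SpecA

/-!
Row IA: intersection numbers on a smooth projective surface.
-/

set_option autoImplicit false

noncomputable section

namespace Pool.Agent.MP_c69980_ag.I2

open MvPolynomial IsLocalRing Pool.Agent.MP_f3836a_nt.PK

namespace IAr

variable {K : Type} [Field K] [Algebra ℂ K] {N : ℕ} {ξ : Fin (N + 1) → K}

theorem v_one (G : G0 ξ) (C : Cv ℂ ξ) : C.v 1 = 0 := by
  have h := G.va.mul C 1 1 one_ne_zero one_ne_zero
  rw [mul_one] at h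
  omega

theorem v_inv (G : G0 ξ) (C : Cv ℂ ξ) {f : K} (hf : f ≠ 0) : C.v f⁻¹ = -C.v f := by
  have h := G.va.mul C f f⁻¹ hf (inv_ne_zero hf)
  rw [mul_inv_cancel₀ hf, v_one G] at h
  omega

theorem v_pow (G : G0 ξ) (C : Cv ℂ ξ) {f : K} (hf : f ≠ 0) (n : ℕ) :
    C.v (f ^ n) = n * C.v f := by
  induction n with
  | zero => simp [v_one G]
  | succ n ih => rw [pow_succ, G.va.mul C _ _ (pow_ne_zero _ hf) hf, ih]; push_cast; ring

theorem v_zpow (G : G0 ξ) (C : Cv ℂ ξ) {f : K} (hf : f ≠ 0) (n : ℤ) :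
    C.v (f ^ n) = n * C.v f := by
  obtain ⟨m, rfl | rfl⟩ := Int.eq_nat_or_neg n
  · rw [zpow_natCast, v_pow G C hf]
  · rw [zpow_neg, zpow_natCast, v_inv G C (pow_ne_zero _ hf), v_pow G C hf]; ring

theorem v_prod (G : G0 ξ) (C : Cv ℂ ξ) {ι : Type} (s : Finset ι) (f : ι → K)
    (hf : ∀ i ∈ s, f i ≠ 0) : C.v (∏ i ∈ s, f i) = ∑ i ∈ s, C.v (f i) := by
  classical
  induction s using Finset.induction_on with
  | empty => simp [v_one G]
  | insert a s ha ih =>
    rw [Finset.prod_insert ha, Finset.sum_insert ha,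
      G.va.mul C _ _ (hf a (Finset.mem_insert_self _ _))
        (Finset.prod_ne_zero_iff.mpr fun i hi => hf i (Finset.mem_insert_of_mem hi)),
      ih fun i hi => hf i (Finset.mem_insert_of_mem hi)]

/-- a unit along the curve -/
def Un (C : Cv ℂ ξ) (f : K) : Prop := f ≠ 0 ∧ C.v f = 0

theorem Un.mem (G : G0 ξ) {C : Cv ℂ ξ} {f : K} (h : Un C f) : f ∈ C.O :=
  (G.va.mem C f h.1).mpr h.2.ge

theorem Un.res_ne (G : G0 ξ) {C : Cv ℂ ξ} {f : K} (h : Un C f) : C.res f ≠ 0 := fun h0 => by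
  have := (G.va.pos C f h.1 (h.mem G)).mpr h0
  rw [h.2] at this
  exact lt_irrefl _ this

theorem Un.one (G : G0 ξ) (C : Cv ℂ ξ) : Un C 1 := ⟨one_ne_zero, v_one G C⟩

theorem Un.mul (G : G0 ξ) {C : Cv ℂ ξ} {f g : K} (hf : Un C f) (hg : Un C g) : Un C (f * g) :=
  ⟨mul_ne_zero hf.1 hg.1, by rw [G.va.mul C f g hf.1 hg.1, hf.2, hg.2, add_zero]⟩

theorem Un.zpow (G : G0 ξ) {C : Cv ℂ ξ} {f : K} (hf : Un C f) (n : ℤ) : Un C (f ^ n) :=
  ⟨zpow_ne_zero _ hf.1, by rw [v_zpow G C hf.1, hf.2, mul_zero]⟩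

theorem Un.prod (G : G0 ξ) {C : Cv ℂ ξ} {ι : Type} (s : Finset ι) (f : ι → K)
    (hf : ∀ i ∈ s, Un C (f i)) : Un C (∏ i ∈ s, f i) :=
  ⟨Finset.prod_ne_zero_iff.mpr fun i hi => (hf i hi).1, by
    rw [v_prod G C s f fun i hi => (hf i hi).1]
    exact Finset.sum_eq_zero fun i hi => (hf i hi).2⟩

/-- order at `x` of the restriction -/
def od (C : Cv ℂ ξ) (x : Pt ℂ ξ) (f : K) : ℤ := C.ordAt x (C.res f)

theorem od_mul (G : G0 ξ) {C : Cv ℂ ξ} {x : Pt ℂ ξ} (hx : x.On C) {f g : K} (hf : Un C f)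
    (hg : Un C g) : od C x (f * g) = od C x f + od C x g := by
  unfold od
  rw [C.res_mul (hf.mem G) (hg.mem G), G.va.omul x C hx _ _ (hf.res_ne G) (hg.res_ne G)]

theorem od_one (G : G0 ξ) {C : Cv ℂ ξ} {x : Pt ℂ ξ} (hx : x.On C) : od C x 1 = 0 := by
  have h := od_mul G hx (Un.one G C) (Un.one G C)
  rw [mul_one] at h
  omega

theorem od_zpow (G : G0 ξ) {C : Cv ℂ ξ} {x : Pt ℂ ξ} (hx : x.On C) {f : K} (hf : Un C f)
    (n : ℤ) : od C x (f ^ n) = n * od C x f := by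
  induction n using Int.induction_on with
  | zero => simp [od_one G hx]
  | succ n ih =>
    rw [zpow_add_one₀ hf.1, od_mul G hx (hf.zpow G _) hf, ih]; ring
  | pred n ih =>
    have h := od_mul G hx (hf.zpow G (-(n : ℤ) - 1)) hf
    rw [← zpow_add_one₀ hf.1, sub_add_cancel, ih] at h
    linear_combination -h

theorem od_prod (G : G0 ξ) {C : Cv ℂ ξ} {x : Pt ℂ ξ} (hx : x.On C) {ι : Type} (s : Finset ι)
    (f : ι → K) (hf : ∀ i ∈ s, Un C (f i)) :
    od C x (∏ i ∈ s, f i) = ∑ i ∈ s, od C x (f i) := by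
  classical
  induction s using Finset.induction_on with
  | empty => simp [od_one G hx]
  | insert a s ha ih =>
    rw [Finset.prod_insert ha, Finset.sum_insert ha,
      od_mul G hx (hf a (Finset.mem_insert_self _ _))
        (Un.prod G s f fun i hi => hf i (Finset.mem_insert_of_mem hi)),
      ih fun i hi => hf i (Finset.mem_insert_of_mem hi)]

open Classical in
/-- the local equation of `C` at `x` -/
def px (G : G0 ξ) (C : Cv ℂ ξ) (x : Pt ℂ ξ) : x.ctr.O :=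
  if h : x.On C then (G.cv.on x C h).choose else 1

theorem px_spec (G : G0 ξ) {C : Cv ℂ ξ} {x : Pt ℂ ξ} (h : x.On C) :
    Prime (px G C x) ∧ ∀ a : x.ctr.O, px G C x ∣ a ↔ C.res a = 0 := by
  unfold px
  rw [dif_pos h]
  exact ⟨(G.cv.on x C h).choose_spec.1, (G.cv.on x C h).choose_spec.2.1⟩

theorem px_off (G : G0 ξ) {C : Cv ℂ ξ} {x : Pt ℂ ξ} (h : ¬ x.On C) : px G C x = 1 := by
  unfold px
  rw [dif_neg h]

theorem px_ne (G : G0 ξ) (C : Cv ℂ ξ) (x : Pt ℂ ξ) : (px G C x : K) ≠ 0 := by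
  by_cases h : x.On C
  · exact fun h0 => (px_spec G h).1.ne_zero (Subtype.ext h0)
  · rw [px_off G h]; exact one_ne_zero

theorem v_px_self (G : G0 ξ) {C : Cv ℂ ξ} {x : Pt ℂ ξ} (h : x.On C) : C.v (px G C x) = 1 :=
  (G.va.pow x C h _ (px_spec G h).1 (px_spec G h).2).1

theorem not_dvd (G : G0 ξ) {C C' : Cv ℂ ξ} {x : Pt ℂ ξ} (h : x.On C) (hne : C ≠ C') :
    ¬ px G C x ∣ px G C' x := by
  intro hd
  by_cases h' : x.On C'
  · have ha : Associated (px G C x) (px G C' x) :=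
      (px_spec G h).1.associated_of_dvd (px_spec G h').1 hd
    refine hne (G.cv.uniq x C C' h h' fun a => ?_)
    rw [← (px_spec G h).2, ← (px_spec G h').2]
    exact ha.dvd_iff_dvd_left
  · rw [px_off G h'] at hd
    exact (px_spec G h).1.not_isUnit (isUnit_of_dvd_one hd)

theorem un_px (G : G0 ξ) {C C' : Cv ℂ ξ} {x : Pt ℂ ξ} (h : x.On C) (hne : C ≠ C') :
    Un C (px G C' x) := by
  refine ⟨px_ne G C' x, ?_⟩
  have hm : (px G C' x : K) ∈ C.O := h.le (px G C' x).2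
  have h1 := (G.va.mem C _ (px_ne G C' x)).mp hm
  have h2 : ¬ 0 < C.v (px G C' x) := fun h2 =>
    not_dvd G h hne (((px_spec G h).2 _).mpr ((G.va.pos C _ (px_ne G C' x) hm).mp h2))
  omega

theorem od_unit (G : G0 ξ) {C : Cv ℂ ξ} {x : Pt ℂ ξ} (hx : x.On C) (u : x.ctr.O)
    (hu : IsUnit u) : od C x u = 0 := by
  have h := (G.va.olen x C hx _ (px_spec G hx).2 u
    fun hd => (px_spec G hx).1.not_isUnit (isUnit_of_dvd_unit hd hu)).2
  have ht : Ideal.span {px G C x, u} = ⊤ :=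
    Ideal.eq_top_of_isUnit_mem _ (Ideal.subset_span (by simp)) hu
  have hs : Subsingleton (x.ctr.O ⧸ Ideal.span {px G C x, u}) :=
    Ideal.Quotient.subsingleton_iff.mpr ht
  unfold od
  rw [h, Module.length_eq_zero]
  rfl

open Classical in
/-- local intersection number -/
def len (G : G0 ξ) (C C' : Cv ℂ ξ) (x : Pt ℂ ξ) : ℤ :=
  if x.On C ∧ x.On C' then
    ((Module.length x.ctr.O (x.ctr.O ⧸ Ideal.span {px G C x, px G C' x})).toNat : ℤ) else 0

theorem len_symm (G : G0 ξ) (C C' : Cv ℂ ξ) (x : Pt ℂ ξ) : len G C C' x = len G C' C x := by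
  unfold len
  by_cases h : x.On C ∧ x.On C'
  · rw [if_pos h, if_pos h.symm, Set.pair_comm (px G C x)]
  · rw [if_neg h, if_neg fun hh => h hh.symm]

theorem len_nonneg (G : G0 ξ) (C C' : Cv ℂ ξ) (x : Pt ℂ ξ) : 0 ≤ len G C C' x := by
  unfold len
  split_ifs
  · exact Int.natCast_nonneg _
  · exact le_rfl

theorem len_off (G : G0 ξ) {C C' : Cv ℂ ξ} {x : Pt ℂ ξ} (h : ¬ (x.On C ∧ x.On C')) :
    len G C C' x = 0 := by
  unfold len
  rw [if_neg h]

theorem len_pos (G : G0 ξ) {C C' : Cv ℂ ξ} {x : Pt ℂ ξ} (hne : C ≠ C') (h : x.On C)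
    (h' : x.On C') : 0 < len G C C' x := by
  unfold len
  rw [if_pos ⟨h, h'⟩]
  have h1 := (G.va.olen x C h _ (px_spec G h).2 _ (not_dvd G h hne)).1
  have h2 : Module.length x.ctr.O (x.ctr.O ⧸ Ideal.span {px G C x, px G C' x}) ≠ 0 := by
    rw [Ne, Module.length_eq_zero_iff, Ideal.Quotient.subsingleton_iff]
    intro ht
    have hle : Ideal.span {px G C x, px G C' x} ≤ maximalIdeal x.ctr.O := by
      rw [Ideal.span_le]
      rintro a (rfl | rfl)
      · exact (px_spec G h).1.not_isUnit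
      · exact (px_spec G h').1.not_isUnit
    rw [ht, top_le_iff] at hle
    exact (maximalIdeal.isMaximal _).ne_top hle
  have h3 : (Module.length x.ctr.O (x.ctr.O ⧸ Ideal.span {px G C x, px G C' x})).toNat ≠ 0 := by
    rw [Ne, ENat.toNat_eq_zero, not_or]
    exact ⟨h2, h1⟩
  omega

theorem od_px (G : G0 ξ) {C C' : Cv ℂ ξ} {x : Pt ℂ ξ} (hne : C ≠ C') (h : x.On C) :
    od C x (px G C' x) = len G C C' x := by
  by_cases h' : x.On C'
  · unfold len od
    rw [if_pos ⟨h, h'⟩, (G.va.olen x C h _ (px_spec G h).2 _ (not_dvd G h hne)).2]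
  · rw [len_off G fun hh => h' hh.2, px_off G h']
    exact od_one G h

theorem len_fin (G : G0 ξ) {C C' : Cv ℂ ξ} (hne : C ≠ C') :
    (Function.support (len G C C')).Finite :=
  (G.two C C' hne).subset fun _ hx => by_contra fun hn => hx (len_off G hn)

/-- global intersection number of two different curves -/
def off (G : G0 ξ) (C C' : Cv ℂ ξ) : ℤ := ∑ᶠ x, len G C C' x

theorem off_symm (G : G0 ξ) (C C' : Cv ℂ ξ) : off G C C' = off G C' C :=
  finsum_congr fun x => len_symm G C C' x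

theorem off_nonneg (G : G0 ξ) (C C' : Cv ℂ ξ) : 0 ≤ off G C C' :=
  finsum_nonneg fun x => len_nonneg G C C' x

theorem off_pos (G : G0 ξ) {C C' : Cv ℂ ξ} (hne : C ≠ C') :
    0 < off G C C' ↔ ∃ x : Pt ℂ ξ, x.On C ∧ x.On C' := by
  constructor
  · intro h
    by_contra hn
    have : off G C C' = 0 :=
      finsum_eq_zero_of_forall_eq_zero fun x => len_off G fun hx => hn ⟨x, hx⟩
    omega
  · rintro ⟨x, h, h'⟩
    exact (len_pos G hne h h').trans_le
      (single_le_finsum x (len_fin G hne) fun y => len_nonneg G C C' y)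

theorem od_eqn (G : G0 ξ) {C : Cv ℂ ξ} {x : Pt ℂ ξ} (hx : x.On C) {n : Cv ℂ ξ → ℤ}
    (hn : (Function.support n).Finite)
    (h0 : n C = 0) {e : K} (he : Eqn x n e) :
    od C x e = ∑ C' ∈ hn.toFinset, n C' * len G C C' x := by
  classical
  have hne : ∀ C' ∈ hn.toFinset, C ≠ C' := fun C' h hh => by
    rw [Set.Finite.mem_toFinset, Function.mem_support, ← hh] at h
    exact h h0
  set p : K := ∏ C' ∈ hn.toFinset, (px G C' x : K) ^ n C' with hp
  have hp0 : p ≠ 0 := Finset.prod_ne_zero_iff.mpr fun C' _ => zpow_ne_zero _ (px_ne G C' x)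
  have hpv : ∀ D : Cv ℂ ξ, x.On D → D.v p = n D := fun D hD => by
    rw [hp, v_prod G D _ _ fun C' _ => zpow_ne_zero _ (px_ne G C' x),
      Finset.sum_eq_single D]
    · rw [v_zpow G D (px_ne G D x), v_px_self G hD, mul_one]
    · intro C' _ hC'
      rw [v_zpow G D (px_ne G C' x), (un_px G hD hC'.symm).2, mul_zero]
    · intro hD'
      rw [Set.Finite.mem_toFinset, Function.mem_support, not_not] at hD'
      rw [hD', zpow_zero, v_one G]
  have hu0 : e * p⁻¹ ≠ 0 := mul_ne_zero he.1 (inv_ne_zero hp0)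
  have huv : ∀ D : Cv ℂ ξ, x.On D → D.v (e * p⁻¹) = 0 := fun D hD => by
    rw [G.va.mul D _ _ he.1 (inv_ne_zero hp0), v_inv G D hp0, he.2 D hD, hpv D hD, add_neg_cancel]
  have hu1 : e * p⁻¹ ∈ x.ctr.O := G.reg x _ hu0 fun D hD => (huv D hD).ge
  have hu2 : (e * p⁻¹)⁻¹ ∈ x.ctr.O := G.reg x _ (inv_ne_zero hu0) fun D hD => by
    rw [v_inv G D hu0, huv D hD, neg_zero]
  have hu : IsUnit (⟨e * p⁻¹, hu1⟩ : x.ctr.O) :=
    IsUnit.of_mul_eq_one ⟨_, hu2⟩ (Subtype.ext (mul_inv_cancel₀ hu0))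
  have h1 : od C x (e * p⁻¹) = 0 := od_unit G hx _ hu
  have h2 := od_mul G hx ⟨hu0, huv C hx⟩ ⟨hp0, (hpv C hx).trans h0⟩
  rw [inv_mul_cancel_right₀ hp0, h1, zero_add] at h2
  rw [h2, hp, od_prod G hx _ _ fun C' h => (un_px G hx (hne C' h)).zpow G _]
  refine Finset.sum_congr rfl fun C' h => ?_
  rw [od_zpow G hx (un_px G hx (hne C' h)), od_px G (hne C' h) hx]

theorem ex_uni (G : G0 ξ) (C : Cv ℂ ξ) : ∃ φ : K, φ ≠ 0 ∧ C.v φ = 1 := by
  obtain ⟨x, hx⟩ := G.cv.pt C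
  exact ⟨_, px_ne G C x, v_px_self G hx⟩

/-- a uniformiser along `C` -/
def uni (G : G0 ξ) (C : Cv ℂ ξ) : K := (ex_uni G C).choose

open Classical in
/-- the intersection numbers -/
def num (G : G0 ξ) (C' C : Cv ℂ ξ) : ℤ :=
  if C' = C then -∑ D ∈ (G.fin.v (uni G C)).toFinset.erase C, D.v (uni G C) * off G D C
  else off G C' C

theorem num_off (G : G0 ξ) {C' C : Cv ℂ ξ} (h : C' ≠ C) : num G C' C = off G C' C := by
  unfold num
  rw [if_neg h]

theorem dot_eq (a : Cv ℂ ξ → Cv ℂ ξ → ℤ) {n : Cv ℂ ξ → ℤ} (s : Finset (Cv ℂ ξ))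
    (hs : ∀ D, n D ≠ 0 → D ∈ s) (C : Cv ℂ ξ) : dot a n C = ∑ D ∈ s, n D * a D C :=
  finsum_eq_sum_of_support_subset _ fun D hD => hs D fun h0 => hD (by simp [h0])

theorem dot_uni (G : G0 ξ) (C : Cv ℂ ξ) : dot (num G) (fun D => D.v (uni G C)) C = 0 := by
  classical
  have h1 : C.v (uni G C) = 1 := (ex_uni G C).choose_spec.2
  have hC : C ∈ (G.fin.v (uni G C)).toFinset := by
    rw [Set.Finite.mem_toFinset, Set.mem_ofPred_eq, h1]; exact one_ne_zero
  rw [dot_eq _ (G.fin.v (uni G C)).toFinset (fun D hD => by simpa using hD),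
    ← Finset.add_sum_erase _ _ hC, h1, one_mul,
    Finset.sum_congr rfl fun D hD => by rw [num_off G (Finset.ne_of_mem_erase hD)]]
  unfold num
  rw [if_pos rfl]
  exact neg_add_cancel _

theorem loc (G : G0 ξ) (n : Cv ℂ ξ → ℤ) (C : Cv ℂ ξ) (e : Pt ℂ ξ → K)
    (hn : (Function.support n).Finite) (h0 : n C = 0)
    (he : ∀ x : Pt ℂ ξ, x.On C → Eqn x n (e x)) :
    {x : Pt ℂ ξ | x.On C ∧ C.ordAt x (C.res (e x)) ≠ 0}.Finite ∧
      dot (num G) n C = ∑ᶠ (x : Pt ℂ ξ) (_ : x.On C), C.ordAt x (C.res (e x)) := by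
  classical
  have hne : ∀ C' ∈ hn.toFinset, C ≠ C' := fun C' h hh => by
    rw [Set.Finite.mem_toFinset, Function.mem_support, ← hh] at h
    exact h h0
  have key : ∀ x : Pt ℂ ξ, x.On C →
      C.ordAt x (C.res (e x)) = ∑ C' ∈ hn.toFinset, n C' * len G C C' x :=
    fun x hx => od_eqn G hx hn h0 (he x hx)
  constructor
  · refine (Set.Finite.biUnion hn.toFinset.finite_toSet
      fun C' h => len_fin G (hne C' h)).subset fun x hx => ?_
    have h2 := hx.2
    rw [key x hx.1] at h2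
    obtain ⟨C', h3, h4⟩ := Finset.exists_ne_zero_of_sum_ne_zero h2
    exact Set.mem_biUnion h3 (right_ne_zero_of_mul h4)
  · have h1 : ∀ x : Pt ℂ ξ, ∑ᶠ (_ : x.On C), C.ordAt x (C.res (e x)) =
        ∑ C' ∈ hn.toFinset, n C' * len G C C' x := fun x => by
      by_cases hx : x.On C
      · rw [finsum_eq_if, if_pos hx, key x hx]
      · rw [finsum_eq_if, if_neg hx]
        exact (Finset.sum_eq_zero fun C' _ => by
          rw [len_off G fun hh => hx hh.1, mul_zero]).symm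
    rw [finsum_congr h1, dot_eq _ hn.toFinset (fun D hD => by simpa using hD),
      finsum_sum_comm _ (fun x C' => n C' * len G C C' x) fun C' h =>
        (len_fin G (hne C' h)).subset fun x hx => right_ne_zero_of_mul hx]
    refine Finset.sum_congr rfl fun C' h => ?_
    rw [num_off G (hne C' h).symm, off_symm, off, mul_finsum' _ _ (len_fin G (hne C' h))]

theorem prin (G : G0 ξ) (hC : ∀ C : Cv ℂ ξ, CP C) (f : K) (hf : f ≠ 0) (C : Cv ℂ ξ) :
    dot (num G) (fun D => D.v f) C = 0 := by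
  classical
  have h0 : uni G C ≠ 0 := (ex_uni G C).choose_spec.1
  have h1 : C.v (uni G C) = 1 := (ex_uni G C).choose_spec.2
  set g : K := f * uni G C ^ (-C.v f) with hg
  have hg0 : g ≠ 0 := mul_ne_zero hf (zpow_ne_zero _ h0)
  have hgv : ∀ D : Cv ℂ ξ, D.v g = D.v f - C.v f * D.v (uni G C) := fun D => by
    rw [hg, G.va.mul D _ _ hf (zpow_ne_zero _ h0), v_zpow G D h0]; ring
  have hgC : C.v g = 0 := by rw [hgv, h1]; ring
  have h2 := (loc G (fun D => D.v g) C (fun _ => g) (G.fin.v g) hgC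
    fun _ _ => ⟨hg0, fun _ _ => rfl⟩).2
  rw [(hC C).sum _ (Un.res_ne G ⟨hg0, hgC⟩)] at h2
  have h3 := dot_uni G C
  let s := (G.fin.v f).toFinset ∪ (G.fin.v (uni G C)).toFinset ∪ (G.fin.v g).toFinset
  rw [dot_eq _ s (fun D hD => by simp [s, hD])] at h2 h3 ⊢
  have h4 : ∑ D ∈ s, D.v f * num G D C =
      ∑ D ∈ s, D.v g * num G D C + C.v f * ∑ D ∈ s, D.v (uni G C) * num G D C := by
    rw [Finset.mul_sum, ← Finset.sum_add_distrib]
    exact Finset.sum_congr rfl fun D _ => by rw [hgv]; ring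
  rw [h4, h2, h3, mul_zero, add_zero]

end IAr

theorem iaS : IAStmt := by
  intro K _ _ N ξ G hC
  refine ⟨IAr.num G, fun C C' => ?_, fun C C' h => ?_, fun C C' h => ?_, IAr.loc G,
    IAr.prin G hC⟩
  · by_cases h : C = C'
    · rw [h]
    · rw [IAr.num_off G h, IAr.num_off G (Ne.symm h), IAr.off_symm]
  · rw [IAr.num_off G h]; exact IAr.off_nonneg G C C'
  · rw [IAr.num_off G h]; exact IAr.off_pos G h

end Pool.Agent.MP_c69980_ag.I2
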