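import Pool.Agent.MP_c69980_ag.I2.SpecB
import Pool.Agent.MP_c69980_ag.I2.IA

/-!
Counting the zeros of a divisor along sections that bubble.
-/

set_option autoImplicit false

noncomputable section

namespace Pool.Agent.MP_c69980_ag.I2

open MvPolynomial Metric Filter Topology Set
open H60 H4 E1

namespace Cnt

lemma ev_and {u : Ultrafilter ℕ} {P Q : ℕ → ℝ → Prop} (hP : Ev u P) (hQ : Ev u Q) :
    Ev u fun k ρ => P k ρ ∧ Q k ρ := by
  obtain ⟨a, a0, ha⟩ := hP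
  obtain ⟨b, b0, hb⟩ := hQ
  refine ⟨min a b, lt_min a0 b0, fun ρ h => ?_⟩
  filter_upwards [ha ρ h, hb ρ h] with k k1 k2 σ hσ
  exact ⟨k1 σ ⟨hσ.1, hσ.2.trans (min_le_left _ _)⟩, k2 σ ⟨hσ.1, hσ.2.trans (min_le_right _ _)⟩⟩

lemma ev_all {ι : Type} {u : Ultrafilter ℕ} {S : Set ι} (hS : S.Finite) {P : ι → ℕ → ℝ → Prop}
    (h : ∀ i ∈ S, Ev u (P i)) : Ev u fun k ρ => ∀ i ∈ S, P i k ρ := by
  induction S, hS using Set.Finite.induction_on with
  | empty => exact ⟨1, one_pos, fun _ _ => .of_forall fun _ _ _ _ q => q.elim⟩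
  | insert _ _ ih =>
    obtain ⟨a, a0, ha⟩ :=
      ev_and (h _ (mem_insert _ _)) (ih fun i hi => h i (mem_insert_of_mem _ hi))
    exact ⟨a, a0, fun ρ q => (ha ρ q).mono fun k k1 σ hσ => forall_mem_insert.2 (k1 σ hσ)⟩

lemma zc_fin {f : ℂ → ℂ} {O : Set ℂ} (h : {t ∈ O | f t = 0}.Finite) :
    (O ∩ Function.support (analyticOrderNatAt f)).Finite := by
  refine h.subset fun t ht => ⟨ht.1, by_contra fun q => ht.2 ?_⟩
  rw [analyticOrderNatAt, analyticOrderAt_eq_zero.2 (.inr q)]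
  rfl

lemma zc_mono {f : ℂ → ℂ} {A O : Set ℂ} (H : A ⊆ O) (h : {t ∈ O | f t = 0}.Finite) :
    zc f A ≤ zc f O := by
  have := finsum_mem_inter_add_sdiff' A (zc_fin h)
  rw [inter_eq_right.2 H] at this
  exact Nat.le.intro this

lemma comb {ι : Type} (S : Finset ι) {A : Set ℂ} (O : ι → Set ℂ) (f : ι → ℂ → ℕ) {o m : ℂ → ℕ}
    {b : ℂ} (hb : b ∈ A) (hm : ∀ t, t ≠ b → m t = 0)
    (fin : ∀ i ∈ S, (O i ∩ Function.support (f i)).Finite)
    (dj : ∀ i ∈ S, ∀ j ∈ S, ∀ t ∈ A, t ∈ O i → t ∈ O j → j = i)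
    (h1 : ∀ t ∈ A, ∀ i ∈ S, t ∈ O i → o t = m t + f i t)
    (h2 : ∀ t ∈ A, (∀ i ∈ S, t ∉ O i) → o t = m t) :
    ∑ᶠ t ∈ A, o t = m b + ∑ i ∈ S, ∑ᶠ t ∈ A ∩ O i, f i t := by
  have e : indicator A o = fun t => m t + ∑ i ∈ S, indicator (A ∩ O i) (f i) t := by
    funext t
    by_cases ht : t ∈ A
    · rw [indicator_of_mem ht]
      by_cases h : ∃ i ∈ S, t ∈ O i
      · obtain ⟨i, i1, i2⟩ := h
        rw [h1 t ht i i1 i2, Finset.sum_eq_single_of_mem i i1 fun j j1 j2 =>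
          indicator_of_notMem (fun q => j2 (dj i i1 j j1 t ht i2 q.2)) _,
          indicator_of_mem (mem_inter ht i2)]
      · rw [h2 t ht fun i i1 i2 => h ⟨i, i1, i2⟩, Finset.sum_eq_zero fun j j1 =>
          indicator_of_notMem (fun q => h ⟨j, j1, q.2⟩) _, add_zero]
    · rw [indicator_of_notMem ht, hm t fun q => ht (q ▸ hb), Finset.sum_eq_zero fun j j1 =>
        indicator_of_notMem (fun q => ht q.1) _, add_zero]
  have g : ∀ i ∈ S, Function.HasFiniteSupport fun t => indicator (A ∩ O i) (f i) t := fun i hi =>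
    (fin i hi).subset fun t ht => by
      by_cases q : t ∈ A ∩ O i
      · exact ⟨q.2, fun z => ht (by simp only [indicator_of_mem q, z])⟩
      · exact (ht (indicator_of_notMem q _)).elim
  rw [finsum_mem_def, e, finsum_add_distrib, finsum_eq_single _ b hm, finsum_sum_comm _ _ g]
  · simp only [finsum_mem_def]
  · exact (finite_singleton b).subset fun t ht => by_contra fun q => ht (hm t q)
  · refine (S.finite_toSet.biUnion g).subset fun t ht => ?_
    obtain ⟨i, i1, i2⟩ := Finset.exists_ne_zero_of_sum_ne_zero ht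
    exact mem_biUnion i1 i2

variable {K : Type} [Field K] [Algebra ℂ K] {N : ℕ} {d : FD K N} {r : ℝ} {s : ℂ → V (N + 1)}
  {t : ℂ} {E E' : K} {y : PP d.z} {n : CC d.z → ℤ} {I B : Finset (CC d.z)}

/-- The order of a function along a section. -/
def oa (d : FD K N) (s : ℂ → V (N + 1)) (t : ℂ) (E : K) : ℕ∞ :=
  analyticOrderAt (fun w => vl d.z E (s w)) t

lemma cone (hs : Nm d.X (ball d.b r) s id) (ht : t ∈ ball d.b r) : s t ∈ Cone d.W :=
  (d.gr _ (hs.2.2 t ht)).1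

lemma on_ev (hs : Nm d.X (ball d.b r) s id) (ht : t ∈ ball d.b r) : ∀ᶠ w in 𝓝 t, On d.z (s w) :=
  mem_of_superset (isOpen_ball.mem_nhds ht) fun _ hw => Cone.on d.gen (cone hs hw)

lemma oa_mul (hs : Nm d.X (ball d.b r) s id) (ht : t ∈ ball d.b r) (h : Reg d.z (s t) E)
    (h' : Reg d.z (s t) E') : oa d s t (E * E') = oa d s t E + oa d s t E' := by
  obtain ⟨a1, a2⟩ := vl_an (Crv.an hs.1 isOpen_ball ht) (on_ev hs ht) h
  obtain ⟨b1, b2⟩ := vl_an (Crv.an hs.1 isOpen_ball ht) (on_ev hs ht) h'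
  refine (analyticOrderAt_congr ?_).trans (analyticOrderAt_mul a1 b1)
  filter_upwards [a2, b2, on_ev hs ht] with w w1 w2 w3 using (vl_mul w3 w1 w2).2

lemma oa_one (hs : Nm d.X (ball d.b r) s id) (ht : t ∈ ball d.b r) : oa d s t 1 = 0 := by
  refine analyticOrderAt_eq_zero.2 (.inr ?_)
  have := (vl_const (on_ev hs ht).self_of_nhds 1).2
  rw [map_one] at this
  exact this ▸ one_ne_zero

lemma eq_mem (hB : Br d.toSf) (h : Eqn y n E) (hn : ∀ C, 0 ≤ n C) : E ∈ y.ctr.O :=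
  hB.g0.reg y E h.1 fun C hC => h.2 C hC ▸ hn C

lemma oa_le (hB : Br d.toSf) (hs : Nm d.X (ball d.b r) s id) (ht : t ∈ ball d.b r)
    (hy : Pp (s t) y.z) (h : Eqn y n E) (h' : Eqn y n E') (hE : E ∈ y.ctr.O) :
    oa d s t E ≤ oa d s t E' := by
  have m : E' * E⁻¹ ∈ y.ctr.O := hB.g0.reg y _ (mul_ne_zero h'.1 (inv_ne_zero h.1)) fun C hC => by
    rw [hB.g0.va.mul C _ _ h'.1 (inv_ne_zero h.1), IAr.v_inv hB.g0 C h.1, h.2 C hC, h'.2 C hC,
      add_neg_cancel]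
  have := oa_mul hs ht ((hB.reg y _ _ hy).1 m) ((hB.reg y _ _ hy).1 hE)
  rw [inv_mul_cancel_right₀ h.1] at this
  exact this ▸ le_add_self

lemma oa_tau (hr : 0 < r) (hr' : r ≤ d.r₀) (hs : Nm d.X (ball d.b r) s id) (m : ℕ) :
    Reg d.z (s d.b) (d.τ ^ m) ∧ oa d s d.b (d.τ ^ m) = m := by
  have ht := mem_ball_self (x := d.b) hr
  have h0 := mem_ball_self (x := d.b) d.r0
  have h1 : oa d s d.b d.τ = 1 := by
    refine (analyticOrderAt_congr (g := d.ψ) ?_).trans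
      ((d.an _ h0).1.analyticOrderAt_eq_one_of_zero_deriv_ne_zero ((d.an _ h0).2.2.2 rfl)
        (d.an _ h0).2.1)
    exact mem_of_superset (isOpen_ball.mem_nhds ht) fun w hw =>
      (d.reg _ (hs.2.2 w hw) (ball_subset_ball hr' hw)).2
  have h2 := (d.reg _ (hs.2.2 _ ht) h0).1
  induction m with
  | zero =>
    rw [pow_zero]
    exact ⟨by simpa using (vl_const (on_ev hs ht).self_of_nhds 1).1, oa_one hs ht⟩
  | succ m ih =>
    rw [pow_succ]
    exact ⟨(vl_mul (on_ev hs ht).self_of_nhds ih.1 h2).1, by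
      rw [oa_mul hs ht ih.1 h2, ih.2, h1, Nat.cast_succ]⟩

lemma hor_eq (hF : FB d I) (hr' : r ≤ d.r₀) (hs : Nm d.X (ball d.b r) s id)
    (ht : t ∈ ball d.b r) (hy : Pp (s t) y.z) (ho : Off B (s t)) {C : CC d.z} (hC : y.On C)
    (h : t ≠ d.b ∨ C ∉ I) : hor I B n C = n C := by
  refine if_neg ?_
  rintro (q | q)
  · refine h.elim (fun e => e ?_) fun e => e q
    have a1 := (d.reg _ (d.cn.pp (hs.2.2 t ht) hy.symm) (ball_subset_ball hr' ht)).2
    have a2 := (d.reg _ ((hF.mem C).1 q y hC) (mem_ball_self d.r0)).2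
    exact (d.an t (ball_subset_ball hr' ht)).2.2.1
      ((a1.symm.trans a2).trans ((d.an _ (mem_ball_self d.r0)).2.2.2 rfl))
  · exact ho C q y hC hy

lemma hor_nn (hn : ∀ C, 0 ≤ n C) (C : CC d.z) : 0 ≤ hor I B n C := by
  unfold hor
  split_ifs
  exacts [le_rfl, hn C]

lemma hor_ne {C : CC d.z} (h : hor I B n C ≠ 0) : C ∉ I ∧ C ∉ B ∧ n C ≠ 0 := by
  unfold hor at h
  split_ifs at h with q
  exacts [(h rfl).elim, ⟨fun e => q (.inl e), fun e => q (.inr e), h⟩]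

open Classical in
/-- The order of `n` in terms of an equation of the horizontal part. -/
lemma pt (hB : Br d.toSf) (hX : Xb d) (hF : FB d I) (hr : 0 < r) (hr' : r ≤ d.r₀)
    (hs : Nm d.X (ball d.b r) s id) (ht : t ∈ ball d.b r) (ho : Off B (s t)) (hn : ∀ C, 0 ≤ n C)
    {c : CC d.z} (hc : c ∈ I) (hx : ∃ x : PP d.z, x.On c ∧ Pp (s d.b) x.z) (hy : Pp (s t) y.z)
    (hE : Eqn y (hor I B n) E) {o : ℕ} (h : Od d.toSf n s t o) :
    o = (if t = d.b then (n c).toNat else 0) + (oa d s t E).toNat := by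
  obtain ⟨y', F, f1, f2, f3, f4⟩ := h
  obtain rfl : y' = y := hB.uniq _ _ (f1.symm.trans hy)
  have key : ∀ E', Eqn y' n E' → oa d s t E' = o := fun E' q => (le_antisymm
    (oa_le hB hs ht hy q f2 (eq_mem hB q hn)) (oa_le hB hs ht hy f2 q f3)).trans f4
  split_ifs with e
  · subst e
    obtain ⟨x, x1, x2⟩ := hx
    obtain rfl : x = y' := hB.uniq _ _ (x2.symm.trans hy)
    have rx := Rx.pp (hs.rx d.cn hX.nonreg isOpen_ball ht) hy.symm
    obtain ⟨c1, c2⟩ := hF.rx1 x rx c hc x1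
    have q : Eqn x n (d.τ ^ (n c).toNat * E) := ⟨mul_ne_zero (pow_ne_zero _ hF.t0) hE.1,
      fun C hC => by
        rw [hB.g0.va.mul C _ _ (pow_ne_zero _ hF.t0) hE.1, IAr.v_pow hB.g0 C hF.t0, hE.2 C hC]
        by_cases hI : C ∈ I
        · obtain rfl := c2 C hI hC
          rw [c1, hor, if_pos (.inl hI), Int.toNat_of_nonneg (hn C), mul_one, add_zero]
        · rw [(hF.val x C (Rx.mem d.cn rx) hC).2 hI, hor_eq hF hr' hs ht hy ho hC (.inr hI),
            mul_zero, zero_add]⟩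
    have := key _ q
    rw [oa_mul hs ht (oa_tau hr hr' hs _).1 ((hB.reg x _ _ hy).1 (eq_mem hB hE (hor_nn hn))),
      (oa_tau hr hr' hs _).2] at this
    generalize oa d s d.b E = w at this
    cases w with
    | top => simp at this
    | coe w => exact_mod_cast this.symm
  · rw [key E ⟨hE.1, fun C hC => (hE.2 C hC).trans (hor_eq hF hr' hs ht hy ho hC (.inl e))⟩]
    simp

lemma small {P : ℝ → Prop} (h : ∃ δ₀ : ℝ, 0 < δ₀ ∧ ∀ δ, δ ≤ δ₀ → P δ) : ∀ᶠ δ in 𝓝[>] 0, P δ := by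
  obtain ⟨a, a0, h⟩ := h
  exact mem_of_superset (Ioc_mem_nhdsGT a0) fun δ q => h δ q.2

end Cnt

open Cnt in
theorem cntS : CntOf := by
  intro hU K _ _ N d I B Z a u r g s v n c hS hr hr' hg hs hM hZ hL hn hn0 hh hc hx
  classical
  have hB := hS.br
  have hF := hS.fb
  have G := hB.g0
  have fn : FS (hor I B n) := hn.subset fun C hC => (hor_ne hC).2.2
  obtain ⟨Bd, mB⟩ : ∃ Bd : Finset (PP d.z), ∀ x, x ∈ Bd ↔
      (d.b, x.z) ∈ d.X ∧ ∃ C, hor I B n C ≠ 0 ∧ x.On C := by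
    refine ⟨Set.Finite.toFinset (s := {x | (d.b, x.z) ∈ d.X ∧ ∃ C, hor I B n C ≠ 0 ∧ x.On C})
      ((fn.biUnion fun C' h' => I.finite_toSet.biUnion fun C h =>
        G.two C C' fun e => (hor_ne h').1 (e ▸ h)).subset ?_), fun x => Finite.mem_toFinset _⟩
    rintro x ⟨x1, C', x2, x3⟩
    obtain ⟨C, c1, c2⟩ := hF.thru x x1
    exact mem_biUnion x2 (mem_biUnion c1 ⟨c2, x3⟩)
  have nZ : ∀ x ∈ Bd, x ∉ Z := fun x h q => by
    obtain ⟨-, C, h1, h2⟩ := (mB x).1 h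
    exact h1 (hh x q C h2)
  choose e he using fun x => G.eqn x _ fn
  have : ∀ x : PP d.z, ∃ C, x ∈ Bd → C ∈ I ∧ x.On C := fun x => by
    by_cases h : x ∈ Bd
    · exact (hF.thru x ((mB x).1 h).1).imp fun C q _ => q
    · exact ⟨c, fun q => (h q).elim⟩
  choose cc hcc using this
  have hI : ∀ C ∈ I, hor I B n C = 0 := fun C q => if_pos (.inl q)
  have nz : ∀ x : PP d.z, x.z ≠ 0 := fun x => (hB.cone x).1
  have hδ : ∀ᶠ δ : ℝ in 𝓝[>] 0, ∀ x ∈ Bd,
      (∀ x' : PP d.z, d2 x'.z x.z < δ → Eqn x' (hor I B n) (e x)) ∧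
      (∀ x' ∈ Bd, x' ≠ x → 4 * δ ≤ d2 x.z x'.z) ∧ ∀ δ' : ℝ, 0 < δ' → δ' ≤ δ → ∀ᶠ k in u,
        {t ∈ Ob d (s k) x δ' | vl d.z (e x) (s k t) = 0}.Finite ∧
        (zc (fun t => vl d.z (e x) (s k t)) (Ob d (s k) x δ') : ℤ) =
          (cc x).ordAt x ((cc x).res (e x)) * v k (cc x) := by
    refine (eventually_all_finset _).2 fun x h => .and (small ?_) (.and
      ((eventually_all_finset _).2 fun x' _ => ?_) (small ?_))
    · exact (hB.near x _ _ fn (he x)).imp fun δ q => ⟨q.1, fun δ' p x' w => q.2 x' (w.trans_le p)⟩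
    · by_cases q : x' = x
      · exact .of_forall fun _ p => (p q).elim
      · have := d2_pos (nz x) (nz x') fun p => q (hB.uniq _ _ p).symm
        exact small ⟨d2 x.z x'.z / 4, by positivity, fun δ p _ => by linarith⟩
    · exact (hL _ (hcc x h).1 x (hcc x h).2 (nZ x h) (e x) (eq_mem hB (he x) (hor_nn hn0))
        (IAr.Un.res_ne G ⟨(he x).1, ((he x).2 _ (hcc x h).2).trans (hI _ (hcc x h).1)⟩)).imp
        fun δ q => ⟨q.1, fun δ' p δ'' w1 w2 => q.2 δ'' w1 (w2.trans p)⟩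
  obtain ⟨δ, hδ, δ0⟩ := (hδ.and self_mem_nhdsWithin).exists
  have hd : ∀ C ∈ I, dot a (hor I B n) C =
      ∑ x ∈ Bd with cc x = C, (cc x).ordAt x ((cc x).res (e x)) := fun C hC => by
    rw [(hS.ia.loc _ C (fun x => if x ∈ Bd then e x else 1) fn (hI C hC) fun x q => ?_).2,
      finsum_cond_eq_sum_of_cond_iff (t := Bd.filter fun x => cc x = C) _ fun {x} q => ?_]
    · refine Finset.sum_congr rfl fun x q => ?_
      obtain ⟨q', rfl⟩ := Finset.mem_filter.1 q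
      rw [if_pos q']
    · rw [Finset.mem_filter]
      refine ⟨fun p => ?_, fun p => p.2 ▸ (hcc x p.1).2⟩
      have w : x ∈ Bd := by_contra fun w => q (by rw [if_neg w]; exact IAr.od_one G p)
      exact ⟨w, hS.zg.one C hC x p (nZ x w) _ (.inl (hcc x w).1) (hcc x w).2⟩
    · split_ifs with w
      · exact he x
      · exact ⟨one_ne_zero, fun C' p => (IAr.v_one G C').trans (by_contra fun z =>
          w ((mB x).2 ⟨(hF.mem C).1 hC x q, C', Ne.symm z, p⟩))⟩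
  obtain ⟨ρ₀, ρ0, hρ⟩ := ev_all fn fun C hC => hU K N d u r g s C δ hB hr hg hs (fun y p q => by
    obtain ⟨y', y1, y2⟩ := hZ
    obtain rfl := hB.uniq _ _ (p.symm.trans y2)
    exact hC (hh y y1 C q)) δ0
  refine ⟨min ρ₀ (r / 2), lt_min ρ0 (half_pos hr), fun ρ₁ ρ1 => ?_⟩
  filter_upwards [hρ ρ₁ ρ1, hx,
    (eventually_all_finset _).2 fun x h => (hδ x h).2.2 δ δ0 le_rfl,
    (eventually_all_finset _).2 fun x h => (hδ x h).2.2 _ (lt_min δ0 ρ1) (min_le_left _ _)]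
    with k k1 k2 k3 k4 ρ hρ
  replace k1 := k1 ρ ⟨hρ.1, hρ.2.trans (min_le_left _ _)⟩
  have lt : ρ < r := (hρ.2.trans (min_le_right _ _)).trans_lt (half_lt_self hr)
  have p0 : 0 < ρ := ρ1.trans_le hρ.1
  have hk := hs.1 k
  refine ⟨lt, fun t ht y hy C hC => ?_, fun o ho => ?_⟩
  · have m := sphere_subset_ball lt ht
    rw [← hor_eq (n := n) hF hr' hk m hy (hM k t m) hC (.inl fun q => p0.ne (by simpa [q] using ht))]
    exact by_contra fun q => (mem_sphere.1 ht).not_lt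
      ((k1 C q).2 t (sphere_subset_closedBall ht) y hC hy).1
  have sb := ball_subset_ball (x := d.b) lt.le
  rw [comb Bd (fun x => Ob d (s k) x δ)
    (fun x => analyticOrderNatAt fun t => vl d.z (e x) (s k t)) (mem_ball_self p0)
    (m := fun t => if t = d.b then (n c).toNat else 0) (fun t q => if_neg q)
    (fun x h => zc_fin (k3 x h).1) (fun x h x' h' t ht q q' => by_contra fun w => ?_)
    (fun t ht x h q => ?_) fun t ht q => ?_]
  · rw [if_pos rfl, Nat.cast_add, Int.toNat_of_nonneg (hn0 c), Nat.cast_sum,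
      ← Finset.sum_fiberwise_of_maps_to (g := cc) (t := I) fun x h => (hcc x h).1]
    refine congrArg _ (Finset.sum_congr rfl fun C hC => ?_)
    rw [hd C hC, Finset.mul_sum]
    refine Finset.sum_congr rfl fun x q' => ?_
    obtain ⟨q, rfl⟩ := Finset.mem_filter.1 q'
    have a1 := zc_mono (inter_subset_right (s := ball d.b ρ)) (k3 x q).1
    have a2 := zc_mono (A := Ob d (s k) x (min δ ρ₁)) (O := ball d.b ρ ∩ Ob d (s k) x δ)
      (fun t p => ⟨mem_ball_iff_norm.2 ((p.1.trans_le (min_le_right _ _)).trans_le hρ.1),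
        p.1.trans_le (min_le_left _ _), p.2.trans_le (min_le_left _ _)⟩)
      ((k3 x q).1.subset fun t p => ⟨p.1.2, p.2⟩)
    have a3 := (k4 x q).2.trans (k3 x q).2.symm
    rw [mul_comm, ← (k3 x q).2]
    change (zc _ _ : ℤ) = _
    omega
  · have s0 := hk.1.2 t (sb ht)
    have := H84.d2_tri (nz x) s0 (nz x')
    rw [d2_symm _ (s k t)] at this
    linarith [(hδ x h).2.1 x' h' w, q.2, q'.2]
  · obtain ⟨y, hy⟩ := hB.pt _ (cone hk (sb ht))
    exact pt hB hS.xb hF hr hr' hk (sb ht) (hM k t (sb ht)) hn0 hc k2 hy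
      ((hδ x h).1 y ((hy.d2 (.refl _)).symm.trans_lt q.2)) (ho t ht)
  · obtain ⟨y, hy⟩ := hB.pt _ (cone hk (sb ht))
    rw [pt hB hS.xb hF hr hr' hk (sb ht) (hM k t (sb ht)) hn0 hc k2 hy (E := 1)
      ⟨one_ne_zero, fun C p => (IAr.v_one G C).trans (by_contra fun z => ?_)⟩ (ho t ht),
      oa_one hk (sb ht)]
    · rfl
    · obtain ⟨-, x, x1, x2, x3⟩ := (k1 C (Ne.symm z)).2 t (ball_subset_closedBall ht) y p hy
      exact q x ((mB x).2 ⟨x1, C, Ne.symm z, x2⟩) x3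

end Pool.Agent.MP_c69980_ag.I2
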