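import Pool.Agent.MP_c69980_ag.I2.SpecB
import Pool.Agent.MP_c69980_ag.E1.Chart

/-!
Curvettes: a section through a general point of a reduced component of the fibre meets the
sections of the sequence as many times as they cover the component.
-/

set_option autoImplicit false

noncomputable section

namespace Pool.Agent.MP_c69980_ag.I2

open MvPolynomial Metric Filter Topology Set
open H60 H4 E1

namespace Cur

variable {n : ℕ}

/-- A lower bound for the distance to a point passes to most members of the sequence. -/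
lemma far {u : Ultrafilter ℕ} {O A : Set ℂ} {s : ℕ → ℂ → V n} {g : ℂ → V n} {y : V n} {c : ℝ}
    (h : Cv u O s g) (hA : IsCompact A) (H : A ⊆ O) (y0 : y ≠ 0)
    (hc : ∀ t ∈ A, c < d2 (g t) y) : ∀ᶠ k in u, ∀ t ∈ A, c < d2 (s k t) y := by
  by_contra hn
  have h1 : ∀ᶠ k in u, ∃ t, t ∈ A ∧ d2 (s k t) y ≤ c :=
    (Ultrafilter.eventually_not.2 hn).mono fun k hk => by
      by_contra q
      exact hk fun t ht => not_le.1 fun e => q ⟨t, ht, e⟩
  obtain ⟨w, hw⟩ := h1.choice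
  obtain ⟨t, ht, hl⟩ := hA.ultrafilter_le_nhds (u.map w)
    (le_principal_iff.2 (hw.mono fun k hk => hk.1))
  obtain ⟨z, z1, z2⟩ := h.pt (H ht) (w := w) hl
  refine (hc t ht).not_ge (le_of_tendsto (d2_lim z1 tendsto_const_nhds (h.lh.ne (H ht)) y0) ?_)
  filter_upwards [hw, z2] with k k1 k2
  rw [← k2.d2 (.refl y)]
  exact k1.2

/-- The zeros of the exterior product with the section `t ↦ Y (t, ζ)`. -/
lemma loc (hZ : ZvStmt) {X : Set (Pt n)} {a j : Fin n} {U : Set (ℂ × ℂ)} {Y : ℂ × ℂ → V n}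
    {b ζ : ℂ} {r ρ : ℝ} {s : ℂ → V n} {φ : ℂ → ℂ} {O : Set ℂ} (hc : Chart X a j U Y)
    (hσ : ∀ t ∈ ball b r, (t, ζ) ∈ U) (hs : Crv (ball b r) s) (ρ0 : 0 < ρ) (hρ : ρ < r)
    (o : IsOpen O) (hO : O ⊆ ball b ρ)
    (h1 : ∀ t ∈ O, s t j ≠ 0 ∧ (t, s t a / s t j) ∈ U ∧ s t = s t j • Y (t, s t a / s t j) ∧
      φ t = s t a / s t j - ζ)
    (hP : ∀ t ∈ closedBall b ρ, Pp (s t) (Y (t, ζ)) → t ∈ O) (hf : {t ∈ O | φ t = 0}.Finite) :
    Zv b ρ (fun t => wg (Y (t, ζ)) (s t)) (zc φ O) := by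
  classical
  have sub : closedBall b ρ ⊆ ball b r := closedBall_subset_ball hρ
  have sub' : ball b ρ ⊆ ball b r := ball_subset_ball hρ.le
  have cY : ContinuousOn (fun t => Y (t, ζ)) (ball b r) :=
    hc.cont.comp (by fun_prop) hσ
  have cG : ContinuousOn (fun t => wg (Y (t, ζ)) (s t)) (ball b r) :=
    wg_contOn cY hs.1.continuousOn
  have nG : ∀ t ∈ closedBall b ρ, t ∉ O → wg (Y (t, ζ)) (s t) ≠ 0 := fun t ht h e =>
    h (hP t ht ((wg_eq_zero (hc.ne (hσ t (sub ht))) (hs.2 t (sub ht))).1 e))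
  have aq : ∀ t ∈ O, AnalyticAt ℂ (fun w => s w a / s w j) t := fun t ht =>
    have a1 := Crv.an hs isOpen_ball (sub' (hO ht))
    (analyticAt_pi_iff.1 a1 a).div (analyticAt_pi_iff.1 a1 j) (h1 t ht).1
  have key := (hZ _ b ρ (fun t => wg (Y (t, ζ)) (s t))
    (fun t => if t ∈ O then analyticOrderNatAt φ t else 0) ρ0 (cG.mono sub)
    (fun t ht => nG t (sphere_subset_closedBall ht) fun h =>
      (mem_ball.1 (hO h)).ne (mem_sphere.1 ht)) (fun t ht => ?_)).2
  · have e : ∑ᶠ t ∈ ball b ρ, (if t ∈ O then analyticOrderNatAt φ t else 0) = zc φ O := by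
      refine finsum_congr fun t => ?_
      by_cases h : t ∈ O
      · simp only [h, hO h, finsum_true, if_true]
      · simp only [h, finsum_false, if_false, finsum_zero]
    rwa [e] at key
  by_cases h : t ∈ O
  · have m := o.mem_nhds h
    have aφ : AnalyticAt ℂ φ t := ((aq t h).sub analyticAt_const).congr
      (mem_of_superset m fun w hw => (h1 w hw).2.2.2.symm)
    have nt : analyticOrderAt φ t ≠ ⊤ := fun e => by
      refine hf.not_infinite (infinite_of_mem_nhds t ?_)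
      filter_upwards [m, analyticOrderAt_eq_top.1 e] with w w1 w2 using ⟨w1, w2⟩
    have cq : ContinuousOn (fun w => s w a / s w j) O := fun w hw =>
      (aq w hw).continuousAt.continuousWithinAt
    have cd : ContinuousOn (fun w => dd Y w ζ (s w a / s w j)) O :=
      (dd_cont hc.2.1).comp (f := fun w => ((w, ζ, s w a / s w j) : ℂ × ℂ × ℂ))
        (continuousOn_id.prodMk (continuousOn_const.prodMk cq))
        fun w hw => ⟨hσ w (sub' (hO hw)), (h1 w hw).2.1⟩
    have cs : ContinuousOn (fun w => s w j) O :=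
      (continuousOn_pi.1 hs.1.continuousOn j).mono (hO.trans sub')
    have ce : ContinuousOn (fun w => s w j • wg (Y (w, ζ)) (dd Y w ζ (s w a / s w j))) O :=
      cs.smul (wg_contOn (cY.mono (hO.trans sub')) cd)
    refine ⟨φ, fun w => s w j • wg (Y (w, ζ)) (dd Y w ζ (s w a / s w j)), aφ, ?_, ?_⟩
    · rw [if_pos h, Nat.cast_analyticOrderNatAt nt]
    · filter_upwards [m] with w hw
      obtain ⟨w1, w2, w3, w4⟩ := h1 w hw
      refine ⟨ce.continuousAt (o.mem_nhds hw),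
        smul_ne_zero w1 (hc.wg_dd_ne (hσ w (sub' (hO hw))) w2), ?_⟩
      rw [w4, smul_comm, ← wg_dd, ← wg_smul_right, ← w3]
  · refine ⟨fun _ => 1, fun t => wg (Y (t, ζ)) (s t), analyticAt_const, ?_, ?_⟩
    · rw [if_neg h, Nat.cast_zero]
      exact analyticAt_const.analyticOrderAt_eq_zero.2 one_ne_zero
    · have m := isOpen_ball.mem_nhds (sub' ht)
      filter_upwards [m, (cG.continuousAt m).eventually_ne (nG t (ball_subset_closedBall ht) h)]
        with w w1 w2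
      exact ⟨cG.continuousAt (isOpen_ball.mem_nhds w1), w2, (one_smul _ _).symm⟩

variable {K : Type} [Field K] [Algebra ℂ K] {N : ℕ}

lemma vl_eta {z : Fin n → K} {y : V n} (hy : On z y) (a : Fin n) {j : Fin n} (hj : y j ≠ 0)
    (ζ : ℂ) : vl z (z a / z j - algebraMap ℂ K ζ) y = y a / y j - ζ := by
  have h : eval y (X j : PR n) ≠ 0 := by simpa using hj
  have h1 : Reg z y (z a / z j) :=
    ⟨X a, X j, 1, isHomogeneous_X _ _, isHomogeneous_X _ _, h, by simp⟩
  have h2 : vl z (z a / z j) y = y a / y j := by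
    simpa using vl_eq hy (isHomogeneous_X ℂ a) (isHomogeneous_X ℂ j) h
  rw [sub_eq_add_neg, ← map_neg, (vl_add hy h1 (vl_const hy _).1).2, h2, (vl_const hy _).2,
    sub_eq_add_neg]

/-- The second parameter is a uniformizer on the curve. -/
lemma ord_one {S : Sf K N} (hB : Br S) {C : CC S.z} (hC : CP C) {x : PP S.z} (hx : x.On C)
    (hd : IsDiscreteValuationRing (C.loc x)) {p q : K} (hG : Gm S x p q) (hp : C.res p = 0) :
    C.res q ≠ 0 ∧ C.ordAt x (C.res q) = 1 := by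
  obtain ⟨P, hP⟩ := hC.pt x hx
  have e := hC.one x P hP hd
  have eo : ∀ f, C.ordAt x f = P.ord f := fun f => by
    rw [MP_f3836a_nt.PK.Cv.ordAt, MP_f3836a_nt.PK.Place.ord, e]
  have hl := (hB.g0.va.loc x C hx).1
  obtain ⟨π, π0, π1⟩ := hC.pa.uni P
  have πm : π ∈ C.loc x := by
    rw [← e]
    exact (hC.pa.mem P π π0).2 (by rw [π1]; exact zero_le_one)
  obtain ⟨f, rfl⟩ := (hl π).1 πm
  have f0 := (hB.max x f).1 ((hC.max x P hP f).2 (Or.inr (by rw [π1]; exact zero_lt_one)))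
  obtain ⟨α, hα, β, hβ, ef⟩ := hG.2.2.2.2 f f.2 f0
  have er : C.res f = C.res β * C.res q := by
    rw [ef, C.res_add (hx.le (mul_mem hα hG.1)) (hx.le (mul_mem hβ hG.2.1)),
      C.res_mul (hx.le hα) (hx.le hG.1), C.res_mul (hx.le hβ) (hx.le hG.2.1), hp, mul_zero,
      zero_add]
  rw [er] at π0 π1
  have b0 := left_ne_zero_of_mul π0
  have q0 := right_ne_zero_of_mul π0
  rw [hC.pa.mul P _ _ b0 q0] at π1
  have b1 : 0 ≤ P.ord (C.res β) := (hC.pa.mem P _ b0).1 (by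
    have : C.res β ∈ C.loc x := (hl _).2 ⟨⟨β, hβ⟩, rfl⟩
    rwa [← e] at this)
  have q1 : 0 < P.ord (C.res q) :=
    ((hC.max x P hP ⟨q, hG.2.1⟩).1 ((hB.max x ⟨q, hG.2.1⟩).2 hG.2.2.2.1)).resolve_left q0
  refine ⟨q0, ?_⟩
  rw [eo]
  omega

end Cur

theorem curS : CurOf := by
  intro hZ K _ _ N d I Z hB hX hC hF hfin C hI hv
  obtain ⟨x, hx, hx'⟩ := (hC C).inf.exists_notMem_finite
    ((hfin.union (hF.rx2 C hI hv)).union (hC C).sing)
  have hx : x.On C := hx
  have xZ : x ∉ Z := fun h => hx' (.inl (.inl h))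
  have xR : (d.b, x.z) ∈ Rx d.X := by_contra fun h => hx' (.inl (.inr ⟨hx, h⟩))
  have xD : IsDiscreteValuationRing (C.loc x) := by_contra fun h => hx' (.inr ⟨hx, h⟩)
  obtain ⟨a, j, U, Y, hc, ζ, hU, hp⟩ := id xR
  have hU : (d.b, ζ) ∈ U := hU
  have hp : Pp x.z (Y (d.b, ζ)) := hp
  have x0 : x.z ≠ 0 := hp.ne (hc.ne hU)
  have hG := (hX.gen a j U Y hc _ hU (mem_ball_self d.r0) x hp.symm).2.1
  have hτ : C.res (d.τ - algebraMap ℂ K (d.ψ d.b)) = 0 := by
    rw [(d.an d.b (mem_ball_self d.r0)).2.2.2 rfl, map_zero, sub_zero]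
    exact (hB.g0.va.pos C _ hF.t0 ((hB.g0.va.mem C _ hF.t0).2 (by rw [hv]; exact zero_le_one))).1
      (by rw [hv]; exact zero_lt_one)
  obtain ⟨q0, q1⟩ := Cur.ord_one hB (hC C) hx xD hG hτ
  have c0 : ContinuousAt (fun t : ℂ => ((t, ζ) : ℂ × ℂ)) d.b := by fun_prop
  obtain ⟨r', r0', hr'⟩ := Metric.eventually_nhds_iff_ball.1 (c0.eventually (hc.nhds hU))
  have aσ : ∀ t ∈ ball d.b r', AnalyticAt ℂ (fun t => Y (t, ζ)) t := fun t ht =>
    (hc.an (hr' t ht)).comp_of_eq (f := fun t : ℂ => ((t, ζ) : ℂ × ℂ)) (by fun_prop) rfl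
  have cσ : Crv (ball d.b r') fun t => Y (t, ζ) :=
    ⟨fun t ht => (aσ t ht).differentiableAt.differentiableWithinAt, fun t ht => hc.ne (hr' t ht)⟩
  refine ⟨x, fun t => Y (t, ζ), r', hx, xZ, xR, r0',
    ⟨cσ, differentiableOn_id, fun t ht => hc.mem (hr' t ht)⟩, hp.symm, ?_⟩
  intro u r g s v r0 hg hs hn hL
  obtain ⟨δ₀, δ0, hδ⟩ := hL _ hG.2.1 q0
  obtain ⟨η, η0, hη⟩ := near _ d.X a j U {(d.b, ζ)} Y 1 d.cn hc isCompact_singleton
    (singleton_subset_iff.2 hU) one_pos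
  have g0 := hg.1.2 _ (mem_ball_self r0)
  have dp := d2_pos g0 x0 hn
  have l1 := d2_lim (Crv.an hg.1 isOpen_ball (mem_ball_self r0)).continuousAt.tendsto
    tendsto_const_nhds g0 x0
  obtain ⟨δ₁, δ1, h1⟩ := Metric.nhds_basis_closedBall.eventually_iff.1
    (l1.eventually (lt_mem_nhds (half_lt_self dp)))
  obtain ⟨δ, d0, d1, d2', d3, d4, d5⟩ : ∃ δ : ℝ, 0 < δ ∧ δ ≤ δ₀ ∧ δ ≤ η ∧ δ < r ∧ δ ≤ δ₁ ∧
      δ ≤ d2 (g d.b) x.z / 2 :=
    ⟨min (min δ₀ η) (min (r / 2) (min δ₁ (d2 (g d.b) x.z / 2))), by positivity,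
      (min_le_left _ _).trans (min_le_left _ _), (min_le_left _ _).trans (min_le_right _ _),
      ((min_le_right _ _).trans (min_le_left _ _)).trans_lt (half_lt_self r0),
      (min_le_right _ _).trans ((min_le_right _ _).trans (min_le_left _ _)),
      (min_le_right _ _).trans ((min_le_right _ _).trans (min_le_right _ _))⟩
  have hgf : ∀ t ∈ closedBall d.b δ, δ < d2 (g t) x.z := fun t ht =>
    d5.trans_lt (h1 (closedBall_subset_closedBall d4 ht))
  have l2 := d2_lim (aσ _ (mem_ball_self r0')).continuousAt.tendsto tendsto_const_nhds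
    (hc.ne hU) x0
  rw [(d2_eq_zero (hc.ne hU) x0).2 hp.symm] at l2
  obtain ⟨δ₂, δ2, h2⟩ := Metric.nhds_basis_closedBall.eventually_iff.1
    (l2.eventually (gt_mem_nhds d0))
  refine ⟨min δ₂ (min (δ / 2) (r' / 2)), by positivity, fun ρ₁ ρ1 => ?_⟩
  have hA : closedBall d.b δ \ ball d.b ρ₁ ⊆ ball d.b r \ {d.b} := fun t ht =>
    ⟨closedBall_subset_ball d3 ht.1, fun e => ht.2 (by
      rw [mem_singleton_iff.1 e]
      exact mem_ball_self ρ1)⟩
  filter_upwards [hδ δ d0 d1, Cur.far hs.2 ((isCompact_closedBall d.b δ).diff isOpen_ball) hA x0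
    fun t ht => hgf t ht.1] with k k1 k2 ρ hρ
  have ρ0 : 0 < ρ := ρ1.trans_le hρ.1
  have p1 : ρ ≤ δ₂ := hρ.2.trans (min_le_left _ _)
  have p2 : ρ < δ := (hρ.2.trans ((min_le_right _ _).trans (min_le_left _ _))).trans_lt
    (half_lt_self d0)
  have p3 : ρ < r' := (hρ.2.trans ((min_le_right _ _).trans (min_le_right _ _))).trans_lt
    (half_lt_self r0')
  have sk := hs.1 k
  have ob : ∀ t ∈ Ob d (s k) x δ, t ∈ ball d.b r := fun t ht =>
    mem_ball_iff_norm.2 (ht.1.trans d3)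
  refine ⟨p3, ?_, Fin.elim0, fun t => wg (Y (t, ζ)) (g t), fun i => i.elim0,
    wg_contOn (cσ.1.continuousOn.mono (closedBall_subset_ball p3))
      (hg.1.1.continuousOn.mono (closedBall_subset_ball (p2.trans d3))), fun t ht => ⟨?_, ?_⟩⟩
  · have e : zc (fun t => vl d.z (d.z a / d.z j - algebraMap ℂ K ζ) (s k t)) (Ob d (s k) x δ) =
        v k := by
      have := k1.2
      rw [q1, one_mul] at this
      exact_mod_cast this
    rw [← e]
    refine Cur.loc hZ (r := min r r') hc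
      (fun t ht => hr' t (ball_subset_ball (min_le_right _ _) ht))
      (crv_mono sk.1 (ball_subset_ball (min_le_left _ _))) ρ0 (lt_min (p2.trans d3) p3)
      (isOpen_iff_mem_nhds.2 fun t ht => ?_) (fun t ht => ?_) (fun t ht => ?_)
      (fun t ht h => ?_) k1.1
    · have l3 := d2_lim (Crv.an sk.1 isOpen_ball (ob t ht)).continuousAt.tendsto
        tendsto_const_nhds (sk.1.2 t (ob t ht)) x0
      filter_upwards [isOpen_ball.mem_nhds (mem_ball_iff_norm.2 ht.1),
        l3.eventually (gt_mem_nhds ht.2)] with w w1 w2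
      exact ⟨mem_ball_iff_norm.1 w1, w2⟩
    · refine ball_subset_ball hρ.1 (by_contra fun h => ?_)
      exact (k2 t ⟨mem_closedBall_iff_norm.2 ht.1.le, h⟩).not_gt ht.2
    · have m := sk.2.2 t (ob t ht)
      obtain ⟨b1, -, b2, b3⟩ := hη _ rfl _ m (ht.1.le.trans d2') (by
        rw [← (Pp.refl (s k t)).d2 hp]
        exact ht.2.le.trans d2')
      exact ⟨b1, b2, b3, Cur.vl_eta (Cone.on d.gen (d.gr _ m).1) a b1 ζ⟩
    · refine ⟨(mem_closedBall_iff_norm.1 ht).trans_lt p2, ?_⟩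
      rw [h.d2 (.refl _)]
      exact h2 (closedBall_subset_closedBall p1 ht)
  · intro e
    have h := (wg_eq_zero (cσ.2 t (closedBall_subset_ball p3 ht))
      (hg.1.2 t (closedBall_subset_ball (p2.trans d3) ht))).1 e
    have h3 := hgf t (closedBall_subset_closedBall p2.le ht)
    rw [h.d2 (.refl _)] at h3
    exact h3.not_gt (h2 (closedBall_subset_closedBall p1 ht))
  · simp

end Pool.Agent.MP_c69980_ag.I2
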