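import Pool.Agent.MP_c69980_ag.I2.SpecB
import Pool.Agent.MP_c69980_ag.E1.Wind

/-! The degrees of the sections on small circles are bounded. -/

set_option autoImplicit false

namespace Pool.Agent.MP_c69980_ag.I2

open Metric Filter Set
open H60 H4 E1

namespace Deg

theorem bound {ι : Type} [DecidableEq ι] {s : Finset ι} {a : ι → ι → ℤ} {m k β d η : ι → ℤ}
    {M : ℤ} (F : NumF s a m k β d η M) {v : ι → ℕ} {o c : ι} (ho : o ∈ s) (hc : c ∈ s)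
    (av : ∀ i ∈ s, ∑ j ∈ s, a i j * v j = (if i = c then 1 else 0) - if i = o then 1 else 0)
    (kv : ∑ j ∈ s, k j * v j + v c + v o = 0) (b2 : ∑ j ∈ s, β j * v j ≤ v o) :
    (v c : ℤ) ≤ d o - d c := by
  have h1 : ∑ i ∈ s, (v i : ℤ) * ∑ j ∈ s, a i j * d j = ∑ j ∈ s, d j * ∑ i ∈ s, a j i * v i := by
    simp only [Finset.mul_sum]
    rw [Finset.sum_comm]
    refine Finset.sum_congr rfl fun j hj => Finset.sum_congr rfl fun i hi => ?_
    rw [F.sym i hi j hj]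
    ring
  have h2 : ∑ j ∈ s, d j * ∑ i ∈ s, a j i * v i = d c - d o := by
    rw [Finset.sum_congr rfl fun j hj => by rw [av j hj]]
    simp only [mul_sub, mul_ite, mul_one, mul_zero, Finset.sum_sub_distrib, Finset.sum_ite_eq',
      hc, ho, if_true]
  have h3 : ∑ i ∈ s, (v i : ℤ) * ∑ j ∈ s, a i j * d j + ∑ i ∈ s, η i * v i
      - M * ∑ i ∈ s, β i * v i = M * ∑ i ∈ s, k i * v i := by
    rw [Finset.mul_sum, Finset.mul_sum, ← Finset.sum_add_distrib, ← Finset.sum_sub_distrib]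
    refine Finset.sum_congr rfl fun i hi => ?_
    linear_combination (v i : ℤ) * F.div i hi
  have h4 : 0 ≤ ∑ i ∈ s, η i * v i :=
    Finset.sum_nonneg fun i hi => mul_nonneg (F.eta i hi) (Int.natCast_nonneg _)
  have h5 := F.mp
  have h6 : (0 : ℤ) ≤ v c := Int.natCast_nonneg _
  rw [h1, h2] at h3
  have h7 : M * ∑ i ∈ s, β i * v i ≤ M * v o := mul_le_mul_of_nonneg_left b2 h5.le
  have h8 : ∑ j ∈ s, k j * v j = -(v c + v o) := by linarith
  rw [h8] at h3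
  nlinarith

theorem comp {ι : Type} (s : Finset ι) (a : ι → ι → ℤ) (sym : ∀ i j, a i j = a j i) {o : ι}
    (ho : o ∈ s) : ∃ s₀ : Finset ι, s₀ ⊆ s ∧ o ∈ s₀ ∧
      (∀ i ∈ s₀, ∀ j ∈ s, j ∉ s₀ → ¬0 < a i j) ∧
      ∀ t : Set ι, (∃ i ∈ s₀, i ∈ t) → (∀ i ∈ s₀, i ∈ t → ∀ j ∈ s₀, 0 < a i j → j ∈ t) →
        ∀ j ∈ s₀, j ∈ t := by
  classical
  let R : ι → ι → Prop := Relation.ReflTransGen fun i j => j ∈ s ∧ 0 < a i j
  refine ⟨s.filter (R o), Finset.filter_subset _ _,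
    Finset.mem_filter.2 ⟨ho, Relation.ReflTransGen.refl⟩, fun i hi j hj hn h => hn ?_, ?_⟩
  · exact Finset.mem_filter.2 ⟨hj, (Finset.mem_filter.1 hi).2.tail ⟨hj, h⟩⟩
  · rintro t ⟨i, hi, hit⟩ hcl j hj
    have key : ∀ j, R o j → j ∈ s ∧ (o ∈ t ↔ j ∈ t) := by
      intro j hj
      induction hj with
      | refl => exact ⟨ho, Iff.rfl⟩
      | @tail b c hb hc ih =>
        have m1 : b ∈ s.filter (R o) := Finset.mem_filter.2 ⟨ih.1, hb⟩
        have m2 : c ∈ s.filter (R o) := Finset.mem_filter.2 ⟨hc.1, hb.tail hc⟩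
        exact ⟨hc.1, ih.2.trans ⟨fun h => hcl b m1 h c m2 hc.2,
          fun h => hcl c m2 h b m1 (sym b c ▸ hc.2)⟩⟩
    exact (key j (Finset.mem_filter.1 hj).2).2.1 ((key i (Finset.mem_filter.1 hi).2).2.2 hit)

end Deg

open Deg in
theorem degS : DegOf := by
  classical
  intro hSet hBb hNf hSp hCf hKer _ K _ _ N d B h M u r a' j U Y g s hLog hSit hCg hMs
  obtain ⟨I, Z, a, o, hSt, hs⟩ := hSet K N d B r a' j U Y g hSit
  obtain ⟨c, v, hOc, hLv⟩ := hs u s hCg hMs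
  have hB := hBb K N d I B Z a u r a' j U Y g s v o c hSt hSit hCg hMs hLv hOc
  obtain ⟨η, F⟩ := hNf K N d I B Z a h M hSt hLog
  have ho := hOc.o1.1
  have hc := hOc.c1.1
  have e1 : ∀ᶠ k in u, ∃ n ∈ Set.Iic (dv d.D h M 0 o - dv d.D h M 0 c).toNat, v k c = n := by
    filter_upwards [hB.av, hB.kv, hB.b2] with k h1 h2 h3
    have := bound F ho hc h1 h2 h3
    exact ⟨_, by rw [Set.mem_Iic]; omega, rfl⟩
  obtain ⟨n0, -, e2⟩ := (Ultrafilter.eventually_exists_mem_iff (Set.finite_Iic _)).1 e1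
  obtain ⟨I₀, hsub, ho0, hcl, hconn⟩ := comp I a hSt.ia.sym ho
  have hz : ∀ i ∈ I₀, ∀ j ∈ I, j ∉ I₀ → a i j = 0 := fun i hi j hj hn =>
    le_antisymm (not_lt.1 (hcl i hi j hj hn)) (hSt.ia.off i j (ne_of_mem_of_not_mem hi hn))
  have e3 : ∀ᶠ k in u, ∀ C ∈ I, C ∉ I₀ → v k C = 0 := by
    refine (eventually_all_finset I).2 fun C hC => ?_
    by_cases hn : C ∈ I₀
    · exact Eventually.of_forall fun k h => absurd hn h
    obtain ⟨x, hx, hxZ⟩ := ((hSt.cp C).inf.sdiff hSt.zg.fin).nonempty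
    obtain ⟨y, -, hy⟩ := hOc.o1.2.2
    obtain ⟨δ, hδ, hOb⟩ := hCf K N d I I₀ u r g s hSt.br hSt.fb hSit.r0 hSit.nm hCg hsub
      ⟨o, ho0, y, hy⟩ (fun C hC C' hC' hn x h1 h2 => hcl C hC C' hC' hn
        ((hSt.ia.pos C C' (ne_of_mem_of_not_mem hC hn)).2 ⟨x, h1, h2⟩)) C hC hn x hx
    obtain ⟨p, q, hpq⟩ := hSp K N d.toSf hSt.br x C hx (hSt.zg.dvr C hC x hx hxZ)
    obtain ⟨δ₀, h0, hL⟩ := hLv C hC x hx hxZ q hpq.gm.2.1 hpq.res.2.1
    filter_upwards [hOb, hL (min δ δ₀) (lt_min hδ h0) (min_le_right _ _)] with k h1 h2 _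
    have h3 : Ob d (s k) x (min δ δ₀) = ∅ := by
      refine Set.eq_empty_of_subset_empty (h1 ▸ fun t ht => ?_)
      exact ⟨ht.1.trans_le (min_le_left _ _), ht.2.trans_le (min_le_left _ _)⟩
    have h4 := h2.2
    rw [h3, hpq.res.2.2, one_mul, zc, finsum_mem_empty] at h4
    exact_mod_cast h4.symm
  obtain ⟨k0, a0, a2, a3⟩ := (hB.av.and (e2.and e3)).exists
  have hc0 : c ∈ I₀ := by
    by_contra hn
    have h1 := a0 c hc
    rw [if_pos rfl, if_neg (ne_of_mem_of_not_mem ho0 hn).symm, Finset.sum_eq_zero] at h1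
    · simp at h1
    · intro C hC
      by_cases hC0 : C ∈ I₀
      · rw [hSt.ia.sym, hz C hC0 c hc hn, zero_mul]
      · rw [a3 C hC hC0, Nat.cast_zero, mul_zero]
  have e4 : ∀ᶠ k in u, ∑ C ∈ I, v k C * dot a hdv C = ∑ C ∈ I, v k0 C * dot a hdv C := by
    filter_upwards [hB.av, e2, e3] with k b0 b2 b3
    have := hKer _ I I₀ a (fun C => C.v d.τ) (fun C => v k C) (fun C => v k0 C) c hsub F.off
      F.pos F.fib hz hconn (fun i hi => (b0 i hi).trans (a0 i hi).symm) hc0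
      (by simp only [b2, a2])
    refine Finset.sum_congr rfl fun C hC => ?_
    by_cases hC0 : C ∈ I₀
    · rw [this C hC0]
    · rw [a3 C hC hC0, b3 C hC hC0]
  obtain ⟨ρa, ha, hKa⟩ := hB.ka
  obtain ⟨ρb, hb, hNu⟩ := hB.nu
  set ν := ∑ C ∈ I, v k0 C * dot a hdv C
  refine ⟨max ν (2 * ν), min ρa ρb, lt_min ha hb, fun ρ₁ h1 => ?_⟩
  filter_upwards [hKa ρ₁ h1, hNu ρ₁ h1, e4] with k c1 c2 c3 ρ hρ
  have hρ0 : 0 < ρ := h1.trans_le hρ.1
  have w1 := c2 ρ ⟨hρ.1, hρ.2.trans (min_le_right _ _)⟩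
  rw [c3] at w1
  refine ⟨fun w hw => ?_, fun v' w hv hw => ?_⟩
  · rw [(wind _ _ hρ0).2.1 _ _ _ hw w1]
    exact le_max_left _ _
  · have w2 := (c1 ρ ⟨hρ.1, hρ.2.trans (min_le_left _ _)⟩ v' hv).mul hρ0 (w1.pow 2)
    have w3 := w2.congr (g := fun t => wg (s k t) (v' t) (j, a')) fun t ht => by
      rw [kap, div_mul_cancel₀ _ (pow_ne_zero 2 (w1.ne hρ0 ht))]
    rw [(wind _ _ hρ0).2.1 _ _ _ hw w3]
    refine le_trans ?_ (le_max_right _ _)
    have := Int.natCast_nonneg (v k c)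
    have := Int.natCast_nonneg (v k o)
    push_cast
    linarith

end Pool.Agent.MP_c69980_ag.I2
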