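import Pool.Agent.MP_c69980_ag.I2.SpecB

/-!
The components of a fibre.
-/

set_option autoImplicit false

noncomputable section

namespace Pool.Agent.MP_c69980_ag.I2

open MvPolynomial Metric Filter Topology Set
open H60 H4 E1

namespace RFb

variable {K : Type} [Field K] [Algebra ℂ K] {N : ℕ}

theorem resc {n : ℕ} {w : V n} (w0 : w ≠ 0) {S : Set (V n)} (hS : S ∈ 𝓝 w) :
    ∃ δ : ℝ, 0 < δ ∧ ∀ y : V n, y ≠ 0 → d2 y w < δ → ∃ y' ∈ S, Pp y' y := by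
  obtain ⟨ε, e0, hε⟩ := Metric.mem_nhds_iff.1 hS
  have hp := H84.sq_pos' w0
  refine ⟨min 1 (ε ^ 2 / H4.sq w), by positivity, fun y y0 h => ?_⟩
  rw [d2_symm, lt_min_iff, lt_div_iff₀ hp] at h
  have e := H84.d2_mul w0 y0
  refine ⟨(ip w y / H4.sq y) • y, hε ?_, _, fun q => ?_, rfl⟩
  · rw [mem_ball, dist_comm, dist_eq_norm]
    refine (H84.norm_le_sq _).trans_lt ?_
    rw [← e]
    exact (Real.sqrt_lt' e0).2 h.2
  · rw [q, zero_smul, sub_zero] at e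
    nlinarith [h.1]

theorem cone_pp {n : ℕ} {W : Set (PS n)} {y y' : V n} (h : Pp y' y) (hy : y ∈ Cone W) :
    y' ∈ Cone W := by
  obtain ⟨y0, hW⟩ := hy
  refine ⟨h.ne y0, ?_⟩
  obtain ⟨c, c0, rfl⟩ := h
  rwa [(Projectivization.mk_eq_mk_iff' ℂ _ _ (smul_ne_zero c0 y0) y0).2 ⟨c, rfl⟩]

theorem wd_mul (D : Fin 2 → Derivation ℂ K K) (p q g : K) :
    Wd D (p * q) g = p * Wd D q g + q * Wd D p g := by
  simp only [Wd, Derivation.leibniz, smul_eq_mul]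
  ring

variable {d : FD K N}

theorem tau_mem (br : Br d.toSf) {x : PP d.z} (hx : (d.b, x.z) ∈ d.X) :
    d.τ ∈ x.ctr.O ∧ vl d.z d.τ x.z = 0 := by
  obtain ⟨h1, h2⟩ := d.reg _ hx (mem_ball_self d.r0)
  exact ⟨(br.reg x x.z d.τ (.refl _)).2 h1,
    h2.trans ((d.an d.b (mem_ball_self d.r0)).2.2.2 rfl)⟩

theorem spread (hM : MaxStmt) (br : Br d.toSf) {C : CC d.z} (cp : CP C) (h0 : C.res d.τ = 0)
    {x : PP d.z} (hx : (d.b, x.z) ∈ d.X) (hC : x.On C) (y : PP d.z) (hy : y.On C) :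
    (d.b, y.z) ∈ d.X := by
  refine hM K N d.toSf br C {x | (d.b, x.z) ∈ d.X} ∅ cp finite_empty (fun x _ h => ?_)
    (fun y hy _ _ => ?_) ⟨x, hx, hC, notMem_empty _⟩ y hy
  · refine d.cn.closed (d.b, x.z) (mem_closure_iff_nhds.2 fun t ht => ?_) (br.cone x).1
    obtain ⟨δ, δ0, hδ⟩ := resc (br.cone x).1
      ((Continuous.prodMk_right d.b).continuousAt.preimage_mem_nhds ht)
    obtain ⟨y, hy, -, h2⟩ := h δ δ0
    obtain ⟨y', h3, h4⟩ := hδ y.z (br.cone y).1 h2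
    exact ⟨(d.b, y'), h3, d.cn.pp hy h4⟩
  · obtain ⟨-, T, T1, T2, T3, -⟩ := d.gr _ hy
    have T4 : ∀ᶠ w in 𝓝 y.z, T w ∈ ball d.b d.r₀ :=
      T1.continuousAt.preimage_mem_nhds (by rw [T2]; exact ball_mem_nhds _ d.r0)
    obtain ⟨δ, δ0, hδ⟩ := resc (br.cone y).1 (T3.and T4)
    refine ⟨δ, δ0, fun x hx h => ?_⟩
    obtain ⟨w, ⟨h1, h2⟩, h3⟩ := hδ x.z (br.cone x).1 h
    have h4 := h1 (cone_pp h3 (br.cone x))
    obtain ⟨h5, h6⟩ := d.reg _ h4 h2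
    have h7 := (br.reg x w d.τ h3).2 h5
    have h8 : d.ψ (T w) = 0 := by
      rw [← br.von x C d.τ hx h7 h0,
        ← h3.vl (Cone.on d.gen (br.cone x)) ((br.reg x x.z d.τ (.refl _)).1 h7)]
      exact h6.symm
    rw [(d.an _ h2).2.2.1 h8] at h4
    exact d.cn.pp h4 h3.symm

theorem pos_of (br : Br d.toSf) (t0 : d.τ ≠ 0) {C : CC d.z} (cp : CP C)
    (h : ∀ x : PP d.z, x.On C → (d.b, x.z) ∈ d.X) : d.τ ∈ C.O ∧ 0 < C.v d.τ := by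
  obtain ⟨x, hx⟩ := cp.inf.nonempty
  have h1 : d.τ ∈ C.O := hx.le (tau_mem br (h x hx)).1
  refine ⟨h1, (br.g0.va.pos C d.τ t0 h1).2 (by_contra fun h2 => cp.inf ?_)⟩
  exact (br.vfin C d.τ h1 h2).subset fun y hy => ⟨hy, fun q => q.2 (tau_mem br (h y hy)).2⟩

theorem v_inv {ξ : Fin (N + 1) → K} (g0 : G0 ξ) (C : CC ξ) {f : K} (h : f ≠ 0) :
    C.v f⁻¹ = -C.v f := by
  have h1 := g0.va.mul C 1 1 one_ne_zero one_ne_zero
  have h2 := g0.va.mul C f f⁻¹ h (inv_ne_zero h)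
  rw [mul_one] at h1
  rw [mul_inv_cancel₀ h] at h2
  omega

theorem tau_nu (br : Br d.toSf) {x : PP d.z} (hx : (d.b, x.z) ∈ d.X) :
    ¬IsUnit (⟨d.τ, (tau_mem br hx).1⟩ : x.ctr.O) :=
  (IsLocalRing.mem_maximalIdeal _).1 ((br.max x _).2 (tau_mem br hx).2)

theorem irr (br : Br d.toSf) (xb : Xb d) {x : PP d.z} (hx : (d.b, x.z) ∈ Rx d.X) :
    Irreducible (⟨d.τ, (tau_mem br (Rx.mem d.cn hx)).1⟩ : x.ctr.O) := by
  refine ⟨tau_nu br (Rx.mem d.cn hx), fun p q e => ?_⟩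
  obtain ⟨a, j, U, Y, hc, ζ, h1, h2⟩ := hx
  obtain ⟨⟨w0, -, hw⟩, ⟨-, h3, -⟩, -⟩ :=
    xb.gen a j U Y hc (d.b, ζ) h1 (mem_ball_self d.r0) x h2.symm
  have h4 : d.z a / d.z j ∈ x.ctr.O := by
    simpa using add_mem h3 (x.ctr.const_mem ζ)
  have e' : d.τ = (p : K) * q := congrArg Subtype.val e
  refine IsLocalRing.isUnit_or_isUnit_of_isUnit_add (a := p * ⟨_, hw _ q.2 _ h4⟩)
    (b := q * ⟨_, hw _ p.2 _ h4⟩) ?_ |>.imp isUnit_of_mul_isUnit_left isUnit_of_mul_isUnit_left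
  have e1 : p * ⟨_, hw _ q.2 _ h4⟩ + q * ⟨_, hw _ p.2 _ h4⟩ = 1 := by
    refine Subtype.ext ?_
    show (p : K) * (_ / _) + (q : K) * (_ / _) = 1
    rw [← mul_div_assoc, ← mul_div_assoc, ← add_div, ← wd_mul, ← e', div_self w0]
  rw [e1]
  exact isUnit_one

theorem gen_of (br : Br d.toSf) (xb : Xb d) {x : PP d.z} (hx : (d.b, x.z) ∈ Rx d.X)
    {C : CC d.z} (hC : x.On C) (h0 : C.res d.τ = 0) :
    Prime (⟨d.τ, (tau_mem br (Rx.mem d.cn hx)).1⟩ : x.ctr.O) ∧ ∀ a : x.ctr.O,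
      (⟨d.τ, (tau_mem br (Rx.mem d.cn hx)).1⟩ : x.ctr.O) ∣ a ↔ C.res a = 0 := by
  obtain ⟨π, h1, h2, -⟩ := br.g0.cv.on x C hC
  have h3 := h1.irreducible.associated_of_dvd (irr br xb hx) ((h2 _).2 h0)
  exact ⟨h3.prime h1, fun a => h3.dvd_iff_dvd_left.symm.trans (h2 a)⟩

theorem crit_fin (hR : ResStmt) (br : Br d.toSf) (xb : Xb d) (ca : CA d.z d.D) (t0 : d.τ ≠ 0)
    {C : CC d.z} (cp : CP C) (h : ∀ x : PP d.z, x.On C → (d.b, x.z) ∈ d.X) (hv : C.v d.τ = 1) :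
    {x : PP d.z | x.On C ∧ (d.b, x.z) ∉ Rx d.X}.Finite := by
  obtain ⟨w, hw⟩ := ca.ex C
  obtain ⟨δ, h1, δ0, -⟩ := hR K N d.z br.g0 d.D C d.τ w cp.ff t0 hv hw
  obtain ⟨φ, hφ⟩ : ∃ φ, δ φ ≠ 0 := by_contra fun q =>
    δ0 (Derivation.ext fun φ => by_contra fun q' => q ⟨φ, q'⟩)
  obtain ⟨f, rfl⟩ := IsLocalRing.residue_surjective φ
  rw [← C.res_of_mem] at hφ
  have f0 : C.res (f : K) ≠ 0 := fun q => hφ (by rw [q, map_zero])
  rw [h1 _ f.2] at hφ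
  have ht := (pos_of br t0 cp h).1
  obtain ⟨S, hS, hS'⟩ := br.kg
  have key : ∀ w' ∈ S, {x : PP d.z | x.On C ∧ GenO d.D C.O w' ∧
      vl d.z (Wd d.D d.τ f / w') x.z = 0}.Finite := fun w' _ => by
    by_cases hg : GenO d.D C.O w'
    · have m1 := hg.2.2 _ ht _ f.2
      have m2 : w' / w ∈ C.O := by
        obtain ⟨a, ha, b, hb, rfl⟩ := hg.2.1
        exact hw.2.2 a ha b hb
      refine (br.vfin C _ m1 fun q => hφ ?_).subset fun x hx => ⟨hx.1, fun q => q.2 hx.2.2⟩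
      rw [← div_mul_div_cancel₀ hg.1, C.res_mul m1 m2, q, zero_mul]
    · exact finite_empty.subset fun x hx => hg hx.2.1
  refine ((br.vfin C _ f.2 f0).union (hS.biUnion key)).subset fun x hx => ?_
  by_cases hf : (f : K) ∈ x.ctr.O
  · obtain ⟨w', m1, m2⟩ := hS' x
    exact Or.inr (mem_biUnion m1 ⟨hx.1, ca.up x C w' hx.1 m2,
      xb.crit x (h x hx.1) hx.2 w' m2 _ hf⟩)
  · exact Or.inl ⟨hx.1, fun q => hf q.1⟩

end RFb

open RFb in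
theorem fbS : FbOf := by
  intro hM hR K _ _ N d br xb ca cp t0
  have hfin : {C : CC d.z | ∀ x : PP d.z, x.On C → (d.b, x.z) ∈ d.X}.Finite :=
    (br.g0.fin.v d.τ).subset fun C hC => (pos_of br t0 (cp C) hC).2.ne'
  have hm : ∀ C, C ∈ hfin.toFinset ↔ ∀ x : PP d.z, x.On C → (d.b, x.z) ∈ d.X :=
    fun C => hfin.mem_toFinset
  have hr : ∀ C ∈ hfin.toFinset, C.res d.τ = 0 := fun C hC =>
    let h := pos_of br t0 (cp C) ((hm C).1 hC)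
    (br.g0.va.pos C d.τ t0 h.1).1 h.2
  have hz : ∀ (x : PP d.z) (C : CC d.z), (d.b, x.z) ∈ d.X → x.On C → C ∉ hfin.toFinset →
      C.v d.τ = 0 := fun x C hx hC hI => by
    have h1 : d.τ ∈ C.O := hC.le (tau_mem br hx).1
    refine ((br.g0.va.mem C d.τ t0).1 h1).eq_of_not_lt' fun q => hI ((hm C).2 ?_)
    exact spread hM br (cp C) ((br.g0.va.pos C d.τ t0 h1).1 q) hx hC
  refine ⟨hfin.toFinset, t0, hm, fun x C hx hC =>
    ⟨fun h => (pos_of br t0 (cp C) ((hm C).1 h)).2, hz x C hx hC⟩, fun x hx => ?_,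
    fun x hx C hI hC => ?_, fun C hI => crit_fin hR br xb ca t0 (cp C) ((hm C).1 hI)⟩
  · by_contra q
    have h1 : d.τ⁻¹ ∈ x.ctr.O := br.g0.reg x _ (inv_ne_zero t0) fun C hC => by
      rw [v_inv br.g0 C t0, hz x C hx hC fun hI => q ⟨C, hI, hC⟩, neg_zero]
    exact tau_nu br hx (IsUnit.of_mul_eq_one ⟨_, h1⟩ (Subtype.ext (mul_inv_cancel₀ t0)))
  · obtain ⟨h1, h2⟩ := gen_of br xb hx hC (hr C hI)
    refine ⟨(br.g0.va.pow x C hC _ h1 h2).1, fun C' hI' hC' => ?_⟩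
    exact br.g0.cv.uniq x C' C hC' hC fun a =>
      ((gen_of br xb hx hC' (hr C' hI')).2 a).symm.trans (h2 a)

end Pool.Agent.MP_c69980_ag.I2
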