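import Pool.Agent.MP_c69980_ag.I2.SpecB

/-!
Row Fw: a uniform radius.
-/

set_option autoImplicit false

namespace Pool.Agent.MP_c69980_ag.I2

open MvPolynomial Metric Filter Topology Set
open H60 H4 E1

namespace FwR

theorem base {ψ : ℂ → ℂ} {b : ℂ} (hψ : AnalyticAt ℂ ψ b) (h0 : ψ b = 0) (hd : deriv ψ b ≠ 0) :
    ∀ᶠ t in 𝓝 b, AnalyticAt ℂ ψ t ∧ deriv ψ t ≠ 0 ∧ (ψ t = 0 ↔ t = b) := by
  have a : ∀ᶠ t in 𝓝[≠] b, ψ t ≠ 0 := hψ.differentiableAt.hasDerivAt.eventually_ne hd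
  filter_upwards [hψ.eventually_analyticAt, hψ.deriv.continuousAt.eventually_ne hd,
    eventually_nhdsWithin_iff.1 a] with t h1 h2 h3
  exact ⟨h1, h2, fun e => by_contra fun hn => h3 hn e, fun e => by rw [e, h0]⟩

theorem tube {n : ℕ} {X : Set (Pt n)} (hX : Cn X) {b : ℂ} (Q : ℂ → V n → Prop)
    (h : ∀ y, (b, y) ∈ X → ∀ᶠ x in 𝓝 ((b, y) : Pt n), x ∈ X → Q x.1 x.2) :
    ∀ᶠ t in 𝓝 b, ∀ y ∈ sphere (0 : V n) 1, (t, y) ∈ X → Q t y := by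
  refine (isCompact_sphere (0 : V n) 1).eventually_forall_of_forall_eventually
    (P := fun t y => (t, y) ∈ X → Q t y) fun y hy => ?_
  by_cases hb : (b, y) ∈ X
  · exact h y hb
  · have y0 : y ≠ 0 := by
      rintro rfl
      simp at hy
    have c : (b, y) ∈ (closure X)ᶜ := fun h => hb (hX.closed _ h y0)
    filter_upwards [isClosed_closure.isOpen_compl.mem_nhds c] with x a1 a2
    exact absurd (subset_closure a2) a1

theorem reg_ev {K : Type} [Field K] [Algebra ℂ K] {n : ℕ} {z : Fin n → K} {τ : K} {p : Pt n}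
    (h : Reg z p.2 τ) : ∀ᶠ x in 𝓝 p, Reg z x.2 τ := by
  obtain ⟨F, G, d, hF, hG, q, e⟩ := h
  have c1 : Continuous fun w : V n => eval w G := MvPolynomial.continuous_eval G
  have c2 : ∀ᶠ w in 𝓝 p.2, eval w G ≠ 0 := c1.continuousAt.eventually_ne q
  filter_upwards [continuous_snd.continuousAt.eventually c2] with x a
  exact ⟨F, G, d, hF, hG, a, e⟩

theorem unit {n : ℕ} {y : V n} (h : y ≠ 0) : ∃ w ∈ sphere (0 : V n) 1, Pp w y := by
  have y0 : ‖y‖ ≠ 0 := norm_ne_zero_iff.2 h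
  refine ⟨((‖y‖ : ℂ))⁻¹ • y, ?_, Pp.smul (inv_ne_zero (Complex.ofReal_ne_zero.2 y0)) _⟩
  rw [mem_sphere_zero_iff_norm, norm_smul, norm_inv, Complex.norm_real, norm_norm,
    inv_mul_cancel₀ y0]

end FwR

theorem fwS : FwStmt := by
  intro K _ _ n z X b τ ψ hX hOn hψ h0 hd hR
  have h3 : ∀ y, (b, y) ∈ X →
      ∀ᶠ x in 𝓝 ((b, y) : Pt n), x ∈ X → Reg z x.2 τ ∧ vl z τ x.2 = ψ x.1 := fun y hy =>
    ((hR y hy).2.and (FwR.reg_ev (p := (b, y)) (hR y hy).1)).mono fun x a hx => ⟨a.2, a.1 hx⟩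
  have h4 := FwR.tube hX (fun t y => Reg z y τ ∧ vl z τ y = ψ t) h3
  obtain ⟨r, r0, hr⟩ := Metric.eventually_nhds_iff_ball.1 ((FwR.base hψ h0 hd).and h4)
  refine ⟨r, r0, fun t ht => (hr t ht).1, ?_⟩
  rintro ⟨t, y⟩ hx ht
  obtain ⟨w, s1, p⟩ := FwR.unit (hX.nz _ hx)
  have m : (t, w) ∈ X := hX.pp hx p
  have o : On z w := hOn (t, w) m
  have a : Reg z w τ ∧ vl z τ w = ψ t := (hr t ht).2 w s1 m
  exact ⟨p.symm.reg a.1, (p.symm.vl o a.1).trans a.2⟩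

end Pool.Agent.MP_c69980_ag.I2
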