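import Pool.Agent.MP_c69980_ag.I2.SpecB

/-!
The multiplicity of the bubble is constant along each component of the fibre.
-/

set_option autoImplicit false

noncomputable section

namespace Pool.Agent.MP_c69980_ag.I2

open MvPolynomial Metric Filter Topology Set
open H60 H4 E1

namespace GvA

variable {K : Type} [Field K] [Algebra ℂ K] {N : ℕ}

lemma congr {d : FD K N} {u : Ultrafilter ℕ} {s : ℕ → ℂ → V (N + 1)} {C : CC d.z} {x : PP d.z}
    {v v' : ℕ → ℕ} (h : Lv d u s C x v) (e : ∀ᶠ k in u, v' k = v k) : Lv d u s C x v' := by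
  intro f hf h0
  obtain ⟨δ₀, p, H⟩ := h f hf h0
  refine ⟨δ₀, p, fun δ q r => ?_⟩
  filter_upwards [H δ q r, e] with k a b
  rw [b]
  exact a

lemma sep {S : Sf K N} (br : Br S) {Z : Set (PP S.z)} (hZ : Z.Finite) {x : PP S.z}
    (hx : x ∉ Z) : ∃ δ : ℝ, 0 < δ ∧ ∀ y ∈ Z, δ ≤ d2 y.z x.z := by
  rcases Z.eq_empty_or_nonempty with rfl | hne
  · exact ⟨1, one_pos, fun y hy => hy.elim⟩
  obtain ⟨y, hy, hm⟩ := Set.exists_min_image Z (fun y => d2 y.z x.z) hZ hne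
  refine ⟨d2 y.z x.z, d2_pos (br.cone y).1 (br.cone x).1 fun h => hx ?_, hm⟩
  exact br.uniq _ _ h ▸ hy

lemma self {S : Sf K N} (br : Br S) (x : PP S.z) : d2 x.z x.z = 0 :=
  (d2_eq_zero (br.cone x).1 (br.cone x).1).2 (Pp.refl _)

end GvA

open GvA in
theorem gvS : GvOf := by
  intro hM hL K _ _ N d I B Z a u r g s st r0 rr hg hc hy
  obtain ⟨y, yZ, hy⟩ := hy
  have br := st.br
  have loc : ∀ C ∈ I, ∀ x : PP d.z, x.On C → x ∉ Z → ∃ v, Lv d u s C x v ∧ ∃ δ : ℝ, 0 < δ ∧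
      ∀ (x' : PP d.z) (v' : ℕ → ℕ), x'.On C → d2 x'.z x.z < δ → x' ∉ Z → Lv d u s C x' v' →
        ∀ᶠ k in u, v' k = v k := by
    intro C hC x hx xZ
    obtain ⟨v, h1, δ, p, h2⟩ := hL K N d I u r g s br st.fb r0 rr hg hc C hC x hx
      (st.zg.dvr C hC x hx xZ) (fun C' h' hx' => st.zg.one C hC x hx xZ C' (Or.inl h') hx')
      (fun h => xZ (br.uniq _ _ (hy.symm.trans h) ▸ yZ))
    exact ⟨v, h1, δ, p, fun x' v' q1 q2 q3 q4 => h2 x' v' q1 q2 (st.zg.dvr C hC x' q1 q3) q4⟩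
  have one : ∀ C : CC d.z, ∃ v : ℕ → ℕ, C ∈ I → ∀ x : PP d.z, x.On C → x ∉ Z →
      Lv d u s C x v := by
    intro C
    by_cases hC : C ∈ I
    swap
    · exact ⟨fun _ => 0, fun h => absurd h hC⟩
    obtain ⟨x₀, h0, z0⟩ := ((st.cp C).inf.diff st.zg.fin).nonempty
    obtain ⟨v₀, l0, -⟩ := loc C hC x₀ h0 z0
    refine ⟨v₀, fun _ x hx xZ => ?_⟩
    have key := hM K N d.toSf br C (Z ∪ {x | Lv d u s C x v₀}) Z (st.cp C) st.zg.fin ?_ ?_
      ⟨x₀, Or.inr l0, h0, z0⟩ x hx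
    · exact key.resolve_left xZ
    · intro x hx H
      by_cases xZ : x ∈ Z
      · exact Or.inl xZ
      obtain ⟨v, l, δ, p, e⟩ := loc C hC x hx xZ
      obtain ⟨δ', p', e'⟩ := sep br st.zg.fin xZ
      obtain ⟨w, wA, wC, wd⟩ := H (min δ δ') (lt_min p p')
      have wZ : w ∉ Z := fun h => absurd (wd.trans_le (min_le_right _ _)) (not_lt.2 (e' w h))
      exact Or.inr (GvA.congr l (e w v₀ wC (wd.trans_le (min_le_left _ _)) wZ
        (wA.resolve_left wZ)))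
    · intro w wA wC wZ
      obtain ⟨v, -, δ, p, e⟩ := loc C hC w wC wZ
      have e0 := e w v₀ wC (by rw [self br]; exact p) wZ (wA.resolve_left wZ)
      refine ⟨δ, p, fun x hx xd => ?_⟩
      by_cases xZ : x ∈ Z
      · exact Or.inl xZ
      obtain ⟨v', l', -⟩ := loc C hC x hx xZ
      refine Or.inr (GvA.congr l' ?_)
      filter_upwards [e0, e x v' hx xd xZ l'] with k q1 q2
      rw [q1, q2]
  choose v hv using one
  exact ⟨fun k C => v C k, fun C hC x hx xZ => hv C hC x hx xZ⟩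

end Pool.Agent.MP_c69980_ag.I2
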