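import Pool.Agent.MP_c69980_ag.I2.SpecB
import Pool.Agent.MP_c69980_ag.E1.Wind

/-!
The counting identity for a section of `M K + e H` in good position.
-/

set_option autoImplicit false

noncomputable section

namespace Pool.Agent.MP_c69980_ag.I2

open MvPolynomial Metric Filter Topology Set
open H60 H4 E1

namespace IdA

variable {K : Type} [Field K] [Algebra ℂ K] {N : ℕ}

theorem ev_and {u : Ultrafilter ℕ} {P Q : ℕ → ℝ → Prop} (hP : Ev u P) (hQ : Ev u Q) :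
    Ev u fun k ρ => 0 < ρ ∧ P k ρ ∧ Q k ρ := by
  obtain ⟨a, ha, hP⟩ := hP
  obtain ⟨b, hb, hQ⟩ := hQ
  refine ⟨min a b, lt_min ha hb, fun ρ₁ h1 => ?_⟩
  filter_upwards [hP ρ₁ h1, hQ ρ₁ h1] with k h2 h3 ρ hρ
  exact ⟨h1.trans_le hρ.1, h2 ρ ⟨hρ.1, hρ.2.trans (min_le_left _ _)⟩,
    h3 ρ ⟨hρ.1, hρ.2.trans (min_le_right _ _)⟩⟩

theorem ev_mono {u : Ultrafilter ℕ} {P Q : ℕ → ℝ → Prop} (hP : Ev u P)
    (h : ∀ k ρ, P k ρ → Q k ρ) : Ev u Q := by
  obtain ⟨a, ha, hP⟩ := hP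
  exact ⟨a, ha, fun ρ₁ h1 => (hP ρ₁ h1).mono fun k h2 ρ hρ => h k ρ (h2 ρ hρ)⟩

section
variable {ξ : Fin (N + 1) → K}

theorem dot_eq (a : CC ξ → CC ξ → ℤ) (n : CC ξ → ℤ) (C : CC ξ) (S : Finset (CC ξ))
    (h : ∀ C', n C' ≠ 0 → C' ∈ S) : dot a n C = ∑ C' ∈ S, n C' * a C' C :=
  finsum_eq_sum_of_support_subset _ fun C' hC => h C' fun e => hC (by simp [e])

theorem fs_dv (g : G0 ξ) {D : Fin 2 → Derivation ℂ K K} (ca : CA ξ D) (h : K) (M e : ℤ) :
    FS (dv D h M e : CC ξ → ℤ) := by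
  refine (((g.fin.v h).union ca.fk).union ca.fh).subset fun C hC => ?_
  by_contra hn
  simp only [mem_union, mem_ofPred_eq, Function.mem_support, not_or, not_not] at hn
  exact hC (by simp [dv, hn.1.1, hn.1.2, hn.2])

theorem dot_dv (g : G0 ξ) {D : Fin 2 → Derivation ℂ K K} (ca : CA ξ D) {a : CC ξ → CC ξ → ℤ}
    (ia : IA a) {h : K} (h0 : h ≠ 0) (M e : ℤ) (C : CC ξ) :
    dot a (dv D h M e) C = M * dot a (kdv D) C + e * dot a hdv C := by
  have hf := ((g.fin.v h).union ca.fk).union ca.fh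
  have h1 := ia.prin h h0 C
  rw [dot_eq a _ C hf.toFinset fun C' hC => by simp [hC]] at h1
  rw [dot_eq a (kdv D) C hf.toFinset fun C' hC => by simp [hC],
    dot_eq a hdv C hf.toFinset fun C' hC => by simp [hC],
    dot_eq a (dv D h M e) C hf.toFinset fun C' hC => by
      by_contra hn
      simp only [Finite.mem_toFinset, mem_union, mem_ofPred_eq, Function.mem_support, not_or,
        not_not] at hn
      exact hC (by simp [dv, hn.1.1, hn.1.2, hn.2]), Finset.mul_sum, Finset.mul_sum,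
    ← Finset.sum_add_distrib]
  refine Eq.trans ?_ ((congrArg (· + _) h1).trans (zero_add _))
  rw [← Finset.sum_add_distrib]
  exact Finset.sum_congr rfl fun C' _ => by simp only [dv]; ring

open Classical in
theorem dot_hor (a : CC ξ → CC ξ → ℤ) (I B : Finset (CC ξ)) {n : CC ξ → ℤ} (hn : FS n)
    (C : CC ξ) : dot a (hor I B n) C =
      dot a n C - ∑ C' ∈ I, n C' * a C' C - ∑ C' ∈ B \ I, n C' * a C' C := by
  have e1 : ∑ C' ∈ I, n C' * a C' C =
      ∑ C' ∈ hn.toFinset ∪ I ∪ B, if C' ∈ I then n C' * a C' C else 0 := by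
    rw [Finset.sum_ite_mem]
    congr 1
    ext x
    simp only [Finset.mem_inter, Finset.mem_union]
    tauto
  have e2 : ∑ C' ∈ B \ I, n C' * a C' C =
      ∑ C' ∈ hn.toFinset ∪ I ∪ B, if C' ∈ B \ I then n C' * a C' C else 0 := by
    rw [Finset.sum_ite_mem]
    congr 1
    ext x
    simp only [Finset.mem_inter, Finset.mem_union, Finset.mem_sdiff]
    tauto
  have e3 : ∀ C', n C' ≠ 0 → C' ∈ hn.toFinset ∪ I ∪ B := fun C' hC =>
    Finset.mem_union_left _ (Finset.mem_union_left _ (hn.mem_toFinset.2 hC))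
  rw [dot_eq a n C _ e3, dot_eq a (hor I B n) C _ fun C' hC => e3 C' fun e => hC (by simp [hor, e]),
    e1, e2, ← Finset.sum_sub_distrib, ← Finset.sum_sub_distrib]
  refine Finset.sum_congr rfl fun C' _ => ?_
  by_cases h1 : C' ∈ I <;> by_cases h2 : C' ∈ B <;> simp [hor, h1, h2]

theorem v_inv (g : G0 ξ) (C : CC ξ) {f : K} (hf : f ≠ 0) : C.v f⁻¹ = -C.v f := by
  have h1 := g.va.mul C 1 1 one_ne_zero one_ne_zero
  have h2 := g.va.mul C f f⁻¹ hf (inv_ne_zero hf)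
  rw [mul_one] at h1
  rw [mul_inv_cancel₀ hf] at h2
  omega

end

theorem cont_vl {n : ℕ} {z : Fin n → K} {s : ℂ → V n} {t : ℂ} {f : K} (hs : ContinuousAt s t)
    (ho : ∀ᶠ w in 𝓝 t, On z (s w)) (h : Reg z (s t) f) :
    ContinuousAt (fun w => vl z f (s w)) t := by
  obtain ⟨F, G, d, hF, hG, h1, rfl⟩ := h
  have a1 : ContinuousAt (fun w => eval (s w) F) t := (continuous_eval F).continuousAt.comp hs
  have a2 : ContinuousAt (fun w => eval (s w) G) t := (continuous_eval G).continuousAt.comp hs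
  refine (a1.div a2 h1).congr ?_
  filter_upwards [a2.eventually_ne h1, ho] with w h2 h3
  exact (vl_eq h3 hF hG h2).symm

/-- The coefficient is a unit where the divisor vanishes. -/
theorem unit (d : FD K N) (br : Br d.toSf) (xb : Xb d) (ca : CA d.z d.D) {h : K} (h0 : h ≠ 0)
    (M e : ℤ) {a j : Fin (N + 1)} {U : Set (ℂ × ℂ)} {Y : ℂ × ℂ → V (N + 1)}
    (ch : Chart d.X a j U Y) {s : ℂ → V (N + 1)} {t : ℂ} (ht : t ∈ ball d.b d.r₀)
    (hx : s t ∈ Cone d.W) (hi : InC a j U Y s t)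
    (hn : ∀ y : PP d.z, Pp (s t) y.z → ∀ C, y.On C → dv d.D h M e C = 0) :
    Reg d.z (s t) (cf d h M e a j) ∧ vl d.z (cf d h M e a j) (s t) ≠ 0 := by
  obtain ⟨y, hy⟩ := br.pt _ hx
  obtain ⟨c, hc, e1⟩ := hi.2
  obtain ⟨c', hc', e2⟩ := id hy
  have hY : Y (t, s t a / s t j) = (c⁻¹ * c') • y.z := by
    rw [mul_smul, ← e2]
    exact (eq_inv_smul_iff₀ hc).2 e1.symm
  have hj : y.z j ≠ 0 := fun e0 => by
    have := (ch.2.2 _ hi.1).1
    rw [hY, Pi.smul_apply, e0, smul_zero] at this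
    exact zero_ne_one this
  have hg := (xb.gen a j U Y ch _ hi.1 ht y ⟨_, mul_ne_zero (inv_ne_zero hc) hc', hY⟩).1
  have he : Eqn y (dv d.D h M e) (cf d h M e a j) := ca.eqn y j _ h M e hj hg h0
  have r1 := (br.reg y _ _ hy).1 (br.g0.reg y _ he.1 fun C hC => by rw [he.2 C hC, hn y hy C hC])
  have r2 := (br.reg y _ _ hy).1 (br.g0.reg y _ (inv_ne_zero he.1) fun C hC => by
    rw [v_inv br.g0 C he.1, he.2 C hC, hn y hy C hC, neg_zero])
  have on : On d.z (s t) := Cone.on d.gen hx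
  refine ⟨r1, fun e0 => ?_⟩
  have h1 := (vl_mul on r1 r2).2
  have h2 := (vl_const on 1).2
  rw [mul_inv_cancel₀ he.1, e0, zero_mul] at h1
  rw [map_one, h1] at h2
  exact zero_ne_one h2

end IdA

open IdA in
theorem idS : IdOf := by
  intro hC hW hN K _ _ N d I B Z a u r a' j U Y g s v o c h M e st si cg ms lv oc h0 hp hz
  have hf := fs_dv st.br.g0 st.ca h M e
  obtain ⟨y₀, y1, -, y2⟩ := oc.o1.2.2
  have E1 := hC K N d I B Z a u r g s v (dv d.D h M e) c st si.r0 si.rr si.nm cg ms ⟨y₀, y1, y2⟩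
    lv hf hp hz oc.c1.1 oc.c1.2.2.2
  have E2 := (hN K N d u r a' j U Y g s st.br st.xb si cg).2.1
  refine ev_mono (ev_and E1 E2) ?_
  rintro k ρ ⟨hρ, ⟨hr, h1, h2⟩, -, h3, -⟩
  have hb : ∀ t ∈ sphere d.b ρ, t ∈ ball d.b r := fun t ht => sphere_subset_ball hr ht
  have hc : ∀ t ∈ ball d.b r, s k t ∈ Cone d.W := fun t ht => (d.gr _ ((cg.1 k).2.2 t ht)).1
  have hu := fun t (ht : t ∈ sphere d.b ρ) => unit d st.br st.xb st.ca h0 M e si.ch
    (ball_subset_ball si.rr (hb t ht)) (hc t (hb t ht)) (h3 t ht) (h1 t ht)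
  refine ⟨Wind.ex hρ _ (fun t ht => ?_) fun t ht => (hu t ht).2, fun v' κ ν w hv w1 w2 w3 => ?_⟩
  · have hm := isOpen_ball.mem_nhds (hb t ht)
    exact (cont_vl ((cg.1 k).1.1.continuousOn.continuousAt hm)
      (mem_of_superset hm fun x hx => Cone.on d.gen (hc x hx)) (hu t ht).1).continuousWithinAt
  · obtain ⟨o', o1, -, o2⟩ := hW K N d h M e (s k) v' a' j U Y ρ r st.br st.xb st.ca h0 hρ hr si.rr
      (cg.1 k) hv si.ch (fun t ht => ⟨h3 t ht, (hu t ht).2⟩) fun _ _ _ _ C _ => hp C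
    rw [Wind.uniq hρ _ _ _ (((w1.zpow M).mul hρ (w2.zpow e)).mul hρ w3) o2, h2 o' o1]
    congr 1
    refine Finset.sum_congr rfl fun C _ => ?_
    rw [dot_hor a I B hf, dot_dv st.br.g0 st.ca st.ia h0]

end Pool.Agent.MP_c69980_ag.I2
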