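import Pool.Agent.MP_c69980_ag.I2.SpecB

/-! The winding number of the vertical vector fields along the sections. -/

set_option autoImplicit false

namespace Pool.Agent.MP_c69980_ag.I2

open Metric Filter Topology Set
open H60 H4 E1

namespace KaA

variable {u : Ultrafilter ℕ} {P Q : ℕ → ℝ → Prop}

theorem ev_and (h : Ev u P) (h' : Ev u Q) : Ev u fun k ρ => P k ρ ∧ Q k ρ := by
  obtain ⟨a, a0, ha⟩ := h
  obtain ⟨b, b0, hb⟩ := h'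
  refine ⟨min a b, lt_min a0 b0, fun ρ₁ h1 => ?_⟩
  filter_upwards [ha ρ₁ h1, hb ρ₁ h1] with k p q ρ hρ
  exact ⟨p ρ ⟨hρ.1, hρ.2.trans (min_le_left _ _)⟩, q ρ ⟨hρ.1, hρ.2.trans (min_le_right _ _)⟩⟩

theorem ev_mono (h : Ev u P) (H : ∀ k ρ, 0 < ρ → P k ρ → Q k ρ) : Ev u Q := by
  obtain ⟨a, a0, ha⟩ := h
  refine ⟨a, a0, fun ρ₁ h1 => ?_⟩
  filter_upwards [ha ρ₁ h1] with k p ρ hρ
  exact H k ρ (h1.trans_le hρ.1) (p ρ hρ)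

theorem ev_of {R : ℕ → Prop} (h : ∀ᶠ k in u, R k) : Ev u fun k _ => R k :=
  ⟨1, one_pos, fun _ _ => h.mono fun _ p _ _ => p⟩

end KaA

theorem kaS : KaOf := by
  intro hVl hStc hNg hCur hCl K _ _ N d I B Z a u r a' j U Y g s v o c st sit cg _ lv oc
  obtain ⟨oI, o1, y, yZ, yo, gy⟩ := oc.o1
  obtain ⟨cI, c1, -, sc⟩ := oc.c1
  obtain ⟨x, σ, r1, xc, xZ, xR, r10, nσ, σx, hσ⟩ :=
    hCur K N d I Z st.br st.xb st.cp st.fb st.zg.fin c cI c1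
  obtain ⟨x', σ', r2, xo, xZ', xR', r20, nσ', σx', hσ'⟩ :=
    hCur K N d I Z st.br st.xb st.cp st.fb st.zg.fin o oI o1
  have np : ∀ w : PP d.z, w ∉ Z → ¬Pp (g d.b) w.z := fun w hw h =>
    hw (st.br.uniq y w (gy.symm.trans h) ▸ yZ)
  obtain ⟨cgg, n2, n3, -⟩ := hNg K N d u r a' j U Y g s st.br st.xb sit cg
  have cont : ∀ (τ : ℂ → V (N + 1)) (r' : ℝ), 0 < r' → Nm d.X (ball d.b r') τ id →
      ContinuousAt τ d.b ∧ τ d.b ≠ 0 := fun τ r' h0 h =>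
    ⟨(Crv.an h.1 isOpen_ball (mem_ball_self h0)).continuousAt, h.1.2 _ (mem_ball_self h0)⟩
  have e1 := hσ u r g s _ sit.r0 sit.nm cg (np x xZ) (lv c cI x xc xZ)
  have e2 := hσ' u r g s _ sit.r0 sit.nm cg (np x' xZ') (lv o oI x' xo xZ')
  have e3 := n3 (fun _ => g) σ cgg (cont σ r1 r10 nσ).1 (cont σ r1 r10 nσ).2
    fun h => np x xZ (h.symm.trans σx)
  have e4 := n3 (fun _ => g) σ' cgg (cont σ' r2 r20 nσ').1 (cont σ' r2 r20 nσ').2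
    fun h => np x' xZ' (h.symm.trans σx')
  have hN := st.xb.nonreg
  have rx : ∀ τ : ℂ → V (N + 1), Nm d.X (ball d.b r) τ id → (d.b, τ d.b) ∈ Rx d.X := fun τ h =>
    h.rx d.cn hN isOpen_ball (mem_ball_self sit.r0)
  have cl : ∀ C ∈ I, ∀ (w w' : PP d.z) (p q : V (N + 1)), w.On C → w'.On C →
      (d.b, w.z) ∈ Rx d.X → (d.b, q) ∈ Rx d.X → Pp p w.z → Pp q w'.z → Cl d.X d.b p q :=
    fun C hC w w' p q h1 h2 h3 h4 h5 h6 =>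
      (((hCl K N d I st.br st.cp st.fb C hC w w' h1 h2 h3 (Rx.pp h4 h6.symm)).pp h6).symm.pp
        h5).symm
  refine KaA.ev_mono (KaA.ev_and (KaA.ev_and (KaA.ev_and e1 e2) (KaA.ev_and e3 e4))
    (KaA.ev_and n2 (KaA.ev_of sc))) ?_
  rintro k ρ ρ0 ⟨⟨⟨⟨ρ1, z1, z2⟩, ρ2, z3, z4⟩, ⟨tb, b1⟩, -, b2⟩, ⟨ρr, i1, i2⟩, w, wc, sw⟩ v' hv'
  obtain ⟨κ, hκ⟩ := ((hVl _ d.X d.b ρ r (s k) d.cn hN ρ0 ρr (cg.1 k)).2 a' j U Y v' sit.ch hv').1 i1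
  obtain ⟨⟨v'', hv''⟩, hg⟩ := hVl _ d.X d.b ρ r g d.cn hN ρ0 ρr sit.nm
  have s0 : ball d.b (min r (min r1 r2)) ⊆ ball d.b r := ball_subset_ball (min_le_left _ _)
  have s1 : ball d.b (min r (min r1 r2)) ⊆ ball d.b r1 :=
    ball_subset_ball ((min_le_right _ _).trans (min_le_left _ _))
  have s2 : ball d.b (min r (min r1 r2)) ⊆ ball d.b r2 :=
    ball_subset_ball ((min_le_right _ _).trans (min_le_right _ _))
  have key := (hStc _ d.X a' j U Y d.b ρ (min r (min r1 r2)) (s k) g σ v' (v k c) 0 κ d.cn hN ρ0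
    (lt_min ρr (lt_min ρ1 ρ2)) (fun p hp => sit.pun p ⟨hp.1, hp.2.trans ρr.le⟩) sit.ch
    ((cg.1 k).mono s0) (sit.nm.mono s0) (nσ.mono s1) tb b1
    (cl c cI x w _ _ xc wc xR (rx _ (cg.1 k)) σx sw) hv' z1 z2 hκ).2 σ' v'' (v k o) 0 0
    (nσ'.mono s2) b2 (cl o oI x' y _ _ xo yo xR' (rx _ sit.nm) σx' gy) hv'' z3 z4
    ((hg a' j U Y v'' sit.ch hv'').2 i2)
  rwa [show κ = -((v k c : ℤ) + v k o) by omega] at hκ

end Pool.Agent.MP_c69980_ag.I2
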