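import Pool.Agent.MP_c69980_ag.I2.SpecA

/-! The kernel of the intersection matrix on a connected set of components. -/

set_option autoImplicit false

open Finset

namespace Pool.Agent.MP_c69980_ag.I2

theorem kerS : KerStmt := by
  intro ι s s₀ a m v w c hs hp hm ham hoff hcon hvw hc hvc
  obtain ⟨i0, hi0, hmax⟩ := exists_max_image s₀ (fun i => ((v i - w i : ℤ) : ℚ) / (m i : ℚ))
    ⟨c, hc⟩
  have hy : ∀ j ∈ s₀, (v j - w j) * m i0 - (v i0 - w i0) * m j ≤ 0 := fun j hj => by
    have h1 := hmax j hj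
    have h2 : (0 : ℚ) < m j := by exact_mod_cast hm j (hs hj)
    have h3 : (0 : ℚ) < m i0 := by exact_mod_cast hm i0 (hs hi0)
    rw [div_le_div_iff₀ h2 h3] at h1
    rw [sub_nonpos]
    exact_mod_cast h1
  have key := hcon {j | (v j - w j) * m i0 - (v i0 - w i0) * m j = 0} ⟨i0, hi0, sub_self _⟩
    (fun i hi hit j hj hij => by
      have h1 : ∑ l ∈ s, a i l * ((v l - w l) * m i0 - (v i0 - w i0) * m l) = 0 := by
        have e : ∀ l, a i l * ((v l - w l) * m i0 - (v i0 - w i0) * m l) =
            (a i l * v l - a i l * w l) * m i0 - (v i0 - w i0) * (a i l * m l) := fun l => by ring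
        simp only [e, sum_sub_distrib, ← sum_mul, ← mul_sum, ham i (hs hi), hvw i (hs hi)]
        ring
      have h2 := (sum_eq_zero_iff_of_nonpos fun l hl => ?_).1 h1 j (hs hj)
      · exact (mul_eq_zero.1 h2).resolve_left hij.ne'
      · by_cases h3 : l ∈ s₀
        · by_cases h4 : i = l
          · subst h4
            exact (mul_eq_zero_of_right _ hit).le
          · exact mul_nonpos_of_nonneg_of_nonpos (hp i (hs hi) l hl h4) (hy l h3)
        · rw [hoff i hi l hl h3, zero_mul])
  have h1 : (v c - w c) * m i0 - (v i0 - w i0) * m c = 0 := key c hc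
  rw [hvc, sub_self, zero_mul, zero_sub, neg_eq_zero] at h1
  have h2 := (mul_eq_zero.1 h1).resolve_right (hm c (hs hc)).ne'
  intro i hi
  have h3 : (v i - w i) * m i0 - (v i0 - w i0) * m i = 0 := key i hi
  rw [h2, zero_mul, sub_zero] at h3
  exact sub_eq_zero.1 ((mul_eq_zero.1 h3).resolve_right (hm i0 (hs hi0)).ne')

end Pool.Agent.MP_c69980_ag.I2
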