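import Pool.Agent.MP_c69980_ag.I2.LcA

/-!
The multiplicity of a bubble at a smooth point of a component, and its local constancy.
-/

set_option autoImplicit false

noncomputable section

namespace Pool.Agent.MP_c69980_ag.I2

open MvPolynomial Metric Filter Topology Set
open H60 H4 E1

namespace Lc

variable {K : Type} [Field K] [Algebra ℂ K] {N : ℕ}

/-- A radius that is small for all purposes. -/
structure Gd (d : FD K N) (u : Ultrafilter ℕ) (r : ℝ) (s : ℕ → ℂ → V (N + 1)) (x : PP d.z)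
    (p q : K) (Γ : ℂ × ℂ → V (N + 1)) (ε δ : ℝ) : Prop where
  br : Br d.toSf
  par : Par d.toSf x p q Γ ε
  nm : ∀ k, Nm d.X (ball d.b r) (s k) id
  pos : 0 < δ
  le : δ ≤ r
  ch : ∀ y ∈ Cone d.W, d2 y x.z < δ → Reg d.z y p ∧ Reg d.z y q ∧
    Pp y (Γ (vl d.z p y, vl d.z q y))
  ev : ∀ κ : ℝ, 0 < κ → ∀ᶠ k in u, ∀ t ∈ Ob d (s k) x δ, ‖t - d.b‖ < κ ∧ ‖vl d.z p (s k t)‖ < κ

variable {d : FD K N} {x : PP d.z} {p q f : K} {Γ : ℂ × ℂ → V (N + 1)} {ε r δ δs : ℝ}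
  {u : Ultrafilter ℕ} {s : ℕ → ℂ → V (N + 1)} {g : ℂ → V (N + 1)}

theorem exists_gd (hB : Br d.toSf) {I : Finset (CC d.z)} (hF : FB d I) {C : CC d.z} (hC : C ∈ I)
    (hx : x.On C) (h1 : ∀ C' ∈ I, x.On C' → C' = C) (hS : Sp d.toSf x C p q)
    (hP : Par d.toSf x p q Γ ε) (r0 : 0 < r) (hg : Nm d.X (ball d.b r) g id) (hs : Cg d u r s g)
    (hn : ¬Pp (g d.b) x.z) : ∃ δ, Gd d u r s x p q Γ ε δ := by
  obtain ⟨δ₁, a1, a2, a3⟩ := far hB r0 hg hs hn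
  obtain ⟨δ₂, b1, b2⟩ := small hB hF hC hx h1 hS hP
  obtain ⟨δ₃, c1, c2⟩ := hP.near ε hP.e0
  refine ⟨min δ₁ (min δ₂ δ₃), hB, hP, hs.1, by positivity, (min_le_left _ _).trans a2,
    fun y hy hd => ?_, fun κ κ0 => ?_⟩
  · obtain ⟨e1, e2, -, e3⟩ := c2 y hy (hd.trans_le ((min_le_right _ _).trans (min_le_right _ _)))
    exact ⟨e1, e2, e3⟩
  · obtain ⟨ρ, ρ0, hρ⟩ := b2 κ κ0
    filter_upwards [a3 _ (lt_min ρ0 κ0)] with k hk t ht
    have t1 := ob_mono (min_le_left _ _) ht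
    exact ⟨(hk t t1).trans_le (min_le_right _ _), hρ t _ ((hs.1 k).2.2 t (ob_ball a2 t1))
      ((hk t t1).trans_le (min_le_left _ _))
      (ht.2.trans_le ((min_le_right _ _).trans (min_le_left _ _)))⟩

namespace Gd

theorem mono (G : Gd d u r s x p q Γ ε δs) (δ0 : 0 < δ) (h : δ ≤ δs) :
    Gd d u r s x p q Γ ε δ :=
  ⟨G.br, G.par, G.nm, δ0, h.trans G.le, fun y hy hd => G.ch y hy (hd.trans_le h),
    fun κ κ0 => (G.ev κ κ0).mono fun _ hk t ht => hk t (ob_mono h ht)⟩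

theorem opn (G : Gd d u r s x p q Γ ε δ) (k : ℕ) : IsOpen (Ob d (s k) x δ) :=
  ob_open G.br (G.nm k) G.le

theorem on (G : Gd d u r s x p q Γ ε δ) {k : ℕ} {t : ℂ} (ht : t ∈ Ob d (s k) x δ) :
    On d.z (s k t) := s_on (G.nm k) (ob_ball G.le ht)

theorem ch' (G : Gd d u r s x p q Γ ε δ) {k : ℕ} {t : ℂ} (ht : t ∈ Ob d (s k) x δ) :
    Reg d.z (s k t) p ∧ Reg d.z (s k t) q ∧
      Pp (s k t) (Γ (vl d.z p (s k t), vl d.z q (s k t))) :=
  G.ch _ (s_cone (G.nm k) (ob_ball G.le ht)) ht.2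

theorem diff (G : Gd d u r s x p q Γ ε δ) (k : ℕ)
    (hf : ∀ t ∈ Ob d (s k) x δ, Reg d.z (s k t) f) :
    DifferentiableOn ℂ (fun t => vl d.z f (s k t)) (Ob d (s k) x δ) := fun t ht =>
  (s_an (G.nm k) (ob_ball G.le ht) (hf t ht)).differentiableAt.differentiableWithinAt

/-- Where the second parameter is near `c`, the section is near `Γ (0, c)`. -/
theorem loc (G : Gd d u r s x p q Γ ε δ) {c : ℂ} (hc : ((0 : ℂ), c) ∈ ball (0 : ℂ × ℂ) ε)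
    {y : PP d.z} (hy : Pp y.z (Γ (0, c))) {η : ℝ} (hη : 0 < η) : ∃ κ : ℝ, 0 < κ ∧
      ∀ᶠ k in u, ∀ t ∈ Ob d (s k) x δ, ‖vl d.z q (s k t) - c‖ < κ → t ∈ Ob d (s k) y η := by
  have h0 : d2 (Γ (0, c)) y.z < η := by
    rwa [(d2_eq_zero (G.par.val _ hc).1.1 (z_ne G.br y)).2 hy.symm]
  obtain ⟨κ, κ0, hκ⟩ := Metric.eventually_nhds_iff_ball.1 (near_par G.par hc (z_ne G.br y) h0)
  refine ⟨κ, κ0, ?_⟩
  filter_upwards [G.ev _ (lt_min κ0 hη)] with k hk t ht h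
  refine ⟨(hk t ht).1.trans_le (min_le_right _ _), ?_⟩
  rw [(G.ch' ht).2.2.d2 (.refl y.z)]
  refine hκ _ ?_
  rw [mem_ball, Prod.dist_eq, max_lt_iff, dist_zero_right, dist_eq_norm]
  exact ⟨(hk t ht).2.trans_le (min_le_left _ _), h⟩

theorem loc₀ (G : Gd d u r s x p q Γ ε δ) {η : ℝ} (hη : 0 < η) : ∃ κ : ℝ, 0 < κ ∧
      ∀ᶠ k in u, ∀ t ∈ Ob d (s k) x δ, ‖vl d.z q (s k t)‖ < κ → t ∈ Ob d (s k) x η := by
  simpa only [sub_zero] using G.loc (c := 0) (mem_ball_self G.par.e0) G.par.zero.symm hη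

/-- Linear homotopies. -/
theorem hom (hZ : ZcStmt) (G : Gd d u r s x p q Γ ε δ) : ∃ κ' : ℝ, 0 < κ' ∧ ∀ κ : ℝ, 0 < κ →
    ∀ᶠ k in u, ∀ a c : ℂ → ℂ, DifferentiableOn ℂ a (Ob d (s k) x δ) →
      DifferentiableOn ℂ c (Ob d (s k) x δ) → (∀ θ ∈ Icc (0 : ℝ) 1, ∀ t ∈ Ob d (s k) x δ,
        a t + θ * c t = 0 → ‖vl d.z p (s k t)‖ < κ → ‖vl d.z q (s k t)‖ < κ') →
      {t ∈ Ob d (s k) x δ | a t + c t = 0}.Finite ∧
        zc a (Ob d (s k) x δ) = zc (fun t => a t + c t) (Ob d (s k) x δ) := by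
  obtain ⟨κ', a1, a2⟩ := G.loc₀ (half_pos G.pos)
  refine ⟨κ', a1, fun κ κ0 => ?_⟩
  filter_upwards [a2, G.ev κ κ0] with k h1 h2 a c ha hc h
  have h3 := core hZ G.br (G.nm k) G.pos G.le (fun w => a w.2 + w.1 * c w.2)
    ((ha.continuousOn.comp continuousOn_snd fun _ h => h.2).add
      ((Complex.continuous_ofReal.comp continuous_fst).continuousOn.mul
        (hc.continuousOn.comp continuousOn_snd fun _ h => h.2)))
    (fun θ _ => ha.add (hc.const_mul (θ : ℂ)))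
    fun θ hθ t ht e => h1 t ht (h θ hθ t ht e (h2 t ht).2)
  have h4 := h3.1 1 ⟨zero_le_one, le_rfl⟩
  have h5 := h3.2
  simp only [Complex.ofReal_one, one_mul, Complex.ofReal_zero, zero_mul, add_zero] at h4 h5
  exact ⟨h4, h5⟩

/-- The number of zeros of the second parameter does not depend on the radius. -/
theorem rad (hZ : ZcStmt) (G : Gd d u r s x p q Γ ε δs) (δ0 : 0 < δ) (h : δ ≤ δs) :
    ∀ᶠ k in u, {t ∈ Ob d (s k) x δ | vl d.z q (s k t) = 0}.Finite ∧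
      zc (fun t => vl d.z q (s k t)) (Ob d (s k) x δ) =
        zc (fun t => vl d.z q (s k t)) (Ob d (s k) x δs) := by
  have G' := G.mono δ0 h
  obtain ⟨κ', a1, a2⟩ := G'.hom hZ
  obtain ⟨κ, b1, b2⟩ := G.loc₀ δ0
  filter_upwards [a2 1 one_pos, b2] with k h1 h2
  refine ⟨?_, hZ.2.2 _ _ _ _ (fun t => ⟨fun e => ⟨ob_mono h e.1, e.2⟩,
    fun e => ⟨h2 t e.1 (by rwa [e.2, norm_zero]), e.2⟩⟩) fun _ _ _ => .rfl⟩
  simpa only [add_zero] using (h1 _ (fun _ => 0) (G'.diff k fun t ht => (G'.ch' ht).2.1)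
    (differentiableOn_const _) fun θ _ t _ e _ => by
      rw [mul_zero, add_zero] at e
      rwa [e, norm_zero]).1

theorem lv (hZ : ZcStmt) (G : Gd d u r s x p q Γ ε δs) {C : CC d.z} (hS : Sp d.toSf x C p q) :
    Lv d u s C x fun k => zc (fun t => vl d.z q (s k t)) (Ob d (s k) x δs) := by
  intro f hf hr
  obtain ⟨e, α, β, hα, hβ, a0, he, ho⟩ := hS.ord f hf hr
  have a1 : 0 < ‖vl d.z α x.z‖ / 2 := half_pos (norm_pos_iff.2 a0)
  obtain ⟨δ₁, b1, b2⟩ := near_reg G.br G.par hα a1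
  obtain ⟨δ₂, c1, c2⟩ := near_reg G.br G.par hβ one_pos
  refine ⟨min δs (min δ₁ δ₂), lt_min G.pos (lt_min b1 c1), fun δ δ0 hδ => ?_⟩
  have G' := G.mono δ0 (hδ.trans (min_le_left _ _))
  obtain ⟨κ', d1, d2⟩ := G'.hom hZ
  set A := ‖vl d.z α x.z‖ / 2 with hA
  set M := ‖vl d.z β x.z‖ + 1 with hM
  have M0 : 0 < M := by positivity
  filter_upwards [d2 (A * κ' ^ e / M) (by positivity),
    G.rad hZ δ0 (hδ.trans (min_le_left _ _))] with k h1 h2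
  have r1 : ∀ t ∈ Ob d (s k) x δ, Reg d.z (s k t) α ∧ A ≤ ‖vl d.z α (s k t)‖ := fun t ht => by
    obtain ⟨e1, e2⟩ := b2 _ (s_cone (G.nm k) (ob_ball G'.le ht))
      (ht.2.trans_le (hδ.trans ((min_le_right _ _).trans (min_le_left _ _))))
    refine ⟨e1, ?_⟩
    rw [norm_sub_rev] at e2
    linarith [norm_sub_norm_le (vl d.z α x.z) (vl d.z α (s k t))]
  have r2 : ∀ t ∈ Ob d (s k) x δ, Reg d.z (s k t) β ∧ ‖vl d.z β (s k t)‖ ≤ M := fun t ht => by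
    obtain ⟨e1, e2⟩ := c2 _ (s_cone (G.nm k) (ob_ball G'.le ht))
      (ht.2.trans_le (hδ.trans ((min_le_right _ _).trans (min_le_right _ _))))
    refine ⟨e1, ?_⟩
    linarith [norm_sub_norm_le (vl d.z β (s k t)) (vl d.z β x.z)]
  have dα := G'.diff k fun t ht => (r1 t ht).1
  have dβ := G'.diff k fun t ht => (r2 t ht).1
  have dp := G'.diff k fun t ht => (G'.ch' ht).1
  have dq := G'.diff k fun t ht => (G'.ch' ht).2.1
  obtain ⟨h3, h4⟩ := h1 (fun t => vl d.z α (s k t) * vl d.z q (s k t) ^ e)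
    (fun t => vl d.z β (s k t) * vl d.z p (s k t)) (dα.mul (dq.pow e)) (dβ.mul dp)
    fun θ hθ t ht e0 hp => by
      by_contra hn
      have e1 : ‖vl d.z α (s k t)‖ * ‖vl d.z q (s k t)‖ ^ e =
          θ * (‖vl d.z β (s k t)‖ * ‖vl d.z p (s k t)‖) := by
        have := congrArg norm (eq_neg_of_add_eq_zero_left e0)
        rwa [norm_neg, norm_mul, norm_mul, norm_mul, norm_pow, Complex.norm_real,
          Real.norm_of_nonneg hθ.1] at this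
      have e2 : A * κ' ^ e ≤ ‖vl d.z α (s k t)‖ * ‖vl d.z q (s k t)‖ ^ e :=
        mul_le_mul (r1 t ht).2 (pow_le_pow_left₀ d1.le (not_lt.1 hn) e) (by positivity)
          (norm_nonneg _)
      have e3 : ‖vl d.z β (s k t)‖ * ‖vl d.z p (s k t)‖ ≤ M * ‖vl d.z p (s k t)‖ :=
        mul_le_mul_of_nonneg_right (r2 t ht).2 (norm_nonneg _)
      have e4 := (lt_div_iff₀' M0).1 hp
      have e5 := mul_le_of_le_one_left
        (mul_nonneg (norm_nonneg (vl d.z β (s k t))) (norm_nonneg (vl d.z p (s k t)))) hθ.2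
      linarith
  have ef : ∀ t ∈ Ob d (s k) x δ, vl d.z f (s k t) =
      vl d.z α (s k t) * vl d.z q (s k t) ^ e + vl d.z β (s k t) * vl d.z p (s k t) := by
    intro t ht
    have o := G'.on ht
    have m1 := vl_pow o (G'.ch' ht).2.1 e
    have m2 := vl_mul o (r1 t ht).1 m1.1
    have m3 := vl_mul o (r2 t ht).1 (G'.ch' ht).1
    rw [he, (vl_add o m2.1 m3.1).2, m2.2, m3.2, m1.2]
  refine ⟨h3.subset fun t ht => ⟨ht.1, (ef t ht.1).symm.trans ht.2⟩, ?_⟩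
  rw [zc_congr hZ (G'.opn k) ef, ← h4, hZ.2.1 _ _ _ e (G'.opn k) dq dα h2.1
    (fun t ht => norm_pos_iff.1 (a1.trans_le (r1 t ht).2)), h2.2, ho]
  push_cast
  rfl

theorem const (hSp : SpStmt) (hZ : ZcStmt) (G : Gd d u r s x p q Γ ε δs) {C : CC d.z}
    (hx : x.On C) (hS : Sp d.toSf x C p q) : ∃ δ : ℝ, 0 < δ ∧ ∀ (x' : PP d.z) (v' : ℕ → ℕ),
      x'.On C → d2 x'.z x.z < δ → IsDiscreteValuationRing (C.loc x') → Lv d u s C x' v' →
      ∀ᶠ k in u, v' k = zc (fun t => vl d.z q (s k t)) (Ob d (s k) x δs) := by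
  have hB := G.br
  obtain ⟨κ', a1, a2⟩ := G.hom hZ
  obtain ⟨δ₁, b1, b2⟩ := G.par.near _ (lt_min a1 G.par.e0)
  obtain ⟨δ₂, c1, c2⟩ := ord_one hSp hB hS G.par
  have s4 : 0 < δs / 4 := by linarith [G.pos]
  refine ⟨min (δs / 4) (min δ₁ δ₂), by positivity, fun x' v' hx' hd hD hL => ?_⟩
  obtain ⟨e1, e2, e3, e4⟩ := b2 _ (hB.cone x')
    (hd.trans_le ((min_le_right _ _).trans (min_le_left _ _)))
  rw [hB.von x' C p hx' ((z_reg hB x' p).2 e1) hS.res.1] at e3 e4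
  set c := vl d.z q x'.z with hc
  have hcε : ((0 : ℂ), c) ∈ ball (0 : ℂ × ℂ) ε := ball_subset_ball (min_le_right _ _) e3
  have hcκ : ‖c‖ < κ' :=
    (norm_snd_le ((0 : ℂ), c)).trans_lt ((mem_ball_zero_iff.1 e3).trans_le (min_le_left _ _))
  have hr : C.res (q - algebraMap ℂ K c) ≠ 0 := fun h => by
    have m := vl_sub (z_on hB x) ((z_reg hB x q).1 hS.gm.2.1) c
    have h1 := hB.von x C _ hx ((z_reg hB x _).2 m.1) h
    rw [m.2, hS.gm.2.2.2.1, zero_sub, neg_eq_zero] at h1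
    rw [h1, map_zero, sub_zero] at h
    exact hS.res.2.1 h
  obtain ⟨δ₀, d1, d2⟩ := hL _ ((z_reg hB x' _).2 (vl_sub (z_on hB x') e2 c).1) hr
  rw [c2 x' c hx' (hd.trans_le ((min_le_right _ _).trans (min_le_right _ _))) hD hcε e4 hr] at d2
  have δ0 : 0 < min δ₀ (δs / 4) := lt_min d1 s4
  obtain ⟨κ, f1, f2⟩ := G.loc hcε e4 δ0
  filter_upwards [d2 _ δ0 (min_le_left _ _), a2 1 one_pos, f2] with k h1 h2 h3
  have sub : Ob d (s k) x' (min δ₀ (δs / 4)) ⊆ Ob d (s k) x δs := fun t ht => by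
    have t1 : ‖t - d.b‖ < δs := by linarith [ht.1.trans_le (min_le_right _ _)]
    refine ⟨t1, ?_⟩
    linarith [H84.d2_tri ((G.nm k).1.2 t (mem_ball_iff_norm.2 (t1.trans_le G.le))) (z_ne hB x')
      (z_ne hB x), ht.2.trans_le (min_le_right _ _), hd.trans_le (min_le_left _ _)]
  have ef : ∀ t ∈ Ob d (s k) x δs, vl d.z (q - algebraMap ℂ K c) (s k t) =
      vl d.z q (s k t) + -c := fun t ht => by
    rw [(vl_sub (G.on ht) (G.ch' ht).2.1 c).2, sub_eq_add_neg]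
  have h4 := (h2 _ (fun _ => -c) (G.diff k fun t ht => (G.ch' ht).2.1) (differentiableOn_const _)
    fun θ hθ t _ e _ => by
      rw [eq_neg_of_add_eq_zero_left e, norm_neg, norm_mul, norm_neg, Complex.norm_real,
        Real.norm_of_nonneg hθ.1]
      exact (mul_le_of_le_one_left (norm_nonneg c) hθ.2).trans_lt hcκ).2
  have h5 := hZ.2.2 (Ob d (s k) x' (min δ₀ (δs / 4))) (Ob d (s k) x δs)
    (fun t => vl d.z (q - algebraMap ℂ K c) (s k t)) (fun t => vl d.z q (s k t) + -c)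
    (fun t => ⟨fun e => ⟨sub e.1, (ef t (sub e.1)).symm.trans e.2⟩, fun e =>
      ⟨h3 t e.1 (by rw [sub_eq_add_neg, e.2, norm_zero]; exact f1), (ef t e.1).trans e.2⟩⟩)
    fun t ht _ => mem_of_superset ((G.opn k).mem_nhds (sub ht)) ef
  have h6 := h1.2
  rw [h5, ← h4, one_mul] at h6
  exact_mod_cast h6.symm

end Gd

end Lc

theorem lcS : LcOf := by
  intro hPar hSp hZ K _ _ N d I u r g s hB hF r0 _ hg hs C hC x hx hD h1 hn
  obtain ⟨p, q, hS⟩ := hSp K N d.toSf hB x C hx hD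
  obtain ⟨Γ, ε, hP⟩ := hPar K N d.toSf hB x p q hS.gm
  obtain ⟨δ, G⟩ := Lc.exists_gd hB hF hC hx h1 hS hP r0 hg hs hn
  exact ⟨_, G.lv hZ hS, G.const hSp hZ hx hS⟩

end Pool.Agent.MP_c69980_ag.I2
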