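import Pool.Agent.MP_c69980_ag.I2.SpecB
import Pool.Agent.MP_c69980_ag.I2.Mov

/-!
Lower bounds for orders along sections.
-/

set_option autoImplicit false

noncomputable section

namespace Pool.Agent.MP_c69980_ag.I2

open MvPolynomial Metric Filter Topology Set
open H60 H4 E1

namespace Lo

variable {K : Type} [Field K] [Algebra ℂ K] {N : ℕ} {d : FD K N} {I B : Finset (CC d.z)}
  {Z : Set (PP d.z)} {a : CC d.z → CC d.z → ℤ} {c : CC d.z}

theorem ord (S : St d I B Z a) (hc : c ∈ I) (h1 : c.v d.τ = 1) {n : CC d.z → ℤ}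
    {s : ℂ → V (N + 1)} {r : ℝ} {e : ℕ} (r0 : 0 < r) (hs : Nm d.X (ball d.b r) s id)
    {x : PP d.z} (hx : x.On c) (hp : Pp (s d.b) x.z) (hn : ∀ C, x.On C → 0 ≤ n C)
    (ho : Od d.toSf n s d.b e) : n c ≤ e := by
  obtain ⟨y, E, hy, hE, -, he⟩ := ho
  obtain rfl : x = y := S.br.uniq x y (hp.symm.trans hy)
  have g0 := S.br.g0
  have hR : (d.b, x.z) ∈ Rx d.X :=
    Rx.pp (hs.rx d.cn S.xb.nonreg isOpen_ball (mem_ball_self r0)) hp.symm
  obtain ⟨m, hm⟩ := Int.eq_ofNat_of_zero_le (hn c hx)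
  have t0 := S.fb.t0
  have hG : E / d.τ ^ m ∈ x.ctr.O := by
    refine g0.reg x _ (div_ne_zero hE.1 (pow_ne_zero _ t0)) fun C hC => ?_
    rw [Mov.v_div g0 C hE.1 (pow_ne_zero _ t0), Mov.v_pow g0 C t0, hE.2 C hC]
    by_cases hI : C ∈ I
    · rw [(S.fb.rx1 x hR c hc hx).2 C hI hC, h1, hm]
      omega
    · rw [(S.fb.val x C (Rx.mem d.cn hR) hC).2 hI, mul_zero, sub_zero]
      exact hn C hC
  have an : AnalyticAt ℂ s d.b := Crv.an hs.1 isOpen_ball (mem_ball_self r0)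
  have hon : ∀ᶠ w in 𝓝 d.b, On d.z (s w) := by
    filter_upwards [ball_mem_nhds d.b r0] with w hw
    exact Cone.on d.gen (d.gr _ (hs.2.2 w hw)).1
  obtain ⟨a1, a2⟩ := vl_an an hon ((S.br.reg x _ _ hp).1 hG)
  have a3 := d.an d.b (mem_ball_self d.r0)
  have e1 : (fun w => vl d.z E (s w)) =ᶠ[𝓝 d.b]
      (fun w => vl d.z (E / d.τ ^ m) (s w)) * d.ψ ^ m := by
    filter_upwards [hon, a2, ball_mem_nhds d.b r0, ball_mem_nhds d.b d.r0] with w w1 w2 w3 w4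
    obtain ⟨w5, w6⟩ := d.reg _ (hs.2.2 w w3) w4
    have w7 := (vl_mul w1 w2 (vl_pow w1 w5 m).1).2
    rw [div_mul_cancel₀ _ (pow_ne_zero _ t0), (vl_pow w1 w5 m).2, w6] at w7
    exact w7
  have e2 : (1 : ℕ∞) ≤ analyticOrderAt d.ψ d.b :=
    Order.one_le_iff_ne_zero.2 (a3.1.analyticOrderAt_ne_zero.2 (a3.2.2.2 rfl))
  rw [analyticOrderAt_congr e1, analyticOrderAt_mul a1 (a3.1.pow m), analyticOrderAt_pow a3.1,
    nsmul_eq_mul] at he
  have e3 : (m : ℕ∞) ≤ e := he ▸ (le_mul_of_one_le_right' e2).trans le_add_self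
  rw [hm]
  exact_mod_cast e3

theorem van (S : St d I B Z a) (hc : c ∈ I) (h1 : c.v d.τ = 1) {h : K} {M : ℕ}
    (hL : LogV d.toSf B h M) (hB : c ∉ B) (hV : VanF d B h M) : 1 ≤ dv d.D h M 0 c := by
  by_contra hne
  have h0 : dv d.D h M 0 c = 0 := by
    have := (hL.2.2 c).2 hB
    omega
  have g0 := S.br.g0
  have f1 : {C : CC d.z | C ≠ c ∧ (C ∈ B ∨ dv d.D h M 0 C ≠ 0)}.Finite := by
    refine (B.finite_toSet.union ((g0.fin.v h).union S.ca.fk)).subset ?_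
    rintro C ⟨-, hC | hC⟩
    · exact Or.inl hC
    · refine Or.inr (by_contra fun q => hC ?_)
      simp only [mem_union, mem_ofPred_eq, Function.mem_support, not_or, not_not] at q
      simp [dv, q.1, q.2]
  have f2 := (f1.biUnion fun C hC => g0.two C c hC.1).union (S.fb.rx2 c hc h1)
  obtain ⟨x, hx, hb⟩ := (S.cp c).inf.exists_notMem_finite f2
  have hR : (d.b, x.z) ∈ Rx d.X := by_contra fun q => hb (Or.inr ⟨hx, q⟩)
  have hC : ∀ C, x.On C → C ∉ B ∧ dv d.D h M 0 C = 0 := fun C hC => by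
    by_cases e : C = c
    · exact e ▸ ⟨hB, h0⟩
    · refine by_contra fun q => hb (Or.inl (mem_biUnion (x := C) ⟨e, ?_⟩ ⟨hC, hx⟩))
      tauto
  obtain ⟨a', j, U, Y, ch, ζ, hζ, hp⟩ := hR
  have hp : Pp x.z (Y (d.b, ζ)) := hp
  have hg := (S.xb.gen a' j U Y ch _ hζ (mem_ball_self d.r0) x hp.symm).1
  have hE : Eqn x (dv d.D h M 0) (cf d h M 0 a' j) :=
    S.ca.eqn x j _ h M 0 (ch.eq hζ hp).1 hg hL.1
  have m1 := g0.reg x _ hE.1 fun C q => by rw [hE.2 C q, (hC C q).2]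
  have m2 := g0.reg x _ (div_ne_zero one_ne_zero hE.1) fun C q => by
    rw [Mov.v_div g0 C one_ne_zero hE.1, Mov.v_one g0, hE.2 C q, (hC C q).2, sub_zero]
  have hon : On d.z (Y (d.b, ζ)) := Cone.on d.gen (d.gr _ (ch.mem hζ)).1
  have e1 := (vl_mul hon ((S.br.reg x _ _ hp.symm).1 m1) ((S.br.reg x _ _ hp.symm).1 m2)).2
  rw [mul_one_div_cancel hE.1, (vl_one hon).2, hV a' j U Y ζ ch hζ fun C q x' hx' hp' =>
    (hC C (S.br.uniq x x' (hp.trans hp') ▸ hx')).1 q, zero_mul] at e1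
  exact one_ne_zero e1

end Lo

theorem loS : LoStmt := fun _ _ _ _ _ _ _ _ _ S _ hc h1 =>
  ⟨fun _ _ _ _ r0 hs ⟨_, hx, hp, hn⟩ ho => Lo.ord S hc h1 r0 hs hx hp hn ho,
    fun _ _ hL hB hV => Lo.van S hc h1 hL hB hV⟩

end Pool.Agent.MP_c69980_ag.I2
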