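import Pool.Agent.MP_c69980_ag.I2.SpecA
import Pool.Agent.MP_f3836a_nt.PK.BReg
import Pool.Agent.MP_f3836a_nt.PK.CCvA
import Pool.Agent.MP_f3836a_nt.PK.CVA
import Pool.Agent.MP_f3836a_nt.PK.CFinA

/-! Points, curves and valuations on a smooth surface over the complex numbers. -/

set_option autoImplicit false

namespace Pool.Agent.MP_c69980_ag.I2

open MvPolynomial IsLocalRing Pool.Agent.MP_f3836a_nt.PK

namespace RG0

variable {K : Type} [Field K] [Algebra ℂ K] {N : ℕ} {ξ : Fin (N + 1) → K}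

theorem cva (hS : IsSurf ℂ ξ) : CvA ℂ ξ := by
  refine ⟨CCvA.ext, CCvA.pt, fun C => ?_, CCvA.on rReg hS, CCvA.ofP hS,
    fun x C C' hx hx' h => CCvA.ext C C' (Subring.ext fun f => ?_)⟩
  · obtain ⟨x, hx⟩ := CCvA.pt C
    obtain ⟨π, hπ, -, h⟩ := CCvA.on rReg hS x C hx
    haveI := hS.reg x
    exact CCvA.loc_dvr hπ h
  · rw [CCvA.loc hx, CCvA.loc hx']
    simp only [Ne, h]

open CFinA in
theorem fina (hS : IsSurf ℂ ξ) (hC : CvA ℂ ξ) (hV : VA ℂ ξ) : FinA ℂ ξ := by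
  obtain ⟨𝒢, hG⟩ := rGens ℂ K N ξ
  have hR : RReg.{0} := rReg
  refine ⟨fin_cv hG hC, fun f => ?_, fin_pt hR hS hC, thru hR hS hC,
    fun A B ⟨hA, hB, h0, _, h⟩ => ?_, fun C f => ?_, lin hS⟩
  · by_cases hf : f = 0
    · simp [hf, v_zero]
    obtain ⟨n, A, B, hA, hB, h0, e⟩ := hS.gen f
    have h1 : aeval ξ A ≠ 0 := e ▸ mul_ne_zero hf h0
    refine ((fin_cv hG hC A (Form.of hA) h1).union (fin_cv hG hC B (Form.of hB) h0)).subset
      fun C hv => by_contra fun hn => hv ?_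
    have a := hV.form C A (Form.of hA) h1
    have b := hV.form C B (Form.of hB) h0
    have c := hV.mul C f (C.lo B) hf (Ctr.lo_ne C.good h0)
    rw [show f * C.lo B = C.lo A by rw [C.lo_eq hA, C.lo_eq hB, ← e, mul_div_assoc]] at c
    have a' : ¬ 0 < C.v (C.lo A) := fun h => hn (Or.inl (a.2.1 h))
    have b' : ¬ 0 < C.v (C.lo B) := fun h => hn (Or.inr (b.2.1 h))
    omega
  · refine ((fin_cv hG hC A hA h0).biUnion fun C hAC => fin_pt hR hS hC C B hB (h C hAC)).subset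
      fun x hx => ?_
    obtain ⟨C, h1, h2⟩ := thru hR hS hC x A hA h0 hx.1
    exact Set.mem_biUnion h2 ⟨h1, hx.2⟩
  · by_cases hf : f = 0
    · exact Set.finite_empty.subset fun x hx => hx.2 (dif_neg fun h => h.1 hf)
    obtain ⟨n, A, B, hA, hB, hP, e⟩ := hV.frac C f
    have h0 := C.aeval_ne hB hP
    have hP' : A ∉ C.P := fun h => hf (e ▸ (res_zero C hA hB hP (div_mul_cancel₀ _ h0)).2 h)
    have h1 := C.aeval_ne hA hP'
    refine ((fin_pt hR hS hC C A (Form.of hA) hP').union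
      (fin_pt hR hS hC C B (Form.of hB) hP)).subset fun x hx => by_contra fun hn => hx.2 ?_
    obtain ⟨l1, l2, l3, l4⟩ := hV.loc x C hx.1
    have a := x.ctr.div_mem hA hB fun h => hn (Or.inr ⟨hx.1, h⟩)
    have b := x.ctr.div_mem hB hA fun h => hn (Or.inl ⟨hx.1, h⟩)
    refine ((rOrd _ _ l2 l3 l4).2.2 ⟨f, (l1 f).2 ⟨⟨_, a⟩, e.symm⟩⟩
      fun h => hf (congrArg Subtype.val h)).2
      (IsUnit.of_mul_eq_one ⟨_, (l1 _).2 ⟨⟨_, b⟩, rfl⟩⟩ (Subtype.ext ?_))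
    change f * C.res (aeval ξ B / aeval ξ A) = 1
    rw [e, ← C.res_mul (hx.1.le a) (hx.1.le b), div_mul_div_cancel₀ h0, div_self h1]
    exact (C.res_of_mem 1).trans (map_one _)

theorem reg (hS : IsSurf ℂ ξ) (hC : CvA ℂ ξ) (hV : VA ℂ ξ) (x : Pt ℂ ξ) (f : K) (hf : f ≠ 0)
    (h : ∀ C : Cv ℂ ξ, x.On C → 0 ≤ C.v f) : f ∈ x.ctr.O := by
  haveI := hS.reg x
  haveI := (rReg x.ctr.O (hS.dim x)).2.2.1
  obtain ⟨a₀, b₀, hb₀, e₀⟩ := CVA.fr hS x.good f
  have hb₁ : b₀ ≠ 0 := fun e => hb₀ (by rw [e]; rfl)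
  obtain ⟨a, b, c, hab, rfl, rfl⟩ := UniqueFactorizationMonoid.exists_reduced_factors' a₀ b₀ hb₁
  have hc : (c : K) ≠ 0 := fun e => hb₀ (by rw [Subring.coe_mul, e, zero_mul])
  have hb : (b : K) ≠ 0 := fun e => hb₀ (by rw [Subring.coe_mul, e, mul_zero])
  have e : f * b = a := by
    refine mul_left_cancel₀ hc ?_
    rw [Subring.coe_mul, Subring.coe_mul] at e₀
    rw [← e₀, mul_left_comm]
  by_cases hu : IsUnit b
  · have h1 := (CCvA.unit_iff _ b).1 hu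
    rw [show f = a * (b : K)⁻¹ by rw [← e, mul_inv_cancel_right₀ hb]]
    exact x.ctr.O.mul_mem a.2 h1.2
  obtain ⟨π, hπ, hd⟩ := WfDvdMonoid.exists_irreducible_factor hu (right_ne_zero_of_mul hb₁)
  have hp := UniqueFactorizationMonoid.irreducible_iff_prime.1 hπ
  obtain ⟨C, hx, hr⟩ := hC.ofP x π hp
  have ha : a ≠ 0 := fun e0 => mul_ne_zero hf hb (by rw [e, e0]; rfl)
  have h1 := ((hV.pow x C hx π hp hr).2 b 1 (right_ne_zero_of_mul hb₁)).1 (by rwa [pow_one])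
  have h2 := hV.mul C f b hf hb
  have h3 := h C hx
  rw [e] at h2
  have h4 := ((hV.pow x C hx π hp hr).2 a 1 ha).2 (by omega)
  rw [pow_one] at h4
  exact absurd (hab h4 hd) hp.not_unit

theorem v_zpow (hV : VA ℂ ξ) (C : Cv ℂ ξ) {f : K} (hf : f ≠ 0) (n : ℤ) :
    C.v (f ^ n) = n * C.v f := by
  have h1 : C.v 1 = 0 := by
    have := hV.mul C 1 1 one_ne_zero one_ne_zero
    rw [mul_one] at this
    omega
  induction n using Int.induction_on with
  | zero => rw [zpow_zero, h1, zero_mul]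
  | succ n ih => rw [zpow_add_one₀ hf, hV.mul C _ _ (zpow_ne_zero _ hf) hf, ih]; ring
  | pred n ih =>
    have h2 := hV.mul C (f ^ (-(n : ℤ) - 1)) f (zpow_ne_zero _ hf) hf
    rw [← zpow_add_one₀ hf, sub_add_cancel, ih] at h2
    linarith

theorem eq_of_dvd (hC : CvA ℂ ξ) {x : Pt ℂ ξ} {C C' : Cv ℂ ξ} (hx : x.On C) (hx' : x.On C')
    {π π' : x.ctr.O} (hp : Prime π) (hp' : Prime π')
    (hr : ∀ a : x.ctr.O, π ∣ a ↔ C.res a = 0) (hr' : ∀ a : x.ctr.O, π' ∣ a ↔ C'.res a = 0)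
    (hd : π ∣ π') : C = C' :=
  hC.uniq x C C' hx hx' fun a => by
    rw [← hr, ← hr']
    exact (hp.associated_of_dvd hp' hd).dvd_iff_dvd_left

theorem eqn (hC : CvA ℂ ξ) (hV : VA ℂ ξ) (x : Pt ℂ ξ) (n : Cv ℂ ξ → ℤ) (hn : FS n) :
    ∃ e, Eqn x n e := by
  classical
  have key : ∀ s : Finset (Cv ℂ ξ), ∃ e : K, e ≠ 0 ∧
      ∀ C, x.On C → C.v e = if C ∈ s then n C else 0 := by
    intro s
    induction s using Finset.induction_on with
    | empty =>
      refine ⟨1, one_ne_zero, fun C _ => ?_⟩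
      have := v_zpow hV C one_ne_zero 0
      simpa using this
    | insert D s hD ih =>
      obtain ⟨e, he, h⟩ := ih
      by_cases hx : x.On D
      · obtain ⟨π, hp, hr, -⟩ := hC.on x D hx
        have h0 : (π : K) ≠ 0 := fun e0 => hp.ne_zero (Subtype.ext e0)
        refine ⟨e * (π : K) ^ n D, mul_ne_zero he (zpow_ne_zero _ h0), fun C hxC => ?_⟩
        rw [hV.mul C _ _ he (zpow_ne_zero _ h0), v_zpow hV C h0, h C hxC]
        by_cases hCD : C = D
        · subst hCD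
          rw [(hV.pow x C hx π hp hr).1]
          simp [hD]
        · have h1 := (hV.mem C π h0).1 (hxC.le π.2)
          have h2 : ¬ 0 < C.v π := fun h2 => by
            obtain ⟨π', hp', hr', -⟩ := hC.on x C hxC
            exact hCD (eq_of_dvd hC hxC hx hp' hp hr' hr
              ((hr' π).2 ((hV.pos C π h0 (hxC.le π.2)).1 h2)))
          rw [show C.v π = 0 by omega]
          simp [hCD]
      · refine ⟨e, he, fun C hxC => ?_⟩
        have hCD : C ≠ D := fun e0 => hx (e0 ▸ hxC)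
        rw [h C hxC]
        simp [hCD]
  obtain ⟨e, he, h⟩ := key hn.toFinset
  refine ⟨e, he, fun C hx => ?_⟩
  rw [h C hx]
  split_ifs with h1
  · rfl
  · exact (Function.notMem_support.1 fun h2 => h1 (hn.mem_toFinset.2 h2)).symm

theorem two (hC : CvA ℂ ξ) (hF : FinA ℂ ξ) (C C' : Cv ℂ ξ) (hne : C ≠ C') :
    {x : Pt ℂ ξ | x.On C ∧ x.On C'}.Finite := by
  have key : ∃ B : Pol ℂ N, Form B ∧ B ∈ C'.P ∧ B ∉ C.P := by
    by_contra hn
    have h : ∀ (n : ℕ) (B : Pol ℂ N), B.IsHomogeneous n → B ∈ C'.P → B ∈ C.P :=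
      fun n B hB h1 => by_contra fun h2 => hn ⟨B, Form.of hB, h1, h2⟩
    obtain ⟨x, hx⟩ := hC.pt C
    have hx' : x.On C' := fun n G hG h1 => hx n G hG (h n G hG h1)
    obtain ⟨π, hp, hr, -⟩ := hC.on x C hx
    obtain ⟨π', hp', hr', -⟩ := hC.on x C' hx'
    refine hne (eq_of_dvd hC hx hx' hp hp' hr hr' ((hr π').2 ?_))
    obtain ⟨n, A, B, hA, hB, hP, e⟩ := π'.2
    rw [CFinA.res_zero C hA hB (fun h1 => hP (hx n B hB h1)) e]
    exact h n A hA ((CFinA.res_zero C' hA hB (fun h1 => hP (hx' n B hB h1)) e).1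
      ((hr' π').1 dvd_rfl))
  obtain ⟨B, hB, h1, h2⟩ := key
  exact (hF.pt C B hB h2).subset fun x hx => ⟨hx.1, hx.2 _ B hB h1⟩

end RG0

theorem g0S : G0Stmt := by
  intro K _ _ N ξ hS
  have hC := RG0.cva hS
  have hV := CVA.va rReg hS hC
  have hF := RG0.fina hS hC hV
  refine ⟨hS, hC, hV, hF, RG0.reg hS hC hV, RG0.eqn hC hV, RG0.two hC hF, fun x C hx => ?_⟩
  by_contra hn
  exact hx fun n G hG h1 => by_contra fun h2 => hn ⟨G, Form.of hG, h1, h2⟩

end Pool.Agent.MP_c69980_ag.I2
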