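import Pool.Agent.MP_c69980_ag.I2.SpecC
import Pool.Agent.MP_c69980_ag.I2.G0

/-! The boundary divisor and the forms with logarithmic poles. -/

set_option autoImplicit false

namespace Pool.Agent.MP_c69980_ag.I2

open MvPolynomial IsLocalRing H60 H4 E1
open Pool.Agent.MP_f3836a_nt.PK (Form CCvA.unit_iff)

namespace RLog

variable {K : Type} [Field K] [Algebra ℂ K] {N : ℕ}

theorem ae_smul {n e : ℕ} {Q : PR n} (hQ : Q.IsHomogeneous e) (c : K) (h : Fin n → K) :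
    aeval (fun i => c * h i) Q = c ^ e * aeval h Q := by
  rw [aeval_def, aeval_def, eval₂_eq', eval₂_eq', Finset.mul_sum]
  refine Finset.sum_congr rfl fun d hd => ?_
  have h1 : ∑ i, d i = e := by
    rw [← Finsupp.degree_eq_sum, Finsupp.degree_eq_weight_one]
    exact hQ (mem_support_iff.1 hd)
  simp only [mul_pow]
  rw [Finset.prod_mul_distrib, Finset.prod_pow_eq_pow_sum, h1, mul_left_comm]

theorem ae_mem {ξ : Fin (N + 1) → K} (x : PP ξ) {n : ℕ} {a : Fin n → K}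
    (ha : ∀ i, a i ∈ x.ctr.O) (Q : PR n) : aeval a Q ∈ x.ctr.O := by
  induction Q using MvPolynomial.induction_on with
  | C c => rw [aeval_C]; exact x.ctr.const_mem c
  | add p q hp hq => rw [map_add]; exact x.ctr.O.add_mem hp hq
  | mul_X p i hp => rw [map_mul, aeval_X]; exact x.ctr.O.mul_mem hp (ha i)

theorem v_inv {ξ : Fin (N + 1) → K} (hG : G0 ξ) (C : CC ξ) {f : K} (hf : f ≠ 0) :
    C.v f⁻¹ = -C.v f := by
  have := RG0.v_zpow hG.va C hf (-1)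
  rwa [zpow_neg_one, neg_one_mul] at this

theorem v_pow {ξ : Fin (N + 1) → K} (hG : G0 ξ) (C : CC ξ) {f : K} (hf : f ≠ 0) (n : ℕ) :
    C.v (f ^ n) = n * C.v f := by
  have := RG0.v_zpow hG.va C hf n
  rwa [zpow_natCast] at this

section
variable {ξ : Fin (N + 1) → K} {x : PP ξ} {C : CC ξ} {p q : x.ctr.O}

theorem notboth (hG : G0 ξ) (hx : x.On C)
    (hm : ∀ f ∈ maximalIdeal x.ctr.O, ∃ α β, f = α * p + β * q) :
    ¬(C.res p = 0 ∧ C.res q = 0) := by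
  rintro ⟨h1, h2⟩
  obtain ⟨l, hl, l0, lP⟩ := hG.fin.lin x C
  have hF := Form.of hl
  have h0 := C.aeval_ne hl lP
  obtain ⟨α, β, e⟩ := hm _ ((x.lx_mem_max hF).2 l0)
  have e' : x.ctr.lo l = (α * p : x.ctr.O) + (β * q : x.ctr.O) := by
    rw [← MP_f3836a_nt.PK.Ctr.coe_lx x.good hF, e]; rfl
  refine lP ((hG.va.form C l hF h0).2.1 ?_)
  rw [← hG.va.chg x C hx l hF h0]
  refine (hG.va.pos C _ (MP_f3836a_nt.PK.Ctr.lo_ne x.good h0)
    (hx.le (MP_f3836a_nt.PK.Ctr.lo_mem x.good hF))).2 ?_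
  rw [e', C.res_add (hx.le (α * p).2) (hx.le (β * q).2), Subring.coe_mul, Subring.coe_mul,
    C.res_mul (hx.le α.2) (hx.le p.2),
    C.res_mul (hx.le β.2) (hx.le q.2), h1, h2, mul_zero, mul_zero, add_zero]

theorem le_one (hG : G0 ξ) (hx : x.On C) (p0 : p ≠ 0) (hq : q ∈ maximalIdeal x.ctr.O)
    (hm : ∀ f ∈ maximalIdeal x.ctr.O, ∃ α β, f = α * p + β * q) : C.v p ≤ 1 := by
  by_contra hn
  obtain ⟨π, hp, hr, -⟩ := hG.cv.on x C hx
  obtain ⟨c, hc⟩ := ((hG.va.pow x C hx π hp hr).2 p 2 p0).2 (by push_cast; omega)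
  have hπ : π ∈ maximalIdeal x.ctr.O := hp.not_isUnit
  obtain ⟨α, β, e⟩ := hm π hπ
  have hd : π ∣ β * q := ⟨1 - α * π * c, by rw [hc] at e; linear_combination -e⟩
  rcases hp.dvd_or_dvd hd with ⟨γ, hγ⟩ | h
  · have e1 : (1 : x.ctr.O) = α * c * π + γ * q := mul_left_cancel₀ hp.ne_zero (by
      rw [hc, hγ] at e; linear_combination e)
    refine (maximalIdeal.isMaximal x.ctr.O).ne_top ((Ideal.eq_top_iff_one _).2 ?_)
    rw [e1]
    exact Ideal.add_mem _ (Ideal.mul_mem_left _ _ hπ) (Ideal.mul_mem_left _ _ hq)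
  · exact notboth hG hx hm ⟨(hr p).1 ⟨π * c, by rw [hc]; ring⟩, (hr q).1 h⟩

theorem sum_le (hG : G0 ξ) (hx : x.On C) (p0 : p ≠ 0) (q0 : q ≠ 0)
    (hp : p ∈ maximalIdeal x.ctr.O) (hq : q ∈ maximalIdeal x.ctr.O)
    (hm : ∀ f ∈ maximalIdeal x.ctr.O, ∃ α β, f = α * p + β * q) : C.v p + C.v q ≤ 1 := by
  have p1 : (p : K) ≠ 0 := fun e => p0 (Subtype.ext e)
  have q1 : (q : K) ≠ 0 := fun e => q0 (Subtype.ext e)
  have h1 := le_one hG hx p0 hq hm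
  have h2 := le_one hG hx q0 hp fun f hf => by
    obtain ⟨α, β, e⟩ := hm f hf
    exact ⟨β, α, e.trans (add_comm _ _)⟩
  have h3 := notboth hG hx hm
  rw [← hG.va.pos C _ p1 (hx.le p.2), ← hG.va.pos C _ q1 (hx.le q.2)] at h3
  omega

end

variable {S : Sf K N} {U : Set (PS (N + 1))} {m : ℕ} {h : Fin 3 → K}

theorem lr (hB : Br S) (y : PP S.z) (f : K) :
    f ∈ locRing S.z (Projectivization.mk ℂ y.z (hB.cone y).1) ↔ f ∈ y.ctr.O := by
  rw [hB.reg y y.z f (Pp.refl _),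
    mem_locRing fun G d hG h => (S.gen.1 G d hG).1 h _ (hB.cone y).2]
  exact ⟨fun ⟨F, G, d, hF, hG, h1, h2⟩ => ⟨F, G, d, hF, hG, (eval_mk hG _).not.1 h1, h2⟩,
    fun ⟨F, G, d, hF, hG, h1, h2⟩ => ⟨F, G, d, hF, hG, (eval_mk hG _).not.2 h1, h2⟩⟩

theorem plu (hB : Br S) (x : PP S.z) {w u : K} (hw : GenO S.D x.ctr.O w)
    (hu : u ∈ pluri S.z S.D m (Projectivization.mk ℂ x.z (hB.cone x).1)) :
    u / w ^ m ∈ x.ctr.O := by
  induction hu using Submodule.span_induction with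
  | mem u hu =>
    obtain ⟨f, hf, rfl⟩ := hu
    have e : (∏ a, Matrix.det (Matrix.of fun i l => S.D i (f a l))) / w ^ m =
        ∏ a : Fin m, Wd S.D (f a 0) (f a 1) / w := by
      rw [Finset.prod_div_distrib, Finset.prod_const, Finset.card_univ, Fintype.card_fin]
      refine congrArg (· / w ^ m) (Finset.prod_congr rfl fun a _ => ?_)
      rw [Matrix.det_fin_two, Wd]
      simp only [Matrix.of_apply]
      ring
    rw [e]
    exact x.ctr.O.prod_mem fun a _ =>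
      hw.2.2 _ ((lr hB x _).1 (hf a 0)) _ ((lr hB x _).1 (hf a 1))
  | zero => rw [zero_div]; exact x.ctr.O.zero_mem
  | add a b _ _ ha hb => rw [add_div]; exact x.ctr.O.add_mem ha hb
  | smul c a _ ha =>
    have e : c • a / w ^ m = (c : K) * (a / w ^ m) := mul_div_assoc _ _ _
    rw [e]
    exact x.ctr.O.mul_mem ((lr hB x _).1 c.2) ha

theorem mx {R : Subalgebra ℂ K} {O : Subring K} [IsLocalRing R] [IsLocalRing O]
    (e : ∀ f, f ∈ R ↔ f ∈ O) (t : Fin 2 → R) (hM : (Ideal.span (Set.range t)).IsMaximal) :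
    (∀ i, (⟨t i, (e _).1 (t i).2⟩ : O) ∈ maximalIdeal O) ∧ ∀ f ∈ maximalIdeal O,
      ∃ α β : O, f = α * ⟨t 0, (e _).1 (t 0).2⟩ + β * ⟨t 1, (e _).1 (t 1).2⟩ := by
  have hE := eq_maximalIdeal hM
  refine ⟨fun i hu => ?_, fun f hf => ?_⟩
  · have h1 : t i ∈ maximalIdeal R := hE ▸ Ideal.subset_span ⟨i, rfl⟩
    obtain ⟨b, hb⟩ := hu.exists_right_inv
    have hb' : (t i : K) * b = 1 := congrArg Subtype.val hb
    exact h1 (IsUnit.of_mul_eq_one ⟨b, (e _).2 b.2⟩ (Subtype.ext hb'))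
  · have h2 : (⟨f, (e _).2 f.2⟩ : R) ∈ Ideal.span (Set.range t) := by
      rw [hE]
      intro hu
      obtain ⟨b, hb⟩ := hu.exists_right_inv
      have hb' : (f : K) * b = 1 := congrArg Subtype.val hb
      exact hf (IsUnit.of_mul_eq_one ⟨b, (e _).1 b.2⟩ (Subtype.ext hb'))
    obtain ⟨c, hc⟩ := Ideal.mem_span_range_iff_exists_fun.1 h2
    rw [Fin.sum_univ_two] at hc
    have hc' : (c 0 : K) * t 0 + c 1 * t 1 = f := congrArg Subtype.val hc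
    exact ⟨⟨c 0, (e _).1 (c 0).2⟩, ⟨c 1, (e _).1 (c 1).2⟩, Subtype.ext hc'.symm⟩

/-- A local equation of the boundary. -/
structure Dt (S : Sf K N) (U : Set (PS (N + 1))) (T : K) (g : PR (N + 1)) (d : ℕ) : Prop where
  t0 : T ≠ 0
  hom : g.IsHomogeneous d
  loc : ∀ y : PP S.z, eval y.z g ≠ 0 → T ∈ y.ctr.O ∧ (y.z ∈ Cone U ↔ T⁻¹ ∈ y.ctr.O)

theorem dat (hB : Br S) (hL : LDat U S.z S.W S.z id m S.D h) (x : PP S.z) :
    ∃ T g d, Dt S U T g d ∧ eval x.z g ≠ 0 ∧ (∀ C : CC S.z, x.On C → C.v T ≤ 1) ∧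
      ∀ w, GenO S.D x.ctr.O w → ∀ i, T ^ m * h i / w ^ m ∈ x.ctr.O := by
  obtain ⟨hR, -, -, t, r, g, d, hM, t0, hg, g0, hy, hp⟩ := hL.2.2.2.2.2.2.2 _ (hB.cone x).2
  have t1 : ∀ i, (t i : K) ≠ 0 := fun i e => t0 i (Subtype.ext e)
  have P0 : ∀ s : Finset (Fin 2), ∏ i ∈ s, (t i : K) ≠ 0 := fun s =>
    Finset.prod_ne_zero_iff.2 fun i _ => t1 i
  have tO : ∀ i, (t i : K) ∈ x.ctr.O := fun i => (lr hB x _).1 (t i).2
  refine ⟨∏ i ∈ r, (t i : K), g, d, ⟨P0 r, hg, fun y hy0 => ?_⟩, (eval_mk hg _).not.1 g0,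
    fun C hx => ?_, fun w hw i => plu hB x hw (hp i)⟩
  · obtain ⟨a, b⟩ := hy _ (hB.cone y).2 ((eval_mk hg _).not.2 hy0)
    refine ⟨y.ctr.O.prod_mem fun i _ => (lr hB y _).1 (a i), ?_⟩
    rw [← lr hB y, ← b]
    exact ⟨fun h => h.2, fun h => ⟨_, h⟩⟩
  · obtain ⟨hm, hg⟩ := mx (lr hB x) t hM
    have h0 := fun a b => sum_le hB.g0 hx a b (hm 0) (hm 1) hg
    have h1 : C.v (t 0 : K) + C.v (t 1 : K) ≤ 1 :=
      h0 (fun e => t1 0 (congrArg Subtype.val e)) fun e => t1 1 (congrArg Subtype.val e)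
    have h3 := hB.g0.va.mul C _ _ (P0 r) (P0 rᶜ)
    rw [Finset.prod_mul_prod_compl, Fin.prod_univ_two, hB.g0.va.mul C _ _ (t1 0) (t1 1)] at h3
    have h4 := (hB.g0.va.mem C _ (P0 rᶜ)).1 (hx.le (x.ctr.O.prod_mem fun i _ => tO i))
    omega

/-- The curve meets `U`. -/
def In (S : Sf K N) (U : Set (PS (N + 1))) (C : CC S.z) : Prop :=
  ∃ y : PP S.z, y.On C ∧ y.z ∈ Cone U

variable {T : K} {g : PR (N + 1)} {d : ℕ} {C : CC S.z}

theorem cof (hB : Br S) (hC : CP C) (hD : Dt S U T g d) (hg : g ∉ C.P) (hv : C.v T ≤ 0) :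
    {y : PP S.z | y.On C ∧ y.z ∉ Cone U}.Finite := by
  have f1 := hB.g0.fin.pt C g (Form.of hD.hom) hg
  obtain ⟨y, y1, y2⟩ := (hC.inf.diff f1).nonempty
  have hT : T ∈ C.O := y1.le (hD.loc y fun e => y2 ⟨y1, e⟩).1
  have f2 := hB.vfin C T hT fun e => ((hB.g0.va.pos C T hD.t0 hT).2 e).not_ge hv
  refine (f1.union f2).subset fun x hx => by_contra fun hn => hx.2 ?_
  have a : eval x.z g ≠ 0 := fun e => hn (Or.inl ⟨hx.1, e⟩)
  have b : T ∈ x.ctr.O ∧ vl S.z T x.z ≠ 0 := by_contra fun e => hn (Or.inr ⟨hx.1, e⟩)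
  refine (hD.loc x a).2.2 ((CCvA.unit_iff _ ⟨T, b.1⟩).1 (by_contra fun hu => b.2 ?_)).2
  exact (hB.max x ⟨T, b.1⟩).1 hu

theorem vle (hB : Br S) (hD : Dt S U T g d) {y : PP S.z} (hy : y.On C) (hg : eval y.z g ≠ 0)
    (hU : y.z ∈ Cone U) : C.v T ≤ 0 := by
  have := (hB.g0.va.mem C _ (inv_ne_zero hD.t0)).1 (hy.le ((hD.loc y hg).2.1 hU))
  rw [v_inv hB.g0 C hD.t0] at this
  omega

theorem key (hB : Br S) (hC : CP C) (hL : LDat U S.z S.W S.z id m S.D h) (hD : Dt S U T g d)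
    (hg : g ∉ C.P) : In S U C ↔ C.v T ≤ 0 := by
  constructor
  · rintro ⟨y, y1, y2⟩
    obtain ⟨T', g', d', hD', g0, -⟩ := dat hB hL y
    have f1 := cof hB hC hD' (fun e => g0 (y1 _ _ hD'.hom e)) (vle hB hD' y1 g0 y2)
    obtain ⟨x, x1, x2⟩ :=
      (hC.inf.diff (f1.union (hB.g0.fin.pt C g (Form.of hD.hom) hg))).nonempty
    exact vle hB hD x1 (fun e => x2 (Or.inr ⟨x1, e⟩)) (by_contra fun e => x2 (Or.inl ⟨x1, e⟩))
  · intro hv
    obtain ⟨x, x1, x2⟩ := (hC.inf.diff (cof hB hC hD hg hv)).nonempty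
    exact ⟨x, x1, by_contra fun e => x2 ⟨x1, e⟩⟩

theorem fin (hB : Br S) (hC : ∀ C : CC S.z, CP C) (hL : LDat U S.z S.W S.z id m S.D h) :
    {C : CC S.z | ¬In S U C}.Finite := by
  rcases isEmpty_or_nonempty (CC S.z) with h0 | ⟨⟨C₀⟩⟩
  · exact Set.toFinite _
  obtain ⟨x, -⟩ := hB.g0.cv.pt C₀
  obtain ⟨T, g, d, hD, g0, -⟩ := dat hB hL x
  refine ((hB.g0.fin.cv g (Form.of hD.hom) fun e => g0 (x.van _ _ hD.hom e)).union
    (hB.g0.fin.v T)).subset fun C hn => by_contra fun h1 => hn ?_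
  exact (key hB (hC C) hL hD fun e => h1 (Or.inl e)).2
    (le_of_eq (by_contra fun e => h1 (Or.inr e)))

theorem cone_pp {y w : V (N + 1)} (h : Pp y w) (hw : w ∈ Cone U) : y ∈ Cone U := by
  obtain ⟨c, c0, rfl⟩ := h
  exact Cone.smul hw c0

end RLog

open RLog in
theorem logS : LogStmt := by
  intro K _ _ N S U m h hB hA hC _ hL
  have hF := RLog.fin hB hC hL
  refine ⟨hF.toFinset, fun y hy => ⟨fun hU C hCB x hx hp => ?_, fun hO => ?_⟩,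
    fun Q e he hQ h0 => ⟨h0, Nat.mul_pos hL.2.2.2.2.1 he, fun C => ?_⟩, fun x hx w hw i => ?_,
    hL.2.2.2.2.2.1⟩
  · exact hF.mem_toFinset.1 hCB ⟨x, hx, cone_pp hp.symm hU⟩
  · obtain ⟨x, hx⟩ := hB.pt y hy
    obtain ⟨T, g, d, hD, g0, -⟩ := dat hB hL x
    refine cone_pp hx ((hD.loc x g0).2.2 (hB.g0.reg x _ (inv_ne_zero hD.t0) fun C hxC => ?_))
    have := (key hB (hC C) hL hD fun e => g0 (hxC _ _ hD.hom e)).1
      (by_contra fun hn => hO C (hF.mem_toFinset.2 hn) x hxC hx)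
    rw [v_inv hB.g0 C hD.t0]
    omega
  · obtain ⟨x, hx⟩ := hB.g0.cv.pt C
    obtain ⟨T, g, d, hD, g0, h1, h2⟩ := dat hB hL x
    obtain ⟨_, -, hs⟩ := hB.kg
    obtain ⟨w, -, hw⟩ := hs x
    have c0 : T * w⁻¹ ≠ 0 := mul_ne_zero hD.t0 (inv_ne_zero hw.1)
    have h3 := ae_mem x (a := fun i => (T * w⁻¹) ^ m * h i) (fun i => by
      rw [mul_pow, inv_pow, mul_right_comm, ← div_eq_mul_inv]; exact h2 w hw i) Q
    rw [ae_smul hQ, ← pow_mul] at h3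
    have h4 := (hB.g0.va.mem C _ (mul_ne_zero (pow_ne_zero _ c0) h0)).1 (hx.le h3)
    rw [hB.g0.va.mul C _ _ (pow_ne_zero _ c0) h0, v_pow hB.g0 C c0,
      hB.g0.va.mul C _ _ hD.t0 (inv_ne_zero hw.1), v_inv hB.g0 C hw.1,
      hA.kv C w (hA.up x C w hx hw), neg_neg, mul_add] at h4
    have h5 : (0 : ℤ) ≤ (m * e : ℕ) := Int.natCast_nonneg _
    have h6 := mul_le_mul_of_nonneg_left (h1 C hx) h5
    rw [dv, zero_mul, add_zero]
    refine ⟨by linarith, fun hn => ?_⟩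
    have h7 := mul_le_mul_of_nonneg_left ((key hB (hC C) hL hD
      fun e => g0 (hx _ _ hD.hom e)).1 (by_contra fun e => hn (hF.mem_toFinset.2 e))) h5
    linarith
  · obtain ⟨T, g, d, hD, g0, -, h2⟩ := dat hB hL x
    have e : h i / w ^ m = T⁻¹ ^ m * (T ^ m * h i / w ^ m) := by
      rw [mul_div_assoc, inv_pow, inv_mul_cancel_left₀ (pow_ne_zero _ hD.t0)]
    rw [e]
    exact x.ctr.O.mul_mem (x.ctr.O.pow_mem ((hD.loc x g0).2.1 hx) m) (h2 w hw i)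

end Pool.Agent.MP_c69980_ag.I2
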