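import Pool.Agent.MP_c69980_ag.I2.SpecB

/-!
Row Max: curves are connected.
-/

set_option autoImplicit false

noncomputable section

namespace Pool.Agent.MP_c69980_ag.I2

open MvPolynomial Metric Filter Topology Set
open H60 H4 E1

namespace MaxA

variable {K : Type} [Field K] [Algebra ℂ K] {N : ℕ} {ξ : Fin (N + 1) → K}

theorem z_ne (x : PP ξ) : x.z ≠ 0 := fun e => by
  obtain ⟨i, h, -⟩ := x.norm
  simp [e] at h

theorem z_on (x : PP ξ) : On ξ x.z := fun G d h => x.van d G h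

/-- The neighbourhoods of `x` on the curve. -/
def nb (C : CC ξ) (x : PP ξ) : Filter (PP ξ) where
  sets := {s | ∃ δ : ℝ, 0 < δ ∧ ∀ y : PP ξ, y.On C → d2 y.z x.z < δ → y ∈ s}
  univ_sets := ⟨1, one_pos, fun _ _ _ => trivial⟩
  sets_of_superset := fun ⟨δ, h, k⟩ e => ⟨δ, h, fun y a b => e (k y a b)⟩
  inter_sets := fun ⟨δ, h, k⟩ ⟨δ', h', k'⟩ => ⟨min δ δ', lt_min h h', fun y a b =>
    ⟨k y a (b.trans_le (min_le_left _ _)), k' y a (b.trans_le (min_le_right _ _))⟩⟩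

theorem ball_mem (C : CC ξ) (x : PP ξ) {δ : ℝ} (h : 0 < δ) :
    {y : PP ξ | y.On C ∧ d2 y.z x.z < δ} ∈ nb C x := ⟨δ, h, fun _ a b => ⟨a, b⟩⟩

theorem tend_nb {β : Type} {l : Filter β} {C : CC ξ} {x : PP ξ} {X : β → PP ξ} {u : β → V (N + 1)}
    {w : V (N + 1)} (h1 : ∀ᶠ k in l, (X k).On C) (h2 : ∀ᶠ k in l, Pp (u k) (X k).z)
    (h3 : Tendsto u l (𝓝 w)) (h4 : Pp w x.z) : Tendsto X l (nb C x) := by
  rintro s ⟨δ, h, k⟩
  have w0 := h4.ne (z_ne x)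
  have a := d2_lim h3 (tendsto_const_nhds (x := w)) w0 w0
  rw [(d2_eq_zero w0 w0).2 (.refl _)] at a
  rw [mem_map]
  filter_upwards [h1, h2, a.eventually (gt_mem_nhds h)] with i b c d
  exact k _ b (by rwa [← c.d2 h4])

/-- Compactness. -/
theorem cpt (C : CC ξ) (U : Ultrafilter (PP ξ)) (hU : ∀ᶠ y : PP ξ in U, y.On C) :
    ∃ x : PP ξ, x.On C ∧ ∃ u : PP ξ → V (N + 1), (∀ y, Pp (u y) y.z) ∧ Tendsto u U (𝓝 x.z) := by
  let u : PP ξ → V (N + 1) := fun y => ((‖y.z‖ : ℂ))⁻¹ • y.z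
  have n0 : ∀ y : PP ξ, (‖y.z‖ : ℂ) ≠ 0 := fun y => by simpa using z_ne y
  have hu : ∀ y, Pp (u y) y.z := fun y => Pp.smul (inv_ne_zero (n0 y)) _
  obtain ⟨w, hw, lim⟩ := (isCompact_sphere (0 : V (N + 1)) 1).ultrafilter_le_nhds (U.map u) (by
    rw [le_principal_iff]
    refine mem_map.2 (univ_mem' fun y => ?_)
    simp [u, norm_smul, z_ne y])
  have lim : Tendsto u U (𝓝 w) := lim
  have w0 : w ≠ 0 := fun e => by simp [e] at hw
  obtain ⟨i, hi, hm⟩ := wellFounded_lt.has_min {i | w i ≠ 0} (Function.ne_iff.1 w0)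
  have hi : w i ≠ 0 := hi
  have key : ∀ (d : ℕ) (G : PR (N + 1)), G.IsHomogeneous d → (∀ᶠ y : PP ξ in U, eval y.z G = 0) →
      eval ((w i)⁻¹ • w) G = 0 := fun d G hG h => by
    refine ((Pp.smul (inv_ne_zero hi) w).eval hG).2 ?_
    refine tendsto_nhds_unique (((continuous_eval G).tendsto w).comp lim) ?_
    exact tendsto_const_nhds.congr' (h.mono fun y hy => (((hu y).eval hG).2 hy).symm)
  refine ⟨⟨(w i)⁻¹ • w, ⟨i, by simp [hi], fun j hj => ?_⟩,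
    fun d G hG h => key d G hG (.of_forall fun y => y.van d G hG h)⟩,
    fun d G hG h => key d G hG (hU.mono fun y hy => hy d G hG h), fun y => (w i)⁻¹ • u y,
    fun y => (Pp.smul (inv_ne_zero hi) _).trans (hu y), lim.const_smul _⟩
  have : w j = 0 := by_contra fun e => hm j e hj
  simp [this]

/-- Continuity of values. -/
theorem cont {β : Type} {l : Filter β} {u : β → V (N + 1)} {w : V (N + 1)} {a : K}
    (h1 : ∀ k, On ξ (u k)) (h2 : On ξ w) (h3 : Tendsto u l (𝓝 w)) (h4 : Reg ξ w a) :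
    (∀ᶠ k in l, Reg ξ (u k) a) ∧ Tendsto (fun k => vl ξ a (u k)) l (𝓝 (vl ξ a w)) := by
  obtain ⟨A, B, d, hA, hB, b, rfl⟩ := h4
  have e : ∀ P : PR (N + 1), Tendsto (fun k => eval (u k) P) l (𝓝 (eval w P)) := fun P =>
    ((continuous_eval P).tendsto w).comp h3
  have m := (e B).eventually_ne b
  refine ⟨m.mono fun k q => ⟨A, B, d, hA, hB, q, rfl⟩, ?_⟩
  rw [vl_eq h2 hA hB b]
  exact ((e A).div (e B) b).congr' (m.mono fun k q => (vl_eq (h1 k) hA hB q).symm)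

theorem res_sub (C : CC ξ) {f g : K} (hf : f ∈ C.O) (hg : g ∈ C.O) :
    C.res (f - g) = C.res f - C.res g := by
  rw [eq_sub_iff_add_eq, ← C.res_add (sub_mem hf hg) hg, sub_add_cancel]

variable {S : Sf K N}

theorem vl_sub (B : Br S) (x : PP S.z) {a b : K} (ha : a ∈ x.ctr.O) (hb : b ∈ x.ctr.O) :
    vl S.z (a - b) x.z = vl S.z a x.z - vl S.z b x.z := by
  rw [eq_sub_iff_add_eq, ← (vl_add (z_on x) ((B.reg x _ _ (.refl _)).1 (sub_mem ha hb))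
    ((B.reg x _ _ (.refl _)).1 hb)).2, sub_add_cancel]

theorem vl_res (B : Br S) {C : CC S.z} {x : PP S.z} (hx : x.On C) {a b : K} (ha : a ∈ x.ctr.O)
    (hb : b ∈ x.ctr.O) (e : C.res a = C.res b) : vl S.z a x.z = vl S.z b x.z := by
  rw [← sub_eq_zero, ← vl_sub B x ha hb]
  exact B.von x C _ hx (sub_mem ha hb) (by rw [res_sub C (hx.le ha) (hx.le hb), e, sub_self])

theorem const_mem (B : Br S) (x : PP S.z) (c : ℂ) : algebraMap ℂ K c ∈ x.ctr.O :=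
  (B.reg x _ _ (.refl _)).2 (vl_const (z_on x) c).1

theorem d2_pos' (B : Br S) {x y : PP S.z} (h : x ≠ y) : 0 < d2 x.z y.z :=
  d2_pos (z_ne x) (z_ne y) fun e => h (B.uniq x y e)

/-- A disc on the curve through a smooth point. -/
theorem disc (hP : ParStmt) (hS : SpStmt) (B : Br S) {C : CC S.z} {y : PP S.z} (hy : y.On C)
    (hd : IsDiscreteValuationRing (C.loc y)) :
    ∃ (γ : ℂ → V (N + 1)) (X : ℂ → PP S.z) (q : K), AnalyticAt ℂ γ 0 ∧ Pp (γ 0) y.z ∧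
      (∀ᶠ η in 𝓝 (0 : ℂ), Pp (γ η) (X η).z ∧ vl S.z q (X η).z = η) ∧
      Tendsto X (𝓝 0) (nb C y) := by
  obtain ⟨p, q, sp⟩ := hS K N S B y C hy hd
  obtain ⟨Γ, ε, pa⟩ := hP K N S B y p q sp.gm
  obtain ⟨δ, δ0, hδ⟩ := sp.on
  have ex : ∀ η : ℂ, ∃ x : PP S.z, ((0 : ℂ), η) ∈ ball (0 : ℂ × ℂ) ε → Pp (Γ (0, η)) x.z := by
    intro η
    by_cases h : ((0 : ℂ), η) ∈ ball (0 : ℂ × ℂ) ε
    · obtain ⟨x, hx⟩ := B.pt _ (pa.val _ h).1
      exact ⟨x, fun _ => hx⟩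
    · exact ⟨y, fun e => (h e).elim⟩
  choose X hX using ex
  have c0 : AnalyticAt ℂ (fun η : ℂ => ((0 : ℂ), η)) 0 := analyticAt_const.prod analyticAt_id
  have an : AnalyticAt ℂ (fun η : ℂ => Γ (0, η)) 0 :=
    AnalyticAt.comp (g := Γ) (pa.an _ (mem_ball_self pa.e0)) c0
  have ev : ∀ᶠ η in 𝓝 (0 : ℂ), ((0 : ℂ), η) ∈ ball (0 : ℂ × ℂ) ε :=
    c0.continuousAt.eventually (ball_mem_nhds _ pa.e0)
  have g0 := pa.zero.ne (z_ne y)
  have a := d2_lim an.continuousAt.tendsto (tendsto_const_nhds (x := Γ 0)) g0 g0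
  rw [show d2 (Γ (0, 0)) (Γ 0) = 0 from (d2_eq_zero g0 g0).2 (.refl _)] at a
  have val : ∀ η : ℂ, ((0 : ℂ), η) ∈ ball (0 : ℂ × ℂ) ε → ∀ f, Reg S.z (Γ (0, η)) f →
      vl S.z f (X η).z = vl S.z f (Γ (0, η)) := fun η h f hf =>
    (hX η h).symm.vl ((hX η h).on (z_on _)) hf
  refine ⟨fun η => Γ (0, η), X, q, an, pa.zero, ev.mono fun η h =>
    ⟨hX η h, (val η h q (pa.val _ h).2.2.1).trans (pa.val _ h).2.2.2.2⟩,
    tend_nb ?_ (ev.mono hX) an.continuousAt.tendsto pa.zero⟩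
  filter_upwards [ev, a.eventually (gt_mem_nhds δ0)] with η h h'
  rw [(hX η h).d2 pa.zero] at h'
  exact (hδ _ h').2.2 ((val η h p (pa.val _ h).2.1).trans (pa.val _ h).2.2.2.1)

/-- A function with poles over one point only and zeros at given points. -/
theorem fn (B : Br S) {C : CC S.z} (H : CP C) {x₀ : PP S.z} (h₀ : x₀.On C) {Z : Set (PP S.z)}
    (hZ : Z.Finite) : ∃ f : C.κ, f ≠ 0 ∧ ∀ y : PP S.z, y.On C → y ≠ x₀ →
      (y ∈ Z → ∃ a ∈ y.ctr.O, C.res a = f ∧ vl S.z a y.z = 0) ∧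
      (IsDiscreteValuationRing (C.loc y) → ∃ a ∈ y.ctr.O, C.res a = f) := by
  classical
  obtain ⟨P₀, hP₀⟩ := H.pt x₀ h₀
  obtain ⟨g, hg⟩ := H.riem
  have ex : ∀ x : PP S.z, ∃ c : ℤ, x.On C → ∀ f : C.κ, f ≠ 0 → (∀ P, Ov C x P → c ≤ P.ord f) →
      ∃ a ∈ IsLocalRing.maximalIdeal x.ctr.O, C.res a = f := fun x => by
    by_cases h : x.On C
    · obtain ⟨c, hc⟩ := H.cond x h
      exact ⟨c, fun _ => hc⟩
    · exact ⟨0, fun e => (h e).elim⟩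
  choose c hc using ex
  obtain ⟨m, hm⟩ := (hZ.image c).bddAbove
  have fin : (⋃ x ∈ Z, {P | Ov C x P}).Finite := hZ.biUnion fun x _ => H.fin x
  let E₀ : MP_f3836a_nt.PK.Place ℂ C.κ →₀ ℤ := Finsupp.indicator fin.toFinset fun _ _ => -max m 0
  obtain ⟨f, f0, hf⟩ := hg (Finsupp.single P₀ (g - ∑ᶠ P, E₀ P) + E₀) (by
    simp only [Finsupp.add_apply]
    rw [finsum_add_distrib (Finsupp.hasFiniteSupport _) (Finsupp.hasFiniteSupport _),
      finsum_eq_single _ P₀ fun P hP => Finsupp.single_eq_of_ne hP]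
    simp)
  have key : ∀ y P, y ≠ x₀ → Ov C y P → -E₀ P ≤ P.ord f := fun y P hy hP => by
    have := hf P
    have h1 : P ≠ P₀ := fun e => hy (H.uniq _ _ _ hP (e ▸ hP₀))
    rwa [Finsupp.add_apply, Finsupp.single_eq_of_ne h1, zero_add] at this
  refine ⟨f, f0, fun y hy hne => ⟨fun hz => ?_, fun hd => ?_⟩⟩
  · obtain ⟨a, ha, e⟩ := hc y hy f f0 fun P hP => by
      have h1 := key y P hne hP
      rw [Finsupp.indicator_of_mem (fin.mem_toFinset.2 (mem_biUnion hz hP)), neg_neg] at h1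
      exact ((hm (mem_image_of_mem c hz)).trans (le_max_left _ _)).trans h1
    exact ⟨a, a.2, e, (B.max y a).1 ha⟩
  · obtain ⟨P, hP⟩ := H.pt y hy
    have h1 : 0 ≤ -E₀ P := by
      by_cases h : P ∈ fin.toFinset
      · rw [Finsupp.indicator_of_mem h, neg_neg]; exact le_max_right _ _
      · rw [Finsupp.indicator_of_notMem h, neg_zero]
    have h2 : f ∈ P.V.toSubring := (H.pa.mem P f f0).2 (h1.trans (key y P hne hP))
    rw [H.one y P hP hd] at h2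
    obtain ⟨a, e⟩ := ((B.g0.va.loc y C hy).1 f).1 h2
    exact ⟨a, a.2, e⟩

/-- A continuous function on a closed set attains its maximum. -/
theorem att (B : Br S) {C : CC S.z} {T : Set (PP S.z)} {z₀ : PP S.z} (hz₀ : z₀ ∈ T)
    (hC : ∀ y ∈ T, y.On C) (cl : ∀ x : PP S.z, x.On C → (∃ᶠ y in nb C x, y ∈ T) → x ∈ T)
    {a : PP S.z → K} {F : PP S.z → ℂ} (ha : ∀ y ∈ T, a y ∈ y.ctr.O)
    (hF : ∀ x ∈ T, ∀ y ∈ T, a x ∈ y.ctr.O → vl S.z (a x) y.z = F y) :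
    ∃ y ∈ T, ∀ x ∈ T, ‖F x‖ ≤ ‖F y‖ := by
  have : Nonempty (PP S.z) := ⟨z₀⟩
  have : NeBot (⨅ x : T, 𝓟 {y | y ∈ T ∧ ‖F x‖ ≤ ‖F y‖}) := by
    refine iInf_neBot_of_directed (fun x x' => ?_) fun x =>
      principal_neBot_iff.2 ⟨x, x.2, le_rfl⟩
    rcases le_total ‖F x‖ ‖F x'‖ with h | h
    · exact ⟨x', principal_mono.2 fun y hy => ⟨hy.1, h.trans hy.2⟩, le_rfl⟩
    · exact ⟨x, le_rfl, principal_mono.2 fun y hy => ⟨hy.1, h.trans hy.2⟩⟩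
  obtain ⟨U, hU⟩ := Ultrafilter.exists_le (⨅ x : T, 𝓟 {y | y ∈ T ∧ ‖F x‖ ≤ ‖F y‖})
  have h1 : ∀ x ∈ T, ∀ᶠ y in U, y ∈ T ∧ ‖F x‖ ≤ ‖F y‖ := fun x hx =>
    le_principal_iff.1 (hU.trans (iInf_le _ (⟨x, hx⟩ : T)))
  have h2 : ∀ᶠ y in U, y ∈ T := (h1 z₀ hz₀).mono fun _ h => h.1
  obtain ⟨y, hy, u, hu, lim⟩ := cpt C U (h2.mono hC)
  have h3 : Tendsto id (U : Filter (PP S.z)) (nb C y) :=
    tend_nb (h2.mono hC) (.of_forall hu) lim (.refl _)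
  have h4 : y ∈ T := cl y hy (h3.frequently h2.frequently)
  obtain ⟨c1, c2⟩ := cont (fun k => (hu k).on (z_on k)) (z_on y) lim
    ((B.reg y _ _ (.refl _)).1 (ha y h4))
  rw [hF y h4 y h4 (ha y h4)] at c2
  have c3 : Tendsto F U (𝓝 (F y)) := c2.congr' (by
    filter_upwards [c1, h2] with k k1 k2
    have k3 := (B.reg k _ _ (hu k)).2 k1
    rw [(hu k).vl (z_on k) ((B.reg k _ _ (.refl _)).1 k3), hF y h4 k k2 k3])
  exact ⟨y, h4, fun x hx => ge_of_tendsto c3.norm ((h1 x hx).mono fun _ h => h.2)⟩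

/-- A function with a local maximum at a smooth point is constant. -/
theorem cst (hP : ParStmt) (hS : SpStmt) (B : Br S) {C : CC S.z} {y : PP S.z} (hy : y.On C)
    (hd : IsDiscreteValuationRing (C.loc y)) {a : K} (ha : a ∈ y.ctr.O)
    (hm : ∀ᶠ x in nb C y, a ∈ x.ctr.O → ‖vl S.z a x.z‖ ≤ ‖vl S.z a y.z‖) :
    C.res a = algebraMap ℂ C.κ (vl S.z a y.z) := by
  obtain ⟨γ, X, q, an, g0, ev, lim⟩ := disc hP hS B hy hd
  obtain ⟨v1, v2⟩ := vl_an an (ev.mono fun η h => h.1.on (z_on _)) ((B.reg y _ _ g0).1 ha)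
  have e0 : vl S.z a (γ 0) = vl S.z a y.z := g0.vl (z_on y) ((B.reg y _ _ (.refl _)).1 ha)
  have v3 : ∀ᶠ η in 𝓝 (0 : ℂ), a ∈ (X η).ctr.O ∧ vl S.z a (γ η) = vl S.z a (X η).z := by
    filter_upwards [ev, v2] with η k1 k3
    have k4 := (B.reg _ _ _ k1.1).2 k3
    exact ⟨k4, k1.1.vl (z_on _) ((B.reg _ _ _ (.refl _)).1 k4)⟩
  have v4 := Complex.eventually_eq_of_isLocalMax_norm (f := fun η => vl S.z a (γ η))
    (v1.eventually_analyticAt.mono fun _ h => h.differentiableAt) (by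
      filter_upwards [v3, lim.eventually hm] with η k1 k2
      show ‖vl S.z a (γ η)‖ ≤ ‖vl S.z a (γ 0)‖
      rw [k1.2, e0]
      exact k2 k1.1)
  have m1 : a ∈ C.O := hy.le ha
  have m2 : algebraMap ℂ K (vl S.z a y.z) ∈ C.O := hy.le (const_mem B y _)
  rw [← C.res_const, ← sub_eq_zero, ← res_sub C m1 m2]
  by_contra hr
  refine infinite_of_mem_nhds (0 : ℂ) ?_
    ((B.vfin C _ (sub_mem m1 m2) hr).image fun x => vl S.z q x.z)
  filter_upwards [ev, lim.eventually (ball_mem C y one_pos), v3, v4] with η k1 k2 k3 k4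
  refine ⟨X η, ⟨k2.1, fun e => e.2 ?_⟩, k1.2⟩
  rw [vl_sub B _ k3.1 (const_mem B _ _), (vl_const (z_on _) _).2, ← k3.2, k4, e0, sub_self]

/-- The maximum principle. -/
theorem mp (hP : ParStmt) (hS : SpStmt) (B : Br S) {C : CC S.z} (H : CP C) {x₀ : PP S.z}
    (h₀ : x₀.On C) {T Z : Set (PP S.z)} (hZ : Z.Finite) (hT : T.Infinite) (hC : ∀ y ∈ T, y.On C)
    (hx : x₀ ∉ T) (cl : ∀ x : PP S.z, x.On C → (∃ᶠ y in nb C x, y ∈ T) → x ∈ T)
    (op : ∀ y ∈ T, y ∉ Z → T ∈ nb C y) : False := by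
  obtain ⟨z₀, hz₀⟩ := hT.nonempty
  obtain ⟨Z', hZ', m0, m1, m2⟩ : ∃ Z' : Set (PP S.z), Z'.Finite ∧ z₀ ∈ Z' ∧ Z ⊆ Z' ∧
      ∀ y : PP S.z, y.On C → y ∉ Z' → IsDiscreteValuationRing (C.loc y) :=
    ⟨_, (hZ.union H.sing).insert z₀, Or.inl rfl, fun _ h => Or.inr (Or.inl h),
      fun y h h' => by_contra fun e => h' (Or.inr (Or.inr ⟨h, e⟩))⟩
  obtain ⟨f, f0, hf⟩ := fn B H h₀ hZ'
  have ex : ∀ y : PP S.z, ∃ a : K, y ∈ T →
      a ∈ y.ctr.O ∧ C.res a = f ∧ (y ∈ Z' → vl S.z a y.z = 0) := fun y => by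
    by_cases hy : y ∈ T
    · have h := hf y (hC y hy) fun e => hx (e ▸ hy)
      by_cases hd : y ∈ Z'
      · obtain ⟨a, h1, h2, h3⟩ := h.1 hd
        exact ⟨a, fun _ => ⟨h1, h2, fun _ => h3⟩⟩
      · obtain ⟨a, h1, h2⟩ := h.2 (m2 y (hC y hy) hd)
        exact ⟨a, fun _ => ⟨h1, h2, fun e => (hd e).elim⟩⟩
    · exact ⟨0, fun e => (hy e).elim⟩
  choose a ha using ex
  have hF : ∀ x ∈ T, ∀ y ∈ T, a x ∈ y.ctr.O → vl S.z (a x) y.z = vl S.z (a y) y.z :=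
    fun x hx y hy h => vl_res B (hC y hy) h (ha y hy).1 ((ha x hx).2.1.trans (ha y hy).2.1.symm)
  obtain ⟨y, hy, hyZ, hmax⟩ : ∃ y ∈ T, y ∉ Z' ∧
      ∀ x ∈ T, ‖vl S.z (a x) x.z‖ ≤ ‖vl S.z (a y) y.z‖ := by
    obtain ⟨y, hy, hmax⟩ := att B hz₀ hC cl (fun y hy => (ha y hy).1) hF
    by_cases h : y ∈ Z'
    · obtain ⟨y', hy'⟩ := (hT.sdiff hZ').nonempty
      refine ⟨y', hy'.1, hy'.2, fun x hx => (hmax x hx).trans ?_⟩
      rw [(ha y hy).2.2 h, norm_zero]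
      exact norm_nonneg _
    · exact ⟨y, hy, h, hmax⟩
  have r1 := cst hP hS B (hC y hy) (m2 y (hC y hy) hyZ) (ha y hy).1
    (mem_of_superset (op y hy fun e => hyZ (m1 e)) fun x hx h => by
      rw [hF y hy x hx h]
      exact hmax x hx)
  rw [(ha y hy).2.1] at r1
  have r2 := vl_res B (hC z₀ hz₀) (ha z₀ hz₀).1 (const_mem B z₀ _)
    ((ha z₀ hz₀).2.1.trans (r1.trans (C.res_const _).symm))
  rw [(vl_const (z_on _) _).2, (ha z₀ hz₀).2.2 m0] at r2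
  rw [← r2, map_zero] at r1
  exact f0 r1

/-- No point of a curve is isolated. -/
theorem ni (hP : ParStmt) (hS : SpStmt) (B : Br S) {C : CC S.z} (H : CP C) {y : PP S.z}
    (hy : y.On C) {s : Set (PP S.z)} (hs : s ∈ nb C y) : s.Infinite := fun hf => by
  refine mp hP hS B H hy (T := {x | x.On C} \ {y}) finite_empty (H.inf.sdiff (finite_singleton y))
    (fun _ h => h.1) (fun h => h.2 rfl) (fun x hx h => ⟨hx, ?_⟩) fun x hx _ =>
      ⟨_, d2_pos' B (Ne.symm hx.2), fun x' a b => ⟨a, fun e => ?_⟩⟩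
  · rintro rfl
    have : ∀ᶠ x' in nb C x, ∀ w ∈ s \ {x}, x' ≠ w :=
      (eventually_all_finite (hf.subset sdiff_subset)).2 fun w hw =>
        ⟨_, d2_pos' B hw.2, fun x' _ b e => (lt_irrefl _ (e ▸ b : d2 w.z x.z < d2 w.z x.z))⟩
    obtain ⟨x', k1, k2, k3⟩ := (h.and_eventually (this.and hs)).exists
    exact k2 x' ⟨k3, k1.2⟩ rfl
  · rw [show x' = y from e] at b
    exact lt_irrefl _ b

end MaxA

open MaxA in
theorem maxS : MaxOf := by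
  intro hP hS K _ _ N S B C A Z H hZ cl op ⟨y, hy, hy1, hy2⟩ x hx
  by_contra hn
  have op' : ∀ y ∈ A ∩ {x | x.On C}, y ∉ Z → A ∩ {x | x.On C} ∈ nb C y := fun y a b => by
    obtain ⟨δ, h, k⟩ := op y a.1 a.2 b
    exact ⟨δ, h, fun x c d => ⟨k x c d, c⟩⟩
  refine mp hP hS B H hx (T := A ∩ {x | x.On C}) hZ (ni hP hS B H hy1 (op' y ⟨hy, hy1⟩ hy2))
    (fun _ h => h.2) (fun h => hn h.1) (fun w hw h => ⟨cl w hw fun δ δ0 => ?_, hw⟩) op'
  obtain ⟨w', k1, k2⟩ := (h.and_eventually (ball_mem C w δ0)).exists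
  exact ⟨w', k1.1, k2⟩

end Pool.Agent.MP_c69980_ag.I2
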