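import Pool.Agent.MP_c69980_ag.I2.SpecB

/-!
The numerical data of a fibre.
-/

set_option autoImplicit false

noncomputable section

namespace Pool.Agent.MP_c69980_ag.I2

open Finset

namespace Nf

variable {K : Type} [Field K] [Algebra ℂ K] {N : ℕ} {ξ : Fin (N + 1) → K}

theorem dot_eq (a : CC ξ → CC ξ → ℤ) (n : CC ξ → ℤ) (C : CC ξ) (T : Finset (CC ξ))
    (h : ∀ C', n C' ≠ 0 → C' ∈ T) : dot a n C = ∑ C' ∈ T, n C' * a C' C :=
  finsum_eq_sum_of_support_subset _ fun C' hC => h C' (left_ne_zero_of_mul hC)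

end Nf

theorem nfS : NfOf := by
  classical
  intro hadj K _ _ N d I B Z a h M st lv
  obtain ⟨h0, hM, hd⟩ := lv
  have g0 := st.br.g0
  have ia := st.ia
  have fb := st.fb
  have fv : ∀ f : K, f ≠ 0 → FS fun C : CC d.z => C.v f := fun f _ => g0.fin.v f
  refine ⟨fun i => M * dot a (kdv d.D) i + M * bet I B a i - ∑ j ∈ I, a i j * dv d.D h M 0 j,
    fun i _ j _ => ia.sym i j, fun i _ j _ hij => ia.off i j hij, fun i hi => ?_, fun i hi => ?_,
    fun i _ => hadj K N d.z g0 d.D a st.br.kg st.ca ia i (st.cp i), fun i hi => ?_,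
    fun i hi => ?_, fun i _ => by ring, by exact_mod_cast hM⟩
  · obtain ⟨x, hx⟩ := (st.cp i).inf.nonempty
    exact (fb.val x i ((fb.mem i).1 hi x hx) hx).1 hi
  · have h1 := ia.prin d.τ fb.t0 i
    rw [Nf.dot_eq a _ i ((fv d.τ fb.t0).toFinset ∪ I)
      fun C hC => mem_union_left _ ((fv d.τ fb.t0).mem_toFinset.2 hC),
      ← sum_subset (s₁ := I) subset_union_right] at h1
    · rw [← h1]
      exact sum_congr rfl fun j _ => by rw [ia.sym i j, mul_comm]
    · intro C _ hC
      have hne : C ≠ i := fun e => hC (e ▸ hi)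
      rcases (ia.off C i hne).eq_or_lt with e | e
      · rw [← e, mul_zero]
      · obtain ⟨x, hx, hx'⟩ := (ia.pos C i hne).1 e
        rw [(fb.val x C ((fb.mem i).1 hi x hx') hx).2 hC, zero_mul]
  · exact sum_nonneg fun C hC => ia.off C i fun e => (mem_sdiff.1 hC).2 (e ▸ hi)
  · set T := (fv h h0).toFinset ∪ st.ca.fk.toFinset ∪ (I ∪ B) with hT
    have h1 := ia.prin h h0 i
    rw [Nf.dot_eq a _ i T fun C hC => mem_union_left _
      (mem_union_left _ ((fv h h0).mem_toFinset.2 hC))] at h1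
    have h2 := Nf.dot_eq a (kdv d.D) i T fun C hC => mem_union_left _
      (mem_union_right _ (st.ca.fk.mem_toFinset.2 hC))
    have hI : I ⊆ T := subset_union_left.trans subset_union_right
    have hB : B \ I ⊆ T \ I :=
      sdiff_subset_sdiff (subset_union_right.trans subset_union_right) subset_rfl
    have h3 : ∑ C ∈ T, dv d.D h M 0 C * a C i = M * dot a (kdv d.D) i := by
      have e : ∑ C ∈ T, dv d.D h M 0 C * a C i =
          ∑ C ∈ T, C.v h * a C i + ∑ C ∈ T, M * (kdv d.D C * a C i) := by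
        rw [← sum_add_distrib]
        exact sum_congr rfl fun C _ => by simp only [dv]; ring
      rw [e, h1, zero_add, h2, mul_sum]
    rw [← sum_sdiff hI, ← sum_sdiff hB] at h3
    have h4 : ∑ j ∈ I, a i j * dv d.D h M 0 j = ∑ j ∈ I, dv d.D h M 0 j * a j i :=
      sum_congr rfl fun j _ => by rw [ia.sym i j, mul_comm]
    have h5 : 0 ≤ ∑ C ∈ (T \ I) \ (B \ I), dv d.D h M 0 C * a C i := sum_nonneg fun C hC => by
      have hc := mem_sdiff.1 hC
      have hci := (mem_sdiff.1 hc.1).2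
      exact mul_nonneg ((hd C).2 fun hb => hc.2 (mem_sdiff.2 ⟨hb, hci⟩))
        (ia.off C i fun e => hci (e ▸ hi))
    have h6 : 0 ≤ ∑ C ∈ B \ I, dv d.D h M 0 C * a C i + M * bet I B a i := by
      have : bet I B a i = ∑ C ∈ B \ I, a C i := by unfold bet; congr
      rw [this, mul_sum, ← sum_add_distrib]
      refine sum_nonneg fun C hC => ?_
      rw [← add_mul]
      exact mul_nonneg (by linarith [(hd C).1]) (ia.off C i fun e => (mem_sdiff.1 hC).2 (e ▸ hi))
    rw [h4, ← h3]
    linarith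

end Pool.Agent.MP_c69980_ag.I2
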