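import Pool.Agent.MP_c69980_ag.I2.SpecB
import Pool.Agent.MP_c69980_ag.E1.Wind

/-!
Row Ng: analysis in the chart at the value of the limit section.
-/

set_option autoImplicit false

noncomputable section

namespace Pool.Agent.MP_c69980_ag.I2

open MvPolynomial Metric Filter Topology Set
open H60 H4 E1

namespace Ng

variable {u : Ultrafilter ℕ} {b : ℂ}

lemma ev_mono {P Q : ℕ → ℝ → Prop} (h : Ev u P) (H : ∀ k ρ, P k ρ → Q k ρ) : Ev u Q := by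
  obtain ⟨ρ₀, h0, h1⟩ := h
  exact ⟨ρ₀, h0, fun ρ₁ h2 => (h1 ρ₁ h2).mono fun k q ρ hρ => H k ρ (q ρ hρ)⟩

lemma ev_and {P Q : ℕ → ℝ → Prop} (h : Ev u P) (h' : Ev u Q) : Ev u fun k ρ => P k ρ ∧ Q k ρ := by
  obtain ⟨ρ₀, h0, h1⟩ := h
  obtain ⟨ρ₀', h0', h1'⟩ := h'
  refine ⟨min ρ₀ ρ₀', lt_min h0 h0', fun ρ₁ h2 => ?_⟩
  filter_upwards [h1 ρ₁ h2, h1' ρ₁ h2] with k p q ρ hρ
  exact ⟨p ρ ⟨hρ.1, hρ.2.trans (min_le_left _ _)⟩, q ρ ⟨hρ.1, hρ.2.trans (min_le_right _ _)⟩⟩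

lemma ev_ball {R : ℂ → Prop} (h : ∀ᶠ t in 𝓝 b, R t) :
    Ev u fun _ ρ => ∀ t ∈ closedBall b ρ, R t := by
  obtain ⟨ε, h0, h1⟩ := nhds_basis_closedBall.eventually_iff.1 h
  exact ⟨ε, h0, fun _ _ => Eventually.of_forall fun _ ρ hρ t ht =>
    h1 (closedBall_subset_closedBall hρ.2 ht)⟩

lemma ev_lt {r : ℝ} (h : 0 < r) : Ev u fun _ ρ => ρ < r :=
  ⟨r / 2, half_pos h, fun _ _ => Eventually.of_forall fun _ _ hρ =>
    hρ.2.trans_lt (half_lt_self h)⟩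

lemma ev_sph {Q : ℕ → ℂ → Prop}
    (h : ∀ᶠ t in 𝓝[≠] b, ∀ᶠ q : ℕ × ℂ in (u : Filter ℕ) ×ˢ 𝓝 t, Q q.1 q.2) :
    Ev u fun k ρ => 0 < ρ ∧ ∀ t ∈ sphere b ρ, Q k t := by
  obtain ⟨ε, h0, h1⟩ := nhds_basis_closedBall.eventually_iff.1 (eventually_nhdsWithin_iff.1 h)
  refine ⟨ε, h0, fun ρ₁ h2 => ?_⟩
  have hK : IsCompact (closedBall b ε \ ball b ρ₁) := (isCompact_closedBall b ε).diff isOpen_ball
  refine (Eventually.curry (p := fun q : ℕ × ℂ => Q q.1 q.2)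
    (hK.mem_prod_nhdsSet_of_forall fun t ht => h1 ht.1 ?_)).mono fun k q ρ hρ =>
      ⟨h2.trans_le hρ.1, fun t ht => q.self_of_nhdsSet t ⟨?_, fun m => ?_⟩⟩
  · rintro rfl
    exact ht.2 (mem_ball_self h2)
  · exact mem_closedBall.2 ((mem_sphere.1 ht).trans_le hρ.2)
  · exact absurd (mem_ball.1 m) (not_lt.2 (hρ.1.trans (mem_sphere.1 ht).ge))

/-- Winding numbers of functions that converge on the punctured disc. -/
lemma ev_wn {f : ℕ → ℂ → ℂ} {φ : ℂ → ℂ} {e : ℕ} (hφ : AnalyticAt ℂ φ b)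
    (he : analyticOrderAt φ b = e)
    (h : ∀ᶠ t in 𝓝[≠] b, Tendsto (fun q : ℕ × ℂ => f q.1 q.2) ((u : Filter ℕ) ×ˢ 𝓝 t) (𝓝 (φ t)) ∧
      ∀ᶠ q : ℕ × ℂ in (u : Filter ℕ) ×ˢ 𝓝 t, ContinuousAt (f q.1) q.2) :
    Ev u fun k ρ => 0 < ρ ∧ Wn b ρ (f k) e := by
  obtain ⟨w, w1, w0, w2⟩ := hφ.analyticOrderAt_eq_natCast.1 he
  have w3 : ∀ᶠ t in 𝓝 b, w t / w b ∈ Complex.slitPlane :=
    (w1.continuousAt.div_const _).eventually (Complex.isOpen_slitPlane.mem_nhds (by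
      simp only [div_self w0]
      exact Complex.one_mem_slitPlane))
  refine ev_mono (ev_sph (Q := fun k t => ContinuousAt (f k) t ∧ t - b ≠ 0 ∧
    f k t / ((t - b) ^ e * w b) ∈ Complex.slitPlane) (b := b) ?_) fun k ρ ⟨h0, h1⟩ => ⟨h0,
      fun t => Complex.log (f k t / ((t - b) ^ e * w b)) + Complex.log (w b), fun t ht => ?_,
      fun t ht => ?_⟩
  · filter_upwards [h, nhdsWithin_le_nhds w2, nhdsWithin_le_nhds w3, self_mem_nhdsWithin]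
      with t t1 t2 t3 t4
    have t5 : t - b ≠ 0 := sub_ne_zero.2 t4
    have c1 : Tendsto (fun q : ℕ × ℂ => q.2 - b) ((u : Filter ℕ) ×ˢ 𝓝 t) (𝓝 (t - b)) :=
      tendsto_snd.sub_const b
    have c2 := t1.1.div ((c1.pow e).mul_const (w b)) (mul_ne_zero (pow_ne_zero _ t5) w0)
    rw [t2, smul_eq_mul, mul_div_mul_left _ _ (pow_ne_zero _ t5)] at c2
    filter_upwards [t1.2, c1.eventually_ne t5,
      c2.eventually (Complex.isOpen_slitPlane.mem_nhds t3)] with q q1 q2 q3 using ⟨q1, q2, q3⟩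
  · obtain ⟨a1, a2, a3⟩ := h1 t ht
    have a4 : ContinuousAt (fun x : ℂ => (x - b) ^ e * w b) t := by fun_prop
    have a5 : ContinuousAt (fun x : ℂ => f k x / ((x - b) ^ e * w b)) t :=
      a1.div a4 (mul_ne_zero (pow_ne_zero _ a2) w0)
    exact ((a5.clog a3).add continuousAt_const).continuousWithinAt
  · obtain ⟨-, a2, a3⟩ := h1 t ht
    have := pow_ne_zero e a2
    rw [Complex.exp_add, Complex.exp_log (Complex.slitPlane_ne_zero a3), Complex.exp_log w0,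
      zpow_natCast]
    field_simp

section chart

variable {n : ℕ} {X : Set (Pt n)} {a j : Fin n} {U : Set (ℂ × ℂ)} {Y : ℂ × ℂ → V n} {r : ℝ}
  {g : ℂ → V n} {s : ℕ → ℂ → V n}

lemma inc_ne (hc : Chart X a j U Y) {t : ℂ} (h : InC a j U Y g t) : g t j ≠ 0 :=
  (hc.eq h.1 h.2).1

lemma zeta_an (hc : Chart X a j U Y) {t : ℂ} (hg : AnalyticAt ℂ g t) (h : InC a j U Y g t) :
    AnalyticAt ℂ (fun w => ((w, g w a / g w j) : ℂ × ℂ)) t :=
  analyticAt_id.prod ((analyticAt_pi_iff.1 hg a).div (analyticAt_pi_iff.1 hg j) (inc_ne hc h))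

lemma inc_near (hX : Cn X) (hc : Chart X a j U Y) (r0 : 0 < r) (hg : Nm X (ball b r) g id)
    (h : InC a j U Y g b) : ∀ᶠ t in 𝓝 b, t ∈ ball b r ∧ InC a j U Y g t := by
  have g1 := Crv.an hg.1 isOpen_ball (mem_ball_self r0)
  have c : Tendsto (fun t => ((t, g t) : Pt n)) (𝓝 b) (𝓝 (b, g b)) :=
    tendsto_id.prodMk_nhds g1.continuousAt
  filter_upwards [c.eventually (hc.ev hX h.1 h.2), ball_mem_nhds b r0] with t t1 t2
  obtain ⟨t3, t4, t5⟩ := t1 (hg.2.2 t t2)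
  exact ⟨t2, t4, _, t3, t5⟩

lemma key (hX : Cn X) (hc : Chart X a j U Y) (hs : ∀ k, Nm X (ball b r) (s k) id)
    (hv : Cv u (ball b r \ {b}) s g) {t : ℂ} (ht : t ∈ ball b r) (hb : t ≠ b)
    (h : InC a j U Y g t) :
    Tendsto (fun q : ℕ × ℂ => ((q.2, s q.1 q.2 a / s q.1 q.2 j) : ℂ × ℂ))
      ((u : Filter ℕ) ×ˢ 𝓝 t) (𝓝 (t, g t a / g t j)) ∧
    ∀ᶠ q : ℕ × ℂ in (u : Filter ℕ) ×ˢ 𝓝 t, q.2 ∈ ball b r ∧ InC a j U Y (s q.1) q.2 := by
  obtain ⟨r', f, G, r0, a1, a2, a3, a4⟩ := hv t ⟨ht, hb⟩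
  have m : ∀ᶠ q : ℕ × ℂ in (u : Filter ℕ) ×ˢ 𝓝 t, q.2 ∈ ball t r' :=
    tendsto_snd.eventually (ball_mem_nhds t r0)
  have m' : ∀ᶠ q : ℕ × ℂ in (u : Filter ℕ) ×ˢ 𝓝 t, q.2 ∈ ball b r :=
    tendsto_snd.eventually (isOpen_ball.mem_nhds ht)
  have c1 : Tendsto (fun q : ℕ × ℂ => G q.2) ((u : Filter ℕ) ×ˢ 𝓝 t) (𝓝 (G t)) :=
    (Crv.an a1 isOpen_ball (mem_ball_self r0)).continuousAt.tendsto.comp tendsto_snd
  have c2 : Tendsto (fun q : ℕ × ℂ => f q.1 q.2) ((u : Filter ℕ) ×ˢ 𝓝 t) (𝓝 (G t)) := by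
    refine c1.congr_dist (Metric.tendsto_nhds.2 fun ε hε => ?_)
    filter_upwards [m, tendsto_fst.eventually (Metric.tendstoUniformlyOn_iff.1 a4 ε hε)]
      with q q1 q2
    simpa using q2 _ q1
  have c3 : Tendsto (fun q : ℕ × ℂ => ((q.2, f q.1 q.2) : Pt n)) ((u : Filter ℕ) ×ˢ 𝓝 t)
      (𝓝 (t, G t)) := tendsto_snd.prodMk_nhds c2
  have p1 := (a2 t (mem_ball_self r0)).symm.trans h.2
  have p2 : ∀ᶠ q : ℕ × ℂ in (u : Filter ℕ) ×ˢ 𝓝 t, Pp (s q.1 q.2) (f q.1 q.2) := by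
    filter_upwards [m, tendsto_fst.eventually a3] with q q1 q2 using q2.2 _ q1
  refine ⟨((hc.tend h.1 p1).comp c3).congr' (p2.mono fun q hq => by
    simp only [Function.comp_apply, hq.div]), ?_⟩
  filter_upwards [c3.eventually (hc.ev hX h.1 p1), p2, m'] with q q1 q2 q3
  obtain ⟨q4, q5, q6⟩ := q1 (hX.pp ((hs q.1).2.2 _ q3) q2.symm)
  refine ⟨q3, ?_⟩
  unfold InC
  rw [q2.div]
  exact ⟨q5, q2.trans ⟨_, q4, q6⟩⟩

lemma cv_const (hg : Nm X (ball b r) g id) : Cv u (ball b r \ {b}) (fun _ => g) g := by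
  intro t ht
  obtain ⟨ε, h0, h1⟩ := Metric.isOpen_iff.1 isOpen_ball t ht.1
  exact ⟨ε, fun _ => g, g, h0, crv_mono hg.1 h1, fun _ _ => .refl _,
    Eventually.of_forall fun _ => ⟨crv_mono hg.1 h1, fun _ _ => .refl _⟩,
    Metric.tendstoUniformlyOn_iff.2 fun δ hδ => Eventually.of_forall fun _ _ _ => by simpa⟩

lemma band (hX : Cn X) (hc : Chart X a j U Y) (r0 : 0 < r) (hg : Nm X (ball b r) g id)
    (h : InC a j U Y g b) (hs : ∀ k, Nm X (ball b r) (s k) id) (hv : Cv u (ball b r \ {b}) s g)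
    {s' : ℕ → ℂ → V n} (hs' : ∀ k, Nm X (ball b r) (s' k) id) (hv' : Cv u (ball b r \ {b}) s' g)
    {σ : ℂ → V n} (hσ : ContinuousAt σ b) (σ0 : σ b ≠ 0) (hn : ¬Pp (σ b) (g b)) :
    Ev u fun k ρ => Tb a j U Y b ρ (s k) (s' k) ∧
      ∀ q ∈ Bn b ρ, ¬Pp (σ q.2) (Y (q.2, zb a j (s k) (s' k) q)) := by
  have c0 : ContinuousAt (fun p : ℂ × ℂ => σ p.1) (b, g b a / g b j) :=
    hσ.comp_of_eq continuousAt_fst rfl
  have c1 : ContinuousAt (fun p : ℂ × ℂ => wg (Y p) (σ p.1)) (b, g b a / g b j) :=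
    wg_cont.continuousAt.comp ((hc.an h.1).continuousAt.prodMk c0)
  have n1 : ∀ᶠ p : ℂ × ℂ in 𝓝 (b, g b a / g b j), p ∈ U ∧ ¬Pp (σ p.1) (Y p) := by
    filter_upwards [hc.nhds h.1, c0.eventually_ne σ0, c1.eventually_ne fun q =>
      hn (((wg_eq_zero (hc.ne h.1) σ0).1 q).trans h.2.symm)] with p p1 p2 p3
    exact ⟨p1, fun q => p3 ((wg_eq_zero (hc.ne p1) p2).2 q)⟩
  obtain ⟨ε, ε0, hε⟩ := Metric.eventually_nhds_iff_ball.1 n1
  have z := (zeta_an hc (Crv.an hg.1 isOpen_ball (mem_ball_self r0)) h).continuousAt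
  refine ev_mono (ev_sph (b := b) (Q := fun k t => InC a j U Y (s k) t ∧ InC a j U Y (s' k) t ∧
    ((t, s k t a / s k t j) : ℂ × ℂ) ∈ ball (b, g b a / g b j) ε ∧
    ((t, s' k t a / s' k t j) : ℂ × ℂ) ∈ ball (b, g b a / g b j) ε) ?_) fun k ρ ⟨_, h1⟩ => ?_
  · filter_upwards [nhdsWithin_le_nhds (inc_near hX hc r0 hg h),
      nhdsWithin_le_nhds (z.eventually (ball_mem_nhds _ ε0)), self_mem_nhdsWithin] with t t1 t2 t3
    obtain ⟨k1, k2⟩ := key hX hc hs hv t1.1 t3 t1.2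
    obtain ⟨k3, k4⟩ := key hX hc hs' hv' t1.1 t3 t1.2
    filter_upwards [k2, k4, k1.eventually (isOpen_ball.mem_nhds t2),
      k3.eventually (isOpen_ball.mem_nhds t2)] with q q1 q2 q3 q4 using ⟨q1.2, q2.2, q3, q4⟩
  · have m : ∀ q ∈ Bn b ρ, (q.2, zb a j (s k) (s' k) q) ∈ ball (b, g b a / g b j) ε := by
      intro q hq
      obtain ⟨-, -, a3, a4⟩ := h1 q.2 hq.2
      have := convex_ball _ _ a3 a4 (sub_nonneg.2 hq.1.2) hq.1.1 (sub_add_cancel 1 q.1)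
      refine (congrArg (· ∈ _) (Prod.ext ?_ ?_)).mp this
      · simp only [Prod.fst_add, Prod.smul_fst, ← add_smul, sub_add_cancel, one_smul]
      · simp [zb]
    exact ⟨⟨fun t ht => ⟨(h1 t ht).1.2, (h1 t ht).2.1.2⟩, fun q hq => (hε _ (m q hq)).1⟩,
      fun q hq => (hε _ (m q hq)).2⟩

end chart

variable {K : Type} [Field K] [Algebra ℂ K] {N : ℕ} {d : FD K N} {r : ℝ} {a j : Fin (N + 1)}
  {U : Set (ℂ × ℂ)} {Y : ℂ × ℂ → V (N + 1)} {g : ℂ → V (N + 1)} {s : ℕ → ℂ → V (N + 1)} {E : K}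

lemma on {t : ℂ} {y : V (N + 1)} (h : (t, y) ∈ d.X) : On d.z y := Cone.on d.gen (d.gr _ h).1

lemma val_an (hc : Chart d.X a j U Y) {p : ℂ × ℂ} (hp : p ∈ U) (h : Reg d.z (Y p) E) :
    AnalyticAt ℂ (fun q => vl d.z E (Y q)) p ∧ ∀ᶠ q in 𝓝 p, Reg d.z (Y q) E :=
  vl_an (hc.an hp) (Eventually.mono (hc.nhds hp) fun _ hq => on (hc.mem hq)) h

/-- The facts on the limit section near the centre. -/
lemma near (S : Sit d r a j U Y g) (hE : Reg d.z (g d.b) E) : ∀ᶠ t in 𝓝 d.b,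
    t ∈ ball d.b r ∧ InC a j U Y g t ∧ Reg d.z (Y (t, g t a / g t j)) E := by
  have z := (zeta_an S.ch (Crv.an S.nm.1 isOpen_ball (mem_ball_self S.r0)) S.inc).continuousAt
  filter_upwards [inc_near d.cn S.ch S.r0 S.nm S.inc,
    z.eventually (val_an S.ch S.inc.1 (S.inc.2.symm.reg hE)).2] with t t1 t2
  exact ⟨t1.1, t1.2, t2⟩

lemma val_eq (hc : Chart d.X a j U Y) {t : ℂ} (h : InC a j U Y g t)
    (hE : Reg d.z (Y (t, g t a / g t j)) E) :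
    vl d.z E (g t) = vl d.z E (Y (t, g t a / g t j)) := h.2.vl (on (hc.mem h.1)) hE

lemma wn_a (S : Sit d r a j U Y g) (hs : Cg d u r s g) (hE : Reg d.z (g d.b) E) {e : ℕ}
    (he : analyticOrderAt (fun t => vl d.z E (g t)) d.b = e) :
    Ev u fun k ρ => Wn d.b ρ (fun t => vl d.z E (s k t)) e := by
  have an : ∀ {f : ℂ → V (N + 1)} {t : ℂ}, Nm d.X (ball d.b r) f id → t ∈ ball d.b r →
      Reg d.z (f t) E → AnalyticAt ℂ (fun w => vl d.z E (f w)) t := fun hf ht h =>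
    (vl_an (Crv.an hf.1 isOpen_ball ht)
      (Eventually.mono (isOpen_ball.mem_nhds ht) fun w hw => on (hf.2.2 w hw)) h).1
  refine ev_mono (ev_wn (f := fun k t => vl d.z E (s k t)) (an S.nm (mem_ball_self S.r0) hE) he ?_)
    fun _ _ h => h.2
  filter_upwards [nhdsWithin_le_nhds (near S hE), self_mem_nhdsWithin] with t ⟨t1, t2, t3⟩ t4
  obtain ⟨k1, k2⟩ := key d.cn S.ch hs.1 hs.2 t1 t4 t2
  obtain ⟨v1, v2⟩ := val_an S.ch t2.1 t3
  rw [val_eq S.ch t2 t3]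
  refine ⟨(v1.continuousAt.tendsto.comp k1).congr' ?_, ?_⟩
  · filter_upwards [k2, k1.eventually v2] with q q1 q2 using (val_eq S.ch q1.2 q2).symm
  · filter_upwards [k2, k1.eventually v2] with q q1 q2
    exact (an (hs.1 q.1) q1.1 (q1.2.2.reg q2)).continuousAt

/-- The fibre derivative of a regular function. -/
lemma val_dz (hB : Br d.toSf) (hX : Xb d) (hc : Chart d.X a j U Y) {p : ℂ × ℂ} (hp : p ∈ U)
    (hb : p.1 ∈ ball d.b d.r₀) (hE : Reg d.z (Y p) E) :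
    Reg d.z (Y p) (Wd d.D d.τ E / Wd d.D d.τ (d.z a / d.z j)) ∧
      vl d.z (Wd d.D d.τ E / Wd d.D d.τ (d.z a / d.z j)) (Y p) =
        dz (fun q (_ : Fin 1) => vl d.z E (Y q)) p 0 := by
  obtain ⟨x, hx⟩ := hB.pt _ (d.gr _ (hc.mem hp)).1
  obtain ⟨g1, -, g3⟩ := hX.gen a j U Y hc p hp hb x hx
  have m1 := (hB.reg x _ d.τ hx).2 (d.reg _ (hc.mem hp) hb).1
  have m2 := (hB.reg x _ E hx).2 hE
  refine ⟨(hB.reg x _ _ hx).1 (g1.2.2 _ m1 _ m2), mul_right_cancel₀ (d.an _ hb).2.1 ?_⟩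
  have e1 : (fun q => vl d.z d.τ (Y q)) =ᶠ[𝓝 p] fun q => d.ψ q.1 := by
    filter_upwards [hc.nhds hp, continuousAt_fst.eventually (isOpen_ball.mem_nhds hb)] with q q1 q2
    exact (d.reg _ (hc.mem q1) q2).2
  have e2 := ((d.an _ hb).1.differentiableAt.hasDerivAt.comp_hasFDerivAt p
    (hasFDerivAt_fst (𝕜 := ℂ) (p := p))).fderiv
  have e3 : AnalyticAt ℂ (fun q (_ : Fin 1) => vl d.z E (Y q)) p :=
    analyticAt_pi_iff.2 fun _ => (val_an hc hp hE).1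
  rw [g3 _ m1 _ m2, jb_congr e1 EventuallyEq.rfl, jb, dz, ← fd_coord e3]
  change fderiv ℂ (d.ψ ∘ Prod.fst) p _ * _ - fderiv ℂ (d.ψ ∘ Prod.fst) p _ * _ = _
  rw [e2]
  simp [mul_comm]

lemma wn_b (hB : Br d.toSf) (hX : Xb d) (S : Sit d r a j U Y g) (hs : Cg d u r s g)
    (hE : Reg d.z (g d.b) E) {e : ℕ} (h0 : ∀ᶠ t in 𝓝 d.b, vl d.z E (g t) = 0)
    (he : analyticOrderAt (fun t =>
      vl d.z (Wd d.D d.τ E / Wd d.D d.τ (d.z a / d.z j)) (g t)) d.b = e) :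
    Ev u fun k ρ => ∀ ω, Wn d.b ρ (dif a j g (s k)) ω →
      Wn d.b ρ (fun t => vl d.z E (s k t)) (ω + e) := by
  set F : ℂ × ℂ → V 1 := fun q _ => vl d.z E (Y q) with hF
  have fa : ∀ p ∈ U, Reg d.z (Y p) E → AnalyticAt ℂ F p := fun p hp h =>
    analyticAt_pi_iff.2 fun _ => (val_an S.ch hp h).1
  have o : IsOpen {p | AnalyticAt ℂ F p} := isOpen_analyticAt ℂ F
  have dc : ∀ t z z', AnalyticAt ℂ F (t, z) → AnalyticAt ℂ F (t, z') →
      ContinuousAt (fun q : ℂ × ℂ × ℂ => dd F q.1 q.2.1 q.2.2 0) (t, z, z') := fun t z z' h h' =>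
    (continuous_apply 0).continuousAt.comp ((dd_cont (U := {p | AnalyticAt ℂ F p})
      fun _ h => h).continuousAt (((o.preimage (by fun_prop)).inter
        (o.preimage (by fun_prop))).mem_nhds ⟨h, h'⟩))
  have za : ∀ {f : ℂ → V (N + 1)} {t : ℂ}, Nm d.X (ball d.b r) f id → t ∈ ball d.b r →
      InC a j U Y f t → AnalyticAt ℂ (fun w => ((w, f w a / f w j) : ℂ × ℂ)) t :=
    fun hf ht h => zeta_an S.ch (Crv.an hf.1 isOpen_ball ht) h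
  have n1 := near S hE
  have a1 : AnalyticAt ℂ (fun t => dz F (t, g t a / g t j) 0) d.b := analyticAt_pi_iff.1
    ((dz_an (fa _ S.inc.1 n1.self_of_nhds.2.2)).comp_of_eq
      (za S.nm (mem_ball_self S.r0) S.inc) rfl) 0
  have e1 : (fun t => vl d.z (Wd d.D d.τ E / Wd d.D d.τ (d.z a / d.z j)) (g t)) =ᶠ[𝓝 d.b]
      fun t => dz F (t, g t a / g t j) 0 := by
    filter_upwards [n1] with t ⟨t1, t2, t3⟩
    obtain ⟨v1, v2⟩ := val_dz hB hX S.ch t2.1 (ball_subset_ball S.rr t1) t3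
    rw [val_eq S.ch t2 v1, v2]
  rw [analyticOrderAt_congr e1] at he
  have w1 := ev_wn (u := u) (f := fun k t => dd F t (g t a / g t j) (s k t a / s k t j) 0) a1 he (by
    filter_upwards [nhdsWithin_le_nhds n1, nhdsWithin_le_nhds n1.eventually_nhds,
      self_mem_nhdsWithin] with t ⟨t1, t2, t3⟩ t5 t4
    obtain ⟨k1, k2⟩ := key d.cn S.ch hs.1 hs.2 t1 t4 t2
    have k3 := (za S.nm t1 t2).continuousAt.snd.tendsto.comp
      (tendsto_snd (f := (u : Filter ℕ)) (g := 𝓝 t))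
    refine ⟨?_, ?_⟩
    · rw [← dd_self]
      exact (dc _ _ _ (fa _ t2.1 t3) (fa _ t2.1 t3)).tendsto.comp
        (tendsto_snd.prodMk_nhds (k3.prodMk_nhds k1.snd_nhds))
    · filter_upwards [k2, k1.eventually (val_an S.ch t2.1 t3).2, tendsto_snd.eventually t5]
        with q q1 q2 q3
      exact (dc _ _ _ (fa _ q3.2.1.1 q3.2.2) (fa _ q1.2.1 q2)).comp_of_eq
        (f := fun w => (w, g w a / g w j, s q.1 w a / s q.1 w j))
        (continuousAt_id.prodMk ((za S.nm q3.1 q3.2.1).continuousAt.snd.prodMk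
          (za (hs.1 q.1) q1.1 q1.2).continuousAt.snd)) rfl)
  have w2 := ev_sph (u := u) (b := d.b) (Q := fun k t => vl d.z E (s k t) =
      dif a j g (s k) t * dd F t (g t a / g t j) (s k t a / s k t j) 0) (by
    filter_upwards [nhdsWithin_le_nhds n1, nhdsWithin_le_nhds (n1.and h0).eventually_nhds,
      self_mem_nhdsWithin] with t ⟨t1, t2, t3⟩ t5 t4
    obtain ⟨k1, k2⟩ := key d.cn S.ch hs.1 hs.2 t1 t4 t2
    filter_upwards [k2, k1.eventually (val_an S.ch t2.1 t3).2, tendsto_snd.eventually t5]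
      with q q1 q2 q3
    have := congrFun (dd_eq F q.2 (g q.2 a / g q.2 j) (s q.1 q.2 a / s q.1 q.2 j)) 0
    rw [val_eq S.ch q1.2 q2]
    refine this.trans ?_
    change _ + vl d.z E _ = _
    rw [← val_eq S.ch q3.1.2.1 q3.1.2.2, q3.2, add_zero]
    rfl)
  exact ev_mono (ev_and w1 w2) fun k ρ h ω hω => (hω.mul h.1.1 h.1.2).congr h.2.2

end Ng

open Ng in
theorem ngS : NgStmt := by
  intro K _ _ N d u r a j U Y g s hB hX S hs
  have n1 := inc_near d.cn S.ch S.r0 S.nm S.inc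
  refine ⟨⟨fun _ => S.nm, cv_const S.nm⟩, ?_, fun s' σ hs' h1 h2 h3 =>
    band d.cn S.ch S.r0 S.nm S.inc hs.1 hs.2 hs'.1 hs'.2 h1 h2 h3, fun E e hE =>
    ⟨wn_a S hs hE, wn_b hB hX S hs hE⟩⟩
  refine ev_mono (ev_and (ev_lt S.r0) (ev_and (ev_sph (b := d.b)
    (Q := fun k t => InC a j U Y (s k) t) ?_) (ev_ball n1))) fun k ρ h =>
      ⟨h.1, h.2.1.2, fun t ht => (h.2.2 t ht).2⟩
  filter_upwards [nhdsWithin_le_nhds n1, self_mem_nhdsWithin] with t t1 t2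
  exact (key d.cn S.ch hs.1 hs.2 t1.1 t2 t1.2).2.mono fun q h => h.2

end Pool.Agent.MP_c69980_ag.I2
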