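import Mathlib

/-!
Numerical contraction of exceptional curves in a fibre.
-/

set_option autoImplicit false

namespace Pool.Agent.MP_c69980_ag.I2

open Finset

variable {ι : Type} [DecidableEq ι]

/-- The numerical data of a fibre with components `s`: intersection numbers `a`, multiplicities
`m`, canonical degrees `k`, degrees `β` of the horizontal boundary, and a divisor in
`M (K + B)` with vertical coefficients `d` and horizontal degrees `η`. -/
structure NumF (s : Finset ι) (a : ι → ι → ℤ) (m k β d η : ι → ℤ) (M : ℤ) : Prop where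
  sym : ∀ i ∈ s, ∀ j ∈ s, a i j = a j i
  off : ∀ i ∈ s, ∀ j ∈ s, i ≠ j → 0 ≤ a i j
  pos : ∀ i ∈ s, 0 < m i
  fib : ∀ i ∈ s, ∑ j ∈ s, a i j * m j = 0
  adj : ∀ i ∈ s, -2 ≤ k i + a i i
  bet : ∀ i ∈ s, 0 ≤ β i
  eta : ∀ i ∈ s, 0 ≤ η i
  div : ∀ i ∈ s, ∑ j ∈ s, a i j * d j + η i - M * β i = M * k i
  mp : 0 < M

/-- The bubble `v` between a section through the component `o` and one through `c`. -/
structure Bub (s : Finset ι) (a : ι → ι → ℤ) (m k β v : ι → ℤ) (o c : ι) : Prop where
  mo : o ∈ s ∧ m o = 1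
  mc : c ∈ s ∧ m c = 1
  nn : ∀ i ∈ s, 0 ≤ v i
  av : ∀ i ∈ s, ∑ j ∈ s, a i j * v j = (if i = c then 1 else 0) - if i = o then 1 else 0
  kv : ∑ j ∈ s, k j * v j + v c + v o = 0
  bv : ∀ j ∈ s, β j * v j = 0

section
variable {s : Finset ι} {a : ι → ι → ℤ} {m k β d η v w : ι → ℤ} {M : ℤ} {o c c' e : ι}

theorem NumF.diag (F : NumF s a m k β d η M) (he : e ∈ s) : a e e ≤ 0 ∧
    (a e e = 0 → ∀ j ∈ s, a e j = 0) := by
  have h := F.fib e he
  rw [← add_sum_erase _ _ he] at h
  have hn : ∀ j ∈ s.erase e, 0 ≤ a e j * m j := fun j hj =>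
    mul_nonneg (F.off e he j (mem_of_mem_erase hj) (ne_of_mem_erase hj).symm)
      (F.pos j (mem_of_mem_erase hj)).le
  have h0 := sum_nonneg hn
  have hm := F.pos e he
  refine ⟨by nlinarith, fun h1 j hj => ?_⟩
  by_cases hje : j = e
  · rw [hje, h1]
  · rw [h1, zero_mul, zero_add] at h
    have := (sum_eq_zero_iff_of_nonneg hn).1 h j (mem_erase.2 ⟨hje, hj⟩)
    exact (mul_eq_zero.1 this).resolve_right (F.pos j hj).ne'

theorem zer (F : NumF s a m k β d η M) (V : Bub s a m k β v o c) (W : Bub s a m k β w o c')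
    (h : w o = 0) : c' = o ∧ w c = 0 := by
  have ho := W.mo.1
  have h1 := W.av o ho
  rw [← add_sum_erase _ _ ho, h, mul_zero, zero_add, if_pos rfl] at h1
  have h0 : 0 ≤ ∑ j ∈ s.erase o, a o j * w j := sum_nonneg fun j hj =>
    mul_nonneg (F.off o ho j (mem_of_mem_erase hj) (ne_of_mem_erase hj).symm)
      (W.nn j (mem_of_mem_erase hj))
  have hc : o = c' := by
    by_contra hn
    rw [if_neg hn] at h1
    omega
  refine ⟨hc.symm, ?_⟩
  have h2 : ∑ i ∈ s, w i * ∑ j ∈ s, a i j * v j = ∑ j ∈ s, v j * ∑ i ∈ s, a j i * w i := by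
    simp only [mul_sum]
    rw [sum_comm]
    refine sum_congr rfl fun j hj => sum_congr rfl fun i hi => ?_
    rw [F.sym i hi j hj]; ring
  have h3 : ∑ j ∈ s, v j * ∑ i ∈ s, a j i * w i = 0 := sum_eq_zero fun i hi => by
    rw [W.av i hi, ← hc, sub_self, mul_zero]
  rw [h3, sum_congr rfl fun i hi => by rw [V.av i hi]] at h2
  simp only [mul_sub, mul_ite, mul_one, mul_zero, sum_sub_distrib, sum_ite_eq', V.mc.1, V.mo.1,
    if_true] at h2
  omega

/-- The component met after the contraction of `e`. -/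
noncomputable def rr (s : Finset ι) (a : ι → ι → ℤ) (e c : ι) : ι :=
  open Classical in
  if c = e then @Classical.epsilon ι ⟨e⟩ fun j => j ∈ s.erase e ∧ a e j ≠ 0 else c

theorem rr_ne (h : c ≠ e) : rr s a e c = c := by simp [rr, h]

theorem rr_self (F : NumF s a m k β d η M) (he : e ∈ s) (h1 : a e e = -1) (hm : m e = 1) :
    rr s a e e ∈ s.erase e ∧ m (rr s a e e) = 1 ∧
      ∀ i ∈ s.erase e, a e i = if i = rr s a e e then 1 else 0 := by
  have h := F.fib e he
  rw [← add_sum_erase _ _ he, h1, hm] at h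
  have hn : ∀ j ∈ s.erase e, 0 ≤ a e j := fun j hj =>
    F.off e he j (mem_of_mem_erase hj) (ne_of_mem_erase hj).symm
  have hp : ∀ j ∈ s.erase e, 0 < m j := fun j hj => F.pos j (mem_of_mem_erase hj)
  have hex : ∃ j, j ∈ s.erase e ∧ a e j ≠ 0 := by
    by_contra hc
    rw [sum_eq_zero fun j hj => by
      rw [show a e j = 0 from by_contra fun h0 => hc ⟨j, hj, h0⟩, zero_mul]] at h
    omega
  have hs : rr s a e e ∈ s.erase e ∧ a e (rr s a e e) ≠ 0 := by
    have := Classical.epsilon_spec hex
    simpa only [rr, if_true] using this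
  generalize rr s a e e = j at hs
  rw [← add_sum_erase _ _ hs.1] at h
  have hn' : ∀ i ∈ (s.erase e).erase j, 0 ≤ a e i * m i := fun i hi =>
    mul_nonneg (hn i (mem_of_mem_erase hi)) (hp i (mem_of_mem_erase hi)).le
  have h0 := sum_nonneg hn'
  have ha : 0 < a e j := lt_of_le_of_ne (hn j hs.1) hs.2.symm
  have hj := hp j hs.1
  have h2 : a e j * m j = 1 := by nlinarith
  have h3 : a e j = 1 := by nlinarith
  refine ⟨hs.1, by rw [h3] at h2; omega, fun i hi => ?_⟩
  split_ifs with hij
  · rw [hij, h3]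
  · have := (sum_eq_zero_iff_of_nonneg hn').1 (by omega) i (mem_erase.2 ⟨hij, hi⟩)
    exact (mul_eq_zero.1 this).resolve_right (hp i hi).ne'

theorem con_sum (he : e ∈ s) (h1 : a e e = -1) (x : ι → ℤ) {i : ι} :
    ∑ j ∈ s.erase e, (a i j + a i e * a e j) * x j =
      ∑ j ∈ s, a i j * x j + a i e * ∑ j ∈ s, a e j * x j := by
  rw [← add_sum_erase _ _ he, ← add_sum_erase s _ he, h1]
  simp only [add_mul, sum_add_distrib, mul_assoc, ← mul_sum]
  ring

theorem NumF.con (F : NumF s a m k β d η M) (he : e ∈ s) (h1 : a e e = -1) (hk : k e = -1)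
    (hb : β e = 0) : NumF (s.erase e) (fun i j => a i j + a i e * a e j) m (fun i => k i - a i e)
      β d (fun i => η i + a i e * η e) M := by
  have hn : ∀ j ∈ s.erase e, 0 ≤ a j e := fun j hj =>
    F.off j (mem_of_mem_erase hj) e he (ne_of_mem_erase hj)
  have hs : ∀ j ∈ s.erase e, a e j = a j e := fun j hj => F.sym e he j (mem_of_mem_erase hj)
  refine ⟨fun i hi j hj => ?_, fun i hi j hj hij => ?_, fun i hi => F.pos i (mem_of_mem_erase hi),
    fun i hi => ?_, fun i hi => ?_, fun i hi => F.bet i (mem_of_mem_erase hi), fun i hi => ?_,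
    fun i hi => ?_, F.mp⟩
  · rw [F.sym i (mem_of_mem_erase hi) j (mem_of_mem_erase hj), hs i hi, hs j hj]; ring
  · have := F.off i (mem_of_mem_erase hi) j (mem_of_mem_erase hj) hij
    have := mul_nonneg (hn i hi) (hn j hj)
    rw [hs j hj]; omega
  · rw [con_sum he h1, F.fib i (mem_of_mem_erase hi), F.fib e he]; simp
  · have := F.adj i (mem_of_mem_erase hi)
    have h2 : 0 ≤ a i e * (a i e - 1) := by
      rcases (hn i hi).eq_or_lt with h | h
      · rw [← h]; simp
      · exact mul_nonneg h.le (by omega)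
    rw [hs i hi]; nlinarith
  · exact add_nonneg (F.eta i (mem_of_mem_erase hi)) (mul_nonneg (hn i hi) (F.eta e he))
  · have h2 := F.div e he
    rw [hk, hb] at h2
    rw [con_sum he h1]
    linear_combination F.div i (mem_of_mem_erase hi) + a i e * h2

theorem Bub.rr_val (F : NumF s a m k β d η M) (he : e ∈ s) (h1 : a e e = -1) (hm : m e = 1)
    (x : ι → ℤ) : x (rr s a e e) = ∑ j ∈ s, a e j * x j + x e := by
  obtain ⟨h2, -, h3⟩ := rr_self F he h1 hm
  rw [← add_sum_erase _ _ he, h1, sum_congr rfl fun i hi => by rw [h3 i hi]]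
  simp only [ite_mul, one_mul, zero_mul, sum_ite_eq', h2, if_true]
  ring

theorem Bub.con (F : NumF s a m k β d η M) (V : Bub s a m k β v o c) (he : e ∈ s)
    (h1 : a e e = -1) (hk : k e = -1) : Bub (s.erase e) (fun i j => a i j + a i e * a e j) m
      (fun i => k i - a i e) β v (rr s a e o) (rr s a e c) := by
  have hr : ∀ x, x ∈ s ∧ m x = 1 → (rr s a e x ∈ s.erase e ∧ m (rr s a e x) = 1) ∧
      (∀ i ∈ s.erase e, (if i = rr s a e x then 1 else 0) =
        (if i = x then 1 else 0) + a i e * if e = x then 1 else 0) ∧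
      v (rr s a e x) = v x + (if e = x then 1 else 0) * ∑ j ∈ s, a e j * v j := by
    intro x hx
    by_cases hxe : x = e
    · subst hxe
      obtain ⟨h2, h3, h4⟩ := rr_self F he h1 hx.2
      refine ⟨⟨h2, h3⟩, fun i hi => ?_, ?_⟩
      · rw [← h4 i hi, if_neg (ne_of_mem_erase hi), if_pos rfl,
          F.sym x he i (mem_of_mem_erase hi)]; ring
      · rw [Bub.rr_val F he h1 hx.2 v, if_pos rfl]; ring
    · rw [rr_ne hxe, if_neg (Ne.symm hxe)]
      exact ⟨⟨mem_erase.2 ⟨hxe, hx.1⟩, hx.2⟩, fun i _ => by simp, by simp⟩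
  obtain ⟨a1, a2, a3⟩ := hr o V.mo
  obtain ⟨b1, b2, b3⟩ := hr c V.mc
  refine ⟨a1, b1, fun i hi => V.nn i (mem_of_mem_erase hi), fun i hi => ?_, ?_,
    fun i hi => V.bv i (mem_of_mem_erase hi)⟩
  · rw [con_sum he h1, V.av i (mem_of_mem_erase hi), V.av e he, a2 i hi, b2 i hi]; ring
  · have h2 : ∑ j ∈ s.erase e, (k j - a j e) * v j =
        ∑ j ∈ s, k j * v j - ∑ j ∈ s, a e j * v j := by
      rw [← add_sum_erase _ _ he, ← add_sum_erase s _ he, h1, hk,
        sum_congr rfl fun j hj => by rw [F.sym j (mem_of_mem_erase hj) e he]]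
      simp only [sub_mul, sum_sub_distrib]
      ring
    have h3 := V.kv
    rw [h2, a3, b3, V.av e he]
    split_ifs <;> omega

end

/-- Two bubbles with the same limit section are nested. -/
theorem num {M : ℤ} {m β d v w : ι → ℤ} (n : ℕ) : ∀ (s : Finset ι) (a : ι → ι → ℤ) (k η : ι → ℤ)
    (o c c' : ι), s.card = n → NumF s a m k β d η M → Bub s a m k β v o c →
    Bub s a m k β w o c' → v c = 0 ∧ w c' = 0 ∧ (w c = 0 ∨ d c' + M * w c ≤ d c) := by
  induction n with
  | zero =>
    intro s a k η o c c' hs _ V _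
    exact absurd V.mo.1 (by rw [card_eq_zero.1 hs]; simp)
  | succ n ih =>
    intro s a k η o c c' hs F V W
    by_cases hex : ∃ e ∈ s, k e < 0 ∧ β e = 0
    · obtain ⟨e, he, hk, hb⟩ := hex
      obtain ⟨d1, d2⟩ := F.diag he
      have h2 := F.div e he
      have hM := F.mp
      have h3 := F.eta e he
      have h0 : a e e ≠ 0 := fun h0 => by
        rw [sum_eq_zero fun j hj => by rw [d2 h0 j hj, zero_mul], hb] at h2
        nlinarith
      have h4 := F.adj e he
      have h1 : a e e = -1 := by omega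
      have hk1 : k e = -1 := by omega
      have F' := F.con he h1 hk1 hb
      have V' := Bub.con F V he h1 hk1
      have W' := Bub.con F W he h1 hk1
      obtain ⟨i1, i2, i3⟩ := ih _ _ _ _ _ _ _ (by rw [card_erase_of_mem he]; omega) F' V' W'
      have key : ∀ {x : ι → ℤ} {y : ι}, Bub s a m k β x o y → x (rr s a e y) = 0 →
          x y = 0 ∧ (y = e → o = e) := by
        intro x y X hx
        by_cases hy : y = e
        · subst hy
          rw [Bub.rr_val F he h1 X.mc.2 x, X.av y he, if_pos rfl] at hx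
          have := X.nn y he
          split_ifs at hx with ho
          · exact ⟨by omega, fun _ => ho.symm⟩
          · omega
        · rw [rr_ne hy] at hx
          exact ⟨hx, fun h => absurd h hy⟩
      obtain ⟨k1, k2⟩ := key V i1
      obtain ⟨k3, k4⟩ := key W i2
      refine ⟨k1, k3, ?_⟩
      by_cases hc : c = e
      · by_cases hc' : c' = e
        · left; rw [hc, ← hc', k3]
        · have ho := k2 hc
          subst hc
          subst ho
          have e1 := Bub.rr_val F he h1 V.mc.2 w
          have e2 := Bub.rr_val F he h1 V.mc.2 d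
          rw [W.av o he, if_neg (Ne.symm hc'), if_pos rfl] at e1
          rw [hk1, hb] at h2
          rw [rr_ne hc'] at i3 W'
          right
          rcases i3 with i3 | i3
          · have := (zer F' V' W' i3).1
            rw [← this] at e2
            have : w o = 1 := by omega
            rw [this]; linarith
          · have : w o = w (rr s a o o) + 1 := by omega
            rw [this]; linarith
      · rw [rr_ne hc] at i3 V'
        by_cases hc' : c' = e
        · left
          refine (zer F' V' W' ?_).2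
          rw [k4 hc']
          rwa [hc'] at i2
        · rwa [rr_ne hc'] at i3
    · have key : ∀ {x : ι → ℤ} {y : ι}, Bub s a m k β x o y → x y = 0 ∧ x o = 0 := by
        intro x y X
        have h0 : 0 ≤ ∑ j ∈ s, k j * x j := sum_nonneg fun j hj => by
          rcases mul_eq_zero.1 (X.bv j hj) with h | h
          · exact mul_nonneg (not_lt.1 fun hk => hex ⟨j, hj, hk, h⟩) (X.nn j hj)
          · rw [h, mul_zero]
        have := X.kv
        have := X.nn y X.mc.1
        have := X.nn o X.mo.1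
        omega
      exact ⟨(key V).1, (key W).1, Or.inl (zer F V W (key W).2).2⟩

end Pool.Agent.MP_c69980_ag.I2
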