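import Pool.Agent.MP_f3836a_nt.PK.SpecC
import Pool.Agent.MP_c69980_ag.H4.SpecB
import Pool.Agent.MP_c69980_ag.I2.Num

/-!
Intersection numbers, canonical divisor and adjunction on a smooth projective surface.
-/

set_option autoImplicit false

noncomputable section

namespace Pool.Agent.MP_c69980_ag.I2

open MvPolynomial IsLocalRing Pool.Agent.MP_f3836a_nt.PK
open H4 (Wd)

variable {K : Type} [Field K] [Algebra ℂ K] {N : ℕ} {ξ : Fin (N + 1) → K}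

/-- Divisors are finitely supported. -/
def FS (n : Cv ℂ ξ → ℤ) : Prop := (Function.support n).Finite

/-- `e` is a local equation of the divisor `n` at `x`. -/
def Eqn (x : Pt ℂ ξ) (n : Cv ℂ ξ → ℤ) (e : K) : Prop := e ≠ 0 ∧ ∀ C, x.On C → C.v e = n C

variable (ξ) in
/-- Points, curves and valuations on a smooth surface. -/
structure G0 : Prop where
  surf : IsSurf ℂ ξ
  cv : CvA ℂ ξ
  va : VA ℂ ξ
  fin : FinA ℂ ξ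
  reg : ∀ (x : Pt ℂ ξ) (f : K), f ≠ 0 → (∀ C : Cv ℂ ξ, x.On C → 0 ≤ C.v f) → f ∈ x.ctr.O
  eqn : ∀ (x : Pt ℂ ξ) (n : Cv ℂ ξ → ℤ), FS n → ∃ e, Eqn x n e
  two : ∀ C C' : Cv ℂ ξ, C ≠ C' → {x : Pt ℂ ξ | x.On C ∧ x.On C'}.Finite
  sep : ∀ (x : Pt ℂ ξ) (C : Cv ℂ ξ), ¬ x.On C → ∃ A : Pol ℂ N, Form A ∧ A ∈ C.P ∧ eval x.z A ≠ 0

/-- The place `P` of the function field of `C` lies over the point `x`. -/
def Ov (C : Cv ℂ ξ) (x : Pt ℂ ξ) (P : Place ℂ C.κ) : Prop := x.On C ∧ C.loc x ≤ P.V.toSubring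

/-- Points and places of a curve on the surface. -/
structure CP (C : Cv ℂ ξ) : Prop where
  ff : IsFF ℂ C.κ
  pa : PlA ℂ C.κ
  pb : PlB ℂ C.κ
  ex : ∀ P, ∃ x, Ov C x P
  uniq : ∀ x y P, Ov C x P → Ov C y P → x = y
  pt : ∀ x : Pt ℂ ξ, x.On C → ∃ P, Ov C x P
  fin : ∀ x, {P | Ov C x P}.Finite
  ord : ∀ x : Pt ℂ ξ, x.On C → ∀ f : C.κ, f ≠ 0 →
    C.ordAt x f = ∑ᶠ (P : Place ℂ C.κ) (_ : Ov C x P), P.ord f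
  max : ∀ x P, Ov C x P → ∀ a : x.ctr.O, a ∈ maximalIdeal x.ctr.O ↔ P.Zero (C.res a)
  sum : ∀ f : C.κ, f ≠ 0 → ∑ᶠ (x : Pt ℂ ξ) (_ : x.On C), C.ordAt x f = 0
  sing : {x : Pt ℂ ξ | x.On C ∧ ¬ IsDiscreteValuationRing (C.loc x)}.Finite
  cond : ∀ x : Pt ℂ ξ, x.On C → ∃ c : ℤ, ∀ f : C.κ, f ≠ 0 → (∀ P, Ov C x P → c ≤ P.ord f) →
    ∃ a ∈ maximalIdeal x.ctr.O, C.res a = f
  one : ∀ x P, Ov C x P → IsDiscreteValuationRing (C.loc x) → P.V.toSubring = C.loc x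
  riem : ∃ g : ℤ, ∀ E : Place ℂ C.κ →₀ ℤ, g ≤ ∑ᶠ P, E P → ∃ f : C.κ, f ≠ 0 ∧ ∀ P, -E P ≤ P.ord f
  inf : {x : Pt ℂ ξ | x.On C}.Infinite

/-- The degree of the divisor `n` on the curve `C`. -/
def dot (a : Cv ℂ ξ → Cv ℂ ξ → ℤ) (n : Cv ℂ ξ → ℤ) (C : Cv ℂ ξ) : ℤ := ∑ᶠ C', n C' * a C' C

/-- Intersection numbers. -/
structure IA (a : Cv ℂ ξ → Cv ℂ ξ → ℤ) : Prop where
  sym : ∀ C C', a C C' = a C' C
  off : ∀ C C', C ≠ C' → 0 ≤ a C C'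
  pos : ∀ C C', C ≠ C' → (0 < a C C' ↔ ∃ x : Pt ℂ ξ, x.On C ∧ x.On C')
  loc : ∀ (n : Cv ℂ ξ → ℤ) (C : Cv ℂ ξ) (e : Pt ℂ ξ → K), FS n → n C = 0 →
    (∀ x : Pt ℂ ξ, x.On C → Eqn x n (e x)) →
    {x : Pt ℂ ξ | x.On C ∧ C.ordAt x (C.res (e x)) ≠ 0}.Finite ∧
      dot a n C = ∑ᶠ (x : Pt ℂ ξ) (_ : x.On C), C.ordAt x (C.res (e x))
  prin : ∀ f : K, f ≠ 0 → ∀ C, dot a (fun C' => C'.v f) C = 0

/-- `w` generates the canonical module of the ring `O`. -/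
def GenO (D : Fin 2 → Derivation ℂ K K) (O : Subring K) (w : K) : Prop :=
  w ≠ 0 ∧ (∃ f ∈ O, ∃ g ∈ O, w = Wd D f g) ∧ ∀ f ∈ O, ∀ g ∈ O, Wd D f g / w ∈ O

variable (ξ) in
/-- Finitely many two-forms generate the canonical sheaf. -/
def KG (D : Fin 2 → Derivation ℂ K K) : Prop :=
  ∃ S : Set K, S.Finite ∧ ∀ x : Pt ℂ ξ, ∃ w ∈ S, GenO D x.ctr.O w

/-- The hyperplane divisor. -/
def hdv (C : Cv ℂ ξ) : ℤ := -C.v (ξ C.idx)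

/-- The canonical divisor. -/
def kdv (D : Fin 2 → Derivation ℂ K K) (C : Cv ℂ ξ) : ℤ := -C.v (Classical.epsilon (GenO D C.O))

/-- The divisor of `h` as a section of `M K + e H`. -/
def dv (D : Fin 2 → Derivation ℂ K K) (h : K) (M e : ℤ) (C : Cv ℂ ξ) : ℤ :=
  C.v h + M * kdv D C + e * hdv C

variable (ξ) in
/-- The canonical and the hyperplane divisor. -/
structure CA (D : Fin 2 → Derivation ℂ K K) : Prop where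
  fk : FS (kdv D : Cv ℂ ξ → ℤ)
  fh : FS (hdv : Cv ℂ ξ → ℤ)
  ex : ∀ C : Cv ℂ ξ, ∃ w, GenO D C.O w
  kv : ∀ (C : Cv ℂ ξ) (w : K), GenO D C.O w → C.v w = -kdv D C
  up : ∀ (x : Pt ℂ ξ) (C : Cv ℂ ξ) (w : K), x.On C → GenO D x.ctr.O w → GenO D C.O w
  hv : ∀ (C : Cv ℂ ξ) (j : Fin (N + 1)), X j ∉ C.P → C.v (ξ j) = -hdv C
  eqn : ∀ (x : Pt ℂ ξ) (j : Fin (N + 1)) (w h : K) (M e : ℤ), x.z j ≠ 0 → GenO D x.ctr.O w →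
    h ≠ 0 → Eqn x (dv D h M e) (h / (ξ j ^ e * w ^ M))

/-- Quantification over all surfaces. -/
def AllS (Φ : ∀ (K : Type) [Field K] [Algebra ℂ K] (N : ℕ) (_ : Fin (N + 1) → K), Prop) : Prop :=
  ∀ (K : Type) [Field K] [Algebra ℂ K] (N : ℕ) (ξ : Fin (N + 1) → K), G0 ξ → Φ K N ξ

/-! ### Row G0 -/

def G0Stmt : Prop := ∀ (K : Type) [Field K] [Algebra ℂ K] (N : ℕ) (ξ : Fin (N + 1) → K),
  IsSurf ℂ ξ → G0 ξ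

/-! ### Row CP -/

def CPStmt : Prop := AllS fun _ _ _ _ ξ => ∀ C : Cv ℂ ξ, CP C

/-! ### Row IA -/

def IAStmt : Prop := AllS fun _ _ _ _ ξ => (∀ C : Cv ℂ ξ, CP C) →
  ∃ a : Cv ℂ ξ → Cv ℂ ξ → ℤ, IA a

/-! ### Row CA -/

def CAStmt : Prop := AllS fun K _ _ _ ξ => ∀ D : Fin 2 → Derivation ℂ K K, KG ξ D → CA ξ D

/-! ### Row Wr: the degree of a one-form on a curve -/

def WrStmt : Prop := ∀ (F : Type) [Field F] [Algebra ℂ F], IsFF ℂ F → PlA ℂ F → PlB ℂ F →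
  ∀ δ : Derivation ℂ F F, δ ≠ 0 → ∀ u : Place ℂ F → F, (∀ P : Place ℂ F, P.ord (u P) = 1) →
  (∀ P : Place ℂ F, δ (u P) ≠ 0 ∧ ∀ f : F, P.ord f ≠ 0 →
    δ f ≠ 0 ∧ P.ord (δ f) = P.ord f - 1 + P.ord (δ (u P))) ∧
  {P : Place ℂ F | P.ord (δ (u P)) ≠ 0}.Finite ∧ ∑ᶠ P : Place ℂ F, P.ord (δ (u P)) ≤ 2

/-! ### Row Res: the residue along a curve -/

/-- `δ` is the derivation `f ↦ dφ ∧ df / w` of the function field of `C`. -/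
def IsRes (D : Fin 2 → Derivation ℂ K K) (C : Cv ℂ ξ) (φ w : K) (δ : Derivation ℂ C.κ C.κ) : Prop :=
  ∀ f ∈ C.O, δ (C.res f) = C.res (Wd D φ f / w)

def ResStmt : Prop := AllS fun K _ _ _ ξ => ∀ (D : Fin 2 → Derivation ℂ K K) (C : Cv ℂ ξ) (φ w : K),
  IsFF ℂ C.κ → φ ≠ 0 → C.v φ = 1 → GenO D C.O w → ∃ δ, IsRes D C φ w δ ∧ δ ≠ 0 ∧
    ∀ f : C.κ, δ f = 0 → ∃ c : ℂ, f = algebraMap ℂ C.κ c

/-! ### Row Adj: adjunction -/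

def AdjStmt : Prop := AllS fun K _ _ _ ξ => ∀ (D : Fin 2 → Derivation ℂ K K)
  (a : Cv ℂ ξ → Cv ℂ ξ → ℤ), KG ξ D → CA ξ D → IA a → ∀ C : Cv ℂ ξ, CP C →
  -2 ≤ dot a (kdv D) C + a C C

def AdjOf : Prop := WrStmt → ResStmt → AdjStmt

/-! ### Row Mov: the moving lemma -/

def MovStmt : Prop := AllS fun K _ _ _ ξ => FS (hdv : Cv ℂ ξ → ℤ) →
  ∀ (n : Cv ℂ ξ → ℤ) (Z : Set (Pt ℂ ξ)), FS n → Z.Finite → ∃ (h : K) (e : ℤ), h ≠ 0 ∧ 0 < e ∧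
    (∀ C : Cv ℂ ξ, n C ≤ C.v h + e * hdv C) ∧
    ∀ x ∈ Z, ∀ C : Cv ℂ ξ, x.On C → C.v h + e * hdv C = n C

/-! ### Row Ker: the kernel of the intersection matrix on a connected set of components -/

def KerStmt : Prop := ∀ (ι : Type) (s s₀ : Finset ι) (a : ι → ι → ℤ) (m v w : ι → ℤ) (c : ι),
  s₀ ⊆ s → (∀ i ∈ s, ∀ j ∈ s, i ≠ j → 0 ≤ a i j) → (∀ i ∈ s, 0 < m i) →
  (∀ i ∈ s, ∑ j ∈ s, a i j * m j = 0) → (∀ i ∈ s₀, ∀ j ∈ s, j ∉ s₀ → a i j = 0) →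
  (∀ t : Set ι, (∃ i ∈ s₀, i ∈ t) → (∀ i ∈ s₀, i ∈ t → ∀ j ∈ s₀, 0 < a i j → j ∈ t) →
    ∀ j ∈ s₀, j ∈ t) →
  (∀ i ∈ s, ∑ j ∈ s, a i j * v j = ∑ j ∈ s, a i j * w j) → c ∈ s₀ → v c = w c →
  ∀ i ∈ s₀, v i = w i

end Pool.Agent.MP_c69980_ag.I2
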