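import Pool.Agent.MP_c69980_ag.E1.BaseC
import Pool.Agent.MP_c69980_ag.I2.SpecA

/-!
Bubbles in one fibre of a fibred surface.
-/

set_option autoImplicit false

noncomputable section

namespace Pool.Agent.MP_c69980_ag.I2

open MvPolynomial Metric Filter Topology Set
open H60 H4 E1

variable {K : Type} [Field K] [Algebra ℂ K] {N : ℕ}

/-- Points. -/
abbrev PP (ξ : Fin (N + 1) → K) : Type := MP_f3836a_nt.PK.Pt ℂ ξ

/-- Curves. -/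
abbrev CC (ξ : Fin (N + 1) → K) : Type := MP_f3836a_nt.PK.Cv ℂ ξ

/-- A smooth projective surface. -/
structure Sf (K : Type) [Field K] [Algebra ℂ K] (N : ℕ) where
  W : Set (PS (N + 1))
  z : Fin (N + 1) → K
  D : Fin 2 → Derivation ℂ K K
  cl : IsZClosed W
  gen : GenPt W z
  tr : Algebra.trdeg ℂ K = 2
  sm : Smo W
  li : LinearIndependent K D

/-- `X` is locally the graph of an analytic function on the cone. -/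
def Gr {n : ℕ} (W : Set (PS n)) (X : Set (Pt n)) : Prop :=
  ∀ x ∈ X, x.2 ∈ Cone W ∧ ∃ T : V n → ℂ, AnalyticAt ℂ T x.2 ∧ T x.2 = x.1 ∧
    (∀ᶠ y in 𝓝 x.2, y ∈ Cone W → (T y, y) ∈ X) ∧ ∀ᶠ x' in 𝓝 x, x' ∈ X → x'.1 = T x'.2

/-- A fibration near the value `b`; the rational function `τ` is `ψ (t)`. -/
structure FD (K : Type) [Field K] [Algebra ℂ K] (N : ℕ) extends Sf K N where
  X : Set (Pt (N + 1))
  b : ℂ
  τ : K
  ψ : ℂ → ℂ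
  r₀ : ℝ
  cn : Cn X
  gr : Gr W X
  r0 : 0 < r₀
  an : ∀ t ∈ ball b r₀, AnalyticAt ℂ ψ t ∧ deriv ψ t ≠ 0 ∧ (ψ t = 0 ↔ t = b)
  reg : ∀ x ∈ X, x.1 ∈ ball b r₀ → Reg z x.2 τ ∧ vl z τ x.2 = ψ x.1

/-- `p` and `q` generate the maximal ideal at `x`. -/
def Gm (S : Sf K N) (x : PP S.z) (p q : K) : Prop :=
  p ∈ x.ctr.O ∧ q ∈ x.ctr.O ∧ vl S.z p x.z = 0 ∧ vl S.z q x.z = 0 ∧
    ∀ f ∈ x.ctr.O, vl S.z f x.z = 0 → ∃ α ∈ x.ctr.O, ∃ β ∈ x.ctr.O, f = α * p + β * q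

/-- The dictionary between the two descriptions of the surface. -/
structure Br (S : Sf K N) : Prop where
  g0 : G0 S.z
  kg : KG S.z S.D
  wc : WC S.W
  cone : ∀ x : PP S.z, x.z ∈ Cone S.W
  pt : ∀ y ∈ Cone S.W, ∃ x : PP S.z, Pp y x.z
  uniq : ∀ x x' : PP S.z, Pp x.z x'.z → x = x'
  reg : ∀ (x : PP S.z) (y : V (N + 1)) (f : K), Pp y x.z → (f ∈ x.ctr.O ↔ Reg S.z y f)
  max : ∀ (x : PP S.z) (f : x.ctr.O), f ∈ IsLocalRing.maximalIdeal x.ctr.O ↔ vl S.z f x.z = 0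
  jac : ∀ a b j U Y, WCh S.W a b j U Y → ∀ q ∈ U, ∀ x : PP S.z, Pp (Y q) x.z →
    GenO S.D x.ctr.O (Wd S.D (S.z a / S.z j) (S.z b / S.z j)) ∧
    Gm S x (S.z a / S.z j - algebraMap ℂ K q.1) (S.z b / S.z j - algebraMap ℂ K q.2) ∧
    ∀ f ∈ x.ctr.O, ∀ g ∈ x.ctr.O,
      vl S.z (Wd S.D f g / Wd S.D (S.z a / S.z j) (S.z b / S.z j)) (Y q) =
        jb (fun p => vl S.z f (Y p)) (fun p => vl S.z g (Y p)) q
  von : ∀ (x : PP S.z) (C : CC S.z) (f : K), x.On C → f ∈ x.ctr.O → C.res f = 0 →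
    vl S.z f x.z = 0
  vfin : ∀ (C : CC S.z) (f : K), f ∈ C.O → C.res f ≠ 0 →
    {x : PP S.z | x.On C ∧ ¬(f ∈ x.ctr.O ∧ vl S.z f x.z ≠ 0)}.Finite
  away : ∀ (x : PP S.z) (C : CC S.z), ¬x.On C → ∃ δ : ℝ, 0 < δ ∧
    ∀ x' : PP S.z, x'.On C → δ ≤ d2 x'.z x.z
  near : ∀ (x : PP S.z) (n : CC S.z → ℤ) (e : K), FS n → Eqn x n e → ∃ δ : ℝ, 0 < δ ∧
    ∀ x' : PP S.z, d2 x'.z x.z < δ → Eqn x' n e

/-- The dictionary in the charts of the fibration. -/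
structure Xb (d : FD K N) : Prop where
  nonreg : NonregP d.X
  gen : ∀ a j U Y, Chart d.X a j U Y → ∀ p ∈ U, p.1 ∈ ball d.b d.r₀ → ∀ x : PP d.z,
    Pp (Y p) x.z → GenO d.D x.ctr.O (Wd d.D d.τ (d.z a / d.z j)) ∧
    Gm d.toSf x (d.τ - algebraMap ℂ K (d.ψ p.1)) (d.z a / d.z j - algebraMap ℂ K p.2) ∧
    ∀ f ∈ x.ctr.O, ∀ g ∈ x.ctr.O,
      vl d.z (Wd d.D f g / Wd d.D d.τ (d.z a / d.z j)) (Y p) * deriv d.ψ p.1 =
        jb (fun q => vl d.z f (Y q)) (fun q => vl d.z g (Y q)) p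
  crit : ∀ x : PP d.z, (d.b, x.z) ∈ d.X → (d.b, x.z) ∉ Rx d.X → ∀ w, GenO d.D x.ctr.O w →
    ∀ g ∈ x.ctr.O, vl d.z (Wd d.D d.τ g / w) x.z = 0

/-- Analytic parametrisation by the functions `p` and `q`. -/
structure Par (S : Sf K N) (x : PP S.z) (p q : K) (Γ : ℂ × ℂ → V (N + 1)) (ε : ℝ) : Prop where
  e0 : 0 < ε
  an : AnalyticOnNhd ℂ Γ (ball 0 ε)
  val : ∀ w ∈ ball (0 : ℂ × ℂ) ε, Γ w ∈ Cone S.W ∧ Reg S.z (Γ w) p ∧ Reg S.z (Γ w) q ∧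
    vl S.z p (Γ w) = w.1 ∧ vl S.z q (Γ w) = w.2
  zero : Pp (Γ 0) x.z
  near : ∀ ε' : ℝ, 0 < ε' → ∃ δ : ℝ, 0 < δ ∧ ∀ y ∈ Cone S.W, d2 y x.z < δ → Reg S.z y p ∧
    Reg S.z y q ∧ (vl S.z p y, vl S.z q y) ∈ ball (0 : ℂ × ℂ) ε' ∧
      Pp y (Γ (vl S.z p y, vl S.z q y))

/-- Parameters at a smooth point of a curve. -/
structure Sp (S : Sf K N) (x : PP S.z) (C : CC S.z) (p q : K) : Prop where
  gm : Gm S x p q
  ord : ∀ f ∈ x.ctr.O, C.res f ≠ 0 → ∃ (e : ℕ) (α β : K), α ∈ x.ctr.O ∧ β ∈ x.ctr.O ∧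
    vl S.z α x.z ≠ 0 ∧ f = α * q ^ e + β * p ∧ C.ordAt x (C.res f) = e
  res : C.res p = 0 ∧ C.res q ≠ 0 ∧ C.ordAt x (C.res q) = 1
  eqn : p ≠ 0 ∧ C.v p = 1 ∧ ∀ C' : CC S.z, x.On C' → C' ≠ C → C'.v p = 0
  on : ∃ δ : ℝ, 0 < δ ∧ ∀ x' : PP S.z, d2 x'.z x.z < δ →
    p ∈ x'.ctr.O ∧ (x'.On C ↔ vl S.z p x'.z = 0)

/-- The components of the fibre. -/
structure FB (d : FD K N) (I : Finset (CC d.z)) : Prop where
  t0 : d.τ ≠ 0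
  mem : ∀ C, C ∈ I ↔ ∀ x : PP d.z, x.On C → (d.b, x.z) ∈ d.X
  val : ∀ (x : PP d.z) (C : CC d.z), (d.b, x.z) ∈ d.X → x.On C →
    (C ∈ I → 0 < C.v d.τ) ∧ (C ∉ I → C.v d.τ = 0)
  thru : ∀ x : PP d.z, (d.b, x.z) ∈ d.X → ∃ C ∈ I, x.On C
  rx1 : ∀ x : PP d.z, (d.b, x.z) ∈ Rx d.X → ∀ C ∈ I, x.On C →
    C.v d.τ = 1 ∧ ∀ C' ∈ I, x.On C' → C' = C
  rx2 : ∀ C ∈ I, C.v d.τ = 1 → {x : PP d.z | x.On C ∧ (d.b, x.z) ∉ Rx d.X}.Finite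

/-- A finite set that contains all the special points of the fibre. -/
structure ZG {ξ : Fin (N + 1) → K} (I B : Finset (CC ξ)) (Z : Set (PP ξ)) : Prop where
  fin : Z.Finite
  dvr : ∀ C ∈ I, ∀ x : PP ξ, x.On C → x ∉ Z → IsDiscreteValuationRing (C.loc x)
  one : ∀ C ∈ I, ∀ x : PP ξ, x.On C → x ∉ Z → ∀ C', C' ∈ I ∨ C' ∈ B → x.On C' → C' = C
  pt : ∀ C ∈ I, ∃ x ∈ Z, x.On C

/-- All the static data at the fibre. -/
structure St (d : FD K N) (I B : Finset (CC d.z)) (Z : Set (PP d.z))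
    (a : CC d.z → CC d.z → ℤ) : Prop where
  br : Br d.toSf
  xb : Xb d
  ca : CA d.z d.D
  cp : ∀ C : CC d.z, CP C
  ia : IA a
  fb : FB d I
  zg : ZG I B Z

/-- `y` is not on a curve of `B`. -/
def Off {ξ : Fin (N + 1) → K} (B : Finset (CC ξ)) (y : V (N + 1)) : Prop :=
  ∀ C ∈ B, ∀ x : PP ξ, x.On C → ¬Pp y x.z

/-- `h` is a section of `M (K + B)`. -/
def LogV (S : Sf K N) (B : Finset (CC S.z)) (h : K) (M : ℕ) : Prop :=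
  h ≠ 0 ∧ 0 < M ∧ ∀ C : CC S.z, -(M : ℤ) ≤ dv S.D h M 0 C ∧ (C ∉ B → 0 ≤ dv S.D h M 0 C)

/-- The coefficient of `h` in the chart `(t, y a / y j)`. -/
def cf (d : FD K N) (h : K) (M e : ℤ) (a j : Fin (N + 1)) : K :=
  h / (d.z j ^ e * Wd d.D d.τ (d.z a / d.z j) ^ M)

section
variable {n : ℕ}

/-- The scalar of a vertical vector field. -/
def kap (a j : Fin n) (s v : ℂ → V n) (t : ℂ) : ℂ := wg (s t) (v t) (j, a) / s t j ^ 2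

/-- `s t` lies in the chart. -/
def InC (a j : Fin n) (U : Set (ℂ × ℂ)) (Y : ℂ × ℂ → V n) (s : ℂ → V n) (t : ℂ) : Prop :=
  (t, s t a / s t j) ∈ U ∧ Pp (s t) (Y (t, s t a / s t j))

/-- The difference of the fibre coordinates. -/
def dif (a j : Fin n) (s s' : ℂ → V n) (t : ℂ) : ℂ := s' t a / s' t j - s t a / s t j

end

/-- For small circles and most indices. -/
def Ev (u : Ultrafilter ℕ) (P : ℕ → ℝ → Prop) : Prop :=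
  ∃ ρ₀ : ℝ, 0 < ρ₀ ∧ ∀ ρ₁ : ℝ, 0 < ρ₁ → ∀ᶠ k in u, ∀ ρ ∈ Icc ρ₁ ρ₀, P k ρ

/-- The limit section and a chart at its value. -/
structure Sit (d : FD K N) (r : ℝ) (a j : Fin (N + 1)) (U : Set (ℂ × ℂ))
    (Y : ℂ × ℂ → V (N + 1)) (g : ℂ → V (N + 1)) : Prop where
  r0 : 0 < r
  rr : r ≤ d.r₀
  pun : Pun d.X d.b r
  nm : Nm d.X (ball d.b r) g id
  ch : Chart d.X a j U Y
  inc : InC a j U Y g d.b

/-- Sections that converge on the punctured disc. -/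
def Cg (d : FD K N) (u : Ultrafilter ℕ) (r : ℝ) (s : ℕ → ℂ → V (N + 1)) (g : ℂ → V (N + 1)) :
    Prop := (∀ k, Nm d.X (ball d.b r) (s k) id) ∧ Cv u (ball d.b r \ {d.b}) s g

/-- The sections miss the boundary. -/
def Ms (d : FD K N) (B : Finset (CC d.z)) (r : ℝ) (s : ℕ → ℂ → V (N + 1)) : Prop :=
  ∀ k, ∀ t ∈ ball d.b r, Off B (s k t)

/-- The coefficient of `h` vanishes at the regular points of the fibre. -/
def VanF (d : FD K N) (B : Finset (CC d.z)) (h : K) (M : ℕ) : Prop :=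
  ∀ a j U Y ζ, Chart d.X a j U Y → (d.b, ζ) ∈ U → Off B (Y (d.b, ζ)) →
    vl d.z (cf d h M 0 a j) (Y (d.b, ζ)) = 0

/-- The winding numbers of the function of a pair are not negative. -/
def Pos (d : FD K N) (B : Finset (CC d.z)) (h : K) (M : ℕ) (u : Ultrafilter ℕ)
    (a j : Fin (N + 1)) (s s' : ℕ → ℂ → V (N + 1)) : Prop :=
  Ev u fun k ρ => ∀ w : ℤ, Wn d.b ρ
    (fun t => dif a j (s k) (s' k) t ^ M * vl d.z (cf d h M 0 a j) (s k t)) w →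
      0 ≤ w ∧ (VanF d B h M → 1 ≤ w)

/-- Quantification over all fibrations. -/
def AllF (Φ : ∀ (K : Type) [Field K] [Algebra ℂ K] (N : ℕ) (_ : FD K N), Prop) : Prop :=
  ∀ (K : Type) [Field K] [Algebra ℂ K] (N : ℕ) (d : FD K N), Φ K N d

/-! ### The results of the block -/

def ClsF : Prop := AllF fun _ _ _ N d => ∃ 𝒮 : Set (Set (V (N + 1))), 𝒮.Finite ∧
  (∀ A ∈ 𝒮, IsPreconnected A ∧ ∀ y ∈ A, (d.b, y) ∈ Rx d.X) ∧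
    ∀ y, (d.b, y) ∈ Rx d.X → ∃ A ∈ 𝒮, y ∈ A

def WindF : Prop := AllF fun _ _ _ _ d => ∀ B h M u r a j U Y g s s', LogV d.toSf B h M →
  Sit d r a j U Y g → Cg d u r s g → Cg d u r s' g → Ms d B r s → Ms d B r s' →
  (∃ t ∈ ball d.b r, Off B (g t)) → Pos d B h M u a j s s'

def WindBF : Prop := AllF fun _ _ _ _ d => ∀ B h M u r a j U Y g s, LogV d.toSf B h M →
  Sit d r a j U Y g → Cg d u r s g → Ms d B r s → Pos d B h M u a j s fun _ => g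

def DegF : Prop := AllF fun _ _ _ _ d => ∀ B h M u r a j U Y g s, LogV d.toSf B h M →
  Sit d r a j U Y g → Cg d u r s g → Ms d B r s → ∃ n₁ : ℤ, Ev u fun k ρ =>
    (∀ w, Wn d.b ρ (fun t => s k t j) w → w ≤ n₁) ∧
    ∀ v w, VL d.X d.b ρ (s k) v → Wn d.b ρ (fun t => wg (s k t) (v t) (j, a)) w → w ≤ n₁

/-! ### Row Fw: a uniform radius -/

def FwStmt : Prop := ∀ (K : Type) [Field K] [Algebra ℂ K] (n : ℕ) (z : Fin n → K)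
  (X : Set (Pt n)) (b : ℂ) (τ : K) (ψ : ℂ → ℂ), Cn X → (∀ x ∈ X, On z x.2) → AnalyticAt ℂ ψ b →
  ψ b = 0 → deriv ψ b ≠ 0 → (∀ y, (b, y) ∈ X → Reg z y τ ∧
    ∀ᶠ x in 𝓝 ((b, y) : Pt n), x ∈ X → vl z τ x.2 = ψ x.1) →
  ∃ r₀ : ℝ, 0 < r₀ ∧ (∀ t ∈ ball b r₀, AnalyticAt ℂ ψ t ∧ deriv ψ t ≠ 0 ∧ (ψ t = 0 ↔ t = b)) ∧
    ∀ x ∈ X, x.1 ∈ ball b r₀ → Reg z x.2 τ ∧ vl z τ x.2 = ψ x.1

/-! ### Rows Br, Xb -/

def BrStmt : Prop := ∀ (K : Type) [Field K] [Algebra ℂ K] (N : ℕ) (S : Sf K N), Br S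

def BrOf : Prop := G0Stmt → BrStmt

def XbStmt : Prop := AllF fun _ _ _ _ d => Br d.toSf → Xb d

/-! ### Rows Par, Sp -/

def ParStmt : Prop := ∀ (K : Type) [Field K] [Algebra ℂ K] (N : ℕ) (S : Sf K N), Br S →
  ∀ (x : PP S.z) (p q : K), Gm S x p q → ∃ Γ ε, Par S x p q Γ ε

def SpStmt : Prop := ∀ (K : Type) [Field K] [Algebra ℂ K] (N : ℕ) (S : Sf K N), Br S →
  ∀ (x : PP S.z) (C : CC S.z), x.On C → IsDiscreteValuationRing (C.loc x) → ∃ p q, Sp S x C p q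

/-! ### Row Max: curves are connected -/

def MaxStmt : Prop := ∀ (K : Type) [Field K] [Algebra ℂ K] (N : ℕ) (S : Sf K N), Br S →
  ∀ (C : CC S.z) (A Z : Set (PP S.z)), CP C → Z.Finite →
  (∀ x : PP S.z, x.On C → (∀ δ : ℝ, 0 < δ → ∃ y ∈ A, y.On C ∧ d2 y.z x.z < δ) → x ∈ A) →
  (∀ y ∈ A, y.On C → y ∉ Z → ∃ δ : ℝ, 0 < δ ∧ ∀ x : PP S.z, x.On C → d2 x.z y.z < δ → x ∈ A) →
  (∃ y ∈ A, y.On C ∧ y ∉ Z) → ∀ x : PP S.z, x.On C → x ∈ A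

def MaxOf : Prop := ParStmt → SpStmt → MaxStmt

/-! ### Rows Fb, Zg, Cls -/

def FbStmt : Prop := AllF fun _ _ _ _ d => Br d.toSf → Xb d → CA d.z d.D →
  (∀ C : CC d.z, CP C) → d.τ ≠ 0 → ∃ I, FB d I

def FbOf : Prop := MaxStmt → ResStmt → FbStmt

def ZgStmt : Prop := ∀ (K : Type) [Field K] [Algebra ℂ K] (N : ℕ) (ξ : Fin (N + 1) → K)
  (I B : Finset (CC ξ)) (y : PP ξ), G0 ξ → (∀ C : CC ξ, CP C) → ∃ Z, ZG I B Z ∧ y ∈ Z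

def ClStmt : Prop := AllF fun _ _ _ _ d => ∀ I, Br d.toSf → (∀ C : CC d.z, CP C) → FB d I →
  ∀ C ∈ I, ∀ x x' : PP d.z, x.On C → x'.On C → (d.b, x.z) ∈ Rx d.X → (d.b, x'.z) ∈ Rx d.X →
    Cl d.X d.b x.z x'.z

def ClOf : Prop := MaxStmt → ClStmt

/-! ### Row Zc: counting zeros -/

/-- The number of zeros in `O`. -/
def zc (f : ℂ → ℂ) (O : Set ℂ) : ℕ := ∑ᶠ t ∈ O, analyticOrderNatAt f t

/-- `G` has order `e` at `t`. -/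
def Oz {E : Type} [NormedAddCommGroup E] [NormedSpace ℂ E] (G : ℂ → E) (t : ℂ) (e : ℕ) : Prop :=
  ∃ (φ : ℂ → ℂ) (ε : ℂ → E), AnalyticAt ℂ φ t ∧ analyticOrderAt φ t = e ∧
    ∀ᶠ w in 𝓝 t, ContinuousAt ε w ∧ ε w ≠ 0 ∧ G w = φ w • ε w

def ZvStmt : Prop := ∀ (E : Type) [NormedAddCommGroup E] [NormedSpace ℂ E] (c : ℂ) (ρ : ℝ)
  (G : ℂ → E) (o : ℂ → ℕ), 0 < ρ → ContinuousOn G (closedBall c ρ) →
  (∀ t ∈ sphere c ρ, G t ≠ 0) → (∀ t ∈ ball c ρ, Oz G t (o t)) →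
  {t ∈ ball c ρ | o t ≠ 0}.Finite ∧ Zv c ρ G (∑ᶠ t ∈ ball c ρ, o t)

def ZcStmt : Prop :=
  (∀ (O A : Set ℂ) (H : ℝ × ℂ → ℂ), IsOpen O → IsCompact A → A ⊆ O →
    ContinuousOn H (Icc 0 1 ×ˢ O) → (∀ θ ∈ Icc (0 : ℝ) 1,
      DifferentiableOn ℂ (fun t => H (θ, t)) O ∧ ∀ t ∈ O, H (θ, t) = 0 → t ∈ A) →
    (∀ θ ∈ Icc (0 : ℝ) 1, {t ∈ O | H (θ, t) = 0}.Finite) ∧
      zc (fun t => H (0, t)) O = zc (fun t => H (1, t)) O) ∧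
  (∀ (O : Set ℂ) (f g : ℂ → ℂ) (e : ℕ), IsOpen O → DifferentiableOn ℂ f O →
    DifferentiableOn ℂ g O → {t ∈ O | f t = 0}.Finite → (∀ t ∈ O, g t ≠ 0) →
    zc (fun t => g t * f t ^ e) O = e * zc f O) ∧
  ∀ (O O' : Set ℂ) (f f' : ℂ → ℂ), (∀ t, t ∈ O ∧ f t = 0 ↔ t ∈ O' ∧ f' t = 0) →
    (∀ t ∈ O, f t = 0 → f =ᶠ[𝓝 t] f') → zc f O = zc f' O'

def ZcOf : Prop := ZvStmt → ZcStmt

/-! ### Rows Lc, Gv: the multiplicities of the bubble -/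

/-- The parameters at which the section is near `x`. -/
def Ob (d : FD K N) (s : ℂ → V (N + 1)) (x : PP d.z) (δ : ℝ) : Set ℂ :=
  {t | ‖t - d.b‖ < δ ∧ d2 (s t) x.z < δ}

/-- The sections cover the curve `C` near `x` with multiplicity `v`. -/
def Lv (d : FD K N) (u : Ultrafilter ℕ) (s : ℕ → ℂ → V (N + 1)) (C : CC d.z) (x : PP d.z)
    (v : ℕ → ℕ) : Prop :=
  ∀ f ∈ x.ctr.O, C.res f ≠ 0 → ∃ δ₀ : ℝ, 0 < δ₀ ∧ ∀ δ : ℝ, 0 < δ → δ ≤ δ₀ → ∀ᶠ k in u,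
    {t ∈ Ob d (s k) x δ | vl d.z f (s k t) = 0}.Finite ∧
    (zc (fun t => vl d.z f (s k t)) (Ob d (s k) x δ) : ℤ) = C.ordAt x (C.res f) * v k

def LvA (d : FD K N) (u : Ultrafilter ℕ) (s : ℕ → ℂ → V (N + 1)) (I : Finset (CC d.z))
    (Z : Set (PP d.z)) (v : ℕ → CC d.z → ℕ) : Prop :=
  ∀ C ∈ I, ∀ x : PP d.z, x.On C → x ∉ Z → Lv d u s C x fun k => v k C

def LcStmt : Prop := AllF fun _ _ _ _ d => ∀ I u r g s, Br d.toSf → FB d I → 0 < r → r ≤ d.r₀ →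
  Nm d.X (ball d.b r) g id → Cg d u r s g → ∀ C ∈ I, ∀ x : PP d.z, x.On C →
  IsDiscreteValuationRing (C.loc x) → (∀ C' ∈ I, x.On C' → C' = C) → ¬Pp (g d.b) x.z →
  ∃ v, Lv d u s C x v ∧ ∃ δ : ℝ, 0 < δ ∧ ∀ (x' : PP d.z) (v' : ℕ → ℕ), x'.On C →
    d2 x'.z x.z < δ → IsDiscreteValuationRing (C.loc x') → Lv d u s C x' v' → ∀ᶠ k in u, v' k = v k

def LcOf : Prop := ParStmt → SpStmt → ZcStmt → LcStmt

def GvStmt : Prop := AllF fun _ _ _ _ d => ∀ I B Z a u r g s, St d I B Z a → 0 < r → r ≤ d.r₀ →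
  Nm d.X (ball d.b r) g id → Cg d u r s g → (∃ y ∈ Z, Pp (g d.b) y.z) → ∃ v, LvA d u s I Z v

def GvOf : Prop := MaxStmt → LcStmt → GvStmt

/-! ### Rows Ult, Cnt: zeros of a divisor along the sections -/

/-- The divisor `n` has order `e` along `s` at `t`. -/
def Od (S : Sf K N) (n : CC S.z → ℤ) (s : ℂ → V (N + 1)) (t : ℂ) (e : ℕ) : Prop :=
  ∃ (y : PP S.z) (E : K), Pp (s t) y.z ∧ Eqn y n E ∧ E ∈ y.ctr.O ∧
    analyticOrderAt (fun w => vl S.z E (s w)) t = e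

open Classical in
/-- The part of `n` outside `I` and `B`. -/
def hor {ξ : Fin (N + 1) → K} (I B : Finset (CC ξ)) (n : CC ξ → ℤ) (C : CC ξ) : ℤ :=
  if C ∈ I ∨ C ∈ B then 0 else n C

def UltStmt : Prop := AllF fun _ _ _ _ d => ∀ u r g s (C : CC d.z) (δ : ℝ), Br d.toSf → 0 < r →
  Nm d.X (ball d.b r) g id → Cg d u r s g → (∀ y : PP d.z, Pp (g d.b) y.z → ¬y.On C) → 0 < δ →
  Ev u fun k ρ => ρ < r ∧ ∀ t ∈ closedBall d.b ρ, ∀ x : PP d.z, x.On C → Pp (s k t) x.z →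
    t ∈ ball d.b ρ ∧ ∃ x₁ : PP d.z, (d.b, x₁.z) ∈ d.X ∧ x₁.On C ∧ t ∈ Ob d (s k) x₁ δ

def CntStmt : Prop := AllF fun _ _ _ _ d => ∀ I B Z a u r g s v (n : CC d.z → ℤ) (c : CC d.z),
  St d I B Z a → 0 < r → r ≤ d.r₀ → Nm d.X (ball d.b r) g id → Cg d u r s g → Ms d B r s →
  (∃ y ∈ Z, Pp (g d.b) y.z) → LvA d u s I Z v → FS n → (∀ C, 0 ≤ n C) →
  (∀ x ∈ Z, ∀ C, x.On C → hor I B n C = 0) → c ∈ I →
  (∀ᶠ k in u, ∃ x : PP d.z, x.On c ∧ Pp (s k d.b) x.z) →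
  Ev u fun k ρ => ρ < r ∧
    (∀ t ∈ sphere d.b ρ, ∀ y : PP d.z, Pp (s k t) y.z → ∀ C, y.On C → n C = 0) ∧
    ∀ o : ℂ → ℕ, (∀ t ∈ ball d.b ρ, Od d.toSf n (s k) t (o t)) →
      ((∑ᶠ t ∈ ball d.b ρ, o t : ℕ) : ℤ) = n c + ∑ C ∈ I, v k C * dot a (hor I B n) C

def CntOf : Prop := UltStmt → CntStmt

/-! ### Row Ws: winding numbers count zeros -/

def WsStmt : Prop := AllF fun K _ _ _ d => ∀ (h : K) (M e : ℤ) s v a j U Y (ρ r : ℝ),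
  Br d.toSf → Xb d → CA d.z d.D → h ≠ 0 → 0 < ρ → ρ < r → r ≤ d.r₀ →
  Nm d.X (ball d.b r) s id → VL d.X d.b ρ s v → Chart d.X a j U Y →
  (∀ t ∈ sphere d.b ρ, InC a j U Y s t ∧ vl d.z (cf d h M e a j) (s t) ≠ 0) →
  (∀ t ∈ closedBall d.b ρ, ∀ y : PP d.z, Pp (s t) y.z → ∀ C, y.On C → 0 ≤ dv d.D h M e C) →
  ∃ o : ℂ → ℕ, (∀ t ∈ ball d.b ρ, Od d.toSf (dv d.D h M e) s t (o t)) ∧
    {t ∈ ball d.b ρ | o t ≠ 0}.Finite ∧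
    Wn d.b ρ (fun t => kap a j s v t ^ M * s t j ^ e * vl d.z (cf d h M e a j) (s t))
      (∑ᶠ t ∈ ball d.b ρ, o t : ℕ)

def WsOf : Prop := ZvStmt → WsStmt

/-! ### Row Stc: the adjunction identities -/

def VlStmt : Prop := ∀ (n : ℕ) (X : Set (Pt n)) (c : ℂ) (ρ r : ℝ) (s : ℂ → V n), Cn X →
  NonregP X → 0 < ρ → ρ < r → Nm X (ball c r) s id → (∃ v, VL X c ρ s v) ∧
  ∀ a j U Y v, Chart X a j U Y → VL X c ρ s v →
    ((∀ t ∈ sphere c ρ, InC a j U Y s t) → ∃ κ, Wn c ρ (kap a j s v) κ) ∧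
    ((∀ t ∈ closedBall c ρ, InC a j U Y s t) → Wn c ρ (kap a j s v) 0)

def StcStmt : Prop := ∀ (n : ℕ) (X : Set (Pt n)) (a j : Fin n) (U : Set (ℂ × ℂ))
  (Y : ℂ × ℂ → V n) (c : ℂ) (ρ r : ℝ) (s s' σ v : ℂ → V n) (I J : ℕ) (κ : ℤ), Cn X → NonregP X →
  0 < ρ → ρ < r → Pun X c ρ → Chart X a j U Y → Nm X (ball c r) s id → Nm X (ball c r) s' id →
  Nm X (ball c r) σ id → Tb a j U Y c ρ s s' →
  (∀ q ∈ Bn c ρ, ¬Pp (σ q.2) (Y (q.2, zb a j s s' q))) → Cl X c (σ c) (s c) → VL X c ρ s v →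
  Zv c ρ (fun t => wg (σ t) (s t)) I → Zv c ρ (fun t => wg (σ t) (s' t)) J →
  Wn c ρ (kap a j s v) κ →
  (∀ ω : ℤ, Wn c ρ (dif a j s s') ω → ∃ H : ℕ, ω = H + κ - (J - I) ∧
    ((∀ t ∈ ball c ρ, ¬Pp (s t) (s' t)) → H = 0)) ∧
  ∀ (σ' v' : ℂ → V n) (I' J' : ℕ) (κ' : ℤ), Nm X (ball c r) σ' id →
    (∀ q ∈ Bn c ρ, ¬Pp (σ' q.2) (Y (q.2, zb a j s s' q))) → Cl X c (σ' c) (s' c) →
    VL X c ρ s' v' → Zv c ρ (fun t => wg (σ' t) (s t)) I' →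
    Zv c ρ (fun t => wg (σ' t) (s' t)) J' → Wn c ρ (kap a j s' v') κ' →
    κ - κ' = J + J' - I - I'

/-! ### Row Ng: the chart at the value of the limit section -/

def NgStmt : Prop := AllF fun K _ _ N d => ∀ u r a j U Y g s, Br d.toSf → Xb d →
  Sit d r a j U Y g → Cg d u r s g → Cg d u r (fun _ => g) g ∧
  (Ev u fun k ρ => ρ < r ∧ (∀ t ∈ sphere d.b ρ, InC a j U Y (s k) t) ∧
    ∀ t ∈ closedBall d.b ρ, InC a j U Y g t) ∧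
  (∀ (s' : ℕ → ℂ → V (N + 1)) (σ : ℂ → V (N + 1)), Cg d u r s' g → ContinuousAt σ d.b →
    σ d.b ≠ 0 → ¬Pp (σ d.b) (g d.b) → Ev u fun k ρ => Tb a j U Y d.b ρ (s k) (s' k) ∧
      ∀ q ∈ Bn d.b ρ, ¬Pp (σ q.2) (Y (q.2, zb a j (s k) (s' k) q))) ∧
  ∀ (E : K) (e : ℕ), Reg d.z (g d.b) E →
    (analyticOrderAt (fun t => vl d.z E (g t)) d.b = e →
      Ev u fun k ρ => Wn d.b ρ (fun t => vl d.z E (s k t)) e) ∧
    ((∀ᶠ t in 𝓝 d.b, vl d.z E (g t) = 0) → analyticOrderAt (fun t =>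
      vl d.z (Wd d.D d.τ E / Wd d.D d.τ (d.z a / d.z j)) (g t)) d.b = e →
      Ev u fun k ρ => ∀ ω, Wn d.b ρ (dif a j g (s k)) ω →
        Wn d.b ρ (fun t => vl d.z E (s k t)) (ω + e))

/-! ### Row Cur: curvettes -/

def CurStmt : Prop := AllF fun _ _ _ N d => ∀ I (Z : Set (PP d.z)), Br d.toSf → Xb d →
  (∀ C : CC d.z, CP C) → FB d I → Z.Finite → ∀ C ∈ I, C.v d.τ = 1 →
  ∃ (x : PP d.z) (σ : ℂ → V (N + 1)) (r' : ℝ), x.On C ∧ x ∉ Z ∧ (d.b, x.z) ∈ Rx d.X ∧ 0 < r' ∧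
    Nm d.X (ball d.b r') σ id ∧ Pp (σ d.b) x.z ∧ ∀ u r g s v, 0 < r →
      Nm d.X (ball d.b r) g id → Cg d u r s g → ¬Pp (g d.b) x.z → Lv d u s C x v →
      Ev u fun k ρ => ρ < r' ∧ Zv d.b ρ (fun t => wg (σ t) (s k t)) (v k) ∧
        Zv d.b ρ (fun t => wg (σ t) (g t)) 0

def CurOf : Prop := ZvStmt → CurStmt

/-! ### Row Cf: the bubble lies in one connected component of the fibre -/

def CfStmt : Prop := AllF fun _ _ _ _ d => ∀ I (I₀ : Finset (CC d.z)) u r g s, Br d.toSf →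
  FB d I → 0 < r → Nm d.X (ball d.b r) g id → Cg d u r s g → I₀ ⊆ I →
  (∃ o ∈ I₀, ∃ y : PP d.z, y.On o ∧ Pp (g d.b) y.z) →
  (∀ C ∈ I₀, ∀ C' ∈ I, C' ∉ I₀ → ∀ x : PP d.z, x.On C → ¬x.On C') →
  ∀ C ∈ I, C ∉ I₀ → ∀ x : PP d.z, x.On C → ∃ δ : ℝ, 0 < δ ∧ ∀ᶠ k in u, Ob d (s k) x δ = ∅

/-! ### Rows Nf, Id, Bb: the numerical data -/

open Classical in
/-- The degree of the horizontal boundary. -/
def bet {ξ : Fin (N + 1) → K} (I B : Finset (CC ξ)) (a : CC ξ → CC ξ → ℤ) (C : CC ξ) : ℤ :=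
  ∑ C' ∈ B \ I, a C' C

open Classical in
def NfStmt : Prop := AllF fun _ _ _ _ d => ∀ I B Z a h M, St d I B Z a → LogV d.toSf B h M →
  ∃ η, NumF I a (fun C => C.v d.τ) (dot a (kdv d.D)) (bet I B a) (dv d.D h M 0) η M

def NfOf : Prop := AdjStmt → NfStmt

/-- The components that carry the values of the sections. -/
structure Oc (d : FD K N) (I B : Finset (CC d.z)) (Z : Set (PP d.z)) (u : Ultrafilter ℕ)
    (g : ℂ → V (N + 1)) (s : ℕ → ℂ → V (N + 1)) (o c : CC d.z) : Prop where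
  o1 : o ∈ I ∧ o.v d.τ = 1 ∧ ∃ y ∈ Z, y.On o ∧ Pp (g d.b) y.z
  c1 : c ∈ I ∧ c.v d.τ = 1 ∧ c ∉ B ∧ ∀ᶠ k in u, ∃ x : PP d.z, x.On c ∧ Pp (s k d.b) x.z

/-- The counting identity for a section of `M K + e H` in good position. -/
def IdStmt : Prop := AllF fun K _ _ _ d => ∀ I B Z a u r a' j U Y g s v o c (h : K) (M e : ℤ),
  St d I B Z a → Sit d r a' j U Y g → Cg d u r s g → Ms d B r s → LvA d u s I Z v →
  Oc d I B Z u g s o c → h ≠ 0 → (∀ C : CC d.z, 0 ≤ dv d.D h M e C) →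
  (∀ x ∈ Z, ∀ C, x.On C → hor I B (dv d.D h M e) C = 0) →
  Ev u fun k ρ => (∃ w, Wn d.b ρ (fun t => vl d.z (cf d h M e a' j) (s k t)) w) ∧
    ∀ v' κ ν w, VL d.X d.b ρ (s k) v' → Wn d.b ρ (kap a' j (s k) v') κ →
      Wn d.b ρ (fun t => s k t j) ν → Wn d.b ρ (fun t => vl d.z (cf d h M e a' j) (s k t)) w →
      M * κ + e * ν + w = dv d.D h M e c + ∑ C ∈ I, v k C *
        (M * dot a (kdv d.D) C + e * dot a hdv C - ∑ C' ∈ I, dv d.D h M e C' * a C' C -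
          open Classical in ∑ C' ∈ B \ I, dv d.D h M e C' * a C' C)

def IdOf : Prop := CntStmt → WsStmt → NgStmt → IdStmt

/-- The winding number of the vertical vector fields. -/
def Ka (d : FD K N) (u : Ultrafilter ℕ) (a' j : Fin (N + 1)) (s : ℕ → ℂ → V (N + 1))
    (o c : CC d.z) (v : ℕ → CC d.z → ℕ) : Prop :=
  Ev u fun k ρ => ∀ v', VL d.X d.b ρ (s k) v' →
    Wn d.b ρ (kap a' j (s k) v') (-((v k c : ℤ) + v k o))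

/-- The degree of the sections. -/
def Nu (d : FD K N) (I : Finset (CC d.z)) (a : CC d.z → CC d.z → ℤ) (u : Ultrafilter ℕ)
    (j : Fin (N + 1)) (s : ℕ → ℂ → V (N + 1)) (v : ℕ → CC d.z → ℕ) : Prop :=
  Ev u fun k ρ => Wn d.b ρ (fun t => s k t j) (∑ C ∈ I, v k C * dot a hdv C)

open Classical in
/-- The bubble of a sequence of sections. -/
structure Bb (d : FD K N) (I B : Finset (CC d.z)) (a : CC d.z → CC d.z → ℤ) (u : Ultrafilter ℕ)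
    (r : ℝ) (a' j : Fin (N + 1)) (g : ℂ → V (N + 1)) (s : ℕ → ℂ → V (N + 1)) (o c : CC d.z)
    (v : ℕ → CC d.z → ℕ) : Prop where
  ka : Ka d u a' j s o c v
  nu : Nu d I a u j s v
  av : ∀ᶠ k in u, ∀ i ∈ I,
    ∑ C ∈ I, a i C * v k C = (if i = c then 1 else 0) - if i = o then 1 else 0
  kv : ∀ᶠ k in u, ∑ C ∈ I, dot a (kdv d.D) C * v k C + v k c + v k o = 0
  b1 : (∃ t ∈ ball d.b r, Off B (g t)) → ∀ᶠ k in u, ∀ C ∈ I, bet I B a C * v k C = 0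
  b2 : ∀ᶠ k in u, ∑ C ∈ I, bet I B a C * v k C ≤ v k o

/-- The shape of the statements about one sequence of sections. -/
def AllB (Φ : ∀ (K : Type) [Field K] [Algebra ℂ K] (N : ℕ) (d : FD K N) (_ _ : Finset (CC d.z))
    (_ : CC d.z → CC d.z → ℤ) (_ : Ultrafilter ℕ) (_ : ℝ) (_ _ : Fin (N + 1))
    (_ : ℂ → V (N + 1)) (_ : ℕ → ℂ → V (N + 1)) (_ _ : CC d.z) (_ : ℕ → CC d.z → ℕ), Prop) :
    Prop :=
  AllF fun K _ _ N d => ∀ I B Z a u r a' j U Y g s v o c, St d I B Z a → Sit d r a' j U Y g →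
    Cg d u r s g → Ms d B r s → LvA d u s I Z v → Oc d I B Z u g s o c →
    Φ K N d I B a u r a' j g s o c v

def KaStmt : Prop := AllB fun _ _ _ _ d _ _ _ u _ a' j _ s o c v => Ka d u a' j s o c v

def KaOf : Prop := VlStmt → StcStmt → NgStmt → CurStmt → ClStmt → KaStmt

open Classical in
def AvStmt : Prop := AllB fun _ _ _ _ d I _ a u _ a' j _ s o c v => Nu d I a u j s v ∧
  (∀ᶠ k in u, ∀ i ∈ I,
    ∑ C ∈ I, a i C * v k C = (if i = c then 1 else 0) - if i = o then 1 else 0) ∧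
  (Ka d u a' j s o c v → ∀ᶠ k in u, ∑ C ∈ I, dot a (kdv d.D) C * v k C + v k c + v k o = 0)

def AvOf : Prop := MovStmt → IdStmt → NgStmt → VlStmt → AvStmt

def BtStmt : Prop := AllB fun _ _ _ _ d I B a u r _ j g s o _ v => Nu d I a u j s v →
  ((∃ t ∈ ball d.b r, Off B (g t)) → ∀ᶠ k in u, ∀ C ∈ I, bet I B a C * v k C = 0) ∧
  ∀ᶠ k in u, ∑ C ∈ I, bet I B a C * v k C ≤ v k o

def BtOf : Prop :=
  MovStmt → IdStmt → NgStmt → VlStmt → StcStmt → CurStmt → ClStmt → ResStmt → BtStmt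

def BbStmt : Prop := AllB fun _ _ _ _ d I B a u r a' j g s o c v => Bb d I B a u r a' j g s o c v

/-! ### Row Lo: lower bounds for orders -/

def LoStmt : Prop := AllF fun _ _ _ _ d => ∀ I B Z a, St d I B Z a → ∀ c ∈ I, c.v d.τ = 1 →
  (∀ (n : CC d.z → ℤ) s r (e : ℕ), 0 < r → Nm d.X (ball d.b r) s id →
    (∃ x : PP d.z, x.On c ∧ Pp (s d.b) x.z ∧ ∀ C, x.On C → 0 ≤ n C) →
    Od d.toSf n s d.b e → n c ≤ e) ∧
  ∀ h M, LogV d.toSf B h M → c ∉ B → VanF d B h M → 1 ≤ dv d.D h M 0 c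

/-! ### Row Set: the static data exist -/

def StStmt : Prop := AllF fun _ _ _ _ d => ∀ B (y : PP d.z), (d.b, y.z) ∈ Rx d.X →
  ∃ I Z a, St d I B Z a ∧ y ∈ Z

def StOf : Prop := BrStmt → XbStmt → CAStmt → CPStmt → IAStmt → FbStmt → ZgStmt → StStmt

def SetStmt : Prop := AllF fun _ _ _ _ d => ∀ B r a' j U Y g, Sit d r a' j U Y g →
  ∃ I Z a o, St d I B Z a ∧ ∀ u s, Cg d u r s g → Ms d B r s →
    ∃ c v, Oc d I B Z u g s o c ∧ LvA d u s I Z v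

def SetOf : Prop := BrStmt → StStmt → GvStmt → SetStmt

/-! ### The final rows -/

def ClsOf : Prop := BrStmt → StStmt → ClStmt → ClsF

def WindOf : Prop := SetStmt → BbStmt → NfStmt → VlStmt → StcStmt → NgStmt → CurStmt → ClStmt →
  WsStmt → LoStmt → WindF ∧ WindBF

def DegOf : Prop := SetStmt → BbStmt → NfStmt → SpStmt → CfStmt → KerStmt → NgStmt → DegF

end Pool.Agent.MP_c69980_ag.I2
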