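import Pool.Agent.MP_c69980_ag.E2.Spec
import Pool.Agent.MP_c69980_ag.I2.SpecB

/-!
From logarithmic forms to the winding numbers at one fibre.
-/

set_option autoImplicit false

noncomputable section

namespace Pool.Agent.MP_c69980_ag.I2

open MvPolynomial Metric Filter Topology Set
open H60 H4 E1

variable {K : Type} [Field K] [Algebra ℂ K] {N : ℕ}

/-- The boundary of `U` is the union of the curves of `B`, and the `h i` have logarithmic poles. -/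
structure Lg (S : Sf K N) (U : Set (PS (N + 1))) (m : ℕ) (h : Fin 3 → K)
    (B : Finset (CC S.z)) : Prop where
  off : ∀ y ∈ Cone S.W, y ∈ Cone U ↔ Off B y
  log : ∀ (Q : PR 3) (e : ℕ), 0 < e → Q.IsHomogeneous e → aeval h Q ≠ 0 →
    LogV S B (aeval h Q) (m * e)
  reg : ∀ x : PP S.z, x.z ∈ Cone U → ∀ w, GenO S.D x.ctr.O w → ∀ i, h i / w ^ m ∈ x.ctr.O
  h0 : h 0 ≠ 0

/-- The forms `Φ` are the forms `h i`. -/
def KF (d : FD K N) (m : ℕ) (h : Fin 3 → K) (Φ : Fin 3 → Pt (N + 1) → V (N + 1) → ℂ) : Prop :=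
  ∀ a j O Y, Chart d.X a j O Y → ∀ p ∈ O, ∀ (i : Fin 3) (f g : K), Reg d.z (Y p) f →
    Reg d.z (Y p) g → Wd d.D f g ≠ 0 → Reg d.z (Y p) (h i / Wd d.D f g ^ m) →
    fc Φ Y i p = vl d.z (h i / Wd d.D f g ^ m) (Y p) *
      jb (fun q => vl d.z f (Y q)) (fun q => vl d.z g (Y q)) p ^ m

/-- The form `Q (Φ)` vanishes on the fibre. -/
def VanL (d : FD K N) (U : Set (PS (N + 1))) (Φ : Fin 3 → Pt (N + 1) → V (N + 1) → ℂ)
    (Q : PR 3) : Prop :=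
  ∀ a j O Y, Chart d.X a j O Y → ∀ ζ, (d.b, ζ) ∈ O → Y (d.b, ζ) ∈ Cone U →
    E2.qq Φ Q Y (d.b, ζ) = 0

/-- The winding numbers of the function of a pair are not negative. -/
def PosL (d : FD K N) (U : Set (PS (N + 1))) (Φ : Fin 3 → Pt (N + 1) → V (N + 1) → ℂ) (Q : PR 3)
    (M : ℕ) (u : Ultrafilter ℕ) (a j : Fin (N + 1)) (Y : ℂ × ℂ → V (N + 1))
    (s s' : ℕ → ℂ → V (N + 1)) : Prop :=
  Ev u fun k ρ => ∀ w : ℤ, Wn d.b ρ (E2.Gf Φ Q M a j Y (s k) (s' k)) w →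
    0 ≤ w ∧ (VanL d U Φ Q → 1 ≤ w)

/-- The results at one fibre. -/
structure Out (d : FD K N) (U : Set (PS (N + 1))) (m : ℕ)
    (Φ : Fin 3 → Pt (N + 1) → V (N + 1) → ℂ) : Prop where
  wind : ∀ (Q : PR 3) (e : ℕ) u r s s' g a j O Y, 0 < e → Q.IsHomogeneous e →
    E2.Bs d.X U u d.b r s g a j O Y → E2.Bs d.X U u d.b r s' g a j O Y →
    (∃ t ∈ ball d.b r, g t ∈ Cone U) → PosL d U Φ Q (m * e) u a j Y s s'
  windB : ∀ (Q : PR 3) (e : ℕ) u r s g a j O Y, 0 < e → Q.IsHomogeneous e →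
    E2.Bs d.X U u d.b r s g a j O Y → PosL d U Φ Q (m * e) u a j Y s fun _ => g
  deg : ∀ u r s g a j O Y, E2.Bs d.X U u d.b r s g a j O Y → ∃ n₁ : ℤ, Ev u fun k ρ =>
    (∀ w, Wn d.b ρ (fun t => s k t j) w → w ≤ n₁) ∧
    ∀ v w, VL d.X d.b ρ (s k) v → Wn d.b ρ (fun t => wg (s k t) (v t) (j, a)) w → w ≤ n₁

/-! ### Row Log -/

def LogStmt : Prop := ∀ (K : Type) [Field K] [Algebra ℂ K] (N : ℕ) (S : Sf K N)
  (U : Set (PS (N + 1))) (m : ℕ) (h : Fin 3 → K), Br S → CA S.z S.D → (∀ C : CC S.z, CP C) →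
  U ⊆ S.W → LDat U S.z S.W S.z id m S.D h → ∃ B, Lg S U m h B

/-! ### Row Ad -/

def AdStmt : Prop := AllF fun _ _ _ _ d => ∀ U m h Φ B, Br d.toSf → Xb d → Lg d.toSf U m h B →
  KF d m h Φ → (∃ r : ℝ, 0 < r ∧ Pun d.X d.b r) → Out d U m Φ

def AdOf : Prop := WindF → WindBF → DegF → NgStmt → AdStmt

/-! ### The result of the block -/

def OutStmt : Prop := AllF fun _ _ _ _ d => ∀ U m h Φ, U ⊆ d.W →
  LDat U d.z d.W d.z id m d.D h → KF d m h Φ → (∃ r : ℝ, 0 < r ∧ Pun d.X d.b r) → Out d U m Φ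

end Pool.Agent.MP_c69980_ag.I2
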