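import Pool.Agent.MP_c69980_ag.E2.SpecB
import Pool.Agent.MP_c69980_ag.I2.SpecC

/-!
The results at one fibre give the results over an elliptic curve.
-/

set_option autoImplicit false

noncomputable section

namespace Pool.Agent.MP_c69980_ag.I2

open MvPolynomial Metric Filter Topology Set
open H60 H4 E1

theorem pE (hl : LatStmt) (hc : E2.CovStmt) (hg : E2.GStmt) (hb : E2.CritStmt) (hf : FwStmt)
    (h1 : ClsF) (h2 : OutStmt) : E2.PStmt := by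
  intro K _ _ n d Φ hK
  cases n with
  | zero =>
    obtain ⟨x, -⟩ := d.nc
    exact absurd (Subsingleton.elim _ _) x.1.rep_nonzero
  | succ N =>
    have cov := hc K _ d
    have cone : ∀ x ∈ d.X, x.2 ∈ Cone d.W := fun x hx => (cov.cone x.2).2 ⟨x.1, hx⟩
    have key : ∀ b : ℂ, ∃ F : FD K N, F.X = d.X ∧ F.b = b ∧ Out F d.Uo d.m Φ := by
      intro b
      obtain ⟨τ, ψ, a1, a2, a3, a4⟩ := (hg K _ d).2 b
      obtain ⟨r₀, r1, r2, r3⟩ := hf K _ d.z d.X b τ ψ cov.cn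
        (fun x hx => Cone.on d.gen (cone x hx)) a1 a2 a3 a4
      let F : FD K N :=
        { W := d.W, z := d.z, D := d.D, cl := d.cl, gen := d.gen, tr := d.tr, sm := d.sm,
          li := d.li, X := d.X, b := b, τ := τ, ψ := ψ, r₀ := r₀, cn := cov.cn,
          gr := fun x hx => ⟨cone x hx, cov.loc x hx⟩, r0 := r1, an := r2, reg := r3 }
      refine ⟨F, rfl, rfl, h2 K N F d.Uo d.m d.h Φ d.sub d.ld ?_ ?_⟩
      · intro a j O Y hY p hp i f g e1 e2 e3 e4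
        have := hK a j O Y hY p hp 0 d.L.lattice.zero_mem 1 1 0 i f g one_ne_zero e1 e2 e3 e4
        simpa [fc] using this
      · obtain ⟨S, hS⟩ := hb K _ d
        obtain ⟨r, r4, r5⟩ := ((hl d.L).2.2 S).2.2 b
        exact ⟨r, r4, fun x hx hne => hS x hx.1 fun hB => hne (r5 _ hB hx.2)⟩
    refine ⟨fun b => ?_, ?_, ?_, ?_⟩
    · obtain ⟨F, e1, e2, -⟩ := key b
      rw [← e1, ← e2]
      exact h1 K N F
    · intro Q e u b r s s' g a j O Y he hQ B1 B2 hU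
      obtain ⟨F, e1, rfl, o⟩ := key b
      rw [← e1] at B1 B2
      obtain ⟨ρ₀, p1, p2⟩ := o.wind Q e u r s s' g a j O Y he hQ B1 B2 hU
      refine ⟨ρ₀, p1, fun ρ₁ h => (p2 ρ₁ h).mono fun k hk ρ hρ w hw =>
        ⟨(hk ρ hρ w hw).1, fun hb hv => (hk ρ hρ w hw).2 ?_⟩⟩
      intro a' j' O' Y' hY ζ hζ hU'
      exact hv a' j' O' Y' (e1 ▸ hY) _ hζ hU' hb
    · intro Q e u b r s g a j O Y he hQ B1 _
      obtain ⟨F, e1, rfl, o⟩ := key b
      rw [← e1] at B1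
      obtain ⟨ρ₀, p1, p2⟩ := o.windB Q e u r s g a j O Y he hQ B1
      refine ⟨ρ₀, p1, fun ρ₁ h => (p2 ρ₁ h).mono fun k hk ρ hρ w hw =>
        ⟨(hk ρ hρ w hw).1, fun hb hv => (hk ρ hρ w hw).2 ?_⟩⟩
      intro a' j' O' Y' hY ζ hζ hU'
      exact hv a' j' O' Y' (e1 ▸ hY) _ hζ hU' hb
    · intro u b r s g a j O Y B1
      obtain ⟨F, e1, rfl, o⟩ := key b
      rw [← e1] at B1 ⊢
      obtain ⟨n₁, ρ₀, p1, p2⟩ := o.deg u r s g a j O Y B1
      exact ⟨ρ₀, n₁, p1, fun ρ₁ h => (p2 ρ₁ h).mono fun k hk ρ hρ =>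
        ⟨(hk ρ hρ).1, fun v hv w hw => (hk ρ hρ).2 v w hv hw⟩⟩

/-- The bubble from its parts. -/
theorem bbS (h1 : KaStmt) (h2 : AvStmt) (h3 : BtStmt) : BbStmt := by
  intro K _ _ N d I B Z a u r a' j U Y g s v o c e1 e2 e3 e4 e5 e6
  have k1 := h1 K N d I B Z a u r a' j U Y g s v o c e1 e2 e3 e4 e5 e6
  obtain ⟨k2, k3, k4⟩ := h2 K N d I B Z a u r a' j U Y g s v o c e1 e2 e3 e4 e5 e6
  obtain ⟨k5, k6⟩ := h3 K N d I B Z a u r a' j U Y g s v o c e1 e2 e3 e4 e5 e6 k2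
  exact ⟨k1, k2, k3, k4 k1, k5, k6⟩

theorem outS (h1 : BrStmt) (h2 : XbStmt) (h3 : CAStmt) (h4 : CPStmt) (h5 : LogStmt)
    (h6 : AdStmt) : OutStmt := by
  intro K _ _ N d U m h Φ e1 e2 e3 e4
  have br := h1 K N d.toSf
  obtain ⟨B, hB⟩ := h5 K N d.toSf U m h br (h3 K N d.z br.g0 d.D br.kg) (h4 K N d.z br.g0) e1 e2
  exact h6 K N d U m h Φ B br (h2 K N d br) hB e3 e4

end Pool.Agent.MP_c69980_ag.I2
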