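import Pool.Agent.MP_c69980_ag.I2.SpecA
import Pool.Agent.MP_f3836a_nt.PK.PlB

/-! The residue of a two-form along a curve. -/

set_option autoImplicit false

noncomputable section

namespace Pool.Agent.MP_c69980_ag.I2

open IsLocalRing Pool.Agent.MP_f3836a_nt.PK
open H4 (Wd)

namespace Res

/-- A derivation that kills a transcendental element of a function field vanishes. -/
theorem kill {F : Type} [Field F] [Algebra ℂ F] (hF : IsFF ℂ F) (δ : Derivation ℂ F F) {t : F}
    (ht : Transcendental ℂ t) (h0 : δ t = 0) : δ = 0 := by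
  have := PlB.fd_of hF t ht
  have hE : ∀ a ∈ IntermediateField.adjoin ℂ {t}, δ a = 0 := fun a ha => by
    induction ha using IntermediateField.adjoin_induction with
    | mem x hx => rw [Set.mem_singleton_iff.1 hx, h0]
    | algebraMap c => exact δ.map_algebraMap c
    | add x y _ _ hx hy => rw [map_add, hx, hy, add_zero]
    | inv x _ hx => rw [δ.leibniz_inv, hx, smul_zero]
    | mul x y _ _ hx hy => rw [δ.leibniz, hx, hy, smul_zero, smul_zero, add_zero]
  let δ' : Derivation (IntermediateField.adjoin ℂ {t}) F F := Derivation.mk'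
    { toFun := δ
      map_add' := map_add δ
      map_smul' := fun a x => by
        show δ ((a : F) * x) = (a : F) * δ x
        rw [δ.leibniz, hE a a.2, smul_zero, add_zero, smul_eq_mul] }
    fun a b => δ.leibniz a b
  have : CharZero F := charZero_of_injective_algebraMap (algebraMap ℂ F).injective
  ext x
  have h1 := δ'.comp_aeval_eq x (minpoly (IntermediateField.adjoin ℂ {t}) x)
  rw [minpoly.aeval, map_zero, smul_eq_mul] at h1
  have h2 : IsSeparable (IntermediateField.adjoin ℂ {t}) x := Algebra.IsSeparable.isSeparable _ x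
  exact (mul_eq_zero.1 h1.symm).resolve_left
    (Polynomial.Separable.aeval_derivative_ne_zero h2 (minpoly.aeval _ x))

theorem dich {F : Type} [Field F] [Algebra ℂ F] (hF : IsFF ℂ F) (δ : Derivation ℂ F F) {f : F}
    (h0 : δ f = 0) : δ = 0 ∨ ∃ c : ℂ, f = algebraMap ℂ F c := by
  by_cases h : IsAlgebraic ℂ f
  · obtain ⟨c, hc⟩ := minpoly.mem_range_of_degree_eq_one ℂ f
      (IsAlgClosed.degree_eq_one_of_irreducible ℂ (minpoly.irreducible h.isIntegral))
    exact Or.inr ⟨c, hc.symm⟩
  · exact Or.inl (kill hF δ h h0)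

variable {K : Type} [Field K] [Algebra ℂ K] {N : ℕ} {ξ : Fin (N + 1) → K}

theorem res_zero (C : Cv ℂ ξ) : C.res 0 = 0 := by simpa using C.res_const 0

theorem res_one (C : Cv ℂ ξ) : C.res 1 = 1 := by simpa using C.res_const 1

theorem res_neg (C : Cv ℂ ξ) {f : K} (hf : f ∈ C.O) : C.res (-f) = -C.res f := by
  have h := C.res_add (neg_mem hf) hf
  rw [neg_add_cancel, res_zero] at h
  exact eq_neg_of_add_eq_zero_left h.symm

/-- A derivation that preserves the local ring and its maximal ideal descends to the curve. -/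
theorem desc (hv : VA ℂ ξ) (C : Cv ℂ ξ) {φ : K} (h0 : φ ≠ 0) (h1 : C.v φ = 1)
    (d : Derivation ℂ K K) (hd : ∀ f ∈ C.O, d f ∈ C.O) (hφ : C.res (d φ) = 0) :
    ∃ δ : Derivation ℂ C.κ C.κ, ∀ f ∈ C.O, δ (C.res f) = C.res (d f) := by
  have hO : φ ∈ C.O := (hv.mem C φ h0).2 (by omega)
  have hr : C.res φ = 0 := (hv.pos C φ h0 hO).1 (by omega)
  have key : ∀ f ∈ C.O, C.res f = 0 → C.res (d f) = 0 := fun f hf h => by
    by_cases hf0 : f = 0
    · rw [hf0, map_zero, res_zero]
    have h2 := (hv.pos C f hf0 hf).2 h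
    have h3 : f / φ ≠ 0 := div_ne_zero hf0 h0
    have h4 : φ * (f / φ) = f := mul_div_cancel₀ f h0
    have h5 := hv.mul C φ (f / φ) h0 h3
    rw [h4] at h5
    have hg : f / φ ∈ C.O := (hv.mem C _ h3).2 (by omega)
    generalize f / φ = g at h4 hg
    rw [← h4, d.leibniz, smul_eq_mul, smul_eq_mul,
      C.res_add (mul_mem hO (hd g hg)) (mul_mem hg (hd φ hO)), C.res_mul hO (hd g hg),
      C.res_mul hg (hd φ hO), hr, hφ, zero_mul, mul_zero, add_zero]
  let d' : Derivation ℂ C.O C.O := Derivation.mk'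
    { toFun := fun f => ⟨d f, hd f f.2⟩
      map_add' := fun a b => Subtype.ext (map_add d (a : K) b)
      map_smul' := fun c a => Subtype.ext (by
        show d (algebraMap ℂ K c * a) = algebraMap ℂ K c * d a
        rw [← Algebra.smul_def, ← Algebra.smul_def, d.map_smul]) }
    fun a b => Subtype.ext (d.leibniz (a : K) b)
  let r : C.O →ₐ[ℂ] C.κ := { residue C.O with commutes' := fun _ => rfl }
  have hs : Function.Surjective r := residue_surjective
  have hk : ∀ x, r x = 0 → r (d' x) = 0 := fun x hx =>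
    (C.res_of_mem (d' x)).symm.trans (key x x.2 ((C.res_of_mem x).trans hx))
  refine ⟨Derivation.liftOfSurjective hs hk, fun f hf => ?_⟩
  rw [C.res_of_mem ⟨f, hf⟩]
  exact (Derivation.liftOfSurjective_apply hs hk ⟨f, hf⟩).trans (C.res_of_mem (d' ⟨f, hf⟩)).symm

/-- The derivation `f ↦ da ∧ df / w`. -/
def dW (D : Fin 2 → Derivation ℂ K K) (a w : K) : Derivation ℂ K K :=
  (D 0 a / w) • D 1 - (D 1 a / w) • D 0

theorem dW_apply (D : Fin 2 → Derivation ℂ K K) (a w f : K) : dW D a w f = Wd D a f / w := by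
  simp only [dW, Wd, Derivation.sub_apply, Derivation.smul_apply, smul_eq_mul]
  ring

theorem wd_self (D : Fin 2 → Derivation ℂ K K) (a w : K) : Wd D a a / w = 0 := by
  unfold Wd
  ring

theorem wd_swap (D : Fin 2 → Derivation ℂ K K) (a b w : K) : Wd D a b / w = -(Wd D b a / w) := by
  unfold Wd
  ring

end Res

theorem resS : ResStmt := by
  intro K _ _ N ξ G D C φ w hF h0 h1 ⟨hw, ⟨f, hf, g, hg, hfg⟩, hW⟩
  have hO : φ ∈ C.O := (G.va.mem C φ h0).2 (by omega)
  have ds : ∀ a ∈ C.O, C.res (Wd D a φ / w) = 0 →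
      ∃ δ : Derivation ℂ C.κ C.κ, ∀ b ∈ C.O, δ (C.res b) = C.res (Wd D a b / w) := fun a ha h => by
    obtain ⟨δ, hδ⟩ := Res.desc G.va C h0 h1 (Res.dW D a w)
      (fun b hb => by rw [Res.dW_apply]; exact hW a ha b hb) (by rw [Res.dW_apply]; exact h)
    exact ⟨δ, fun b hb => by rw [hδ b hb, Res.dW_apply]⟩
  obtain ⟨δ, hδ⟩ := ds φ hO (by rw [Res.wd_self, Res.res_zero])
  have hne : δ ≠ 0 := fun e => by
    have h2 : ∀ a ∈ C.O, C.res (Wd D a φ / w) = 0 := fun a ha => by
      rw [Res.wd_swap, Res.res_neg C (hW φ hO a ha), ← hδ a ha, e, Derivation.zero_apply, neg_zero]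
    obtain ⟨d1, e1⟩ := ds f hf (h2 f hf)
    obtain ⟨d2, e2⟩ := ds g hg (h2 g hg)
    have h3 : d1 (C.res g) = 1 := by rw [e1 g hg, ← hfg, div_self hw, Res.res_one]
    have h4 : d2 (C.res f) = -1 := by
      rw [e2 f hf, Res.wd_swap, ← hfg, div_self hw, Res.res_neg C (one_mem _), Res.res_one]
    have h5 : d2 (C.res g) = 0 := by rw [e2 g hg, Res.wd_self, Res.res_zero]
    rcases Res.dich hF d2 h5 with h | ⟨c, hc⟩
    · rw [h, Derivation.zero_apply] at h4
      exact one_ne_zero (neg_eq_zero.1 h4.symm)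
    · rw [hc, d1.map_algebraMap] at h3
      exact zero_ne_one h3
  exact ⟨δ, hδ, hne, fun a ha => (Res.dich hF δ ha).resolve_left hne⟩

end Pool.Agent.MP_c69980_ag.I2
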