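import Pool.Agent.MP_c69980_ag.I2.SpecB
import Pool.Agent.MP_c69980_ag.I2.Adj
import Pool.Agent.MP_f3836a_nt.PK.Ord

/-! Row Sp: parameters at a smooth point of a curve. -/

set_option autoImplicit false

noncomputable section

namespace Pool.Agent.MP_c69980_ag.I2

open IsLocalRing H60 H4 E1

namespace SpA

variable {K : Type} [Field K] [Algebra ℂ K] {N : ℕ} {ξ : Fin (N + 1) → K}

/-- The restriction from the local ring of the surface to the local ring of the curve. -/
def rho (G : G0 ξ) {x : PP ξ} {C : CC ξ} (hx : x.On C) : x.ctr.O →+* C.loc x where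
  toFun a := ⟨C.res a, ((G.va.loc x C hx).1 _).2 ⟨a, rfl⟩⟩
  map_one' := Subtype.ext (by simpa using C.res_const 1)
  map_mul' a b := Subtype.ext (C.res_mul (hx.le a.2) (hx.le b.2))
  map_zero' := Subtype.ext (by simpa using C.res_const 0)
  map_add' a b := Subtype.ext (C.res_add (hx.le a.2) (hx.le b.2))

theorem rho_surj (G : G0 ξ) {x : PP ξ} {C : CC ξ} (hx : x.On C) :
    Function.Surjective (rho G hx) := fun r => by
  obtain ⟨a, ha⟩ := ((G.va.loc x C hx).1 _).1 r.2
  exact ⟨a, Subtype.ext ha⟩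

theorem rho_zero (G : G0 ξ) {x : PP ξ} {C : CC ξ} (hx : x.On C) (a : x.ctr.O) :
    rho G hx a = 0 ↔ C.res a = 0 := Subtype.ext_iff

/-- A function without zeros and poles through `x` is a unit at `x`. -/
theorem unit (G : G0 ξ) (x : PP ξ) (a : x.ctr.O) (h0 : (a : K) ≠ 0)
    (h : ∀ C : CC ξ, x.On C → C.v a = 0) : IsUnit a := by
  have hi : 1 / (a : K) ∈ x.ctr.O := by
    refine G.reg x _ (one_div_ne_zero h0) fun C hC => ?_
    have h1 := Adj.v_div G.va C h0 h0
    rw [div_self h0] at h1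
    rw [Adj.v_div G.va C one_ne_zero h0, h1, h C hC]
    norm_num
  exact IsUnit.of_mul_eq_one ⟨_, hi⟩ (Subtype.ext (mul_one_div_cancel h0))

end SpA

open SpA in
theorem spS : SpStmt := by
  classical
  intro K _ _ N S hB x C hx hD
  have G := hB.g0
  obtain ⟨p, hp, hd, -⟩ := G.cv.on x C hx
  obtain ⟨ϖ, hϖ⟩ := IsDiscreteValuationRing.exists_irreducible (C.loc x)
  obtain ⟨q, rfl⟩ := rho_surj G hx ϖ
  have hloc : IsLocalHom (rho G hx) := IsLocalHom.of_surjective _ (rho_surj G hx)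
  have hv : ∀ a : x.ctr.O, vl S.z a x.z = 0 ↔ ¬ IsUnit a := fun a =>
    (hB.max x a).symm.trans (mem_maximalIdeal a)
  have hker : ∀ a b : x.ctr.O, rho G hx a = rho G hx b → ∃ β : x.ctr.O, a = b + β * p := by
    intro a b h
    obtain ⟨β, hβ⟩ := (hd (a - b)).2 ((rho_zero G hx _).1 (by rw [map_sub, h, sub_self]))
    exact ⟨β, by rw [mul_comm, ← hβ, add_sub_cancel]⟩
  have h0 : (p : K) ≠ 0 := fun h => hp.ne_zero (Subtype.ext h)
  have hv1 : C.v p = 1 := (G.va.pow x C hx p hp hd).1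
  have hrp : C.res p = 0 := (hd p).1 dvd_rfl
  have hord : ∀ (u : (C.loc x)ˣ) (e : ℕ),
      C.ordAt x ((u * rho G hx q ^ e : C.loc x) : C.κ) = e := by
    intro u e
    have hq := pow_ne_zero e hϖ.ne_zero
    refine (MP_f3836a_nt.PK.Ord.coe (mul_ne_zero u.ne_zero hq)).trans ?_
    rw [MP_f3836a_nt.PK.Ord.o_mul u.ne_zero hq, MP_f3836a_nt.PK.Ord.o_pow hϖ,
      (MP_f3836a_nt.PK.Ord.o_zero u.ne_zero).2 u.isUnit, zero_add]
  refine ⟨p, q, ⟨p.2, q.2, (hv p).2 hp.not_unit,
    (hv q).2 fun h => hϖ.not_isUnit (h.map _), fun f hf h => ?_⟩, fun f hf h => ?_,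
    ⟨hrp, fun h => hϖ.ne_zero ((rho_zero G hx q).2 h), ?_⟩,
    ⟨h0, hv1, fun C' h' hne => Adj.v_other G hx h' hne p hp hd⟩, ?_⟩
  · have h1 : rho G hx ⟨f, hf⟩ ∈ maximalIdeal (C.loc x) :=
      (mem_maximalIdeal _).2 fun c => (hv ⟨f, hf⟩).1 h (IsUnit.of_map _ _ c)
    rw [hϖ.maximalIdeal_eq, Ideal.mem_span_singleton'] at h1
    obtain ⟨r, hr⟩ := h1
    obtain ⟨β, rfl⟩ := rho_surj G hx r
    obtain ⟨α, hα⟩ := hker ⟨f, hf⟩ (β * q) (by rw [map_mul, hr])
    refine ⟨α, α.2, β, β.2, ?_⟩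
    rw [add_comm] at hα
    exact congrArg Subtype.val hα
  · obtain ⟨e, u, hu⟩ := IsDiscreteValuationRing.eq_unit_mul_pow_irreducible
      (x := rho G hx ⟨f, hf⟩) (fun c => h ((rho_zero G hx _).1 c)) hϖ
    obtain ⟨α, hα⟩ := rho_surj G hx u
    obtain ⟨β, hβ⟩ := hker ⟨f, hf⟩ (α * q ^ e) (by rw [map_mul, map_pow, hα, hu])
    refine ⟨e, α, β, α.2, β.2, fun c => (hv α).1 c (IsUnit.of_map (rho G hx) _ ?_),
      congrArg Subtype.val hβ, ?_⟩
    · rw [hα]
      exact u.isUnit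
    · have := hord u e
      rw [← hu] at this
      exact this
  · have := hord 1 1
    rw [Units.val_one, one_mul, pow_one] at this
    exact this
  · let n : CC S.z → ℤ := fun C' => if C' = C then 1 else 0
    have hn : FS n := (Set.finite_singleton C).subset fun C' h => by
      by_contra c
      exact h (if_neg c)
    have he : Eqn x n p := ⟨h0, fun C' h' => by
      by_cases c : C' = C
      · rw [c, hv1]
        exact (if_pos rfl).symm
      · rw [Adj.v_other G hx h' c p hp hd]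
        exact (if_neg c).symm⟩
    obtain ⟨δ, hδ, hne⟩ := hB.near x n p hn he
    refine ⟨δ, hδ, fun x' h' => ?_⟩
    have he' := (hne x' h').2
    have hm : (p : K) ∈ x'.ctr.O := G.reg x' p h0 fun C' h => by
      rw [he' C' h]
      simp only [n]
      split_ifs <;> norm_num
    refine ⟨hm, fun h => hB.von x' C p h hm hrp, fun h => ?_⟩
    by_contra c
    refine (mem_maximalIdeal _).1 ((hB.max x' ⟨p, hm⟩).2 h) (unit G x' ⟨p, hm⟩ h0 fun C' k => ?_)
    exact (he' C' k).trans (if_neg fun e : C' = C => c (e ▸ k))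

end Pool.Agent.MP_c69980_ag.I2
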