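import Pool.Agent.MP_c69980_ag.I2.SpecB

/-! Row Ult: where the sections meet a curve that misses the value of the limit section. -/

set_option autoImplicit false

namespace Pool.Agent.MP_c69980_ag.I2

open Metric Filter Topology Set
open H60 H4 E1

namespace Ult

variable {K : Type} [Field K] [Algebra ℂ K] {N : ℕ}

theorem nz {S : Sf K N} (br : Br S) (x : PP S.z) : x.z ≠ 0 := (br.cone x).1

theorem fibre (d : FD K N) (br : Br d.toSf) (C : CC d.z) {δ : ℝ} (hδ : 0 < δ) :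
    ∃ η : ℝ, 0 < η ∧ ∀ t : ℂ, ‖t - d.b‖ < η → ∀ x : PP d.z, x.On C → (t, x.z) ∈ d.X →
      ∃ x₁ : PP d.z, (d.b, x₁.z) ∈ d.X ∧ x₁.On C ∧ d2 x.z x₁.z < δ := by
  by_contra H
  push Not at H
  choose t ht x hx hX hd using fun n : ℕ => H (1 / ((n : ℝ) + 1)) Nat.one_div_pos_of_nat
  have c0 : ∀ n, ((‖(x n).z‖⁻¹ : ℝ) : ℂ) ≠ 0 := fun n =>
    Complex.ofReal_ne_zero.2 (inv_ne_zero (norm_ne_zero_iff.2 (nz br (x n))))
  have hs : ∀ n, ((‖(x n).z‖⁻¹ : ℝ) : ℂ) • (x n).z ∈ sphere (0 : V (N + 1)) 1 := fun n => by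
    rw [mem_sphere_zero_iff_norm, norm_smul, Complex.norm_real, norm_inv, norm_norm,
      inv_mul_cancel₀ (norm_ne_zero_iff.2 (nz br (x n)))]
  obtain ⟨y, hy, φ, hφ, hl⟩ := (isCompact_sphere (0 : V (N + 1)) 1).tendsto_subseq hs
  have y0 : y ≠ 0 := ne_zero_of_mem_unit_sphere ⟨y, hy⟩
  have tl : Tendsto t atTop (𝓝 d.b) := tendsto_iff_norm_sub_tendsto_zero.2
    (squeeze_zero (fun _ => norm_nonneg _) (fun n => (ht n).le)
      tendsto_one_div_add_atTop_nhds_zero_nat)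
  have yX : (d.b, y) ∈ d.X := d.cn.lim ((tl.comp hφ.tendsto_atTop).prodMk_nhds hl) y0
    (Eventually.of_forall fun n => d.cn.scal _ (hX (φ n)) _ (c0 (φ n)))
  obtain ⟨x₁, h₁⟩ := br.pt y (d.gr _ yX).1
  have dl : Tendsto (fun n => d2 (x (φ n)).z x₁.z) atTop (𝓝 0) := by
    have := d2_lim hl (tendsto_const_nhds (x := x₁.z)) y0 (nz br x₁)
    rw [(d2_eq_zero y0 (nz br x₁)).2 h₁] at this
    exact this.congr fun n => (Pp.smul (c0 (φ n)) _).d2 (Pp.refl _)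
  have on : x₁.On C := by
    by_contra hn
    obtain ⟨ε, e0, he⟩ := br.away x₁ C hn
    exact e0.not_ge (ge_of_tendsto' dl fun n => he _ (hx (φ n)))
  exact hδ.not_ge (ge_of_tendsto' dl fun n => hd (φ n) x₁ (d.cn.pp yX h₁.symm) on)

theorem ring {n : ℕ} {u : Ultrafilter ℕ} {O A : Set ℂ} {s : ℕ → ℂ → V n} {g : ℂ → V n}
    (h : Cv u O s g) (hA : IsCompact A) (hO : A ⊆ O) {y : V n} (y0 : y ≠ 0) {ε : ℝ}
    (hg : ∀ t ∈ A, d2 (g t) y < ε) : ∀ᶠ k in u, ∀ t ∈ A, d2 (s k t) y < ε := by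
  by_contra H
  rw [← Ultrafilter.eventually_not] at H
  obtain ⟨w, hw⟩ := (H.mono fun k hk => by
    push Not at hk
    exact hk : ∀ᶠ k in u, ∃ t ∈ A, ε ≤ d2 (s k t) y).choice
  obtain ⟨t, ht, hl⟩ := hA.ultrafilter_le_nhds (u.map w)
    (le_principal_iff.2 (hw.mono fun k hk => hk.1))
  obtain ⟨v, v1, v2⟩ := h.pt (hO ht) (w := w) hl
  refine (hg t ht).not_ge (ge_of_tendsto
    (d2_lim v1 (tendsto_const_nhds (x := y)) (h.lh.ne (hO ht)) y0) ?_)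
  filter_upwards [hw, v2] with k k1 k2
  rw [← k2.d2 (Pp.refl y)]
  exact k1.2

end Ult

open Ult in
theorem ultS : UltStmt := by
  intro K _ _ N d u r g s C δ br r0 nm cg hC hδ
  have b0 := mem_ball_self (x := d.b) r0
  have g0 := nm.1.2 _ b0
  obtain ⟨y, hy⟩ := br.pt _ (d.gr _ (nm.2.2 _ b0)).1
  obtain ⟨ε, e0, he⟩ := br.away y C (hC y hy)
  obtain ⟨η, η0, hη⟩ := fibre d br C hδ
  have c1 : Tendsto (fun t => d2 (g t) y.z) (𝓝 d.b) (𝓝 0) := by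
    have := d2_lim (nm.1.1.continuousOn.continuousAt (ball_mem_nhds _ r0)).tendsto
      (tendsto_const_nhds (x := y.z)) g0 (nz br y)
    rwa [(d2_eq_zero g0 (nz br y)).2 hy] at this
  obtain ⟨ρ₀, p0, hp⟩ := nhds_basis_closedBall.eventually_iff.1
    ((c1.eventually (gt_mem_nhds e0)).and (ball_mem_nhds _ (half_pos r0)))
  have p1 : ρ₀ < r := by
    have := (hp (x := d.b + ρ₀) (by simp [abs_of_pos p0])).2
    rw [dist_eq_norm, add_sub_cancel_left, Complex.norm_real, Real.norm_of_nonneg p0.le] at this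
    linarith
  refine ⟨ρ₀, p0, fun ρ₁ q0 => ?_⟩
  have m0 : 0 < min ρ₁ (min δ η) := lt_min q0 (lt_min hδ η0)
  filter_upwards [ring cg.2 ((isCompact_closedBall d.b ρ₀).diff
    (isOpen_ball (x := d.b) (ε := min ρ₁ (min δ η))))
    (fun t ht => ⟨closedBall_subset_ball p1 ht.1, fun e => ht.2 (e ▸ mem_ball_self m0)⟩)
    (nz br y) fun t ht => (hp ht.1).1] with k hk ρ hρ
  refine ⟨hρ.2.trans_lt p1, fun t ht x hx hp' => ?_⟩
  have t0 := closedBall_subset_closedBall hρ.2 ht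
  have t1 : t ∈ ball d.b (min ρ₁ (min δ η)) := by
    by_contra hn
    have := hk t ⟨t0, hn⟩
    rw [hp'.d2 (Pp.refl _)] at this
    exact this.not_ge (he x hx)
  have t2 := lt_min_iff.1 (lt_min_iff.1 (mem_ball_iff_norm.1 t1)).2
  obtain ⟨x₁, a, b, c⟩ := hη t t2.2 x hx
    (d.cn.pp ((cg.1 k).2.2 t (closedBall_subset_ball p1 t0)) hp'.symm)
  exact ⟨ball_subset_ball ((min_le_left _ _).trans hρ.1) t1, x₁, a, b, t2.1,
    (hp'.d2 (Pp.refl _)).trans_lt c⟩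

end Pool.Agent.MP_c69980_ag.I2
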