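import Pool.Agent.MP_c69980_ag.E1.Wind
import Pool.Agent.MP_c69980_ag.I2.SpecB

/-!
The winding numbers of the function attached to a pair of sections are not negative.
-/

set_option autoImplicit false

noncomputable section

namespace Pool.Agent.MP_c69980_ag.I2

open MvPolynomial Metric Filter Topology Set
open H60 H4 E1

namespace WindA

section ev

variable {u : Ultrafilter ℕ} {P Q : ℕ → ℝ → Prop}

theorem ev_and (h : Ev u P) (h' : Ev u Q) : Ev u fun k ρ => P k ρ ∧ Q k ρ := by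
  obtain ⟨a, a0, ha⟩ := h
  obtain ⟨b, b0, hb⟩ := h'
  refine ⟨min a b, lt_min a0 b0, fun ρ₁ h1 => ?_⟩
  filter_upwards [ha ρ₁ h1, hb ρ₁ h1] with k h2 h3 ρ hρ
  exact ⟨h2 ρ ⟨hρ.1, hρ.2.trans (min_le_left _ _)⟩, h3 ρ ⟨hρ.1, hρ.2.trans (min_le_right _ _)⟩⟩

theorem ev_mono {R : ℕ → Prop} (h : Ev u P) (hR : ∀ᶠ k in u, R k)
    (H : ∀ k ρ, 0 < ρ → R k → P k ρ → Q k ρ) : Ev u Q := by
  obtain ⟨a, a0, ha⟩ := h
  refine ⟨a, a0, fun ρ₁ h1 => ?_⟩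
  filter_upwards [ha ρ₁ h1, hR] with k h2 h3 ρ hρ
  exact H k ρ (h1.trans_le hρ.1) h3 (h2 ρ hρ)

end ev

theorem le_sum {O : Set ℂ} {o : ℂ → ℕ} (h : {t ∈ O | o t ≠ 0}.Finite) {b : ℂ} (hb : b ∈ O) :
    o b ≤ ∑ᶠ t ∈ O, o t := by
  by_cases h0 : o b = 0
  · rw [h0]
    exact Nat.zero_le _
  rw [finsum_mem_eq_sum o (s := O) h]
  exact Finset.single_le_sum (fun _ _ => Nat.zero_le _) (h.mem_toFinset.2 ⟨hb, h0⟩)

theorem dif_cont {n : ℕ} {X : Set (Pt n)} {a j : Fin n} {U : Set (ℂ × ℂ)} {Y : ℂ × ℂ → V n}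
    {c : ℂ} {ρ r : ℝ} {s : ℂ → V n} (hc : Chart X a j U Y) (hr : ρ < r)
    (hs : Nm X (ball c r) s id) (h : ∀ t ∈ sphere c ρ, InC a j U Y s t) :
    ContinuousOn (fun t => s t a / s t j) (sphere c ρ) := by
  have h1 : ContinuousOn s (sphere c ρ) :=
    hs.1.1.continuousOn.mono (sphere_subset_closedBall.trans (closedBall_subset_ball hr))
  exact (continuousOn_pi.1 h1 a).div (continuousOn_pi.1 h1 j)
    fun t ht => (hc.eq (h t ht).1 (h t ht).2).1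

variable {K : Type} [Field K] [Algebra ℂ K] {N : ℕ} {d : FD K N} {I B : Finset (CC d.z)}
  {Z : Set (PP d.z)} {A : CC d.z → CC d.z → ℤ} {u : Ultrafilter ℕ} {r : ℝ} {a j : Fin (N + 1)}
  {U : Set (ℂ × ℂ)} {Y : ℂ × ℂ → V (N + 1)} {g : ℂ → V (N + 1)} {s s' : ℕ → ℂ → V (N + 1)}
  {o c : CC d.z} {h : K} {M : ℕ}

/-- The lower bound for the winding number in terms of a curvette. -/
theorem core (hV : VlStmt) (hS : StcStmt) (hN : NgStmt) (hL : ClStmt) (hW : WsStmt)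
    (hO : LoStmt) (st : St d I B Z A) (si : Sit d r a j U Y g) (lg : LogV d.toSf B h M)
    (cg : Cg d u r s g) (cg' : Cg d u r s' g) (ms : Ms d B r s) (oc : Oc d I B Z u g s o c)
    {x : PP d.z} {σ : ℂ → V (N + 1)} {r' : ℝ} (x1 : x.On c) (x2 : (d.b, x.z) ∈ Rx d.X)
    (r0 : 0 < r') (hσ : Nm d.X (ball d.b r') σ id) (x3 : Pp (σ d.b) x.z)
    (x4 : ¬Pp (g d.b) x.z) {m m' : ℕ → ℕ}
    (hz : Ev u fun k ρ => ρ < r' ∧ Zv d.b ρ (fun t => wg (σ t) (s k t)) (m k) ∧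
      Zv d.b ρ (fun t => wg (σ t) (s' k t)) (m' k)) :
    Ev u fun k ρ => ∀ w : ℤ, Wn d.b ρ
      (fun t => dif a j (s k) (s' k) t ^ M * vl d.z (cf d h M 0 a j) (s k t)) w →
        dv d.D h M 0 c + M * ((m k : ℤ) - m' k) ≤ w := by
  obtain ⟨-, n1, n2, -⟩ := hN K N d u r a j U Y g s st.br st.xb si cg
  obtain ⟨-, n3, -⟩ := hN K N d u r a j U Y g s' st.br st.xb si cg'
  have n4 := n2 s' σ cg' (Crv.an hσ.1 isOpen_ball (mem_ball_self r0)).continuousAt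
    (hσ.1.2 _ (mem_ball_self r0)) fun H => x4 (H.symm.trans x3)
  refine ev_mono (ev_and (ev_and n1 n3) (ev_and n4 hz)) oc.c1.2.2.2 ?_
  rintro k ρ h0 ⟨y, y1, y2⟩ ⟨⟨⟨h1, h2, -⟩, -, h3, -⟩, ⟨h4, h5⟩, h6, h7, h8⟩ w hw
  obtain ⟨⟨v, hv⟩, h9⟩ := hV _ d.X d.b ρ r (s k) d.cn st.xb.nonreg h0 h1 (cg.1 k)
  obtain ⟨κ, hκ⟩ := (h9 a j U Y v si.ch hv).1 h2
  have hd : ∀ t ∈ ball d.b r, ∀ y : PP d.z, Pp (s k t) y.z → ∀ C, y.On C →
      0 ≤ dv d.D h M 0 C := fun t ht y hy C hC =>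
    (lg.2.2 C).2 fun hB => ms k t ht C hB y hC hy
  obtain ⟨e, e1, e2, e3⟩ := hW K N d h M 0 (s k) v a j U Y ρ r st.br st.xb st.ca lg.1 h0 h1 si.rr
    (cg.1 k) hv si.ch (fun t ht => ⟨h2 t ht, right_ne_zero_of_mul (hw.ne h0 ht)⟩)
    fun t ht => hd t (closedBall_subset_ball h1 ht)
  have e4 := (hO K N d I B Z A st c oc.c1.1 oc.c1.2.1).1 _ (s k) r _ si.r0 (cg.1 k)
    ⟨y, y1, y2, hd _ (mem_ball_self si.r0) y y2⟩ (e1 _ (mem_ball_self h0))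
  have e5 : (e d.b : ℤ) ≤ (∑ᶠ t ∈ ball d.b ρ, e t : ℕ) :=
    Int.ofNat_le.2 (le_sum e2 (mem_ball_self h0))
  obtain ⟨ω, hω⟩ := Wind.ex h0 (dif a j (s k) (s' k))
    ((dif_cont si.ch h1 (cg'.1 k) h3).sub (dif_cont si.ch h1 (cg.1 k) h2))
    fun t ht => (pow_ne_zero_iff lg.2.1.ne').1 (left_ne_zero_of_mul (hw.ne h0 ht))
  have e6 := Wind.uniq h0 _ _ _ hw (((hω.pow M).mul h0 (e3.div h0 (hκ.zpow M))).congr
    fun t ht => by
      rw [zpow_zero, mul_one, mul_div_cancel_left₀ _ (zpow_ne_zero _ (hκ.ne h0 ht))])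
  have e7 : Cl d.X d.b (σ d.b) (s k d.b) :=
    ((hL K N d I st.br st.cp st.fb c oc.c1.1 x y x1 y1 x2 (Rx.pp ((cg.1 k).rx d.cn st.xb.nonreg
      isOpen_ball (mem_ball_self si.r0)) y2.symm)).pp y2).symm.pp x3 |>.symm
  obtain ⟨H, e8, -⟩ := (hS _ d.X a j U Y d.b ρ (min r r') (s k) (s' k) σ v (m k) (m' k) κ d.cn
    st.xb.nonreg h0 (lt_min h1 h6) (fun p hp => si.pun p ⟨hp.1, hp.2.trans h1.le⟩) si.ch
    ((cg.1 k).mono (ball_subset_ball (min_le_left _ _)))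
    ((cg'.1 k).mono (ball_subset_ball (min_le_left _ _)))
    (hσ.mono (ball_subset_ball (min_le_right _ _))) h4 h5 e7 hv h7 h8 hκ).1 ω hω
  have e9 : (0 : ℤ) ≤ M * H := by positivity
  rw [e6, e8]
  linarith

open Classical in
theorem bub {v : ℕ → CC d.z → ℕ} (oc : Oc d I B Z u g s o c) (bb : Bb d I B A u r a j g s o c v)
    (hg : ∃ t ∈ ball d.b r, Off B (g t)) : ∀ᶠ k in u, Bub I A (fun C => C.v d.τ)
      (dot A (kdv d.D)) (bet I B A) (fun C => (v k C : ℤ)) o c := by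
  filter_upwards [bb.av, bb.kv, bb.b1 hg] with k h1 h2 h3
  exact ⟨⟨oc.o1.1, oc.o1.2.1⟩, ⟨oc.c1.1, oc.c1.2.1⟩, fun _ _ => Int.natCast_nonneg _, h1, h2, h3⟩

theorem low (hO : LoStmt) (st : St d I B Z A) (lg : LogV d.toSf B h M)
    (oc : Oc d I B Z u g s o c) {w : ℤ} (hw : dv d.D h M 0 c ≤ w) :
    0 ≤ w ∧ (VanF d B h M → 1 ≤ w) :=
  ⟨((lg.2.2 c).2 oc.c1.2.2.1).trans hw, fun H =>
    ((hO K N d I B Z A st c oc.c1.1 oc.c1.2.1).2 h M lg oc.c1.2.2.1 H).trans hw⟩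

theorem not_pp (st : St d I B Z A) (oc : Oc d I B Z u g s o c) {x : PP d.z} (hx : x ∉ Z) :
    ¬Pp (g d.b) x.z := fun H => by
  obtain ⟨y, y1, -, y2⟩ := oc.o1.2.2
  exact hx (st.br.uniq y x (y2.symm.trans H) ▸ y1)

end WindA

open WindA in
theorem windS : WindOf := by
  intro hT hB hF hV hS hN hC hL hW hO
  constructor
  · intro K _ _ N d B h M u r a j U Y g s s' lg si cg cg' ms ms' hg
    obtain ⟨I, Z, A, o, st, hT⟩ := hT K N d B r a j U Y g si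
    obtain ⟨c, v, oc, lv⟩ := hT u s cg ms
    obtain ⟨c', v', oc', lv'⟩ := hT u s' cg' ms'
    obtain ⟨η, hη⟩ := hF K N d I B Z A h M st lg
    obtain ⟨x, σ, r', x1, x2, x3, r0, hσ, x4, hz⟩ :=
      hC K N d I Z st.br st.xb st.cp st.fb st.zg.fin c oc.c1.1 oc.c1.2.1
    have x5 := not_pp st oc x2
    have z1 := hz u r g s _ si.r0 si.nm cg x5 (lv c oc.c1.1 x x1 x2)
    have z2 := hz u r g s' _ si.r0 si.nm cg' x5 (lv' c oc.c1.1 x x1 x2)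
    refine ev_mono (core hV hS hN hL hW hO st si lg cg cg' ms oc x1 x3 r0 hσ x4 x5
      (ev_mono (ev_and z1 z2) (.of_forall fun _ => trivial)
        fun k ρ _ _ H => ⟨H.1.1, H.1.2.1, H.2.2.1⟩))
      ((bub oc (hB K N d I B Z A u r a j U Y g s v o c st si cg ms lv oc) hg).and
        (bub oc' (hB K N d I B Z A u r a j U Y g s' v' o c' st si cg' ms' lv' oc') hg))
      fun k ρ _ H H' w hw => ?_
    have e1 := H' w hw
    obtain ⟨e2, -, e3⟩ := @num _ (fun _ _ => Classical.propDecidable _) _ _ _ _ _ _ _ I A _ η o c c'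
      rfl hη H.1 H.2
    rw [e2] at e1
    rcases e3 with e3 | e3
    · rw [e3] at e1
      exact low hO st lg oc (by linarith)
    · exact low hO st lg oc' (by linarith)
  · intro K _ _ N d B h M u r a j U Y g s lg si cg ms
    obtain ⟨I, Z, A, o, st, hT⟩ := hT K N d B r a j U Y g si
    obtain ⟨c, v, oc, lv⟩ := hT u s cg ms
    obtain ⟨x, σ, r', x1, x2, x3, r0, hσ, x4, hz⟩ :=
      hC K N d I Z st.br st.xb st.cp st.fb st.zg.fin c oc.c1.1 oc.c1.2.1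
    have x5 := not_pp st oc x2
    refine ev_mono (core (m' := fun _ => 0) hV hS hN hL hW hO st si lg cg
      (hN K N d u r a j U Y g s st.br st.xb si cg).1 ms oc x1 x3 r0 hσ x4 x5
      (hz u r g s _ si.r0 si.nm cg x5 (lv c oc.c1.1 x x1 x2))) (.of_forall fun _ => trivial)
      fun k ρ _ _ H' w hw => low hO st lg oc ?_
    have e1 := H' w hw
    have e2 : (0 : ℤ) ≤ M * v k c := by positivity
    push_cast at e1
    linarith

end Pool.Agent.MP_c69980_ag.I2
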