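import Pool.Agent.MP_c69980_ag.I2.SpecA
import Pool.Agent.MP_c69980_ag.N96.WrB

/-! The degree of a rational one-form on a curve is at least `-2`. -/

set_option autoImplicit false

namespace Pool.Agent.MP_c69980_ag.I2

theorem wrS : WrStmt := fun _ _ _ hF A B _ hD _ hu =>
  ⟨fun P => ⟨(N96.loc A B hD hu P).1, (N96.loc A B hD hu P).2.2⟩, N96.fin_all A hF B hD hu,
    N96.sum_le A hF B hD hu⟩

end Pool.Agent.MP_c69980_ag.I2
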