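import Pool.Agent.MP_c69980_ag.I2.SpecB
import Pool.Agent.MP_c69980_ag.E1.Wind

/-!
Row Ws: winding numbers count the zeros of a section along a holomorphic section.
-/

set_option autoImplicit false

noncomputable section

namespace Pool.Agent.MP_c69980_ag.I2

open MvPolynomial Metric Filter Topology Set
open H60 H4 E1

namespace Ws

variable {K : Type} [Field K] [Algebra ℂ K]

section gen

variable {n : ℕ} {z : Fin n → K} {y : V n} {g : K}

theorem vl_rat (hy : On z y) (a : Fin n) {j : Fin n} (hj : y j ≠ 0) :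
    Reg z y (z a / z j) ∧ vl z (z a / z j) y = y a / y j :=
  ⟨⟨X a, X j, 1, isHomogeneous_X _ _, isHomogeneous_X _ _, by simpa using hj, by simp⟩, by
    simpa using vl_eq hy (isHomogeneous_X ℂ a) (isHomogeneous_X ℂ j) (by simpa using hj)⟩

theorem z_ne (hy : On z y) {j : Fin n} (hj : y j ≠ 0) : z j ≠ 0 := fun e =>
  hj (by simpa using hy (X j) 1 (isHomogeneous_X _ _) (by simpa using e))

theorem vl_zpow (hy : On z y) (h : Reg z y g) (h0 : vl z g y ≠ 0) (e : ℤ) :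
    Reg z y (g ^ e) ∧ vl z (g ^ e) y = vl z g y ^ e := by
  rcases e with e | e
  · simpa using H4.vl_pow hy h e
  · obtain ⟨h1, h2⟩ := H4.vl_pow hy h (e + 1)
    have := vl_inv hy ⟨h1, by rw [h2]; exact pow_ne_zero _ h0⟩
    rwa [h2, ← zpow_negSucc, ← zpow_negSucc] at this

variable {X' : Set (Pt n)} {a j a' j' : Fin n} {U : Set (ℂ × ℂ)} {Y : ℂ × ℂ → V n}
  {s v : ℂ → V n} {t : ℂ} {p : ℂ × ℂ}

/-- The scalar of a vertical vector in two systems of coordinates. -/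
theorem kap_eq (hX : Cn X') (h : Chart X' a j U Y) (hi : InC a j U Y s t)
    (hv : Vt X' (t, s t) (v t)) : kap a j s v t ≠ 0 ∧ ∀ a' j', kap a' j' s v t = kap a j s v t *
      (wg (Y (t, s t a / s t j)) (dz Y (t, s t a / s t j)) (j', a') /
        Y (t, s t a / s t j) j' ^ 2) := by
  obtain ⟨α, β, α0, e1⟩ := (h.vt_iff hX hi.1 hi.2).1 hv
  obtain ⟨c0, e2⟩ := h.eq hi.1 hi.2
  have e3 : wg (s t) (v t) = (s t j * α) • wg (Y (t, s t a / s t j)) (dz Y (t, s t a / s t j)) := by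
    rw [e1, ← smul_smul, ← wg_comb α β, ← wg_smul_left, ← e2]
  have e4 : kap a j s v t = α / s t j := by
    rw [kap, e3, Pi.smul_apply, h.wg_dz hi.1, smul_eq_mul]
    field_simp
  refine ⟨e4 ▸ div_ne_zero α0 c0, fun a' j' => ?_⟩
  have e5 : s t j' = s t j * Y (t, s t a / s t j) j' := congrFun e2 j'
  rw [e4, kap, e3, Pi.smul_apply, smul_eq_mul, e5, mul_pow, mul_div_mul_comm]
  congr 1
  field_simp

theorem fd_rat (h : AnalyticAt ℂ Y p) (hj : Y p j' ≠ 0) :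
    fderiv ℂ (fun q => Y q a' / Y q j') p (0, 1) = wg (Y p) (dz Y p) (j', a') / Y p j' ^ 2 := by
  obtain ⟨t, w⟩ := p
  have h1 := hasDerivAt_pi.1 (hasDerivAt_dz h.differentiableAt)
  have h2 := ((analyticAt_pi_iff.1 h a').div (analyticAt_pi_iff.1 h j')
    hj).differentiableAt.hasFDerivAt.comp_hasDerivAt w
      ((hasDerivAt_const w t).prodMk (hasDerivAt_id w))
  refine (h2.unique ((h1 a').div (h1 j') hj)).trans ?_
  simp only [wg]
  ring

/-- The section stays in the chart. -/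
theorem inc_ev (hX : Cn X') (h : Chart X' a j U Y) (hi : InC a j U Y s t)
    (hs : ContinuousAt s t) (hm : ∀ᶠ w in 𝓝 t, (w, s w) ∈ X') : ∀ᶠ w in 𝓝 t, InC a j U Y s w := by
  have c : Tendsto (fun w => ((w, s w) : Pt n)) (𝓝 t) (𝓝 (t, s t)) := tendsto_id.prodMk_nhds hs
  filter_upwards [c.eventually (h.ev hX hi.1 hi.2), hm] with w w1 w2
  exact ⟨(w1 w2).2.1, _, (w1 w2).1, (w1 w2).2.2⟩

theorem ex_inc (h : (t, s t) ∈ Rx X') : ∃ a j U Y, Chart X' a j U Y ∧ InC a j U Y s t := by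
  obtain ⟨a, j, U, Y, c, w, w1, w2⟩ := h
  have e : s t a / s t j = w := c.div w1 w2
  exact ⟨a, j, U, Y, c, e ▸ w1, e ▸ w2⟩

end gen

variable {N : ℕ} {d : FD K N} {a j a' j' : Fin (N + 1)} {U U' : Set (ℂ × ℂ)}
  {Y Y' : ℂ × ℂ → V (N + 1)} {s v : ℂ → V (N + 1)} {t : ℂ} {p : ℂ × ℂ} {y : V (N + 1)}
  {h : K} {M e : ℤ}

theorem on_of (hx : (t, y) ∈ d.X) : On d.z y := Cone.on d.gen (d.gr _ hx).1

/-- The ratio of the two-forms of two charts. -/
theorem ratio (hB : Br d.toSf) (hX : Xb d) (hc : Chart d.X a j U Y) (hp : p ∈ U)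
    (hb : p.1 ∈ ball d.b d.r₀) (hj : Y p j' ≠ 0) :
    Reg d.z (Y p) (Wd d.D d.τ (d.z a' / d.z j') / Wd d.D d.τ (d.z a / d.z j)) ∧
      vl d.z (Wd d.D d.τ (d.z a' / d.z j') / Wd d.D d.τ (d.z a / d.z j)) (Y p) =
        wg (Y p) (dz Y p) (j', a') / Y p j' ^ 2 := by
  obtain ⟨x, hx⟩ := hB.pt _ (d.gr _ (hc.mem hp)).1
  obtain ⟨g1, -, g3⟩ := hX.gen a j U Y hc p hp hb x hx
  have m1 := (hB.reg x _ _ hx).2 (d.reg _ (hc.mem hp) hb).1
  have m2 := (hB.reg x _ _ hx).2 (vl_rat (on_of (hc.mem hp)) a' hj).1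
  refine ⟨(hB.reg x _ _ hx).1 (g1.2.2 _ m1 _ m2), ?_⟩
  have e1 : (fun q => vl d.z d.τ (Y q)) =ᶠ[𝓝 p] fun q => d.ψ q.1 := by
    filter_upwards [hc.nhds hp, continuousAt_fst.eventually (isOpen_ball.mem_nhds hb)] with q q1 q2
    exact (d.reg _ (hc.mem q1) q2).2
  have e2 : (fun q => vl d.z (d.z a' / d.z j') (Y q)) =ᶠ[𝓝 p] fun q => Y q a' / Y q j' := by
    filter_upwards [hc.nhds hp,
      (analyticAt_pi_iff.1 (hc.an hp) j').continuousAt.eventually_ne hj] with q q1 q2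
    exact (vl_rat (on_of (hc.mem q1)) a' q2).2
  have e3 := g3 _ m1 _ m2
  have e4 : fderiv ℂ (fun q : ℂ × ℂ => d.ψ q.1) p = _ :=
    ((d.an _ hb).1.differentiableAt.hasDerivAt.comp_hasFDerivAt p hasFDerivAt_fst).fderiv
  rw [jb_congr e1 e2, jb, e4, fd_rat (hc.an hp) hj] at e3
  refine mul_right_cancel₀ (d.an _ hb).2.1 (e3.trans ?_)
  simp [mul_comm]

/-- The coefficient is a regular local equation. -/
theorem eqn (hB : Br d.toSf) (hX : Xb d) (hC : CA d.z d.D) (h0 : h ≠ 0)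
    (hc : Chart d.X a j U Y) (hi : InC a j U Y s t) (hb : t ∈ ball d.b d.r₀)
    (hd : ∀ x : PP d.z, Pp (s t) x.z → ∀ C, x.On C → 0 ≤ dv d.D h M e C) :
    Wd d.D d.τ (d.z a / d.z j) ≠ 0 ∧ Reg d.z (s t) (cf d h M e a j) ∧ ∃ x : PP d.z,
      Pp (s t) x.z ∧ Eqn x (dv d.D h M e) (cf d h M e a j) ∧ cf d h M e a j ∈ x.ctr.O := by
  obtain ⟨x, hx⟩ := hB.pt _ (d.gr _ (hc.mem hi.1)).1
  obtain ⟨g1, -, -⟩ := hX.gen a j U Y hc _ hi.1 hb x hx
  have k1 := hi.2.trans hx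
  have k2 : Eqn x (dv d.D h M e) (cf d h M e a j) :=
    hC.eqn x j _ h M e ((k1.coord j).1 (hc.eq hi.1 hi.2).1) g1 h0
  have k3 := hB.g0.reg x _ k2.1 fun C hC => (k2.2 C hC).symm ▸ hd x k1 C hC
  exact ⟨g1.1, (hB.reg x _ _ k1).1 k3, x, k1, k2, k3⟩

variable (d h M e s v) in
/-- The value of the section on the vertical vector field. -/
def Th (a j : Fin (N + 1)) (t : ℂ) : ℂ :=
  kap a j s v t ^ M * s t j ^ e * vl d.z (cf d h M e a j) (s t)

/-- The value does not depend on the chart. -/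
theorem th_eq (hB : Br d.toSf) (hX : Xb d) (hC : CA d.z d.D) (h0 : h ≠ 0)
    (hc : Chart d.X a j U Y) (hi : InC a j U Y s t) (hc' : Chart d.X a' j' U' Y')
    (hi' : InC a' j' U' Y' s t) (hb : t ∈ ball d.b d.r₀) (hv : Vt d.X (t, s t) (v t))
    (hd : ∀ x : PP d.z, Pp (s t) x.z → ∀ C, x.On C → 0 ≤ dv d.D h M e C) :
    Th d s v h M e a j t = Th d s v h M e a' j' t := by
  have o1 := on_of (hc.mem hi.1)
  have o2 : On d.z (s t) := hi.2.on o1
  have j0 := (hc.eq hi.1 hi.2).1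
  have j1 := (hc'.eq hi'.1 hi'.2).1
  obtain ⟨r1, r2⟩ := ratio (a' := a') hB hX hc hi.1 hb ((hi.2.coord j').1 j1)
  have k1 := (kap_eq d.cn hc hi hv).2 a' j'
  rw [← r2, ← hi.2.vl o1 r1] at k1
  have k2 := right_ne_zero_of_mul (k1 ▸ (kap_eq d.cn hc' hi' hv).1)
  obtain ⟨w1, -, -⟩ := eqn (M := M) (e := e) hB hX hC h0 hc hi hb hd
  obtain ⟨w2, w3, -⟩ := eqn hB hX hC h0 hc' hi' hb hd
  obtain ⟨q1, q2⟩ := vl_rat o2 j' j0
  obtain ⟨q3, q4⟩ := vl_zpow o2 q1 (q2 ▸ div_ne_zero j1 j0) e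
  obtain ⟨q5, q6⟩ := vl_zpow o2 (hi.2.reg r1) k2 M
  have z0 := z_ne o2 j0
  have z1 := z_ne o2 j1
  have e1 : cf d h M e a j = cf d h M e a' j' * ((d.z j' / d.z j) ^ e *
      (Wd d.D d.τ (d.z a' / d.z j') / Wd d.D d.τ (d.z a / d.z j)) ^ M) := by
    have := zpow_ne_zero e z1
    have := zpow_ne_zero M w2
    rw [cf, cf, div_zpow, div_zpow]
    field_simp
  obtain ⟨q7, q8⟩ := vl_mul o2 q3 q5
  have := zpow_ne_zero e j0
  rw [Th, Th, e1, (vl_mul o2 w3 q7).2, q8, q4, q6, q2, k1, mul_zpow, div_zpow]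
  field_simp

end Ws

open Ws in
theorem wsS : WsOf := by
  intro hZ K _ _ N d h M e s v a j U Y ρ r hB hX hC h0 hρ hr hr' hs hv hc hS hd
  have sub : closedBall d.b ρ ⊆ ball d.b r := closedBall_subset_ball hr
  have sub' : ∀ t ∈ closedBall d.b ρ, t ∈ ball d.b d.r₀ := fun t ht =>
    ball_subset_ball hr' (sub ht)
  have an : ∀ t ∈ closedBall d.b ρ, AnalyticAt ℂ s t := fun t ht =>
    Crv.an hs.1 isOpen_ball (sub ht)
  have mem : ∀ t ∈ closedBall d.b ρ, ∀ᶠ w in 𝓝 t, (w, s w) ∈ d.X := fun t ht =>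
    mem_of_superset (isOpen_ball.mem_nhds (sub ht)) hs.2.2
  choose! A J W Z hc' hi using fun t (ht : t ∈ closedBall d.b ρ) =>
    ex_inc (hs.rx d.cn hX.nonreg isOpen_ball (sub ht))
  let G : ℂ → ℂ := fun t => Th d s v h M e (A t) (J t) t
  let φ : ℂ → ℂ → ℂ := fun t w => vl d.z (cf d h M e (A t) (J t)) (s w)
  let ε : ℂ → ℂ → ℂ := fun t w => kap (A t) (J t) s v w ^ M * s w (J t) ^ e
  have hφ : ∀ t ∈ closedBall d.b ρ, AnalyticAt ℂ (φ t) t := fun t ht =>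
    (vl_an (an t ht) ((mem t ht).mono fun w => on_of)
      (eqn hB hX hC h0 (hc' t ht) (hi t ht) (sub' t ht) (hd t ht)).2.1).1
  have key : ∀ t ∈ closedBall d.b ρ, ∀ᶠ w in 𝓝 t, w ∈ closedBall d.b ρ →
      ContinuousWithinAt (ε t) (closedBall d.b ρ) w ∧ ε t w ≠ 0 ∧ G w = φ t w • ε t w := by
    intro t ht
    filter_upwards [inc_ev d.cn (hc' t ht) (hi t ht) (an t ht).continuousAt (mem t ht)]
      with w w1 w2
    have j0 := ((hc' t ht).eq w1.1 w1.2).1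
    have k0 := (kap_eq d.cn (hc' t ht) w1 (hv.2 w w2)).1
    have c1 : ContinuousWithinAt (fun w => s w (J t)) (closedBall d.b ρ) w :=
      (analyticAt_pi_iff.1 (an w w2) _).continuousAt.continuousWithinAt
    have c2 : ContinuousWithinAt (kap (A t) (J t) s v) (closedBall d.b ρ) w :=
      (continuousWithinAt_pi.1 (hv.1 w w2) _).div (c1.pow 2) (pow_ne_zero _ j0)
    refine ⟨(c2.zpow₀ M (.inl k0)).mul (c1.zpow₀ e (.inl j0)),
      mul_ne_zero (zpow_ne_zero _ k0) (zpow_ne_zero _ j0), ?_⟩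
    exact (th_eq hB hX hC h0 (hc' w w2) (hi w w2) (hc' t ht) w1 (sub' w w2) (hv.2 w w2)
      (hd w w2)).trans (mul_comm _ _)
  have cG : ContinuousOn G (closedBall d.b ρ) := fun t ht => by
    have k := (key t ht).self_of_nhds ht
    refine ((hφ t ht).continuousAt.continuousWithinAt.smul k.1).congr_of_eventuallyEq ?_ k.2.2
    filter_upwards [nhdsWithin_le_nhds (key t ht), self_mem_nhdsWithin] with w w1 w2
    exact (w1 w2).2.2
  have eG : ∀ t ∈ sphere d.b ρ, Th d s v h M e a j t = G t := fun t ht => by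
    have ht' := sphere_subset_closedBall ht
    exact th_eq hB hX hC h0 hc (hS t ht).1 (hc' t ht') (hi t ht') (sub' t ht') (hv.2 t ht')
      (hd t ht')
  have nG : ∀ t ∈ sphere d.b ρ, G t ≠ 0 := fun t ht => eG t ht ▸ mul_ne_zero (mul_ne_zero
    (zpow_ne_zero _ (kap_eq d.cn hc (hS t ht).1 (hv.2 t (sphere_subset_closedBall ht))).1)
    (zpow_ne_zero _ (hc.eq (hS t ht).1.1 (hS t ht).1.2).1)) (hS t ht).2
  have key' : ∀ t ∈ ball d.b ρ, ∀ᶠ w in 𝓝 t,
      ContinuousAt (ε t) w ∧ ε t w ≠ 0 ∧ G w = φ t w • ε t w := fun t ht => by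
    filter_upwards [key t (ball_subset_closedBall ht), isOpen_ball.mem_nhds ht] with w w1 w2
    have k := w1 (ball_subset_closedBall w2)
    exact ⟨k.1.continuousAt (mem_of_superset (isOpen_ball.mem_nhds w2) ball_subset_closedBall),
      k.2⟩
  have zG : ∀ t ∈ ball d.b ρ, ∀ᶠ w in 𝓝 t, (G w = 0 ↔ φ t w = 0) := fun t ht =>
    (key' t ht).mono fun w k => by rw [k.2.2, smul_eq_zero_iff_left k.2.1]
  have top : ∀ t ∈ ball d.b ρ, analyticOrderAt (φ t) t ≠ ⊤ := by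
    rcases iden (E := ℂ) (P := fun w => G w = 0) (convex_ball d.b ρ).isPreconnected
      (fun t ht => ⟨φ t, hφ t (ball_subset_closedBall ht), zG t ht⟩) with k | k
    · obtain ⟨t, ht⟩ := NormedSpace.sphere_nonempty (E := ℂ) (x := d.b).2 hρ.le
      have k1 : EqOn G (fun _ => 0) (closedBall d.b ρ) :=
        EqOn.of_subset_closure (fun t ht => (k t ht).self_of_nhds) cG continuousOn_const
          ball_subset_closedBall (closure_ball d.b hρ.ne').ge
      exact absurd (k1 (sphere_subset_closedBall ht)) (nG t ht)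
    · intro t ht k1
      obtain ⟨w, w1, w2, w3⟩ := ((k t ht).and (nhdsWithin_le_nhds
        ((zG t ht).and (analyticOrderAt_eq_top.1 k1)))).exists
      exact w1 (w2.2 w3)
  have ord : ∀ t ∈ ball d.b ρ,
      analyticOrderAt (φ t) t = (analyticOrderNatAt (φ t) t : ℕ) := fun t ht =>
    (Nat.cast_analyticOrderNatAt (top t ht)).symm
  obtain ⟨f1, f2⟩ := hZ ℂ d.b ρ G (fun t => analyticOrderNatAt (φ t) t) hρ cG nG fun t ht =>
    ⟨φ t, ε t, hφ t (ball_subset_closedBall ht), ord t ht, key' t ht⟩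
  refine ⟨fun t => analyticOrderNatAt (φ t) t, fun t ht => ?_, f1, (f2.wn wind hρ).congr eG⟩
  have ht' := ball_subset_closedBall ht
  obtain ⟨-, -, x, x1, x2, x3⟩ := eqn hB hX hC h0 (hc' t ht') (hi t ht') (sub' t ht') (hd t ht')
  exact ⟨x, _, x1, x2, x3, ord t ht⟩

end Pool.Agent.MP_c69980_ag.I2
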