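import Pool.Agent.MP_c69980_ag.I2.SpecB
import Pool.Agent.MP_c69980_ag.E1.WC
import Pool.Agent.MP_c69980_ag.E1.Chart
import Pool.Agent.MP_c69980_ag.E1.Frm

/-!
The dictionary in the charts of the fibration.
-/

set_option autoImplicit false

noncomputable section

namespace Pool.Agent.MP_c69980_ag.I2

open MvPolynomial Metric Filter Topology Set
open H60 H4 E1 E1.WC

namespace XbA

variable {n : ℕ} {W : Set (PS n)} {X : Set (Pt n)} {a b j : Fin n} {U : Set (ℂ × ℂ)}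
  {Y : ℂ × ℂ → V n} {q p : ℂ × ℂ} {t : ℂ}

theorem wt (hC : Cn X) (hG : Gr W X) (hY : WCh W a b j U Y) (hq : q ∈ U) (hx : (t, Y q) ∈ X) :
    ∃ T : ℂ × ℂ → ℂ, AnalyticAt ℂ T q ∧ T q = t ∧ (∀ᶠ q' in 𝓝 q, (T q', Y q') ∈ X) ∧
    (∀ᶠ x in 𝓝 ((t, Y q) : Pt n), x ∈ X → x.1 = T (x.2 a / x.2 j, x.2 b / x.2 j) ∧
      Pp x.2 (Y (x.2 a / x.2 j, x.2 b / x.2 j))) ∧ ((t, Y q) ∉ Rx X → fderiv ℂ T q = 0) := by
  obtain ⟨h1, h2, h3, hy, h4⟩ := hY.2.2 q hq
  have hA := hY.2.1 q hq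
  obtain ⟨T, hT, e1, e2, e3⟩ := (hG _ hx).2
  replace e1 : T (Y q) = t := e1
  have hj : Y q j ≠ 0 := h1.trans_ne one_ne_zero
  have hT' : AnalyticAt ℂ (fun p => T (Y p)) q := AnalyticAt.comp (f := Y) hT hA
  have f1 : ∀ᶠ p in 𝓝 q, (T (Y p), Y p) ∈ X := by
    filter_upwards [hY.1.eventually_mem hq, hA.continuousAt.tendsto.eventually e2] with p hp h5
    exact h5 (hY.2.2 p hp).2.2.2.1
  have t0 : Tendsto (fun x : Pt n => x.2) (𝓝 (t, Y q)) (𝓝 (Y q)) := continuousAt_snd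
  have t1 : Tendsto (fun x : Pt n => (x.1, (1 / x.2 j) • x.2)) (𝓝 (t, Y q)) (𝓝 (t, Y q)) := by
    have := (nrm_tend h1 1).comp t0
    rw [one_smul] at this
    exact (continuousAt_fst (p := ((t, Y q) : Pt n))).tendsto.prodMk_nhds this
  have f2 : ∀ᶠ x in 𝓝 ((t, Y q) : Pt n), x ∈ X → x.1 = T (Y (x.2 a / x.2 j, x.2 b / x.2 j)) ∧
      Pp x.2 (Y (x.2 a / x.2 j, x.2 b / x.2 j)) := by
    filter_upwards [t0.eventually h4, t1.eventually e3,
      t0.eventually ((continuous_apply j).continuousAt.eventually_ne hj)] with x h5 h6 h7 hx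
    have h8 := h5 (hG x hx).1
    refine ⟨(h6 (hC.scal x hx _ (one_div_ne_zero h7))).trans (congrArg T ?_), _, h7, h8⟩
    rw [one_div, inv_smul_eq_iff₀ h7]
    exact h8
  refine ⟨fun p => T (Y p), hT', e1, f1, f2, fun hn => ?_⟩
  have t2 : Tendsto (fun x : Pt n => (x.2 a / x.2 j, x.2 b / x.2 j)) (𝓝 (T (Y q), Y q)) (𝓝 q) := by
    have := (quo a b hj).continuousAt.tendsto.comp t0
    simp only [h1, h2, h3, div_one] at this
    exact e1 ▸ this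
  have key : ∀ i, fderiv ℂ (fun p => T (Y p)) q (1, 0) * (dz Y q i * Y q j - Y q i * dz Y q j) =
      fderiv ℂ (fun p => T (Y p)) q (0, 1) * (dt Y q i * Y q j - Y q i * dt Y q j) := fun i => by
    by_contra hne
    exact hn ⟨i, j, e1 ▸ E1.gen n X i j Y (fun p => T (Y p)) _ q hC hA hT' hj f1 t2 (e1 ▸ f2) hne⟩
  obtain ⟨c1, c2, c3⟩ := coords hY hq (1, 0)
  obtain ⟨c4, c5, c6⟩ := coords hY hq (0, 1)
  have k1 := key a
  have k2 := key b
  simp only [dt, dz, c1, c2, c3, c4, c5, c6, h1, mul_zero, mul_one, sub_zero] at k1 k2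
  exact ContinuousLinearMap.prod_ext (ContinuousLinearMap.ext_ring (by simpa using k2))
    (ContinuousLinearMap.ext_ring (by simpa using k1.symm))

theorem nonreg (hC : Cn X) (hG : Gr W X) (hW : WC W) : NonregP X := by
  intro x hx hn F u hF hu he e0
  obtain ⟨a, b, j, U, Y, hY, q, hq, s, hs, e1⟩ := hW x.2 (hG x hx).1
  obtain ⟨h1, h2, h3, -⟩ := hY.2.2 q hq
  have e2 : s⁻¹ • x.2 = Y q := by rw [e1, inv_smul_smul₀ hs]
  obtain ⟨T, hT, -, -, f2, f3⟩ := wt (t := x.1) hC hG hY hq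
    (e2 ▸ hC.scal x hx _ (inv_ne_zero hs))
  have f4 := f3 fun hr => hn (by simpa [← e1] using rx_smul hs hr)
  have hF' : AnalyticAt ℂ (fun w => s⁻¹ • F w) 0 := analyticAt_const.fun_smul hF
  have e3 : s⁻¹ • F 0 = Y q := by rw [← e2, ← e0]
  have hj : (s⁻¹ • F 0) j ≠ 0 := by rw [e3, h1]; exact one_ne_zero
  have hQ := (quo a b hj).comp (f := fun w => s⁻¹ • F w) hF'
  have t1 : Tendsto (fun w => (u w, s⁻¹ • F w)) (𝓝 0) (𝓝 (x.1, Y q)) := by
    have := (hu.prod hF').continuousAt.tendsto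
    rwa [e3, show u 0 = x.1 from congrArg Prod.fst e0] at this
  have e4 : ((fun w : V n => (w a / w j, w b / w j)) ∘ fun w => s⁻¹ • F w) 0 = q := by
    simp only [Function.comp_apply, e3, h1, h2, h3, div_one]
  have d1 : HasFDerivAt T (0 : ℂ × ℂ →L[ℂ] ℂ)
      (((fun w : V n => (w a / w j, w b / w j)) ∘ fun w => s⁻¹ • F w) 0) := by
    rw [e4, ← f4]
    exact hT.differentiableAt.hasFDerivAt
  have d2 := d1.comp_hasDerivAt 0 hQ.differentiableAt.hasDerivAt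
  refine (d2.congr_of_eventuallyEq ?_).deriv
  filter_upwards [he, t1.eventually f2] with w h4 h5
  exact (h5 (hC.scal _ h4 _ (inv_ne_zero hs))).1

/-- The transition from a chart of `X` to a chart of `W`. -/
theorem trans (hC : Cn X) (hG : Gr W X) (hW : WC W) (h : Chart X a j U Y) (hp : p ∈ U) :
    ∃ (a' b' j' : Fin n) (U' : Set (ℂ × ℂ)) (Y' : ℂ × ℂ → V n) (φ : ℂ × ℂ → ℂ × ℂ),
      WCh W a' b' j' U' Y' ∧ AnalyticAt ℂ φ p ∧
      ∀ᶠ q in 𝓝 p, φ q ∈ U' ∧ Pp (Y q) (Y' (φ q)) := by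
  obtain ⟨a', b', j', U', Y', hc, q₀, hq, hy⟩ := hW _ (hG _ (h.mem hp)).1
  obtain ⟨e1, e2, e3, -, e5⟩ := hc.2.2 q₀ hq
  have aY := h.an hp
  have j0 : Y p j' ≠ 0 := (hy.eq_smul e1).1
  let φ : ℂ × ℂ → ℂ × ℂ := fun q => (Y q a' / Y q j', Y q b' / Y q j')
  have aφ : AnalyticAt ℂ φ p :=
    ((analyticAt_pi_iff.1 aY a').div (analyticAt_pi_iff.1 aY j') j0).prod
      ((analyticAt_pi_iff.1 aY b').div (analyticAt_pi_iff.1 aY j') j0)
  have φp : φ p = q₀ := Prod.ext (by simp only [φ, hy.div, e1, e2, div_one])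
    (by simp only [φ, hy.div, e1, e3, div_one])
  have tφ : Tendsto φ (𝓝 p) (𝓝 q₀) := φp ▸ aφ.continuousAt.tendsto
  refine ⟨a', b', j', U', Y', φ, hc, aφ, ?_⟩
  obtain ⟨c, c0, hc'⟩ := hy.symm
  have t1 : Tendsto (fun q => c • Y q) (𝓝 p) (𝓝 (Y' q₀)) :=
    hc' ▸ aY.continuousAt.tendsto.const_smul c
  filter_upwards [t1.eventually e5, h.nhds hp, tφ.eventually (hc.1.mem_nhds hq),
    (analyticAt_pi_iff.1 aY j').continuousAt.eventually_ne j0] with q q1 q2 q3 q4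
  have := q1 (hG _ (hC.scal _ (h.mem q2) c c0)).1
  simp only [Pi.smul_apply, smul_eq_mul, mul_div_mul_left _ _ c0, mul_smul] at this
  exact ⟨q3, _, q4, smul_right_injective _ c0 this⟩

variable {K : Type} [Field K] [Algebra ℂ K] {z : Fin n → K} {y : V n}

theorem wd_const (D : Fin 2 → Derivation ℂ K K) (f g : K) (c e : ℂ) :
    Wd D (f - algebraMap ℂ K c) (g - algebraMap ℂ K e) = Wd D f g := by
  simp only [Wd, map_sub, Derivation.map_algebraMap, sub_zero]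

/-- Change of the generators of the maximal ideal. -/
theorem change (hy : On z y) (D : Fin 2 → Derivation ℂ K K) {u v P Q : K} (hw : Wd D u v ≠ 0)
    (hG : ∀ f g, Reg z y f → Reg z y g → Reg z y (Wd D f g / Wd D u v)) (hu : Reg z y u)
    (hv : Reg z y v) (u0 : vl z u y = 0) (v0 : vl z v y = 0)
    (gen : ∀ f, Reg z y f → vl z f y = 0 → ∃ α β, Reg z y α ∧ Reg z y β ∧ f = α * u + β * v)
    (hP : Reg z y P) (hQ : Reg z y Q) (P0 : vl z P y = 0) (Q0 : vl z Q y = 0)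
    (hne : vl z (Wd D P Q / Wd D u v) y ≠ 0) (f : K) (hf : Reg z y f) (f0 : vl z f y = 0) :
    ∃ α β, Reg z y α ∧ Reg z y β ∧ f = α * P + β * Q := by
  obtain ⟨a1, b1, ha1, hb1, e1⟩ := gen P hP P0
  obtain ⟨a2, b2, ha2, hb2, e2⟩ := gen Q hQ Q0
  obtain ⟨a, b, ha, hb, e⟩ := gen f hf f0
  let o : ∀ f, Reg z y f → rg hy := fun f hf => ⟨f, hf⟩
  let ω : ∀ f g, Reg z y f → Reg z y g → rg hy := fun f g hf hg => ⟨_, hG f g hf hg⟩
  let Δ : rg hy := o a1 ha1 * o b2 hb2 - o b1 hb1 * o a2 ha2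
  have e3 : ω P Q hP hQ = Δ +
      o u hu * (ω a1 Q ha1 hQ + o a1 ha1 * ω u a2 hu ha2 + o b1 hb1 * ω v a2 hv ha2) +
      o v hv * (ω b1 Q hb1 hQ + o a1 ha1 * ω u b2 hu hb2 + o b1 hb1 * ω v b2 hv hb2) := by
    refine Subtype.ext ?_
    simp only [Δ, o, ω, MulMemClass.coe_mul, AddSubgroupClass.coe_sub, AddMemClass.coe_add]
    field_simp
    simp only [Wd, e1, e2, map_add, Derivation.leibniz, smul_eq_mul]
    ring
  have e4 : chi hy (ω P Q hP hQ) = chi hy Δ := by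
    have hu0 : chi hy (o u hu) = 0 := u0
    have hv0 : chi hy (o v hv) = 0 := v0
    rw [e3, map_add, map_add, map_mul, map_mul, hu0, hv0, zero_mul, zero_mul, add_zero, add_zero]
  have hΔ : vl z (Δ : K) y ≠ 0 := fun h => hne (e4.trans h)
  have hi := (vl_inv hy ⟨Δ.2, hΔ⟩).1
  have d0 : (Δ : K) ≠ 0 := fun h => hΔ (by rw [h, (H4.vl_zero hy).2])
  have d1 : (Δ : K) = a1 * b2 - b1 * a2 := rfl
  refine ⟨(a * b2 - b * a2) * (Δ : K)⁻¹, (b * a1 - a * b1) * (Δ : K)⁻¹,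
    ((o a ha * o b2 hb2 - o b hb * o a2 ha2) * o _ hi).2,
    ((o b hb * o a1 ha1 - o a ha * o b1 hb1) * o _ hi).2, ?_⟩
  rw [e]
  field_simp
  rw [d1, e1, e2]
  ring

end XbA

open XbA in
theorem xbS : XbStmt := by
  intro K _ _ N d br
  have on : ∀ x : PP d.z, On d.z x.z := fun x => Cone.on d.gen (br.cone x)
  have rg' : ∀ (x : PP d.z) (f : K), f ∈ x.ctr.O ↔ Reg d.z x.z f := fun x f =>
    br.reg x x.z f (.refl _)
  refine ⟨nonreg d.cn d.gr br.wc, fun a j U Y h p hp hb x hx => ?_, fun x hx hn w hw g hg => ?_⟩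
  · obtain ⟨a', b', j', U', Y', φ, hc, aφ, ev⟩ := trans d.cn d.gr br.wc h hp
    obtain ⟨hq, hy⟩ := ev.self_of_nhds
    have hx' : Pp (Y' (φ p)) x.z := hy.symm.trans hx
    obtain ⟨g1, g2, g3⟩ := br.jac a' b' j' U' Y' hc _ hq x hx'
    have o : ∀ q ∈ U', On d.z (Y' q) := fun q hq => Cone.on d.gen (hc.2.2 q hq).2.2.2.1
    have oX : ∀ q ∈ U, On d.z (Y q) := fun q hq => Cone.on d.gen (d.gr _ (h.mem hq)).1
    have oe : ∀ᶠ w in 𝓝 (φ p), On d.z (Y' w) := mem_of_superset (hc.1.mem_nhds hq) o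
    have key : ∀ k ∈ x.ctr.O, DifferentiableAt ℂ (fun w => vl d.z k (Y' w)) (φ p) ∧
        (fun q => vl d.z k (Y q)) =ᶠ[𝓝 p] fun q => vl d.z k (Y' (φ q)) := fun k hk => by
      obtain ⟨b1, b2⟩ := vl_an (hc.2.1 _ hq) oe ((br.reg x _ k hx').1 hk)
      refine ⟨b1.differentiableAt, ?_⟩
      filter_upwards [ev, aφ.continuousAt.tendsto.eventually b2] with q ⟨q1, q2⟩ q3
      exact q2.vl (o _ q1) q3
    obtain ⟨w0, hw0⟩ : ∃ w0, w0 = Wd d.D (d.z a' / d.z j') (d.z b' / d.z j') := ⟨_, rfl⟩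
    rw [← hw0] at g1 g3
    have ch : ∀ f ∈ x.ctr.O, ∀ g ∈ x.ctr.O,
        jb (fun q => vl d.z f (Y q)) (fun q => vl d.z g (Y q)) p =
          vl d.z (Wd d.D f g / w0) x.z * jb (fun q => (φ q).1) (fun q => (φ q).2) p :=
      fun f hf g hg => by
        rw [jb_congr (key f hf).2 (key g hg).2,
          jb_comp (key f hf).1 (key g hg).1 aφ.differentiableAt, ← g3 f hf g hg,
          hx'.vl (on x) ((rg' x _).1 (g1.2.2 f hf g hg))]
    obtain ⟨t1, t2⟩ := d.reg _ (h.mem hp) hb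
    obtain ⟨z1, z2⟩ := PD.coord (oX p hp) (h.yj hp) a
    have mτ : d.τ ∈ x.ctr.O := (br.reg x _ _ hx).2 t1
    have mζ : d.z a / d.z j ∈ x.ctr.O := (br.reg x _ _ hx).2 z1
    have k1 : (fun q => vl d.z d.τ (Y q)) =ᶠ[𝓝 p] fun q => d.ψ q.1 := by
      filter_upwards [h.nhds hp,
        continuous_fst.continuousAt.eventually (isOpen_ball.mem_nhds hb)] with q q1 q2
      exact (d.reg _ (h.mem q1) q2).2
    have k2 : (fun q => vl d.z (d.z a / d.z j) (Y q)) =ᶠ[𝓝 p] Prod.snd := by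
      filter_upwards [h.nhds hp] with q q2
      rw [(PD.coord (oX q q2) (h.yj q2) a).2, h.ya q2]
    have k := ((jb_congr k1 k2).trans
      (FrmX.jb_fst (p := p) (d.an _ hb).1.differentiableAt)).symm.trans (ch _ mτ _ mζ)
    have u0 : vl d.z (Wd d.D d.τ (d.z a / d.z j) / w0) x.z ≠ 0 :=
      left_ne_zero_of_mul (k ▸ (d.an _ hb).2.1)
    have ur := (rg' x _).1 (g1.2.2 _ mτ _ mζ)
    have w1 : Wd d.D d.τ (d.z a / d.z j) ≠ 0 := fun e =>
      u0 (by rw [e, zero_div, (H4.vl_zero (on x)).2])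
    have dv : ∀ f ∈ x.ctr.O, ∀ g ∈ x.ctr.O,
        Reg d.z x.z (Wd d.D f g / Wd d.D d.τ (d.z a / d.z j)) ∧
        vl d.z (Wd d.D f g / Wd d.D d.τ (d.z a / d.z j)) x.z = vl d.z (Wd d.D f g / w0) x.z /
          vl d.z (Wd d.D d.τ (d.z a / d.z j) / w0) x.z := fun f hf g hg => by
      rw [← div_div_div_cancel_right₀ g1.1 (Wd d.D f g)]
      exact vl_div (on x) ((rg' x _).1 (g1.2.2 f hf g hg)) ⟨ur, u0⟩
    have sb : ∀ f ∈ x.ctr.O, ∀ c : ℂ, vl d.z f (Y p) = c →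
        Reg d.z x.z (f - algebraMap ℂ K c) ∧ vl d.z (f - algebraMap ℂ K c) x.z = 0 :=
      fun f hf c e => by
        have r1 := (rg' x f).1 hf
        obtain ⟨c1, c2⟩ := vl_const (on x) (-c)
        obtain ⟨s1, s2⟩ := vl_add (on x) r1 c1
        rw [map_neg, ← sub_eq_add_neg] at s1 s2
        refine ⟨s1, ?_⟩
        rw [s2, ← map_neg, c2, ← hx.vl (on x) r1, e, add_neg_cancel]
    obtain ⟨p1, p2⟩ := sb _ mτ _ t2
    obtain ⟨q1, q2⟩ := sb _ mζ _ (z2.trans (h.ya hp))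
    refine ⟨⟨w1, ⟨_, mτ, _, mζ, rfl⟩, fun f hf g hg => (rg' x _).2 (dv f hf g hg).1⟩,
      ⟨(rg' x _).2 p1, (rg' x _).2 q1, p2, q2, fun f hf f0 => ?_⟩, fun f hf g hg => ?_⟩
    · obtain ⟨m1, m2, m3, m4, m5⟩ := g2
      have ew := (wd_const d.D (d.z a' / d.z j') (d.z b' / d.z j') (φ p).1 (φ p).2).trans hw0.symm
      obtain ⟨α, β, r1, r2, e⟩ := change (on x) d.D (ew ▸ g1.1)
        (fun f g hf hg => ew ▸ (rg' x _).1 (g1.2.2 f ((rg' x _).2 hf) g ((rg' x _).2 hg)))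
        ((rg' x _).1 m1) ((rg' x _).1 m2) m3 m4
        (fun f hf f0 => by
          obtain ⟨α, hα, β, hβ, e⟩ := m5 f ((rg' x _).2 hf) f0
          exact ⟨α, β, (rg' x _).1 hα, (rg' x _).1 hβ, e⟩)
        p1 q1 p2 q2 (by rw [ew, wd_const]; exact u0) f ((rg' x _).1 hf) f0
      exact ⟨α, (rg' x _).2 r1, β, (rg' x _).2 r2, e⟩
    · rw [hx.vl (on x) (dv f hf g hg).1, (dv f hf g hg).2, ch f hf g hg, k, ← mul_assoc,
        div_mul_cancel₀ _ u0]
  · obtain ⟨a, b, j, U, Y, hc, q, hq, hy⟩ := br.wc _ (br.cone x)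
    obtain ⟨g1, -, g3⟩ := br.jac a b j U Y hc q hq x hy.symm
    have b0 : d.b ∈ ball d.b d.r₀ := mem_ball_self d.r0
    obtain ⟨T, aT, e1, e2, -, e4⟩ := wt d.cn d.gr hc hq (d.cn.pp hx hy.symm)
    have e5 := e4 fun hr => hn (Rx.pp hr hy)
    have mτ : d.τ ∈ x.ctr.O := (rg' x _).2 (d.reg _ hx b0).1
    have bq : T q ∈ ball d.b d.r₀ := by rw [e1]; exact b0
    have k1 : (fun p => vl d.z d.τ (Y p)) =ᶠ[𝓝 q] fun p => d.ψ (T p) := by
      filter_upwards [e2, aT.continuousAt.eventually (isOpen_ball.mem_nhds bq)] with p p1 p2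
      exact (d.reg _ p1 p2).2
    have k2 : fderiv ℂ (fun p => vl d.z d.τ (Y p)) q = 0 := by
      have dψ : DifferentiableAt ℂ d.ψ (T q) := (d.an _ bq).1.differentiableAt
      rw [k1.fderiv_eq, fderiv_fun_comp q dψ aT.differentiableAt, e5,
        ContinuousLinearMap.comp_zero]
    have k3 := g3 _ mτ g hg
    have r1 := (rg' x _).1 (g1.2.2 _ mτ g hg)
    rw [jb, k2, hy.symm.vl (on x) r1] at k3
    obtain ⟨w0, ⟨f1, hf1, f2, hf2, e⟩, -⟩ := g1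
    have r2 := (rg' x _).1 (hw.2.2 f1 hf1 f2 hf2)
    rw [← e] at r2
    have k4 := (vl_mul (on x) r1 r2).2
    rw [div_mul_div_cancel₀ w0, k3] at k4
    simpa using k4

end Pool.Agent.MP_c69980_ag.I2
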