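import Pool.Agent.MP_c69980_ag.E1.Wind
import Pool.Agent.MP_c69980_ag.I2.SpecB

/-!
Counting the zeros of holomorphic functions.
-/

set_option autoImplicit false

noncomputable section

namespace Pool.Agent.MP_c69980_ag.I2

open Metric Filter Topology Set
open E1

namespace ZcA

variable {O A : Set ℂ} {f g : ℂ → ℂ}

theorem nloc (hO : IsOpen O) (hA : IsCompact A) (hAO : A ⊆ O) (hf : DifferentiableOn ℂ f O)
    (h0 : ∀ t ∈ O, f t = 0 → t ∈ A) {t : ℂ} (ht : t ∈ O) : ¬∀ᶠ w in 𝓝 t, f w = 0 := by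
  intro h
  have hS : {t ∈ O | ∀ᶠ w in 𝓝 t, f w = 0} ⊆ A := fun s hs => h0 s hs.1 hs.2.self_of_nhds
  have h1 : IsOpen {t ∈ O | ∀ᶠ w in 𝓝 t, f w = 0} := hO.inter isOpen_setOfPred_eventually_nhds
  have h2 : IsClosed {t ∈ O | ∀ᶠ w in 𝓝 t, f w = 0} := by
    refine isClosed_of_closure_subset fun s hs => ?_
    have hsO := hAO (closure_minimal hS hA.isClosed hs)
    rcases (hf.analyticAt (hO.mem_nhds hsO)).eventually_eq_zero_or_eventually_ne_zero with e | e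
    · exact ⟨hsO, e⟩
    · obtain ⟨w, hw1, hw2⟩ := mem_closure_iff_nhds.1 hs _ (eventually_nhdsWithin_iff.1 e)
      by_cases e' : w = s
      · exact e' ▸ hw2
      · exact absurd hw2.2.self_of_nhds (hw1 e')
  have h3 := IsClopen.eq_univ ⟨h2, h1⟩ ⟨t, ht, h⟩
  rw [h3] at hS
  exact noncompact_univ ℂ (univ_subset_iff.1 hS ▸ hA)

theorem fin (hO : IsOpen O) (hA : IsCompact A) (hAO : A ⊆ O) (hf : DifferentiableOn ℂ f O)
    (h0 : ∀ t ∈ O, f t = 0 → t ∈ A) : {t ∈ O | f t = 0}.Finite := by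
  have hZ : IsCompact (A ∩ f ⁻¹' {0}) := hA.of_isClosed_subset
    ((hf.continuousOn.mono hAO).preimage_isClosed_of_isClosed hA.isClosed isClosed_singleton)
    inter_subset_left
  obtain ⟨F, -, hc⟩ := hZ.elim_nhds_subcover (fun t => {w | w ≠ t → f w ≠ 0}) fun t ht =>
    eventually_nhdsWithin_iff.1
      ((hf.analyticAt (hO.mem_nhds (hAO ht.1))).eventually_eq_zero_or_eventually_ne_zero.resolve_left
        (nloc hO hA hAO hf h0 (hAO ht.1)))
  refine F.finite_toSet.subset fun t ht => ?_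
  obtain ⟨s, hs, h⟩ := mem_iUnion₂.1 (hc ⟨h0 t ht.1 ht.2, ht.2⟩)
  by_cases e : t = s
  · exact e ▸ hs
  · exact absurd ht.2 (h e)

theorem top_of_fin (hO : IsOpen O) (h : {t ∈ O | f t = 0}.Finite) {t : ℂ} (ht : t ∈ O) :
    analyticOrderAt f t ≠ ⊤ := fun e =>
  infinite_of_mem_nhds t (inter_mem (hO.mem_nhds ht) (analyticOrderAt_eq_top.1 e)) h

theorem zc_eq (f : ℂ → ℂ) (O : Set ℂ) :
    zc f O = ∑ᶠ t ∈ {t ∈ O | f t = 0}, analyticOrderNatAt f t :=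
  finsum_mem_inter_support_eq' _ _ _ fun _ ht =>
    ⟨fun h => ⟨h, apply_eq_zero_of_analyticOrderNatAt_ne_zero ht⟩, fun h => h.1⟩

theorem wn (hZ : ZvStmt) (hO : IsOpen O) (hf : DifferentiableOn ℂ f O)
    (h : {t ∈ O | f t = 0}.Finite) {c : ℂ} {ρ : ℝ} (hρ : 0 < ρ) (hc : closedBall c ρ ⊆ O)
    (h0 : ∀ t ∈ sphere c ρ, f t ≠ 0) : Wn c ρ f (zc f (ball c ρ)) := by
  refine (hZ ℂ c ρ f (analyticOrderNatAt f) hρ (hf.continuousOn.mono hc) h0 fun t ht => ?_).2.wn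
    wind hρ
  have htO := hc (ball_subset_closedBall ht)
  exact ⟨f, fun _ => 1, hf.analyticAt (hO.mem_nhds htO),
    (Nat.cast_analyticOrderNatAt (top_of_fin hO h htO)).symm,
    Eventually.of_forall fun w => ⟨continuousAt_const, one_ne_zero, (mul_one _).symm⟩⟩

theorem ne_of_near {a b : ℂ} (h : ‖b - a‖ < ‖a‖) {s : ℝ} (hs : s ∈ Icc (0 : ℝ) 1) :
    a + s * (b - a) ≠ 0 := fun e => by
  have h1 : a = -(s * (b - a)) := eq_neg_of_add_eq_zero_left e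
  have h2 : ‖a‖ = s * ‖b - a‖ := by
    conv_lhs => rw [h1]
    rw [norm_neg, norm_mul, Complex.norm_real, Real.norm_of_nonneg hs.1]
  have h3 := mul_le_of_le_one_left (norm_nonneg (b - a)) hs.2
  linarith

theorem rouche (hZ : ZvStmt) (hO : IsOpen O) (hf : DifferentiableOn ℂ f O)
    (hg : DifferentiableOn ℂ g O) (h : {t ∈ O | f t = 0}.Finite) (h' : {t ∈ O | g t = 0}.Finite)
    {c : ℂ} {ρ : ℝ} (hρ : 0 < ρ) (hc : closedBall c ρ ⊆ O)
    (hn : ∀ t ∈ sphere c ρ, ‖g t - f t‖ < ‖f t‖) : zc g (ball c ρ) = zc f (ball c ρ) := by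
  have a1 := wn hZ hO hf h hρ hc fun t ht => by
    simpa using ne_of_near (hn t ht) (s := 0) ⟨le_rfl, zero_le_one⟩
  have a2 := wn hZ hO hg h' hρ hc fun t ht => by
    simpa using ne_of_near (hn t ht) (s := 1) ⟨zero_le_one, le_rfl⟩
  have m : MapsTo Prod.snd (Bn c ρ) O := fun q hq => hc (sphere_subset_closedBall hq.2)
  have cf : ContinuousOn (fun q : ℝ × ℂ => f q.2) (Bn c ρ) :=
    hf.continuousOn.comp continuousOn_snd m
  have cg : ContinuousOn (fun q : ℝ × ℂ => g q.2) (Bn c ρ) :=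
    hg.continuousOn.comp continuousOn_snd m
  have a3 := Wind.band (c := c) (ρ := ρ) (fun q => f q.2 + q.1 * (g q.2 - f q.2))
    (cf.add ((Complex.continuous_ofReal.comp continuous_fst).continuousOn.mul (cg.sub cf)))
    fun q hq => ne_of_near (hn _ hq.2) hq.1
  have a4 := Wind.uniq hρ _ _ _ (a1.div hρ a2) (a3.congr fun t _ => by simp)
  omega

theorem split (h : {t ∈ O | f t = 0}.Finite) {F : Set ℂ} (hF : F.Finite) {ρ : ℝ}
    (hd : F.PairwiseDisjoint fun c => ball c ρ) (hc : ∀ c ∈ F, ball c ρ ⊆ O)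
    (h0 : ∀ t ∈ O, f t = 0 → ∃ c ∈ F, t ∈ ball c ρ) : zc f O = ∑ᶠ c ∈ F, zc f (ball c ρ) := by
  have e : {t ∈ O | f t = 0} = ⋃ c ∈ F, {t ∈ ball c ρ | f t = 0} := by
    ext t
    refine ⟨fun ht => ?_, fun ht => ?_⟩
    · obtain ⟨c, h1, h2⟩ := h0 t ht.1 ht.2
      exact mem_iUnion₂.2 ⟨c, h1, h2, ht.2⟩
    · obtain ⟨c, h1, h2⟩ := mem_iUnion₂.1 ht
      exact ⟨hc c h1 h2.1, h2.2⟩
  rw [zc_eq, e, finsum_mem_biUnion (hd.mono fun c t ht => ht.1) hF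
    fun c h1 => h.subset fun t ht => ⟨hc c h1 ht.1, ht.2⟩]
  exact finsum_mem_congr rfl fun c _ => (zc_eq f _).symm

theorem rad (hO : IsOpen O) {F : Set ℂ} (hF : F.Finite) (hFO : F ⊆ O) : ∃ ρ : ℝ, 0 < ρ ∧
    (∀ c ∈ F, closedBall c ρ ⊆ O) ∧ ∀ c ∈ F, ∀ c' ∈ F, c ≠ c' → ρ + ρ ≤ dist c c' := by
  have h1 : ∀ᶠ ρ in 𝓝 (0 : ℝ), ∀ c ∈ F, closedBall c ρ ⊆ O :=
    (eventually_all_finite hF).2 fun c hc => eventually_closedBall_subset (hO.mem_nhds (hFO hc))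
  have h2 : ∀ᶠ ρ in 𝓝 (0 : ℝ), ∀ c ∈ F, ∀ c' ∈ F, c ≠ c' → ρ + ρ ≤ dist c c' := by
    refine (eventually_all_finite hF).2 fun c _ => (eventually_all_finite hF).2 fun c' _ => ?_
    by_cases e : c = c'
    · exact Eventually.of_forall fun _ h => absurd e h
    · filter_upwards [Iio_mem_nhds (half_pos (dist_pos.2 e))] with ρ hρ _
      have : ρ < dist c c' / 2 := hρ
      linarith
  obtain ⟨ρ, h3, h4⟩ := (((h1.and h2).filter_mono nhdsWithin_le_nhds).and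
    (self_mem_nhdsWithin (s := Ioi (0 : ℝ)))).exists
  exact ⟨ρ, h4, h3⟩

theorem hom (hZ : ZvStmt) {H : ℝ × ℂ → ℂ} (hO : IsOpen O) (hA : IsCompact A) (hAO : A ⊆ O)
    (hH : ContinuousOn H (Icc 0 1 ×ˢ O)) (h : ∀ θ ∈ Icc (0 : ℝ) 1,
      DifferentiableOn ℂ (fun t => H (θ, t)) O ∧ ∀ t ∈ O, H (θ, t) = 0 → t ∈ A) :
    IsLocallyConstant fun θ : Icc (0 : ℝ) 1 => zc (fun t => H (θ, t)) O := by
  have hf : ∀ θ : Icc (0 : ℝ) 1, {t ∈ O | H (θ, t) = 0}.Finite := fun θ =>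
    fin hO hA hAO (h θ θ.2).1 (h θ θ.2).2
  refine (IsLocallyConstant.iff_eventually_eq _).2 fun θ => ?_
  obtain ⟨ρ, hρ, h1, h2⟩ := rad hO (hf θ) fun t ht => ht.1
  have hd : {t ∈ O | H (θ, t) = 0}.PairwiseDisjoint fun c => ball c ρ := fun c hc c' hc' e =>
    ball_disjoint_ball (h2 c hc c' hc' e)
  have hK : IsCompact ((A \ ⋃ c ∈ {t ∈ O | H (θ, t) = 0}, ball c ρ) ∪
      ⋃ c ∈ {t ∈ O | H (θ, t) = 0}, sphere c ρ) :=
    (hA.diff (isOpen_biUnion fun _ _ => isOpen_ball)).union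
      ((hf θ).isCompact_biUnion fun c _ => isCompact_sphere c ρ)
  have hc : ∀ (a : Icc (0 : ℝ) 1) (y : ℂ), y ∈ O →
      ContinuousAt (fun z : Icc (0 : ℝ) 1 × ℂ => H (z.1, z.2)) (a, y) := fun a y hy => by
    have : ContinuousOn (fun z : Icc (0 : ℝ) 1 × ℂ => H (z.1, z.2)) (univ ×ˢ O) :=
      hH.comp (by fun_prop) fun z hz => ⟨z.1.2, hz.2⟩
    exact this.continuousAt ((isOpen_univ.prod hO).mem_nhds ⟨trivial, hy⟩)
  have hE := hK.eventually_forall_of_forall_eventually (x₀ := θ)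
    (P := fun a y => ‖H (a, y) - H (θ, y)‖ < ‖H (θ, y)‖) fun y hy => by
      have hy' : y ∈ O ∧ H (θ, y) ≠ 0 := by
        rcases hy with hy | hy
        · exact ⟨hAO hy.1, fun e => hy.2 (mem_iUnion₂.2 ⟨y, ⟨hAO hy.1, e⟩, mem_ball_self hρ⟩)⟩
        · obtain ⟨c, hc1, hc2⟩ := mem_iUnion₂.1 hy
          have hyO := h1 c hc1 (sphere_subset_closedBall hc2)
          refine ⟨hyO, fun e => ?_⟩
          have e1 : dist y c = ρ := hc2
          have := h2 y ⟨hyO, e⟩ c hc1 (ne_of_mem_sphere hc2 hρ.ne')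
          linarith
      have c2 : ContinuousAt (fun z : Icc (0 : ℝ) 1 × ℂ => H (θ, z.2)) (θ, y) :=
        ContinuousAt.comp (g := fun t => H (θ, t)) (f := Prod.snd)
          ((h θ θ.2).1.continuousOn.continuousAt (hO.mem_nhds hy'.1)) continuousAt_snd
      exact ContinuousAt.eventually_lt ((hc θ y hy'.1).sub c2).norm c2.norm
        (by simpa using hy'.2)
  filter_upwards [hE] with a ha
  have hb : ∀ c ∈ {t ∈ O | H (θ, t) = 0}, ball c ρ ⊆ O := fun c hc =>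
    ball_subset_closedBall.trans (h1 c hc)
  rw [split (hf a) (hf θ) hd hb fun t ht e => ?_,
    split (hf θ) (hf θ) hd hb fun t ht e => ⟨t, ⟨ht, e⟩, mem_ball_self hρ⟩]
  · exact finsum_mem_congr rfl fun c hc => rouche hZ hO (h θ θ.2).1 (h a a.2).1 (hf θ) (hf a) hρ
      (h1 c hc) fun t ht => ha t (Or.inr (mem_iUnion₂.2 ⟨c, hc, ht⟩))
  · by_contra hn
    have := ha t (Or.inl ⟨(h a a.2).2 t ht e, fun hm => hn (by
      obtain ⟨c, h3, h4⟩ := mem_iUnion₂.1 hm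
      exact ⟨c, h3, h4⟩)⟩)
    have e' : H (a, t) = 0 := e
    rw [e', zero_sub, norm_neg] at this
    exact lt_irrefl _ this

theorem pw {e : ℕ} (hO : IsOpen O) (hf : DifferentiableOn ℂ f O) (hg : DifferentiableOn ℂ g O)
    (h : {t ∈ O | f t = 0}.Finite) (h0 : ∀ t ∈ O, g t ≠ 0) :
    zc (fun t => g t * f t ^ e) O = e * zc f O := by
  have key : ∀ t ∈ O, analyticOrderNatAt (fun t => g t * f t ^ e) t =
      e * analyticOrderNatAt f t := fun t ht => by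
    have af := hf.analyticAt (hO.mem_nhds ht)
    have ag := hg.analyticAt (hO.mem_nhds ht)
    have a1 : analyticOrderAt (fun t => g t * f t ^ e) t = analyticOrderAt (f ^ e) t := by
      have := analyticOrderAt_mul ag (af.pow e)
      rw [ag.analyticOrderAt_eq_zero.2 (h0 t ht), zero_add] at this
      exact this
    rw [analyticOrderNatAt, a1]
    exact analyticOrderNatAt_pow af e
  rw [zc, finsum_mem_congr rfl key, zc_eq f, finsum_mem_eq_finite_toFinset_sum _ h,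
    Finset.mul_sum, ← finsum_mem_eq_finite_toFinset_sum _ h]
  exact finsum_mem_inter_support_eq' _ _ _ fun t ht =>
    ⟨fun a => ⟨a, apply_eq_zero_of_analyticOrderNatAt_ne_zero (right_ne_zero_of_mul ht)⟩,
      fun a => a.1⟩

theorem cg {O' : Set ℂ} (h : ∀ t, t ∈ O ∧ f t = 0 ↔ t ∈ O' ∧ g t = 0)
    (h' : ∀ t ∈ O, f t = 0 → f =ᶠ[𝓝 t] g) : zc f O = zc g O' := by
  rw [zc_eq, zc_eq]
  refine finsum_mem_congr (Set.ext h) fun t ht => ?_
  have := (h t).2 ht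
  rw [analyticOrderNatAt, analyticOrderNatAt, analyticOrderAt_congr (h' t this.1 this.2)]

end ZcA

theorem zcS : ZcOf := fun hZ =>
  ⟨fun _ _ _ hO hA hAO hH h => ⟨fun θ hθ => ZcA.fin hO hA hAO (h θ hθ).1 (h θ hθ).2,
      (ZcA.hom hZ hO hA hAO hH h).apply_eq_of_preconnectedSpace ⟨0, le_rfl, zero_le_one⟩
        ⟨1, zero_le_one, le_rfl⟩⟩,
    fun _ _ _ _ hO hf hg h h0 => ZcA.pw hO hf hg h h0, fun _ _ _ _ h h' => ZcA.cg h h'⟩

end Pool.Agent.MP_c69980_ag.I2
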