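import Pool.Agent.MP_c69980_ag.I2.SpecB

/-!
The special points of a fibre, the static data, and the components met by sections.
-/

set_option autoImplicit false

noncomputable section

namespace Pool.Agent.MP_c69980_ag.I2

open MvPolynomial Metric Filter Topology Set
open H60 H4 E1

namespace Zg

theorem rx_pp {n : ℕ} {X : Set (Pt n)} {t : ℂ} {y y' : V n} (h : (t, y) ∈ Rx X) (hp : Pp y y') :
    (t, y') ∈ Rx X := by
  obtain ⟨a, j, U, Y, hc, z, hz, h1⟩ := h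
  exact ⟨a, j, U, Y, hc, z, hz, hp.symm.trans h1⟩

theorem rx_mem {n : ℕ} {X : Set (Pt n)} (hX : Cn X) {t : ℂ} {y : V n} (h : (t, y) ∈ Rx X) :
    (t, y) ∈ X := by
  obtain ⟨a, j, U, Y, hc, z, hz, c, c0, h1⟩ := h
  have h2 := hX.scal _ (hc.2.2 _ hz).2.2.1 c c0
  exact (show y = _ from h1) ▸ h2

theorem rx_sec {n : ℕ} {X : Set (Pt n)} (hX : NonregP X) {b : ℂ} {r : ℝ} (hr : 0 < r)
    {s : ℂ → V n} (hs : Nm X (ball b r) s id) : (b, s b) ∈ Rx X := by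
  by_contra hn
  have hb : ball b r ∈ 𝓝 b := ball_mem_nhds b hr
  have h1 : AnalyticAt ℂ s b := hs.1.1.analyticAt hb
  have h2 : AnalyticAt ℂ (fun w : ℂ => b + w) 0 := analyticAt_const.add analyticAt_id
  have h3 : Tendsto (fun w : ℂ => b + w) (𝓝 0) (𝓝 b) := by
    simpa using h2.continuousAt.tendsto
  have h4 := hX (b, s b) (hs.2.2 b (mem_ball_self hr)) hn (fun w => s (b + w)) (fun w => b + w)
    (AnalyticAt.comp_of_eq h1 h2 (add_zero b)) h2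
    (h3.eventually (Filter.mem_of_superset hb fun z hz => hs.2.2 z hz)) (by simp)
  simp at h4

end Zg

open Zg

theorem zgS : ZgStmt := by
  intro K _ _ N ξ I B y hG hC
  classical
  choose f hf using fun C : CC ξ => (hC C).inf.nonempty
  refine ⟨{y} ∪ (⋃ C ∈ I, {x | x.On C ∧ ¬ IsDiscreteValuationRing (C.loc x)}) ∪
    (⋃ C ∈ I, ⋃ C' ∈ I ∪ B, {x | C ≠ C' ∧ x.On C ∧ x.On C'}) ∪ f '' (I : Set (CC ξ)),
    ⟨?_, fun C hI x hx hZ => ?_, fun C hI x hx hZ C' hC' hx' => ?_, fun C hI => ?_⟩,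
    Or.inl (Or.inl (Or.inl rfl))⟩
  · refine (((finite_singleton y).union (I.finite_toSet.biUnion fun C _ => (hC C).sing)).union
      (I.finite_toSet.biUnion fun C _ => (I ∪ B).finite_toSet.biUnion fun C' _ => ?_)).union
      (I.finite_toSet.image f)
    by_cases h : C = C'
    · exact finite_empty.subset fun x hx => hx.1 h
    · exact (hG.two C C' h).subset fun x hx => hx.2
  · by_contra hn
    exact hZ (Or.inl (Or.inl (Or.inr (mem_iUnion₂.2 ⟨C, hI, hx, hn⟩))))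
  · by_contra hn
    exact hZ (Or.inl (Or.inr (mem_iUnion₂.2 ⟨C, hI, mem_iUnion₂.2
      ⟨C', Finset.mem_union.2 hC', fun e => hn e.symm, hx, hx'⟩⟩)))
  · exact ⟨f C, Or.inr ⟨C, hI, rfl⟩, hf C⟩

theorem stS : StOf := by
  intro hBr hXb hCA hCP hIA hFb hZg K _ _ N d B y hy
  have br := hBr K N d.toSf
  have xb := hXb K N d br
  have ca := hCA K N d.z br.g0 d.D br.kg
  have cp := hCP K N d.z br.g0
  obtain ⟨a, ia⟩ := hIA K N d.z br.g0 cp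
  have t0 : d.τ ≠ 0 := by
    obtain ⟨a', j, U, Y, hc, z, hz, h1⟩ := hy
    have h2 := (xb.gen a' j U Y hc _ hz (mem_ball_self d.r0) y h1.symm).1.1
    intro h0
    apply h2
    simp [h0, Wd]
  obtain ⟨I, fb⟩ := hFb K N d br xb ca cp t0
  obtain ⟨Z, zg, hZ⟩ := hZg K N d.z I B y br.g0 cp
  exact ⟨I, Z, a, ⟨br, xb, ca, cp, ia, fb, zg⟩, hZ⟩

theorem setS : SetOf := by
  intro hBr hSt hGv K _ _ N d B r a' j U Y g hS
  have br := hBr K N d.toSf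
  have hg : (d.b, g d.b) ∈ Rx d.X := ⟨a', j, U, Y, hS.ch, _, hS.inc.1, hS.inc.2⟩
  obtain ⟨y, hy⟩ := br.pt _ (d.gr _ (rx_mem d.cn hg)).1
  have hy' : (d.b, y.z) ∈ Rx d.X := rx_pp hg hy
  obtain ⟨I, Z, a, st, hZ⟩ := hSt K N d B y hy'
  obtain ⟨o, ho, hyo⟩ := st.fb.thru y (rx_mem d.cn hy')
  refine ⟨I, Z, a, o, st, fun u s hc hm => ?_⟩
  obtain ⟨v, hv⟩ := hGv K N d I B Z a u r g s st hS.r0 hS.rr hS.nm hc ⟨y, hZ, hy⟩
  have h1 : ∀ k, ∃ c ∈ (I : Set (CC d.z)), c.v d.τ = 1 ∧ c ∉ B ∧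
      ∃ x : PP d.z, x.On c ∧ Pp (s k d.b) x.z := by
    intro k
    have h2 := rx_sec st.xb.nonreg hS.r0 (hc.1 k)
    obtain ⟨x, hx⟩ := br.pt _ (d.gr _ (rx_mem d.cn h2)).1
    have hx' : (d.b, x.z) ∈ Rx d.X := rx_pp h2 hx
    obtain ⟨c, hcI, hxc⟩ := st.fb.thru x (rx_mem d.cn hx')
    exact ⟨c, hcI, (st.fb.rx1 x hx' c hcI hxc).1,
      fun hB => hm k d.b (mem_ball_self hS.r0) c hB x hxc hx, x, hxc, hx⟩
  obtain ⟨c, hcI, h3⟩ := (Ultrafilter.eventually_exists_mem_iff I.finite_toSet).1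
    (Eventually.of_forall h1 : ∀ᶠ k in (u : Filter ℕ), _)
  obtain ⟨k, hk⟩ := h3.exists
  exact ⟨c, v, ⟨⟨ho, (st.fb.rx1 y hy' o ho hyo).1, y, hZ, hyo, hy⟩,
    ⟨hcI, hk.1, hk.2.1, h3.mono fun _ h => h.2.2⟩⟩, hv⟩

end Pool.Agent.MP_c69980_ag.I2
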