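import Pool.Agent.MP_c69980_ag.I2.SpecB

/-!
Row Zv: factoring out the zeros in a disc with their multiplicities.
-/

set_option autoImplicit false

namespace Pool.Agent.MP_c69980_ag.I2

open Metric Filter Topology Set
open E1

namespace RZv

variable {E : Type} [NormedAddCommGroup E] [NormedSpace ℂ E]

theorem nf {G : ℂ → E} {t : ℂ} {e : ℕ} (h : Oz G t e) : ∃ ε : ℂ → E,
    ∀ᶠ w in 𝓝 t, ContinuousAt ε w ∧ ε w ≠ 0 ∧ G w = (w - t) ^ e • ε w := by
  obtain ⟨φ, ε, hφ, ho, h⟩ := h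
  obtain ⟨g, hg, hg0, h1⟩ := hφ.analyticOrderAt_eq_natCast.1 ho
  refine ⟨fun w => g w • ε w, ?_⟩
  filter_upwards [h, h1, hg.eventually_analyticAt, hg.continuousAt.eventually_ne hg0]
    with w h2 h3 h4 h5
  exact ⟨h4.continuousAt.smul h2.1, smul_ne_zero h5 h2.2.1, by
    rw [h2.2.2, h3, smul_eq_mul, mul_smul]⟩

theorem lst (o : ℂ → ℕ) (F : Finset ℂ) : ∃ a : Fin (∑ s ∈ F, o s) → ℂ, (∀ i, a i ∈ F) ∧
    ∀ t, ∏ i, (t - a i) = ∏ s ∈ F, (t - s) ^ o s := by
  classical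
  induction F using Finset.induction_on with
  | empty => exact ⟨Fin.elim0, fun i => i.elim0, fun t => by simp⟩
  | insert b F hb ih =>
    obtain ⟨a, h1, h2⟩ := ih
    rw [Finset.sum_insert hb]
    refine ⟨Fin.append (fun _ => b) a, fun i => ?_, fun t => ?_⟩
    · refine Fin.addCases (fun j => ?_) (fun j => ?_) i
      · simp
      · simpa using Or.inr (h1 j)
    · rw [Fin.prod_univ_add, Finset.prod_insert hb, ← h2]
      simp

theorem inv_cont (o : ℂ → ℕ) (F : Finset ℂ) {t : ℂ} (ht : t ∉ F) :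
    ∏ s ∈ F, (t - s) ^ o s ≠ 0 ∧ ContinuousAt (fun w => (∏ s ∈ F, (w - s) ^ o s)⁻¹) t := by
  have h : ∏ s ∈ F, (t - s) ^ o s ≠ 0 :=
    Finset.prod_ne_zero_iff.2 fun s hs => pow_ne_zero _ (sub_ne_zero.2 fun e => ht (e ▸ hs))
  exact ⟨h, ContinuousAt.inv₀ (by fun_prop) h⟩

theorem ev_not (F : Finset ℂ) {t : ℂ} (ht : t ∉ F) : ∀ᶠ w in 𝓝 t, w ∉ F :=
  F.finite_toSet.isClosed.isOpen_compl.mem_nhds ht

end RZv

open RZv

theorem zvS : ZvStmt := by
  classical
  intro E _ _ c ρ G o _ hG h0 hO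
  have hb : ∀ t ∈ closedBall c ρ, t ∉ ball c ρ → G t ≠ 0 := fun t ht h =>
    h0 t (mem_sphere.2 (le_antisymm (mem_closedBall.1 ht) (not_lt.1 fun h' => h (mem_ball.2 h'))))
  have h1 : ∀ t : ℂ, ∃ ε : ℂ → E, t ∈ ball c ρ →
      ∀ᶠ w in 𝓝 t, ContinuousAt ε w ∧ ε w ≠ 0 ∧ G w = (w - t) ^ o t • ε w := fun t => by
    by_cases ht : t ∈ ball c ρ
    · exact (nf (hO t ht)).imp fun _ h _ => h
    · exact ⟨G, fun h => absurd h ht⟩
  choose ε hε using h1
  have hZ : IsCompact (closedBall c ρ ∩ G ⁻¹' {0}) :=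
    (isCompact_closedBall c ρ).of_isClosed_subset
      (hG.preimage_isClosed_of_isClosed isClosed_closedBall isClosed_singleton) inter_subset_left
  obtain ⟨F₀, _, hc⟩ := hZ.elim_nhds_subcover (fun t => {w | w ≠ t → G w ≠ 0}) fun t ht => by
    filter_upwards [hε t (by_contra fun h => hb t ht.1 h ht.2)] with w hw hwt
    rw [hw.2.2]
    exact smul_ne_zero (pow_ne_zero _ (sub_ne_zero.2 hwt)) hw.2.1
  have hfin : {t ∈ ball c ρ | o t ≠ 0}.Finite := by
    refine F₀.finite_toSet.subset fun t ht => ?_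
    have h : G t = 0 := by
      rw [(hε t ht.1).self_of_nhds.2.2, sub_self, zero_pow ht.2, zero_smul]
    obtain ⟨x, hx, h2⟩ := mem_iUnion₂.1 (hc ⟨ball_subset_closedBall ht.1, h⟩)
    by_cases htx : t = x
    · exact htx ▸ hx
    · exact absurd h (h2 htx)
  refine ⟨hfin, ?_⟩
  let F := hfin.toFinset
  have hF : ∀ t, t ∈ F ↔ t ∈ ball c ρ ∧ o t ≠ 0 := fun t => hfin.mem_toFinset
  have hs : ∑ᶠ t ∈ ball c ρ, o t = ∑ s ∈ F, o s := by
    refine finsum_mem_eq_sum_of_inter_support_eq _ (Set.ext fun t => ?_)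
    rw [mem_inter_iff, mem_inter_iff, Finset.mem_coe, hF, Function.mem_support]
    tauto
  obtain ⟨a, ha, hp⟩ := lst o F
  let U : ℂ → E := fun t => if t ∈ F then (∏ s ∈ F.erase t, (t - s) ^ o s)⁻¹ • ε t t
    else (∏ s ∈ F, (t - s) ^ o s)⁻¹ • G t
  have hU1 : ∀ t ∈ F, U t = (∏ s ∈ F.erase t, (t - s) ^ o s)⁻¹ • ε t t := fun t ht => if_pos ht
  have hU2 : ∀ t ∉ F, U t = (∏ s ∈ F, (t - s) ^ o s)⁻¹ • G t := fun t ht => if_neg ht
  rw [hs]
  refine ⟨a, U, fun i => ((hF _).1 (ha i)).1, fun t ht => ?_, fun t ht => ?_⟩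
  · by_cases htF : t ∈ F
    · have h2 := hε t ((hF t).1 htF).1
      have h3 := Finset.notMem_erase t F
      refine (((inv_cont o _ h3).2.smul h2.self_of_nhds.1).congr ?_).continuousWithinAt
      filter_upwards [h2, ev_not _ h3] with w h4 h5
      by_cases hw : w = t
      · rw [hw, hU1 t htF]; rfl
      · have h6 : w ∉ F := fun h => h5 (Finset.mem_erase.2 ⟨hw, h⟩)
        have h7 : (w - t) ^ o t ≠ 0 := pow_ne_zero _ (sub_ne_zero.2 hw)
        rw [hU2 w h6, h4.2.2, ← Finset.mul_prod_erase F _ htF, smul_smul, mul_inv, mul_right_comm,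
          inv_mul_cancel₀ h7, one_mul]
        rfl
    · refine ((inv_cont o F htF).2.continuousWithinAt.smul (hG t ht)).congr_of_eventuallyEq
        (((ev_not F htF).mono fun w hw => hU2 w hw).filter_mono nhdsWithin_le_nhds) (hU2 t htF)
  · rw [hp]
    by_cases htF : t ∈ F
    · have h2 := (hε t ((hF t).1 htF).1).self_of_nhds
      have h3 := (inv_cont o _ (Finset.notMem_erase t F)).1
      rw [hU1 t htF]
      refine ⟨smul_ne_zero (inv_ne_zero h3) h2.2.1, ?_⟩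
      rw [h2.2.2, ← Finset.mul_prod_erase F _ htF, smul_smul, mul_inv_cancel_right₀ h3]
    · have h3 := (inv_cont o F htF).1
      rw [hU2 t htF]
      refine ⟨smul_ne_zero (inv_ne_zero h3) ?_, (smul_inv_smul₀ h3 _).symm⟩
      by_cases h4 : t ∈ ball c ρ
      · have h5 : o t = 0 := by_contra fun h => htF ((hF t).2 ⟨h4, h⟩)
        have h2 := (hε t h4).self_of_nhds
        rw [h2.2.2, h5, pow_zero, one_smul]
        exact h2.2.1
      · exact hb t ht h4

end Pool.Agent.MP_c69980_ag.I2
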