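import Pool.Agent.MP_c69980_ag.I2.G0
import Pool.Agent.MP_c69980_ag.I2.CP
import Pool.Agent.MP_c69980_ag.I2.IA
import Pool.Agent.MP_c69980_ag.I2.CA
import Pool.Agent.MP_c69980_ag.I2.Wr
import Pool.Agent.MP_c69980_ag.I2.Res
import Pool.Agent.MP_c69980_ag.I2.Adj
import Pool.Agent.MP_c69980_ag.I2.Mov
import Pool.Agent.MP_c69980_ag.I2.Ker
import Pool.Agent.MP_c69980_ag.I2.Fw
import Pool.Agent.MP_c69980_ag.I2.Br
import Pool.Agent.MP_c69980_ag.I2.Xb
import Pool.Agent.MP_c69980_ag.I2.Par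
import Pool.Agent.MP_c69980_ag.I2.Sp
import Pool.Agent.MP_c69980_ag.I2.Max
import Pool.Agent.MP_c69980_ag.I2.Fb
import Pool.Agent.MP_c69980_ag.I2.Zg
import Pool.Agent.MP_c69980_ag.I2.Cl
import Pool.Agent.MP_c69980_ag.I2.Zv
import Pool.Agent.MP_c69980_ag.I2.Zc
import Pool.Agent.MP_c69980_ag.I2.Lc
import Pool.Agent.MP_c69980_ag.I2.Gv
import Pool.Agent.MP_c69980_ag.I2.Ult
import Pool.Agent.MP_c69980_ag.I2.Cnt
import Pool.Agent.MP_c69980_ag.I2.Ws
import Pool.Agent.MP_c69980_ag.I2.Stc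
import Pool.Agent.MP_c69980_ag.I2.Ng
import Pool.Agent.MP_c69980_ag.I2.Cur
import Pool.Agent.MP_c69980_ag.I2.Cf
import Pool.Agent.MP_c69980_ag.I2.Nf
import Pool.Agent.MP_c69980_ag.I2.Id
import Pool.Agent.MP_c69980_ag.I2.Ka
import Pool.Agent.MP_c69980_ag.I2.Av2
import Pool.Agent.MP_c69980_ag.I2.Bt
import Pool.Agent.MP_c69980_ag.I2.Lo
import Pool.Agent.MP_c69980_ag.I2.Wind
import Pool.Agent.MP_c69980_ag.I2.Deg
import Pool.Agent.MP_c69980_ag.I2.Log
import Pool.Agent.MP_c69980_ag.I2.Ad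
import Pool.Agent.MP_c69980_ag.I2.PE

/-!
Assembly of the block.
-/

set_option autoImplicit false

namespace Pool.Agent.MP_c69980_ag.I2

theorem br0 : BrStmt := brS g0S
theorem max0 : MaxStmt := maxS parS spS
theorem cl0 : ClStmt := clS max0
theorem st0 : StStmt := stS br0 xbS caS cpS iaS (fbS max0 resS) zgS
theorem set0 : SetStmt := setS br0 st0 (gvS max0 (lcS parS spS (zcS zvS)))
theorem id0 : IdStmt := idS (cntS ultS) (wsS zvS) ngS
theorem bb0 : BbStmt := bbS (kaS vlS stcS ngS (curS zvS) cl0) (avS' movS id0 ngS vlS)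
  (btS movS id0 ngS vlS stcS (curS zvS) cl0 resS)
theorem nf0 : NfStmt := nfS (adjS wrS resS)

theorem clsF : ClsF := clsS br0 st0 cl0

theorem windF : WindF ∧ WindBF :=
  windS set0 bb0 nf0 vlS stcS ngS (curS zvS) cl0 (wsS zvS) loS

theorem degF : DegF := degS set0 bb0 nf0 spS cfS kerS ngS

theorem out0 : OutStmt := outS br0 xbS caS cpS logS (adS windF.1 windF.2 degF ngS)

theorem pS (hl : E1.LatStmt) (hc : E2.CovStmt) (hg : E2.GStmt) (hb : E2.CritStmt) : E2.PStmt :=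
  pE hl hc hg hb fwS clsF out0

end Pool.Agent.MP_c69980_ag.I2
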