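import Pool.Agent.MP_c69980_ag.I2.SpecB
import Pool.Agent.MP_c69980_ag.E1.StarA
import Pool.Agent.MP_c69980_ag.E1.Sec
import Pool.Agent.MP_c69980_ag.E1.HL
import Pool.Agent.MP_c69980_ag.E1.Germ
import Pool.Agent.MP_c69980_ag.E1.Push
import Pool.Agent.MP_c69980_ag.E1.Chart

/-!
The adjunction identities for two sections over a disc.
-/

set_option autoImplicit false

noncomputable section

namespace Pool.Agent.MP_c69980_ag.I2

open MvPolynomial Metric Filter Topology Set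
open H60 H4 E1

namespace StcX

open StarAX

variable {n : ℕ} {X : Set (Pt n)} {a j : Fin n} {U : Set (ℂ × ℂ)} {Y : ℂ × ℂ → V n} {c : ℂ}
  {ρ r : ℝ} {s s' σ v v' : ℂ → V n}

lemma gs (hX : Cn X) (hN : NonregP X) (hr : ρ < r) (hs : Nm X (ball c r) s id) : Gs X c ρ s :=
  ⟨pc hr hs, fun _ ht => hs.rx hX hN isOpen_ball (closedBall_subset_ball hr ht)⟩

/-- The scalar of a vertical vector in the chart. -/
lemma scal (hX : Cn X) (hC : Chart X a j U Y) {p : ℂ × ℂ} {y w : V n} (hp : p ∈ U)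
    (hy : Pp y (Y p)) (hw : Vt X (p.1, y) w) :
    wg y w (j, a) ≠ 0 ∧ wg y w = wg y w (j, a) • wg (Y p) (dz Y p) := by
  obtain ⟨μ, μ0, e⟩ := hC.vt_pp hX hp hy hw
  have e2 : wg y w (j, a) = μ := by rw [e, Pi.smul_apply, hC.wg_dz hp, smul_eq_mul, mul_one]
  rw [e2]
  exact ⟨μ0, e⟩

lemma kap_ok (hX : Cn X) (hr : ρ < r) (hs : Nm X (ball c r) s id) (hC : Chart X a j U Y)
    (hv : VL X c ρ s v) {A : Set ℂ} (hA : A ⊆ closedBall c ρ) (h : ∀ t ∈ A, InC a j U Y s t) :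
    ContinuousOn (kap a j s v) A ∧ ∀ t ∈ A, kap a j s v t ≠ 0 := by
  have n1 : ∀ t ∈ A, s t j ^ 2 ≠ 0 := fun t ht => pow_ne_zero 2 (hC.eq (h t ht).1 (h t ht).2).1
  exact ⟨(continuousOn_pi.1 (hv.1.mono hA) (j, a)).div
    ((continuousOn_pi.1 ((cont hr hs).mono hA) j).pow 2) n1,
    fun t ht => div_ne_zero (scal hX hC (h t ht).1 (h t ht).2 (hv.2 t (hA ht))).1 (n1 t ht)⟩

/-- The degree for a section that misses the band. -/
lemma starA {ν : ℤ} {I J : ℕ} (hX : Cn X) (hN : NonregP X) (hρ : 0 < ρ) (hr : ρ < r)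
    (hC : Chart X a j U Y) (hs : Nm X (ball c r) s id) (hs' : Nm X (ball c r) s' id)
    (hσ : Nm X (ball c r) σ id) (hT : Tb a j U Y c ρ s s')
    (hm : ∀ q ∈ Bn c ρ, ¬Pp (σ q.2) (Y (q.2, zb a j s s' q)))
    (hν : Wn c ρ (fun t => s t j / s' t j) ν) (hI : Zv c ρ (fun t => wg (σ t) (s t)) I)
    (hJ : Zv c ρ (fun t => wg (σ t) (s' t)) J) :
    Cy (Xr X c ρ) c ρ (fun t => (t, s t)) (fun t => (t, s' t))
      (fun q => (q.2, Y (q.2, zb a j s s' q))) ∧ Ds X a j Y c ρ s s' σ (ν + J - I) := by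
  obtain ⟨t1, -, -, t4⟩ := tb hr hC hs hs' hT
  have cY : ContinuousOn (fun q : ℝ × ℂ => Y (q.2, zb a j s s' q)) (Bn c ρ) :=
    hC.cont.comp (continuousOn_snd.prodMk t4) hT.2
  have sb : ∀ q ∈ Bn c ρ, q.2 ∈ closedBall c ρ := fun q hq => sphere_subset_closedBall hq.2
  refine ⟨⟨px hr hs, px hr hs', ⟨continuousOn_snd, .of_cont cY fun q hq => hC.ne (hT.2 q hq),
    fun q hq => ⟨hC.mem (hT.2 q hq), mem_closedBall_iff_norm.1 (sb q hq)⟩⟩, fun t ht =>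
      ⟨rfl, ?_, rfl, ?_⟩⟩, ?_⟩
  · simp only [zb0]
    exact (hT.1 t ht).1.symm
  · simp only [zb1]
    exact (hT.1 t ht).2.symm
  obtain ⟨b, W, hb, hW, e⟩ := hI
  obtain ⟨b', W', hb', hW', e'⟩ := hJ
  simp only at e e'
  have w1 := Wind.prod hρ I b hb
  have w2 := Wind.prod hρ J b' hb'
  refine ⟨W, W', fun q => wg (σ q.2) (Y (q.2, zb a j s s' q)),
    fun t => s t j / ∏ i, (t - b i), fun t => s' t j / ∏ i, (t - b' i),
    lift sec hX hN hρ hr hs hσ hW e, lift sec hX hN hρ hr hs' hσ hW' e',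
    ⟨wg_contOn ((cont hr hσ).comp continuousOn_snd sb) cY, fun q hq => ⟨fun h0 => hm q hq
      ((wg_eq_zero (hσ.1.2 _ (closedBall_subset_ball hr (sb q hq))) (hC.ne (hT.2 q hq))).1
        h0).symm, .of_eq (if_neg fun h => hm q hq h.symm)⟩⟩, fun t ht => ⟨?_, ?_⟩,
    ((hν.mul hρ w2).div hρ w1).congr fun t ht => ?_⟩
  · simp only [zb0]
    rw [div_eq_inv_mul, mul_smul, ← wg_smul_right, ← (hC.eq (t1 t ht).1 (hT.1 t ht).1).2,
      (e t (sphere_subset_closedBall ht)).2, inv_smul_smul₀ (w1.ne hρ ht)]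
  · simp only [zb1]
    rw [div_eq_inv_mul, mul_smul, ← wg_smul_right, ← (hC.eq (t1 t ht).2 (hT.1 t ht).2).2,
      (e' t (sphere_subset_closedBall ht)).2, inv_smul_smul₀ (w2.ne hρ ht)]
  · have := w1.ne hρ ht
    have := w2.ne hρ ht
    have := (hC.eq (t1 t ht).2 (hT.1 t ht).2).1
    field_simp

/-- The degrees for the two sections themselves. -/
lemma starB {p p' : ℤ} (hX : Cn X) (hN : NonregP X) (hρ : 0 < ρ) (hr : ρ < r)
    (hC : Chart X a j U Y) (hs : Nm X (ball c r) s id) (hs' : Nm X (ball c r) s' id)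
    (hT : Tb a j U Y c ρ s s') (hv : VL X c ρ s v) (hv' : VL X c ρ s' v')
    (hp : Wn c ρ (fun t => wg (s t) (v t) (j, a)) p)
    (hp' : Wn c ρ (fun t => wg (s' t) (v' t) (j, a)) p') :
    ∃ d d' : ℤ, Ds X a j Y c ρ s s' s d ∧ Ds X a j Y c ρ s s' s' d' ∧ p - p' = d + d' := by
  obtain ⟨t1, t2, t3, t4⟩ := tb hr hC hs hs' hT
  have m : ∀ t ∈ sphere c ρ, (t, s t a / s t j) ∈ U ∧ Pp (s t) (Y (t, s t a / s t j)) :=
    fun t ht => ⟨(t1 t ht).1, (hT.1 t ht).1⟩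
  have m' : ∀ t ∈ sphere c ρ, (t, s' t a / s' t j) ∈ U ∧ Pp (s' t) (Y (t, s' t a / s' t j)) :=
    fun t ht => ⟨(t1 t ht).2, (hT.1 t ht).2⟩
  have rx := (gs hX hN hr hs).2
  have rx' := (gs hX hN hr hs').2
  obtain ⟨W, hW⟩ := hc hl _ c ρ _ (pcSS sec hX hN hr hs' hs)
  have hW' : Lf (closedBall c ρ) (fun t => SS X t (s' t) (s t)) W :=
    hW.congr fun t ht => (sec n X hX).2.2.1 _ _ _ (rx' t ht) (rx t ht)
  have b1 := band sec hX hC t2 t4 m hT.2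
  have b2 := band sec hX hC t3 t4 m' hT.2
  have e1 := fun t (ht : t ∈ sphere c ρ) =>
    scal hX hC (m t ht).1 (m t ht).2 (hv.2 t (sphere_subset_closedBall ht))
  have e2 := fun t (ht : t ∈ sphere c ρ) =>
    scal hX hC (m' t ht).1 (m' t ht).2 (hv'.2 t (sphere_subset_closedBall ht))
  have b3 := b1.comp (φ := fun t => ((1 : ℝ), t)) (L := sphere c ρ) (by fun_prop) fun t ht => bn1 ht
  simp only [zb1] at b3
  obtain ⟨q, c3, e3⟩ := ratio (hW.1.mono sphere_subset_closedBall) b3.1 (fun t ht => (b3.2 t ht).1)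
    fun t ht => ((hW.2 t (sphere_subset_closedBall ht)).2.symm.trans ((sec n X hX).2.1 _ _ _ _ _
      (rx t (sphere_subset_closedBall ht)) (.refl _) (m' t ht).2)).trans (b3.2 t ht).2
  obtain ⟨k, hk⟩ := Wind.ex hρ q c3 fun t ht => (e3 t ht).1
  refine ⟨p - k, k - p', ⟨_, W, _, fun t => wg (s t) (v t) (j, a), q, self hX hN hr hs hv, hW, b1,
    fun t ht => ⟨?_, ?_⟩, hp.div hρ hk⟩, ⟨W, _, _, q, fun t => wg (s' t) (v' t) (j, a), hW',
      self hX hN hr hs' hv', b2, fun t ht => ⟨?_, ?_⟩, hk.div hρ hp'⟩, by ring⟩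
  · simp only [zb0, dd_self]
    exact (e1 t ht).2
  · simp only [zb1]
    exact (e3 t ht).2
  · simp only [zb0]
    rw [dd_symm, wg_dd']
    exact (e3 t ht).2
  · simp only [zb1, dd_self]
    exact (e2 t ht).2

/-- The exterior product of the two sections over the circle. -/
lemma wg_circ (hr : ρ < r) (hC : Chart X a j U Y) (hs : Nm X (ball c r) s id)
    (hs' : Nm X (ball c r) s' id) (hT : Tb a j U Y c ρ s s') {t : ℂ} (ht : t ∈ sphere c ρ) :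
    wg (s t) (s' t) = (s t j * s' t j * dif a j s s' t) •
      wg (Y (t, s t a / s t j)) (dd Y t (s t a / s t j) (s' t a / s' t j)) := by
  obtain ⟨t1, -⟩ := tb hr hC hs hs' hT
  have e1 := (hC.eq (t1 t ht).1 (hT.1 t ht).1).2
  have e2 := (hC.eq (t1 t ht).2 (hT.1 t ht).2).2
  rw [mul_smul, dif, ← wg_dd, ← wg_smul, ← e1, ← e2]

/-- The degree for the first section, through the points where the two sections meet. -/
lemma starC {p α α' ω : ℤ} {H : ℕ} (hX : Cn X) (hN : NonregP X) (hρ : 0 < ρ) (hr : ρ < r)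
    (hC : Chart X a j U Y) (hs : Nm X (ball c r) s id) (hs' : Nm X (ball c r) s' id)
    (hT : Tb a j U Y c ρ s s') (hv : VL X c ρ s v)
    (hp : Wn c ρ (fun t => wg (s t) (v t) (j, a)) p) (hα : Wn c ρ (fun t => s t j) α)
    (hα' : Wn c ρ (fun t => s' t j) α') (hω : Wn c ρ (dif a j s s') ω)
    (hH : Zv c ρ (fun t => wg (s t) (s' t)) H) :
    Ds X a j Y c ρ s s' s (p - (α + α' + ω - H)) := by
  obtain ⟨t1, t2, -, t4⟩ := tb hr hC hs hs' hT
  have m : ∀ t ∈ sphere c ρ, (t, s t a / s t j) ∈ U ∧ Pp (s t) (Y (t, s t a / s t j)) :=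
    fun t ht => ⟨(t1 t ht).1, (hT.1 t ht).1⟩
  obtain ⟨b, W, hb, hW, e⟩ := hH
  simp only at e
  have w1 := Wind.prod hρ H b hb
  refine ⟨_, W, _, fun t => wg (s t) (v t) (j, a),
    fun t => s t j * s' t j * dif a j s s' t / ∏ i, (t - b i), self hX hN hr hs hv,
    lift sec hX hN hρ hr hs' hs hW e, band sec hX hC t2 t4 m hT.2, fun t ht => ⟨?_, ?_⟩,
    hp.div hρ (((hα.mul hρ hα').mul hρ hω).div hρ w1)⟩
  · simp only [zb0, dd_self]
    exact (scal hX hC (m t ht).1 (m t ht).2 (hv.2 t (sphere_subset_closedBall ht))).2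
  · simp only [zb1]
    rw [div_eq_inv_mul, mul_smul, ← wg_circ hr hC hs hs' hT ht,
      (e t (sphere_subset_closedBall ht)).2, inv_smul_smul₀ (w1.ne hρ ht)]

/-- The number of points where the two sections meet. -/
lemma exH {ω : ℤ} (hρ : 0 < ρ) (hr : ρ < r) (hC : Chart X a j U Y) (hs : Nm X (ball c r) s id)
    (hs' : Nm X (ball c r) s' id) (hT : Tb a j U Y c ρ s s') (hω : Wn c ρ (dif a j s s') ω) :
    ∃ H : ℕ, Zv c ρ (fun t => wg (s t) (s' t)) H ∧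
      ((∀ t ∈ ball c ρ, ¬Pp (s t) (s' t)) → H = 0) := by
  obtain ⟨t1, -⟩ := tb hr hC hs hs' hT
  have sub : ball c ρ ⊆ ball c r := ball_subset_ball hr.le
  obtain ⟨H, hH⟩ := fac (Wg n) c ρ (fun t => wg (s t) (s' t)) hρ
    (wg_contOn (cont hr hs) (cont hr hs')) (fun t ht => by
      rw [wg_circ hr hC hs hs' hT ht]
      exact smul_ne_zero (mul_ne_zero (mul_ne_zero (hC.eq (t1 t ht).1 (hT.1 t ht).1).1
        (hC.eq (t1 t ht).2 (hT.1 t ht).2).1) (hω.ne hρ ht)) (hC.wg_dd_ne (t1 t ht).1 (t1 t ht).2))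
    fun t ht => ⟨fun _ => 1, _, wg_an (Crv.an hs.1 isOpen_ball (sub ht))
      (Crv.an hs'.1 isOpen_ball (sub ht)),
      .of_forall fun w => ⟨continuousAt_const, one_ne_zero, (one_smul _ _).symm⟩⟩
  refine ⟨H, hH, fun h => Nat.eq_zero_of_not_pos fun h0 => ?_⟩
  obtain ⟨b, W, hb, -, e⟩ := hH
  have k := hb ⟨0, h0⟩
  have e2 := (e _ (ball_subset_closedBall k)).2
  rw [Finset.prod_eq_zero (Finset.mem_univ ⟨0, h0⟩) (sub_self _), zero_smul] at e2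
  exact h _ k ((wg_eq_zero (hs.1.2 _ (sub k)) (hs'.1.2 _ (sub k))).1 e2).symm

lemma wn_p {κ α : ℤ} (hρ : 0 < ρ) (hκ : Wn c ρ (kap a j s v) κ)
    (hα : Wn c ρ (fun t => s t j) α) : Wn c ρ (fun t => wg (s t) (v t) (j, a)) (κ + (2 : ℕ) * α) :=
  (hκ.mul hρ (hα.pow 2)).congr fun _ ht =>
    (div_mul_cancel₀ _ (pow_ne_zero 2 (hα.ne hρ ht))).symm

end StcX

open StcX StarAX

theorem vlS : VlStmt := by
  intro n X c ρ r s hX hN hρ hr hs
  refine ⟨?_, fun a j U Y v hC hv => ⟨fun h => ?_, fun h => ?_⟩⟩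
  · obtain ⟨p1, p2⟩ := gs hX hN hr hs
    obtain ⟨g, g1, g2⟩ := hc hl (Fin n × Fin n) c ρ _ (pcSS sec hX hN hr hs hs)
    have ex : ∀ t ∈ closedBall c ρ, ∃ κ : ℂ, κ ≠ 0 ∧ g t = κ • wg (s t) (tv X (t, s t)) :=
      fun t ht => (g2 t ht).2.symm.trans (.of_eq (SecX.pos (.refl _)))
    choose! κ hκ using ex
    exact ⟨fun t => κ t • tv X (t, s t),
      g1.congr fun t ht => (wg_smul_right _ _ _).trans (hκ t ht).2.symm,
      fun t ht => SecX.vt_smul hX (p2 t ht) (Rx.vt hX (p2 t ht)) (hκ t ht).1⟩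
  · obtain ⟨k1, k2⟩ := kap_ok hX hr hs hC hv sphere_subset_closedBall h
    exact Wind.ex hρ _ k1 k2
  · obtain ⟨k1, k2⟩ := kap_ok hX hr hs hC hv subset_rfl h
    exact Wind.disc hρ _ k1 k2

theorem stcS : StcStmt := by
  intro n X a j U Y c ρ r s s' σ v I J κ hX hN hρ hr hP hC hs hs' hσ hT hm c1 hv z1 z2 hκ
  obtain ⟨t1, -⟩ := tb hr hC hs hs' hT
  have h3 := rel sec (dg hl wind) (push near) (germ sec (dg hl wind))
  have h4 := (dg hl wind (Fin n × Fin n) c ρ hρ).1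
  obtain ⟨α, hα⟩ := Wind.ex hρ (fun t => s t j)
    (continuousOn_pi.1 ((cont hr hs).mono sphere_subset_closedBall) j)
    fun t ht => (hC.eq (t1 t ht).1 (hT.1 t ht).1).1
  obtain ⟨α', hα'⟩ := Wind.ex hρ (fun t => s' t j)
    (continuousOn_pi.1 ((cont hr hs').mono sphere_subset_closedBall) j)
    fun t ht => (hC.eq (t1 t ht).2 (hT.1 t ht).2).1
  have hν := hα.div hρ hα'
  obtain ⟨cy, d1⟩ := starA hX hN hρ hr hC hs hs' hσ hT hm hν z1 z2
  have d2 := (h3 n X c ρ σ s hX hρ hP (gs hX hN hr hσ) (gs hX hN hr hs) c1 c ρ _ _ _ _ hρ cy).1 d1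
  have hp := wn_p hρ hκ hα
  refine ⟨fun ω hω => ?_, fun σ' v' I' J' κ' hσ' hm' c2 hv' z3 z4 hκ' => ?_⟩
  · obtain ⟨H, hH, h0⟩ := exH hρ hr hC hs hs' hT hω
    have e := h4 _ _ _ _ _ (starC hX hN hρ hr hC hs hs' hT hv hp hα hα' hω hH) d2
    refine ⟨H, ?_, h0⟩
    push_cast at e
    linarith
  · obtain ⟨-, d3⟩ := starA hX hN hρ hr hC hs hs' hσ' hT hm' hν z3 z4
    have d4 := (h3 n X c ρ σ' s' hX hρ hP (gs hX hN hr hσ') (gs hX hN hr hs') c2 c ρ _ _ _ _ hρ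
      cy).1 d3
    obtain ⟨d, d', d5, d6, e⟩ := starB hX hN hρ hr hC hs hs' hT hv hv' hp (wn_p hρ hκ' hα')
    rw [h4 _ _ _ _ _ d5 d2, h4 _ _ _ _ _ d6 d4] at e
    push_cast at e
    linarith

end Pool.Agent.MP_c69980_ag.I2
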