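import Pool.Agent.MP_c69980_ag.I2.SpecB
import Pool.Agent.MP_c69980_ag.E1.WCA

/-!
Analytic parametrisation by two generators of the maximal ideal.
-/

set_option autoImplicit false

noncomputable section

namespace Pool.Agent.MP_c69980_ag.I2

open MvPolynomial Metric Filter Topology Set
open H60 H4 E1

namespace ParA

variable {n : ℕ}

/-- Points at a small distance are close after scaling. -/
lemma near {y : V n} (y0 : y ≠ 0) {P : V n → Prop} (h : ∀ᶠ w in 𝓝 y, P w) :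
    ∃ η : ℝ, 0 < η ∧ ∀ w, w ≠ 0 → d2 w y ≤ η → ∃ w', Pp w w' ∧ P w' := by
  obtain ⟨ε, ε0, hε⟩ := Metric.eventually_nhds_iff.1 (h.and (eventually_ne_nhds y0))
  have p := H84.sq_pos' y0
  refine ⟨ε ^ 2 / 2 / H4.sq y, by positivity, fun w w0 hw => ?_⟩
  have e := H84.d2_mul y0 w0
  rw [d2_symm, le_div_iff₀ p, e] at hw
  have k : dist ((ip y w / H4.sq w) • w) y < ε := by
    rw [dist_comm, dist_eq_norm, pi_norm_lt_iff ε0]
    intro i
    refine lt_of_pow_lt_pow_left₀ 2 ε0.le (lt_of_le_of_lt (le_trans ?_ hw) (by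
      linarith [pow_pos ε0 2]))
    exact Finset.single_le_sum (f := fun i => ‖(y - (ip y w / H4.sq w) • w) i‖ ^ 2)
      (fun _ _ => sq_nonneg _) (Finset.mem_univ i)
  exact ⟨_, (Pp.smul (fun q => (hε k).2 (by rw [q, zero_smul])) w).symm, (hε k).1⟩

lemma lin {E : Type} [NormedAddCommGroup E] [NormedSpace ℂ E] {x : E} {α β P Q u : E → ℂ}
    {P' Q' u' : E →L[ℂ] ℂ} (hα : DifferentiableAt ℂ α x) (hβ : DifferentiableAt ℂ β x)
    (hP : HasFDerivAt P P' x) (hQ : HasFDerivAt Q Q' x) (P0 : P x = 0) (Q0 : Q x = 0)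
    (hu : HasFDerivAt u u' x) (e : u =ᶠ[𝓝 x] fun w => α w * P w + β w * Q w) {v : E}
    (h1 : P' v = 0) (h2 : Q' v = 0) : u' v = 0 := by
  have h := (hα.hasFDerivAt.mul hP).add (hβ.hasFDerivAt.mul hQ)
  rw [hu.unique (h.congr_of_eventuallyEq e)]
  simp [P0, Q0, h1, h2]

variable {K : Type} [Field K] [Algebra ℂ K] {z : Fin n → K} {y : V n}

lemma vl_co (hy : On z y) (a : Fin n) {j : Fin n} (hj : y j ≠ 0) (c : ℂ) :
    vl z (z a / z j - algebraMap ℂ K c) y = y a / y j - c := by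
  have h1 : vl z (z a / z j) y = y a / y j := by
    simpa using vl_eq hy (isHomogeneous_X ℂ a) (isHomogeneous_X ℂ j) (by simpa using hj)
  have h2 : Reg z y (z a / z j) :=
    ⟨X a, X j, 1, isHomogeneous_X _ _, isHomogeneous_X _ _, by simpa using hj, by simp⟩
  rw [sub_eq_add_neg, ← map_neg, (vl_add hy h2 (vl_const hy _).1).2, h1, (vl_const hy _).2,
    sub_eq_add_neg]

lemma cone_pp {W : Set (PS n)} {w : V n} (h : Pp w y) (hy : y ∈ Cone W) : w ∈ Cone W := by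
  obtain ⟨c, c0, rfl⟩ := h
  exact WC.cone_smul hy c0

end ParA

open ParA in
theorem parS : ParStmt := by
  intro K _ _ N S br x p q gm
  obtain ⟨a, b, j, U, Y, ch, q0, hq0, hpp⟩ := br.wc _ (br.cone x)
  have hY0 : Pp (Y q0) x.z := hpp.symm
  have hU : U ∈ 𝓝 q0 := ch.1.mem_nhds hq0
  have onU : ∀ r ∈ U, On S.z (Y r) := fun r hr => Cone.on S.gen (ch.2.2 r hr).2.2.2.1
  have onx : On S.z x.z := Cone.on S.gen (br.cone x)
  have an : ∀ f ∈ x.ctr.O, AnalyticAt ℂ (fun w => vl S.z f (Y w)) q0 ∧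
      ∀ᶠ w in 𝓝 q0, Reg S.z (Y w) f := fun f hf =>
    vl_an (ch.2.1 q0 hq0) (mem_of_superset hU onU) ((br.reg x _ f hY0).1 hf)
  have val0 : ∀ f ∈ x.ctr.O, vl S.z f (Y q0) = vl S.z f x.z := fun f hf =>
    hY0.vl onx ((br.reg x _ f (.refl _)).1 hf)
  obtain ⟨hp, hq, p0, q0', hg⟩ := gm
  have P0 : vl S.z p (Y q0) = 0 := (val0 p hp).trans p0
  have Q0 : vl S.z q (Y q0) = 0 := (val0 q hq).trans q0'
  have dP := (an p hp).1.differentiableAt.hasFDerivAt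
  have dQ := (an q hq).1.differentiableAt.hasFDerivAt
  have key : ∀ f ∈ x.ctr.O, vl S.z f x.z = 0 → ∀ (u : ℂ × ℂ → ℂ) (u' : ℂ × ℂ →L[ℂ] ℂ),
      HasFDerivAt u u' q0 → (∀ r ∈ U, vl S.z f (Y r) = u r) → ∀ v,
      fderiv ℂ (fun w => vl S.z p (Y w)) q0 v = 0 → fderiv ℂ (fun w => vl S.z q (Y w)) q0 v = 0 →
      u' v = 0 := by
    intro f hf f0 u u' hu e v h1 h2
    obtain ⟨α, hα, β, hβ, rfl⟩ := hg f hf f0
    refine lin (an α hα).1.differentiableAt (an β hβ).1.differentiableAt dP dQ P0 Q0 hu ?_ h1 h2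
    filter_upwards [hU, (an α hα).2, (an β hβ).2, (an p hp).2, (an q hq).2] with r r0 r1 r2 r3 r4
    have o := onU r r0
    rw [← e r r0, (vl_add o (vl_mul o r1 r3).1 (vl_mul o r2 r4).1).2, (vl_mul o r1 r3).2,
      (vl_mul o r2 r4).2]
  obtain ⟨-, ⟨u1, u2, v1, v2, -⟩, -⟩ := br.jac a b j U Y ch q0 hq0 x hY0
  have co : ∀ r ∈ U, ∀ (i : Fin (N + 1)) (c : ℂ),
      vl S.z (S.z i / S.z j - algebraMap ℂ K c) (Y r) = Y r i - c := fun r hr i c => by
    rw [vl_co (onU r hr) i (by rw [(ch.2.2 r hr).1]; exact one_ne_zero), (ch.2.2 r hr).1, div_one]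
  have aF : AnalyticAt ℂ (fun w => (vl S.z p (Y w), vl S.z q (Y w))) q0 :=
    (an p hp).1.prod (an q hq).1
  obtain ⟨g, g1, g2, g3⟩ := WC.inv aF (dP.prodMk dQ) (fun v hv => by
    have h1 := congrArg Prod.fst hv
    have h2 := congrArg Prod.snd hv
    exact Prod.ext
      (key _ u1 v1 (fun r => r.1 - q0.1) _ (hasFDerivAt_fst.sub_const _)
        (fun r hr => by rw [co r hr, (ch.2.2 r hr).2.1]) v h1 h2)
      (key _ u2 v2 (fun r => r.2 - q0.2) _ (hasFDerivAt_snd.sub_const _)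
        (fun r hr => by rw [co r hr, (ch.2.2 r hr).2.2.1]) v h1 h2)) rfl
  have F0 : ((vl S.z p (Y q0), vl S.z q (Y q0)) : ℂ × ℂ) = 0 := by rw [P0, Q0]; rfl
  have g0 : g 0 = q0 := by
    have := g2.self_of_nhds
    rwa [F0] at this
  rw [F0] at g1 g3
  have gt : Tendsto g (𝓝 0) (𝓝 q0) := g0 ▸ g1.continuousAt.tendsto
  have aG : AnalyticAt ℂ (fun w => Y (g w)) 0 := (ch.2.1 q0 hq0).comp_of_eq g1 g0
  obtain ⟨ε, ε0, hε⟩ := Metric.eventually_nhds_iff_ball.1 (aG.eventually_analyticAt.and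
    (g3.and (gt.eventually (((an p hp).2.and (an q hq).2).and hU))))
  refine ⟨fun w => Y (g w), ε, ε0, fun w hw => (hε w hw).1, fun w hw => ?_, ?_, fun ε' hε' => ?_⟩
  · obtain ⟨-, h1, ⟨h2, h3⟩, h4⟩ := hε w hw
    exact ⟨(ch.2.2 _ h4).2.2.2.1, h2, h3, congrArg Prod.fst h1, congrArg Prod.snd h1⟩
  · rw [g0]
    exact hY0
  · obtain ⟨c1, c2, c3, c4, c5⟩ := ch.2.2 q0 hq0
    have cj : Y q0 j ≠ 0 := by rw [c1]; exact one_ne_zero
    have t3 : ∀ i, ContinuousAt (fun w : V (N + 1) => w i) (Y q0) := fun i =>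
      (continuous_apply i).continuousAt
    have t1 : Tendsto (fun w : V (N + 1) => (w a / w j, w b / w j)) (𝓝 (Y q0)) (𝓝 q0) := by
      have c : ContinuousAt (fun w : V (N + 1) => (w a / w j, w b / w j)) (Y q0) :=
        ((t3 a).div (t3 j) cj).prodMk ((t3 b).div (t3 j) cj)
      have := c.tendsto
      rwa [c1, c2, c3, div_one, div_one] at this
    have t2 : ∀ᶠ r in 𝓝 q0, ((vl S.z p (Y r), vl S.z q (Y r)) : ℂ × ℂ) ∈ ball 0 ε' :=
      aF.continuousAt.tendsto.eventually (by rw [F0]; exact ball_mem_nhds 0 hε')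
    obtain ⟨η, η0, hη⟩ := near c4.1 ((c5.and ((t3 j).eventually_ne cj)).and
      (t1.eventually ((((an p hp).2.and (an q hq).2).and hU).and (t2.and g2))))
    refine ⟨η, η0, fun y hy hd => ?_⟩
    obtain ⟨w, w1, ⟨w2, w3⟩, ⟨⟨w4, w5⟩, w6⟩, w7, w8⟩ := hη y hy.1
      (by rw [(Pp.refl y).d2 hY0]; exact hd.le)
    have w9 : Pp y (Y (w a / w j, w b / w j)) := w1.trans ⟨_, w3, w2 (cone_pp w1.symm hy)⟩
    have o := onU _ w6
    rw [w9.vl o w4, w9.vl o w5, w8]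
    exact ⟨w9.reg w4, w9.reg w5, w7, w9⟩

end Pool.Agent.MP_c69980_ag.I2
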