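import Pool.Agent.MP_c69980_ag.I2.SpecC
import Pool.Agent.MP_c69980_ag.E1.Wind

/-!
Row Ad: from the winding numbers of logarithmic forms to those of the analytic forms.
-/

set_option autoImplicit false

noncomputable section

namespace Pool.Agent.MP_c69980_ag.I2

open MvPolynomial Metric Filter Topology Set
open H60 H4 E1

namespace Ad

variable {K : Type} [Field K] [Algebra ℂ K] {N : ℕ} {d : FD K N} {U : Set (PS (N + 1))} {m : ℕ}
  {h : Fin 3 → K} {Φ : Fin 3 → Pt (N + 1) → V (N + 1) → ℂ} {B : Finset (CC d.z)}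
  {a j : Fin (N + 1)} {O : Set (ℂ × ℂ)} {Y : ℂ × ℂ → V (N + 1)} {u : Ultrafilter ℕ} {r r' : ℝ}
  {s s' : ℕ → ℂ → V (N + 1)} {g : ℂ → V (N + 1)} {Q : PR 3} {e : ℕ}

theorem comb {P P' R : ℕ → ℝ → Prop} (hP : Ev u P) (hQ : Ev u P')
    (H : ∀ k ρ, 0 < ρ → P k ρ → P' k ρ → R k ρ) : Ev u R := by
  obtain ⟨ρ₀, h0, h1⟩ := hP
  obtain ⟨ρ₀', h0', h1'⟩ := hQ
  refine ⟨min ρ₀ ρ₀', lt_min h0 h0', fun ρ₁ hρ => ?_⟩
  filter_upwards [h1 ρ₁ hρ, h1' ρ₁ hρ] with k k1 k2 ρ hm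
  exact H k ρ (hρ.trans_le hm.1) (k1 ρ ⟨hm.1, hm.2.trans (min_le_left _ _)⟩)
    (k2 ρ ⟨hm.1, hm.2.trans (min_le_right _ _)⟩)

theorem cone_pp {y w : V (N + 1)} (hy : y ∈ Cone U) (H : Pp w y) : w ∈ Cone U := by
  obtain ⟨y0, hy⟩ := hy
  refine ⟨H.ne y0, ?_⟩
  obtain ⟨c, c0, rfl⟩ := H
  rwa [(Projectivization.mk_eq_mk_iff' ℂ _ _ _ y0).2 ⟨c, rfl⟩]

/-- The coefficient of the form in a chart. -/
theorem key (hb : Br d.toSf) (hx : Xb d) (hl : Lg d.toSf U m h B) (hk : KF d m h Φ)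
    (hQ : Q.IsHomogeneous e) (hc : Chart d.X a j O Y) {p : ℂ × ℂ} (hp : p ∈ O)
    (h1 : p.1 ∈ ball d.b d.r₀) (hU : Y p ∈ Cone U) :
    On d.z (Y p) ∧ Reg d.z (Y p) (cf d (aeval h Q) (m * e : ℕ) 0 a j) ∧
      E2.qq Φ Q Y p =
        deriv d.ψ p.1 ^ (m * e) * vl d.z (cf d (aeval h Q) (m * e : ℕ) 0 a j) (Y p) := by
  have hW : Y p ∈ Cone d.W := (d.gr _ (hc.mem hp)).1
  have hy : On d.z (Y p) := Cone.on d.gen hW
  obtain ⟨x, hpp⟩ := hb.pt _ hW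
  obtain ⟨hg, -, hj⟩ := hx.gen a j O Y hc p hp h1 x hpp
  have r1 : Reg d.z (Y p) d.τ := (d.reg _ (hc.mem hp) h1).1
  have r2 : Reg d.z (Y p) (d.z a / d.z j) :=
    ⟨X a, X j, 1, isHomogeneous_X _ _, isHomogeneous_X _ _, by simp [hc.yj hp], by simp⟩
  have r3 : ∀ i, Reg d.z (Y p) (h i / Wd d.D d.τ (d.z a / d.z j) ^ m) := fun i =>
    (hb.reg x _ _ hpp).1 (hl.reg x (cone_pp hU hpp.symm) _ hg i)
  have e1 := hj _ ((hb.reg x _ _ hpp).2 r1) _ ((hb.reg x _ _ hpp).2 r2)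
  have v1 : vl d.z (1 : K) (Y p) = 1 := by simpa using (vl_const hy 1).2
  rw [div_self hg.1, v1, one_mul] at e1
  have e2 : cf d (aeval h Q) (m * e : ℕ) 0 a j =
      aeval (fun l => h l / Wd d.D d.τ (d.z a / d.z j) ^ m) Q := by
    rw [cf, zpow_zero, one_mul, zpow_natCast, pow_mul, div_eq_inv_mul, ← inv_pow,
      ← aeval_scale hQ]
    exact congrArg (fun v => aeval v Q) (funext fun l => (div_eq_inv_mul _ _).symm)
  have e3 := vl_aeval hy r3 Q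
  rw [← e2] at e3
  refine ⟨hy, e3.1, ?_⟩
  rw [e3.2, pow_mul, ← eval_smul_hom hQ, E2.qq]
  refine congrArg (fun v => eval v Q) (funext fun l => ?_)
  rw [hk a j O Y hc p hp l _ _ r1 r2 hg.1 (r3 l), ← e1, mul_comm]
  rfl

theorem sit (hB : E2.Bs d.X U u d.b r s g a j O Y) {rp : ℝ} (hp : Pun d.X d.b rp) (h0 : 0 < r')
    (h1 : r' ≤ r) (h2 : r' ≤ d.r₀) (h3 : r' ≤ rp) : Sit d r' a j O Y g :=
  ⟨h0, h2, fun x hx => hp x ⟨hx.1, hx.2.trans h3⟩, hB.hg.mono (ball_subset_ball h1), hB.ch,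
    hB.mem, hB.pp⟩

theorem cg (hB : E2.Bs d.X U u d.b r s g a j O Y) (h1 : r' ≤ r) : Cg d u r' s g :=
  ⟨fun k => Nm.mono ⟨(hB.hs k).1, (hB.hs k).2.1, fun z hz => ((hB.hs k).2.2 z hz).1⟩
    (ball_subset_ball h1), hB.cv.mono (sdiff_subset_sdiff_left (ball_subset_ball h1))⟩

theorem ms (hl : Lg d.toSf U m h B) (hB : E2.Bs d.X U u d.b r s g a j O Y) (h1 : r' ≤ r) :
    Ms d B r' s := fun k t ht =>
  have := (hB.hs k).2.2 t (ball_subset_ball h1 ht)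
  (hl.off _ (d.gr _ this.1).1).1 this.2

theorem off (hb : Br d.toSf) (hl : Lg d.toSf U m h B) (hg : Nm d.X (ball d.b r) g id)
    (h0 : 0 < r') (h1 : r' ≤ r) (H : ∃ t ∈ ball d.b r, g t ∈ Cone U) :
    ∃ t ∈ ball d.b r', Off B (g t) := by
  obtain ⟨t₀, ht, hU⟩ := H
  have hW : g t₀ ∈ Cone d.W := (d.gr _ (hg.2.2 t₀ ht)).1
  obtain ⟨x, hpp⟩ := hb.pt _ hW
  have h2 : ∀ᶠ w in 𝓝[≠] d.b, ∀ C ∈ B, ∀ x' : PP d.z, x'.On C → ¬Pp (g w) x'.z := by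
    refine (eventually_all_finset B).2 fun C hC => ?_
    obtain ⟨A, hA, hP, hv⟩ := hb.g0.sep x C fun hn => (hl.off _ hW).1 hU C hC x hn hpp
    rcases (crv_lh hg.1 isOpen_ball).iden_eval (convex_ball _ _).isPreconnected hA with h3 | h3
    · exact absurd ((hpp.eval hA).1 (h3 t₀ ht)) hv
    · exact (h3 d.b (mem_ball_self (h0.trans_le h1))).mono fun w hw x' hx' q =>
        hw ((q.eval hA).2 (hx' _ A hA hP))
  obtain ⟨w, w1, w2⟩ := (h2.and (nhdsWithin_le_nhds (ball_mem_nhds d.b h0))).exists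
  exact ⟨w, w2, w1⟩

theorem van (hb : Br d.toSf) (hx : Xb d) (hl : Lg d.toSf U m h B) (hk : KF d m h Φ)
    (hQ : Q.IsHomogeneous e) (H : VanL d U Φ Q) : VanF d B (aeval h Q) (m * e) := by
  intro a j O Y ζ hc hp ho
  have hU := (hl.off _ (d.gr _ (hc.mem hp)).1).2 ho
  have h1 := (key hb hx hl hk hQ hc hp (mem_ball_self d.r0) hU).2.2
  rw [H a j O Y hc ζ hp hU] at h1
  exact (mul_eq_zero.1 h1.symm).resolve_left
    (pow_ne_zero _ (d.an _ (mem_ball_self d.r0)).2.1)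

theorem pos (hN : NgStmt) (hb : Br d.toSf) (hx : Xb d) (hl : Lg d.toSf U m h B)
    (hk : KF d m h Φ) (hQ : Q.IsHomogeneous e) (hB : E2.Bs d.X U u d.b r s g a j O Y)
    (hS : Sit d r' a j O Y g) (h1 : r' ≤ r)
    (H : aeval h Q ≠ 0 → Pos d B (aeval h Q) (m * e) u a j s s') :
    PosL d U Φ Q (m * e) u a j Y s s' := by
  have hE := (hN K N d u r' a j O Y g s hb hx hS (cg hB h1)).2.1
  have hG : ∀ k ρ, ρ < r' → (∀ t ∈ sphere d.b ρ, InC a j O Y (s k) t) → ∀ t ∈ sphere d.b ρ,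
      On d.z (s k t) ∧ E2.Gf Φ Q (m * e) a j Y (s k) (s' k) t = deriv d.ψ t ^ (m * e) *
        (dif a j (s k) (s' k) t ^ (m * e) *
          vl d.z (cf d (aeval h Q) (m * e : ℕ) 0 a j) (s k t)) := by
    intro k ρ hρ hI t ht
    have h2 : t ∈ ball d.b r' := mem_ball.2 ((mem_sphere.1 ht).trans_lt hρ)
    obtain ⟨i1, i2⟩ := hI t ht
    obtain ⟨k1, k2, k3⟩ := key hb hx hl hk hQ hB.ch i1 (ball_subset_ball hS.rr h2)
      (cone_pp ((hB.hs k).2.2 t (ball_subset_ball h1 h2)).2 i2.symm)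
    refine ⟨i2.on k1, ?_⟩
    rw [E2.Gf, k3, i2.vl k1 k2, dif, mul_left_comm]
  by_cases h0 : aeval h Q = 0
  · refine comb hE hE fun k ρ hρ k1 _ w hw => ?_
    have ht : d.b + ρ ∈ sphere d.b ρ := by simp [abs_of_pos hρ]
    obtain ⟨k2, k3⟩ := hG k ρ k1.1 k1.2.1 _ ht
    have v0 : vl d.z (0 : K) (s k (d.b + ρ)) = 0 := by simpa using (vl_const k2 0).2
    rw [h0, cf, zero_div, v0, mul_zero, mul_zero] at k3
    exact absurd k3 (hw.ne hρ ht)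
  · refine comb hE (H h0) fun k ρ hρ k1 k2 w hw => ?_
    have h3 : ∀ t ∈ closedBall d.b ρ, t ∈ ball d.b d.r₀ := fun t ht =>
      mem_ball.2 ((mem_closedBall.1 ht).trans_lt (k1.1.trans_le hS.rr))
    have h4 : Wn d.b ρ (fun t => deriv d.ψ t ^ (m * e)) 0 :=
      Wind.disc hρ _ (fun t ht => ((d.an t (h3 t ht)).1.deriv.continuousAt.pow _).continuousWithinAt)
        fun t ht => pow_ne_zero _ (d.an t (h3 t ht)).2.1
    have h5 := hw.div hρ h4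
    rw [sub_zero] at h5
    have h6 := k2 w (h5.congr fun t ht => by
      rw [(hG k ρ k1.1 k1.2.1 t ht).2, mul_div_cancel_left₀ _ (h4.ne hρ ht)])
    exact ⟨h6.1, fun hv => h6.2 (van hb hx hl hk hQ hv)⟩

end Ad

theorem adS : AdOf := by
  intro hW hWB hD hN K _ _ N d U m h Φ B hb hx hl hk ⟨rp, hrp, hp⟩
  have h0 : ∀ {r : ℝ}, 0 < r → 0 < min r (min d.r₀ rp) := fun hr => lt_min hr (lt_min d.r0 hrp)
  have hS : ∀ {u r s g a j O Y}, E2.Bs d.X U u d.b r s g a j O Y →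
      Sit d (min r (min d.r₀ rp)) a j O Y g := fun hB =>
    Ad.sit hB hp (h0 hB.r0) (min_le_left _ _) ((min_le_right _ _).trans (min_le_left _ _))
      ((min_le_right _ _).trans (min_le_right _ _))
  refine ⟨fun Q e u r s s' g a j O Y he hQ hB hB' H => ?_, fun Q e u r s g a j O Y he hQ hB => ?_,
    fun u r s g a j O Y hB => ?_⟩
  · exact Ad.pos hN hb hx hl hk hQ hB (hS hB) (min_le_left _ _) fun h1 =>
      hW K N d B _ _ u _ a j O Y g s s' (hl.log Q e he hQ h1) (hS hB) (Ad.cg hB (min_le_left _ _))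
        (Ad.cg hB' (min_le_left _ _)) (Ad.ms hl hB (min_le_left _ _))
        (Ad.ms hl hB' (min_le_left _ _)) (Ad.off hb hl hB.hg (h0 hB.r0) (min_le_left _ _) H)
  · exact Ad.pos hN hb hx hl hk hQ hB (hS hB) (min_le_left _ _) fun h1 =>
      hWB K N d B _ _ u _ a j O Y g s (hl.log Q e he hQ h1) (hS hB) (Ad.cg hB (min_le_left _ _))
        (Ad.ms hl hB (min_le_left _ _))
  · exact hD K N d B _ _ u _ a j O Y g s
      (hl.log (X 0) 1 one_pos (isHomogeneous_X _ _) (by simpa using hl.h0)) (hS hB)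
      (Ad.cg hB (min_le_left _ _)) (Ad.ms hl hB (min_le_left _ _))

end Pool.Agent.MP_c69980_ag.I2
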