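import Pool.Agent.MP_c69980_ag.I2.SpecB

/-!
The multiplicity of a bubble at a smooth point of a component: estimates near the point.
-/

set_option autoImplicit false

noncomputable section

namespace Pool.Agent.MP_c69980_ag.I2

open MvPolynomial Metric Filter Topology Set
open H60 H4 E1

namespace Lc

variable {K : Type} [Field K] [Algebra ℂ K] {N : ℕ}

section Surf

variable {S : Sf K N} {x : PP S.z} {p q f : K} {Γ : ℂ × ℂ → V (N + 1)} {ε : ℝ}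

theorem z_ne (hB : Br S) (x : PP S.z) : x.z ≠ 0 := (hB.cone x).1

theorem z_on (hB : Br S) (x : PP S.z) : On S.z x.z := Cone.on S.gen (hB.cone x)

theorem z_reg (hB : Br S) (x : PP S.z) (f : K) : f ∈ x.ctr.O ↔ Reg S.z x.z f :=
  hB.reg x x.z f (.refl _)

theorem vl_sub {y : V (N + 1)} (hy : On S.z y) (h : Reg S.z y f) (c : ℂ) :
    Reg S.z y (f - algebraMap ℂ K c) ∧ vl S.z (f - algebraMap ℂ K c) y = vl S.z f y - c := by
  have h1 := vl_add hy h (vl_const hy (-c)).1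
  rw [(vl_const hy (-c)).2, map_neg, ← sub_eq_add_neg, ← sub_eq_add_neg] at h1
  exact h1

theorem par_on (hP : Par S x p q Γ ε) {w : ℂ × ℂ} (hw : w ∈ ball (0 : ℂ × ℂ) ε) :
    ∀ᶠ w' in 𝓝 w, On S.z (Γ w') :=
  mem_of_superset (isOpen_ball.mem_nhds hw) fun w' h => Cone.on S.gen (hP.val w' h).1

/-- Regular functions are continuous. -/
theorem near_reg (hB : Br S) (hP : Par S x p q Γ ε) (hf : f ∈ x.ctr.O) {η : ℝ} (hη : 0 < η) :
    ∃ δ : ℝ, 0 < δ ∧ ∀ y ∈ Cone S.W, d2 y x.z < δ →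
      Reg S.z y f ∧ ‖vl S.z f y - vl S.z f x.z‖ < η := by
  have h0 : (0 : ℂ × ℂ) ∈ ball (0 : ℂ × ℂ) ε := mem_ball_self hP.e0
  obtain ⟨h1, h2⟩ := vl_an (hP.an 0 h0) (par_on hP h0) ((hB.reg x (Γ 0) f hP.zero).1 hf)
  have h3 := Metric.tendsto_nhds.1 h1.continuousAt η hη
  beta_reduce at h3
  rw [hP.zero.vl (z_on hB x) ((z_reg hB x f).1 hf)] at h3
  obtain ⟨e, e0, he⟩ := Metric.eventually_nhds_iff_ball.1 ((h2.and h3).and (par_on hP h0))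
  obtain ⟨δ, δ0, hδ⟩ := hP.near e e0
  refine ⟨δ, δ0, fun y hy hd => ?_⟩
  obtain ⟨-, -, a, b⟩ := hδ y hy hd
  obtain ⟨⟨c1, c2⟩, c3⟩ := he _ a
  refine ⟨b.reg c1, ?_⟩
  rw [b.vl c3 c1, ← dist_eq_norm]
  exact c2

/-- The parametrisation is continuous. -/
theorem near_par (hP : Par S x p q Γ ε) {w₀ : ℂ × ℂ} (hw : w₀ ∈ ball (0 : ℂ × ℂ) ε)
    {y : V (N + 1)} (hy : y ≠ 0) {δ : ℝ} (hδ : d2 (Γ w₀) y < δ) :
    ∀ᶠ w in 𝓝 w₀, d2 (Γ w) y < δ :=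
  (d2_lim (hP.an w₀ hw).continuousAt tendsto_const_nhds (hP.val w₀ hw).1.1 hy).eventually
    (gt_mem_nhds hδ)

theorem v_pow (hB : Br S) (C : CC S.z) (hp : p ≠ 0) (m : ℕ) : C.v (p ^ m) = m * C.v p := by
  induction m with
  | zero =>
    have h := hB.g0.va.mul C 1 1 one_ne_zero one_ne_zero
    rw [mul_one] at h
    rw [pow_zero, Nat.cast_zero, zero_mul]
    omega
  | succ m ih =>
    rw [pow_succ, hB.g0.va.mul C _ _ (pow_ne_zero m hp) hp, ih]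
    push_cast
    ring

/-- The second parameter is a parameter at the neighbouring points of the curve. -/
theorem ord_one (hSp : SpStmt) (hB : Br S) {C : CC S.z} (hS : Sp S x C p q)
    (hP : Par S x p q Γ ε) : ∃ δ : ℝ, 0 < δ ∧ ∀ (x' : PP S.z) (c : ℂ), x'.On C →
      d2 x'.z x.z < δ → IsDiscreteValuationRing (C.loc x') → ((0 : ℂ), c) ∈ ball (0 : ℂ × ℂ) ε →
      Pp x'.z (Γ (0, c)) → C.res (q - algebraMap ℂ K c) ≠ 0 →
      C.ordAt x' (C.res (q - algebraMap ℂ K c)) = 1 := by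
  obtain ⟨δ, δ0, hδ⟩ := hS.on
  refine ⟨δ, δ0, fun x' c hx' hd hD hc hp hr => ?_⟩
  obtain ⟨p', q', hS'⟩ := hSp K N S hB x' C hx' hD
  have hv := hP.val _ hc
  have o0 : On S.z (Γ (0, c)) := Cone.on S.gen hv.1
  have hf : q - algebraMap ℂ K c ∈ x'.ctr.O :=
    (hB.reg x' _ _ hp.symm).2 (vl_sub o0 hv.2.2.1 c).1
  obtain ⟨e, α, β, hα, hβ, a0, he, ho⟩ := hS'.ord _ hf hr
  rw [ho]
  have hi : AnalyticAt ℂ (fun η : ℂ => ((0 : ℂ), η)) c := analyticAt_const.prod analyticAt_id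
  have hγ : AnalyticAt ℂ (fun η : ℂ => Γ (0, η)) c :=
    AnalyticAt.comp (f := fun η : ℂ => ((0 : ℂ), η)) (hP.an _ hc) hi
  have hb : ∀ᶠ η : ℂ in 𝓝 c, ((0 : ℂ), η) ∈ ball (0 : ℂ × ℂ) ε :=
    hi.continuousAt.eventually (isOpen_ball.mem_nhds hc)
  have hon : ∀ᶠ η : ℂ in 𝓝 c, On S.z (Γ (0, η)) :=
    hb.mono fun η h => Cone.on S.gen (hP.val _ h).1
  have an : ∀ g ∈ x'.ctr.O, AnalyticAt ℂ (fun η : ℂ => vl S.z g (Γ (0, η))) c ∧
      ∀ᶠ η : ℂ in 𝓝 c, Reg S.z (Γ (0, η)) g := fun g hg =>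
    vl_an hγ hon ((hB.reg x' _ g hp.symm).1 hg)
  have vc : ∀ g ∈ x'.ctr.O, vl S.z g (Γ (0, c)) = vl S.z g x'.z := fun g hg =>
    hp.symm.vl (z_on hB x') ((z_reg hB x' g).1 hg)
  have hd' : ∀ᶠ η : ℂ in 𝓝 c, d2 (Γ (0, η)) x.z < δ :=
    hi.continuousAt.eventually (near_par hP hc (z_ne hB x) (by rwa [← hp.d2 (.refl x.z)]))
  have key : (fun η : ℂ => η - c) =ᶠ[𝓝 c]
      fun η => vl S.z α (Γ (0, η)) * vl S.z q' (Γ (0, η)) ^ e := by
    filter_upwards [hb, hon, hd', (an α hα).2, (an β hβ).2, (an p' hS'.gm.1).2,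
      (an q' hS'.gm.2.1).2] with η b1 b2 b3 r1 r2 r3 r4
    have hw := hP.val _ b1
    obtain ⟨x'', hx''⟩ := hB.pt _ hw.1
    have h1 : x''.On C := by
      refine (hδ x'' (by rwa [← hx''.d2 (.refl x.z)])).2.2 ?_
      rw [hx''.symm.vl b2 hw.2.1, hw.2.2.2.1]
    have h2 : vl S.z p' (Γ (0, η)) = 0 := by
      rw [← hx''.symm.vl b2 r3]
      exact hB.von x'' C p' h1 ((hB.reg x'' _ p' hx'').2 r3) hS'.res.1
    have h3 := (vl_sub b2 hw.2.2.1 c).2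
    rw [hw.2.2.2.2, he, (vl_add b2 (vl_mul b2 r1 (vl_pow b2 r4 e).1).1 (vl_mul b2 r2 r3).1).2,
      (vl_mul b2 r1 (vl_pow b2 r4 e).1).2, (vl_mul b2 r2 r3).2, (vl_pow b2 r4 e).2, h2, mul_zero,
      add_zero] at h3
    exact h3.symm
  have q0 : vl S.z q' (Γ (0, c)) = 0 := by rw [vc q' hS'.gm.2.1, hS'.gm.2.2.2.1]
  rcases e with _ | _ | e
  · have h := key.self_of_nhds
    simp only [sub_self, pow_zero, mul_one] at h
    rw [vc α hα] at h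
    exact (a0 h.symm).elim
  · rfl
  · exfalso
    have h1 := ((an α hα).1.differentiableAt.hasDerivAt.mul
      ((an q' hS'.gm.2.1).1.differentiableAt.hasDerivAt.fun_pow (e + 1 + 1))).congr_of_eventuallyEq key
    have h2 := h1.unique ((hasDerivAt_id c).sub_const c)
    simp [q0] at h2

end Surf

section Fib

variable {d : FD K N} {x : PP d.z} {p q f : K} {Γ : ℂ × ℂ → V (N + 1)} {ε r δ : ℝ}
  {s g : ℂ → V (N + 1)} {t : ℂ}

theorem s_cone (hs : Nm d.X (ball d.b r) s id) (ht : t ∈ ball d.b r) : s t ∈ Cone d.W :=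
  (d.gr _ (hs.2.2 t ht)).1

theorem s_on (hs : Nm d.X (ball d.b r) s id) (ht : t ∈ ball d.b r) : On d.z (s t) :=
  Cone.on d.gen (s_cone hs ht)

theorem s_an (hs : Nm d.X (ball d.b r) s id) (ht : t ∈ ball d.b r) (hf : Reg d.z (s t) f) :
    AnalyticAt ℂ (fun t => vl d.z f (s t)) t :=
  (vl_an (Crv.an hs.1 isOpen_ball ht)
    (mem_of_superset (isOpen_ball.mem_nhds ht) fun _ h => s_on hs h) hf).1

theorem ob_ball (hr : δ ≤ r) (ht : t ∈ Ob d s x δ) : t ∈ ball d.b r :=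
  mem_ball_iff_norm.2 (ht.1.trans_le hr)

theorem ob_mono {δ' : ℝ} (h : δ ≤ δ') : Ob d s x δ ⊆ Ob d s x δ' :=
  fun _ ht => ⟨ht.1.trans_le h, ht.2.trans_le h⟩

theorem d2_contAt (hB : Br d.toSf) (hs : Nm d.X (ball d.b r) s id) (x : PP d.z)
    (ht : t ∈ ball d.b r) : ContinuousAt (fun t => d2 (s t) x.z) t :=
  d2_lim (Crv.an hs.1 isOpen_ball ht).continuousAt tendsto_const_nhds (hs.1.2 t ht) (z_ne hB x)

theorem ob_open (hB : Br d.toSf) (hs : Nm d.X (ball d.b r) s id) (hr : δ ≤ r) :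
    IsOpen (Ob d s x δ) := isOpen_iff_mem_nhds.2 fun t ht => by
  have h1 : ∀ᶠ w in 𝓝 t, ‖w - d.b‖ < δ :=
    (by fun_prop : ContinuousAt (fun w => ‖w - d.b‖) t).eventually (gt_mem_nhds ht.1)
  exact h1.and ((d2_contAt hB hs x (ob_ball hr ht)).eventually (gt_mem_nhds ht.2))

/-- Homotopies whose zeros stay in the middle. -/
theorem core (hZ : ZcStmt) (hB : Br d.toSf) (hs : Nm d.X (ball d.b r) s id) (δ0 : 0 < δ)
    (hr : δ ≤ r) (H : ℝ × ℂ → ℂ) (h1 : ContinuousOn H (Icc 0 1 ×ˢ Ob d s x δ))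
    (h2 : ∀ θ ∈ Icc (0 : ℝ) 1, DifferentiableOn ℂ (fun t => H (θ, t)) (Ob d s x δ))
    (h3 : ∀ θ ∈ Icc (0 : ℝ) 1, ∀ t ∈ Ob d s x δ, H (θ, t) = 0 → t ∈ Ob d s x (δ / 2)) :
    (∀ θ ∈ Icc (0 : ℝ) 1, {t ∈ Ob d s x δ | H (θ, t) = 0}.Finite) ∧
      zc (fun t => H (0, t)) (Ob d s x δ) = zc (fun t => H (1, t)) (Ob d s x δ) := by
  have hb : closedBall d.b (δ / 2) ⊆ ball d.b r := closedBall_subset_ball (by linarith)
  have hc : ContinuousOn (fun t => d2 (s t) x.z) (closedBall d.b (δ / 2)) :=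
    fun t ht => (d2_contAt hB hs x (hb ht)).continuousWithinAt
  refine hZ.1 _ (closedBall d.b (δ / 2) ∩ (fun t => d2 (s t) x.z) ⁻¹' Iic (δ / 2)) H
    (ob_open hB hs hr) ((isCompact_closedBall _ _).of_isClosed_subset
      (hc.preimage_isClosed_of_isClosed isClosed_closedBall isClosed_Iic) inter_subset_left)
    (fun t ht => ⟨?_, ?_⟩) h1 fun θ hθ => ⟨h2 θ hθ, fun t ht h => ?_⟩
  · have := mem_closedBall_iff_norm.1 ht.1
    linarith
  · have : d2 (s t) x.z ≤ δ / 2 := ht.2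
    linarith
  · exact ⟨mem_closedBall_iff_norm.2 (h3 θ hθ t ht h).1.le, (h3 θ hθ t ht h).2.le⟩

theorem zc_congr (hZ : ZcStmt) {O : Set ℂ} (hO : IsOpen O) {φ φ' : ℂ → ℂ}
    (h : ∀ t ∈ O, φ t = φ' t) : zc φ O = zc φ' O :=
  hZ.2.2 O O φ φ' (fun t => and_congr_right fun ht => by rw [h t ht])
    fun _ ht _ => mem_of_superset (hO.mem_nhds ht) h

/-- Away from the centre the sections are far from `x`. -/
theorem far (hB : Br d.toSf) {u : Ultrafilter ℕ} {s : ℕ → ℂ → V (N + 1)} (r0 : 0 < r)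
    (hg : Nm d.X (ball d.b r) g id) (hs : Cg d u r s g) (hx : ¬Pp (g d.b) x.z) :
    ∃ δ : ℝ, 0 < δ ∧ δ ≤ r ∧ ∀ ρ : ℝ, 0 < ρ → ∀ᶠ k in u, ∀ t ∈ Ob d (s k) x δ, ‖t - d.b‖ < ρ := by
  have hb : d.b ∈ ball d.b r := mem_ball_self r0
  have a0 := d2_pos (hg.1.2 _ hb) (z_ne hB x) hx
  set a := d2 (g d.b) x.z with ha
  have h1 : ∀ᶠ t in 𝓝 d.b, a / 2 < d2 (g t) x.z :=
    (d2_contAt hB hg x hb).eventually (lt_mem_nhds (by linarith))
  obtain ⟨e, e0, he⟩ := Metric.eventually_nhds_iff_ball.1 (h1.and (isOpen_ball.mem_nhds hb))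
  refine ⟨min (min (e / 2) r) (a / 8), by positivity, (min_le_left _ _).trans (min_le_right _ _),
    fun ρ ρ0 => ?_⟩
  have hsub : closedBall d.b (e / 2) ⊆ ball d.b e := closedBall_subset_ball (by linarith)
  have hK : IsCompact (closedBall d.b (e / 2) \ ball d.b ρ) :=
    (isCompact_closedBall _ _).diff isOpen_ball
  filter_upwards [hs.2.unif hK (fun t ht => ⟨(he t (hsub ht.1)).2, fun h => ht.2 (by
    rw [mem_singleton_iff.1 h]; exact mem_ball_self ρ0)⟩) (by positivity : 0 < a / 8)] with k hk t ht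
  by_contra hn
  have t1 : t ∈ closedBall d.b (e / 2) := mem_closedBall_iff_norm.2
    (ht.1.le.trans ((min_le_left _ _).trans (min_le_left _ _)))
  have t2 := he t (hsub t1)
  have h2 := hk t ⟨t1, fun h => hn (mem_ball_iff_norm.1 h)⟩
  have h3 := H84.d2_tri (hg.1.2 t t2.2) ((hs.1 k).1.2 t t2.2) (z_ne hB x)
  have h4 : d2 (s k t) x.z < a / 8 := ht.2.trans_le (min_le_right _ _)
  rw [d2_symm] at h2
  linarith [t2.1]

/-- Near `x` and over parameters near the centre the first parameter is small. -/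
theorem small (hB : Br d.toSf) {I : Finset (CC d.z)} (hF : FB d I) {C : CC d.z} (hC : C ∈ I)
    (hx : x.On C) (h1 : ∀ C' ∈ I, x.On C' → C' = C) (hS : Sp d.toSf x C p q)
    (hP : Par d.toSf x p q Γ ε) : ∃ δ : ℝ, 0 < δ ∧ ∀ κ : ℝ, 0 < κ → ∃ ρ : ℝ, 0 < ρ ∧
      ∀ t y, (t, y) ∈ d.X → ‖t - d.b‖ < ρ → d2 y x.z < δ → ‖vl d.z p y‖ < κ := by
  have hX : (d.b, x.z) ∈ d.X := (hF.mem C).1 hC x hx
  obtain ⟨m, hm⟩ := Int.eq_ofNat_of_zero_le ((hF.val x C hX hx).1 hC).le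
  have p0 := hS.eqn.1
  have w0 : p ^ m / d.τ ≠ 0 := div_ne_zero (pow_ne_zero m p0) hF.t0
  have hw : p ^ m / d.τ ∈ x.ctr.O := by
    refine hB.g0.reg x _ w0 fun C' hC' => ?_
    have h := hB.g0.va.mul C' _ _ w0 hF.t0
    rw [div_mul_cancel₀ _ hF.t0, v_pow hB C' p0] at h
    by_cases e : C' = C
    · subst e
      rw [hS.eqn.2.1, hm] at h
      omega
    · rw [hS.eqn.2.2 C' hC' e, (hF.val x C' hX hC').2 fun k => e (h1 C' k hC')] at h
      omega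
  obtain ⟨δ₁, a1, b1⟩ := near_reg hB hP hw one_pos
  obtain ⟨δ₂, a2, b2⟩ := near_reg hB hP hS.gm.1 one_pos
  refine ⟨min δ₁ δ₂, lt_min a1 a2, fun κ κ0 => ?_⟩
  have hb : d.b ∈ ball d.b d.r₀ := mem_ball_self d.r0
  set M := ‖vl d.z (p ^ m / d.τ) x.z‖ + 1 with hM
  have c1 : ContinuousAt (fun t => M * ‖d.ψ t‖) d.b :=
    continuousAt_const.mul (d.an _ hb).1.continuousAt.norm
  have c2 : ∀ᶠ t in 𝓝 d.b, M * ‖d.ψ t‖ < κ ^ m := c1.eventually (gt_mem_nhds (by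
    beta_reduce
    rw [(d.an _ hb).2.2.2 rfl, norm_zero, mul_zero]
    positivity))
  obtain ⟨ρ, ρ0, hρ⟩ := Metric.eventually_nhds_iff_ball.1 (c2.and (isOpen_ball.mem_nhds hb))
  refine ⟨ρ, ρ0, fun t y hy ht hd => ?_⟩
  have yc : y ∈ Cone d.W := (d.gr _ hy).1
  have yo : On d.z y := Cone.on d.gen yc
  obtain ⟨e1, e2⟩ := hρ t (mem_ball_iff_norm.2 ht)
  obtain ⟨r1, r2⟩ := b1 y yc (hd.trans_le (min_le_left _ _))
  obtain ⟨r3, r4⟩ := d.reg _ hy e2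
  have h2 := (vl_mul yo r1 r3).2
  rw [div_mul_cancel₀ _ hF.t0, (vl_pow yo (b2 y yc (hd.trans_le (min_le_right _ _))).1 m).2,
    r4] at h2
  refine lt_of_pow_lt_pow_left₀ m κ0.le ?_
  rw [← norm_pow, h2, norm_mul]
  refine lt_of_le_of_lt (mul_le_mul_of_nonneg_right ?_ (norm_nonneg _)) e1
  linarith [norm_sub_norm_le (vl d.z (p ^ m / d.τ) y) (vl d.z (p ^ m / d.τ) x.z)]

end Fib

end Lc

end Pool.Agent.MP_c69980_ag.I2
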